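import Mathlib

/-!
# Integral identities for smooth functions with compact support in the plane
-/

set_option autoImplicit false

open Set Filter Topology MeasureTheory
open scoped ContDiff ComplexConjugate

noncomputable section

namespace Pool.Agent.H15.UC

variable {E : Type*} [NormedAddCommGroup E] [NormedSpace ℝ E]

/-- directional derivative -/
def D (v : ℂ) (h : ℂ → E) (z : ℂ) : E := fderiv ℝ h z v

theorem smooth_D {h : ℂ → E} (hh : ContDiff ℝ ∞ h) (v : ℂ) : ContDiff ℝ ∞ (D v h) := by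
  have h1 : ContDiff ℝ ∞ (fderiv ℝ h) := hh.fderiv_right (m := ∞) le_rfl
  exact h1.clm_apply contDiff_const

theorem supp_D {h : ℂ → E} (hh : HasCompactSupport h) (v : ℂ) : HasCompactSupport (D v h) :=
  hh.fderiv_apply (𝕜 := ℝ) v

theorem tsupp_D (h : ℂ → E) (v : ℂ) : tsupport (D v h) ⊆ tsupport h :=
  tsupport_fderiv_apply_subset ℝ v

theorem diff {h : ℂ → E} (hh : ContDiff ℝ ∞ h) : Differentiable ℝ h :=
  hh.differentiable (by norm_num)

theorem D_comm {h : ℂ → E} (hh : ContDiff ℝ ∞ h) (v w : ℂ) : D v (D w h) = D w (D v h) := by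
  funext z
  have h1 : ContDiff ℝ ∞ (fderiv ℝ h) := hh.fderiv_right (m := ∞) le_rfl
  have h2 : Differentiable ℝ (fderiv ℝ h) := h1.differentiable (by norm_num)
  have e : ∀ a b : ℂ, D a (D b h) z = fderiv ℝ (fderiv ℝ h) z a b := by
    intro a b
    unfold D
    rw [show (fun z => fderiv ℝ h z b) = fun z => (fderiv ℝ h z) b from rfl]
    rw [fderiv_clm_apply (h2 z) (differentiableAt_const b)]
    simp
  rw [e, e]
  have h3 : IsSymmSndFDerivAt ℝ h z := (hh.contDiffAt).isSymmSndFDerivAt (by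
    rw [minSmoothness_of_isRCLikeNormedField]; exact WithTop.coe_le_coe.mpr le_top)
  exact h3.eq v w

theorem D_add {f g : ℂ → E} (hf : ContDiff ℝ ∞ f) (hg : ContDiff ℝ ∞ g) (v : ℂ) :
    D v (fun z => f z + g z) = fun z => D v f z + D v g z := by
  funext z
  unfold D
  rw [fderiv_fun_add (diff hf z) (diff hg z)]
  rfl

theorem D_sub {f g : ℂ → E} (hf : ContDiff ℝ ∞ f) (hg : ContDiff ℝ ∞ g) (v : ℂ) :
    D v (fun z => f z - g z) = fun z => D v f z - D v g z := by
  funext z
  unfold D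
  rw [fderiv_fun_sub (diff hf z) (diff hg z)]
  rfl

theorem D_mul {f g : ℂ → ℂ} (hf : ContDiff ℝ ∞ f) (hg : ContDiff ℝ ∞ g) (v : ℂ) :
    D v (fun z => f z * g z) = fun z => f z * D v g z + D v f z * g z := by
  funext z
  unfold D
  rw [fderiv_fun_mul (diff hf z) (diff hg z)]
  simp [mul_comm]

theorem D_mul' {f g : ℂ → ℝ} (hf : ContDiff ℝ ∞ f) (hg : ContDiff ℝ ∞ g) (v : ℂ) :
    D v (fun z => f z * g z) = fun z => f z * D v g z + D v f z * g z := by
  funext z
  unfold D
  rw [fderiv_fun_mul (diff hf z) (diff hg z)]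
  simp [mul_comm]

theorem D_const_mul {f : ℂ → ℂ} (hf : ContDiff ℝ ∞ f) (c : ℂ) (v : ℂ) :
    D v (fun z => c * f z) = fun z => c * D v f z := by
  funext z
  unfold D
  rw [fderiv_const_mul (diff hf z)]
  simp

theorem D_conj {h : ℂ → ℂ} (hh : ContDiff ℝ ∞ h) (v : ℂ) :
    D v (fun z => conj (h z)) = fun z => conj (D v h z) := by
  funext z
  unfold D
  have h1 : HasFDerivAt (fun z => conj (h z))
      ((Complex.conjCLE : ℂ →L[ℝ] ℂ).comp (fderiv ℝ h z)) z :=
    (Complex.conjCLE : ℂ →L[ℝ] ℂ).hasFDerivAt.comp z (diff hh z).hasFDerivAt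
  rw [h1.fderiv]
  rfl

theorem D_ofReal {h : ℂ → ℝ} (hh : ContDiff ℝ ∞ h) (v : ℂ) :
    D v (fun z => ((h z : ℝ) : ℂ)) = fun z => ((D v h z : ℝ) : ℂ) := by
  funext z
  unfold D
  have h1 : HasFDerivAt (fun z => ((h z : ℝ) : ℂ))
      (Complex.ofRealCLM.comp (fderiv ℝ h z)) z :=
    Complex.ofRealCLM.hasFDerivAt.comp z (diff hh z).hasFDerivAt
  rw [h1.fderiv]
  rfl

theorem smooth_conj {h : ℂ → ℂ} (hh : ContDiff ℝ ∞ h) : ContDiff ℝ ∞ (fun z => conj (h z)) :=
  (Complex.conjCLE : ℂ →L[ℝ] ℂ).contDiff.comp hh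

theorem smooth_ofReal {h : ℂ → ℝ} (hh : ContDiff ℝ ∞ h) :
    ContDiff ℝ ∞ (fun z => ((h z : ℝ) : ℂ)) :=
  Complex.ofRealCLM.contDiff.comp hh

omit [NormedSpace ℝ E] in
theorem integ {f : ℂ → E} (hf : Continuous f) (hc : HasCompactSupport f) : Integrable f :=
  hf.integrable_of_hasCompactSupport hc

/-- integration by parts -/
theorem ibp {f g : ℂ → ℂ} (hf : ContDiff ℝ ∞ f) (hg : ContDiff ℝ ∞ g)
    (hc : HasCompactSupport f) (v : ℂ) :
    ∫ z, f z * D v g z = -∫ z, D v f z * g z := by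
  refine integral_mul_fderiv_eq_neg_fderiv_mul_of_integrable ?_ ?_ ?_ ?_ ?_
  · exact integ ((smooth_D hf v).continuous.mul hg.continuous) (supp_D hc v).mul_right
  · exact integ (hf.continuous.mul (smooth_D hg v).continuous) hc.mul_right
  · exact integ (hf.continuous.mul hg.continuous) hc.mul_right
  · exact fun z _ => diff hf z
  · exact fun z _ => diff hg z

theorem normSq_add_I (a b : ℂ) : ‖a + Complex.I * b‖ ^ 2 =
    ‖a‖ ^ 2 + ‖b‖ ^ 2 + 2 * (a * conj b).im := by
  rw [← Complex.normSq_eq_norm_sq, ← Complex.normSq_eq_norm_sq, ← Complex.normSq_eq_norm_sq,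
    Complex.normSq_apply, Complex.normSq_apply, Complex.normSq_apply]
  simp
  ring

/-- The `L²` identity for `∂̄`. -/
theorem dbar {h : ℂ → ℂ} (hh : ContDiff ℝ ∞ h) (hc : HasCompactSupport h) :
    ∫ z, ‖D 1 h z + Complex.I * D Complex.I h z‖ ^ 2 =
      (∫ z, ‖D 1 h z‖ ^ 2) + ∫ z, ‖D Complex.I h z‖ ^ 2 := by
  have s1 := smooth_D hh 1
  have s2 := smooth_D hh Complex.I
  have c1 := supp_D hc 1
  have c2 := supp_D hc Complex.I
  have i1 : Integrable (fun z => ‖D 1 h z‖ ^ 2) :=
    integ (s1.continuous.norm.pow 2) (by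
      have := c1.norm
      exact (HasCompactSupport.comp_left (g := fun x : ℝ => x ^ 2) this (by simp)))
  have i2 : Integrable (fun z => ‖D Complex.I h z‖ ^ 2) :=
    integ (s2.continuous.norm.pow 2) (by
      have := c2.norm
      exact (HasCompactSupport.comp_left (g := fun x : ℝ => x ^ 2) this (by simp)))
  have i3 : Integrable (fun z => D 1 h z * conj (D Complex.I h z)) :=
    integ (s1.continuous.mul (smooth_conj s2).continuous) c1.mul_right
  -- the cross term
  have key : (∫ z, D 1 h z * conj (D Complex.I h z)).im = 0 := by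
    have e1 : ∫ z, D 1 h z * conj (D Complex.I h z) =
        -∫ z, D Complex.I (D 1 h) z * conj (h z) := by
      have := ibp s1 (smooth_conj hh) c1 Complex.I
      rw [D_conj hh] at this
      exact this
    have e2 : ∫ z, D Complex.I h z * conj (D 1 h z) =
        -∫ z, D 1 (D Complex.I h) z * conj (h z) := by
      have := ibp s2 (smooth_conj hh) c2 1
      rw [D_conj hh] at this
      exact this
    rw [D_comm hh, ← e1] at e2
    have e3 : conj (∫ z, D 1 h z * conj (D Complex.I h z)) =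
        ∫ z, D 1 h z * conj (D Complex.I h z) := by
      rw [← integral_conj, ← e2]
      congr 1
      funext z
      simp [mul_comm]
    exact Complex.conj_eq_iff_im.mp e3
  have key2 : ∫ z, 2 * (D 1 h z * conj (D Complex.I h z)).im = 0 := by
    rw [integral_const_mul]
    have := integral_im i3 (𝕜 := ℂ)
    simp only [RCLike.im_to_complex] at this
    rw [this, key, mul_zero]
  have i4 : Integrable (fun z => 2 * (D 1 h z * conj (D Complex.I h z)).im) :=
    (Complex.imCLM.integrable_comp i3).const_mul 2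
  calc ∫ z, ‖D 1 h z + Complex.I * D Complex.I h z‖ ^ 2
      = ∫ z, (‖D 1 h z‖ ^ 2 + ‖D Complex.I h z‖ ^ 2 +
          2 * (D 1 h z * conj (D Complex.I h z)).im) := by
        congr 1
        funext z
        exact normSq_add_I _ _
    _ = _ := by
        have i12 : Integrable (fun z => ‖D 1 h z‖ ^ 2 + ‖D Complex.I h z‖ ^ 2) := i1.add i2
        rw [integral_add i12 i4, key2, add_zero, integral_add i1 i2]

/-- Poincaré's inequality. -/
theorem poincare {h : ℂ → ℂ} (hh : ContDiff ℝ ∞ h) (hc : HasCompactSupport h) {R : ℝ}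
    (hs : ∀ z, R < ‖z‖ → h z = 0) :
    ∫ z, ‖h z‖ ^ 2 ≤ 4 * R ^ 2 * ∫ z, ‖D 1 h z‖ ^ 2 := by
  have s1 := smooth_D hh 1
  have c1 := supp_D hc 1
  have i1 : Integrable (fun z => ‖D 1 h z‖ ^ 2) :=
    integ (s1.continuous.norm.pow 2) (by
      have := c1.norm
      exact (HasCompactSupport.comp_left (g := fun x : ℝ => x ^ 2) this (by simp)))
  have i0 : Integrable (fun z => ‖h z‖ ^ 2) :=
    integ (hh.continuous.norm.pow 2) (by
      have := hc.norm
      exact (HasCompactSupport.comp_left (g := fun x : ℝ => x ^ 2) this (by simp)))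
  have sre0 : ContDiff ℝ ∞ (fun z : ℂ => z.re) := Complex.reCLM.contDiff
  have sre : ContDiff ℝ ∞ (fun z : ℂ => ((z.re : ℝ) : ℂ)) := smooth_ofReal sre0
  have dre : D 1 (fun z : ℂ => ((z.re : ℝ) : ℂ)) = fun _ => 1 := by
    rw [D_ofReal sre0]
    funext z
    have : D 1 (fun z : ℂ => z.re) z = 1 := by
      unfold D
      have h1 : HasFDerivAt (fun z : ℂ => z.re) Complex.reCLM z := Complex.reCLM.hasFDerivAt
      rw [h1.fderiv]; simp
    rw [this]; simp
  have sf : ContDiff ℝ ∞ (fun z => h z * conj (h z)) := hh.mul (smooth_conj hh)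
  have cf : HasCompactSupport (fun z => h z * conj (h z)) := hc.mul_right
  have e := ibp sf sre cf 1
  rw [dre, D_mul hh (smooth_conj hh), D_conj hh] at e
  have e1 : ∫ z, ‖h z‖ ^ 2 = -∫ z, 2 * (h z * conj (D 1 h z)).re * z.re := by
    have h1 : ((∫ z, ‖h z‖ ^ 2 : ℝ) : ℂ) = ∫ z, h z * conj (h z) * 1 := by
      rw [← integral_complex_ofReal]
      congr 1
      funext z
      rw [mul_one, Complex.mul_conj, Complex.normSq_eq_norm_sq]
    have h2 : ((∫ z, 2 * (h z * conj (D 1 h z)).re * z.re : ℝ) : ℂ) =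
        ∫ z, (h z * conj (D 1 h z) + D 1 h z * conj (h z)) * ((z.re : ℝ) : ℂ) := by
      rw [← integral_complex_ofReal]
      congr 1
      funext z
      have h3 : D 1 h z * conj (h z) = conj (h z * conj (D 1 h z)) := by simp [mul_comm]
      rw [h3, Complex.add_conj]
      push_cast
      ring
    have h4 : ((∫ z, ‖h z‖ ^ 2 : ℝ) : ℂ) =
        ((-∫ z, 2 * (h z * conj (D 1 h z)).re * z.re : ℝ) : ℂ) := by
      rw [h1, e, Complex.ofReal_neg, h2]
    exact_mod_cast h4
  have i2 : Integrable (fun z => 2 * (h z * conj (D 1 h z)).re * z.re) := by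
    refine integ ?_ ?_
    · exact ((continuous_const.mul (Complex.continuous_re.comp
        (hh.continuous.mul (smooth_conj s1).continuous)))).mul Complex.continuous_re
    · refine HasCompactSupport.mul_right ?_
      refine HasCompactSupport.mul_left (f := fun _ => (2 : ℝ)) ?_
      exact HasCompactSupport.comp_left (g := Complex.re) hc.mul_right (by simp)
  have e2 : ∀ z, -(2 * (h z * conj (D 1 h z)).re * z.re) ≤
      1 / 2 * ‖h z‖ ^ 2 + 2 * R ^ 2 * ‖D 1 h z‖ ^ 2 := by
    intro z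
    rcases le_or_gt ‖z‖ R with h1 | h1
    · have h2 : |(h z * conj (D 1 h z)).re| ≤ ‖h z‖ * ‖D 1 h z‖ := by
        refine (Complex.abs_re_le_norm _).trans ?_
        rw [norm_mul, Complex.norm_conj]
      have h3 : |z.re| ≤ R := (Complex.abs_re_le_norm z).trans h1
      have h4 : -(2 * (h z * conj (D 1 h z)).re * z.re) ≤ 2 * (‖h z‖ * ‖D 1 h z‖ * R) := by
        have h5 : |(h z * conj (D 1 h z)).re * z.re| ≤ ‖h z‖ * ‖D 1 h z‖ * R := by
          rw [abs_mul]
          exact mul_le_mul h2 h3 (abs_nonneg _) (by positivity)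
        have h6 := (abs_le.mp h5).1
        nlinarith
      refine h4.trans ?_
      nlinarith [sq_nonneg (‖h z‖ - 2 * R * ‖D 1 h z‖)]
    · have h2 := hs z h1
      rw [h2]
      simp
      positivity
  have e3 : ∫ z, ‖h z‖ ^ 2 ≤ 1 / 2 * (∫ z, ‖h z‖ ^ 2) + 2 * R ^ 2 * ∫ z, ‖D 1 h z‖ ^ 2 := by
    calc ∫ z, ‖h z‖ ^ 2 = ∫ z, -(2 * (h z * conj (D 1 h z)).re * z.re) := by
          rw [integral_neg]; exact e1
      _ ≤ ∫ z, (1 / 2 * ‖h z‖ ^ 2 + 2 * R ^ 2 * ‖D 1 h z‖ ^ 2) :=
          integral_mono i2.neg ((i0.const_mul _).add (i1.const_mul _)) e2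
      _ = _ := by
          rw [integral_add (i0.const_mul _) (i1.const_mul _), integral_const_mul,
            integral_const_mul]
  linarith

end Pool.Agent.H15.UC
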