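import Pool.Agent.H15.UC.Calc

/-!
# A Carleman inequality with the weights `|z|^(-N)`
-/

set_option autoImplicit false

open Set Filter Topology MeasureTheory
open scoped ContDiff ComplexConjugate

noncomputable section

namespace Pool.Agent.H15.UC

/-- division by `z ^ N` -/
def dv (N : ℕ) (Q : ℂ → ℂ) (z : ℂ) : ℂ := (z ^ N)⁻¹ * Q z

theorem eq_zero_near {Q : ℂ → ℂ} {r : ℝ} (hz : ∀ z, ‖z‖ < r → Q z = 0) {z : ℂ} (h : ‖z‖ < r) :
    Q =ᶠ[𝓝 z] fun _ => 0 := by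
  have h1 : ∀ᶠ w in 𝓝 z, ‖w‖ < r := (continuous_norm.tendsto z).eventually_lt_const h
  exact h1.mono hz

theorem D_zero_near {Q : ℂ → ℂ} {r : ℝ} (hz : ∀ z, ‖z‖ < r → Q z = 0) {z : ℂ} (h : ‖z‖ < r)
    (v : ℂ) : D v Q z = 0 := by
  unfold D
  rw [(eq_zero_near hz h).fderiv_eq]
  simp

theorem smooth_dv {N : ℕ} {Q : ℂ → ℂ} (hQ : ContDiff ℝ ∞ Q) {r : ℝ} (hr : 0 < r)
    (hz : ∀ z, ‖z‖ < r → Q z = 0) : ContDiff ℝ ∞ (dv N Q) := by
  rw [contDiff_iff_contDiffAt]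
  intro z
  rcases lt_or_ge ‖z‖ r with h | h
  · have h1 : dv N Q =ᶠ[𝓝 z] fun _ => 0 := by
      refine (eq_zero_near hz h).mono fun w hw => ?_
      unfold dv
      rw [hw, mul_zero]
    exact contDiffAt_const.congr_of_eventuallyEq h1
  · have hz0 : z ≠ 0 := by
      rintro rfl
      rw [norm_zero] at h
      linarith
    have h1 : ContDiffAt ℝ ∞ (fun w : ℂ => (w ^ N)⁻¹) z := by
      refine ContDiffAt.inv ?_ (pow_ne_zero _ hz0)
      exact (contDiff_id.pow N).contDiffAt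
    exact h1.mul hQ.contDiffAt

theorem supp_dv {N : ℕ} {Q : ℂ → ℂ} (hc : HasCompactSupport Q) : HasCompactSupport (dv N Q) :=
  hc.mul_left

theorem D_dv {N : ℕ} {Q : ℂ → ℂ} (hQ : ContDiff ℝ ∞ Q) {r : ℝ} (hr : 0 < r)
    (hz : ∀ z, ‖z‖ < r → Q z = 0) (z v : ℂ) :
    D v (dv N Q) z = (z ^ N)⁻¹ * D v Q z + Q z * (-(N : ℂ) * z ^ (N - 1) / (z ^ N) ^ 2) * v := by
  rcases lt_or_ge ‖z‖ r with h | h
  · have h1 : ∀ w, ‖w‖ < r → dv N Q w = 0 := fun w hw => by unfold dv; rw [hz w hw, mul_zero]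
    rw [D_zero_near h1 h, D_zero_near hz h, hz z h]
    ring
  · have hz0 : z ≠ 0 := by
      rintro rfl
      rw [norm_zero] at h
      linarith
    have h1 : HasDerivAt (fun w : ℂ => (w ^ N)⁻¹) (-((N : ℂ) * z ^ (N - 1)) / (z ^ N) ^ 2) z :=
      (hasDerivAt_pow N z).inv (pow_ne_zero _ hz0)
    have h2 : HasFDerivAt (fun w : ℂ => (w ^ N)⁻¹)
        ((ContinuousLinearMap.toSpanSingleton ℂ
          (-((N : ℂ) * z ^ (N - 1)) / (z ^ N) ^ 2)).restrictScalars ℝ) z :=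
      h1.hasFDerivAt.restrictScalars ℝ
    have h3 := h2.mul (diff hQ z).hasFDerivAt
    have h4 : HasFDerivAt (dv N Q) _ z := h3
    unfold D
    rw [h4.fderiv]
    simp
    ring

/-- One step: `‖z^(-N) Q‖² ≤ 4 R² ‖z^(-N) (∂₁ Q + i ∂₂ Q)‖²`. -/
theorem step {N : ℕ} {Q : ℂ → ℂ} (hQ : ContDiff ℝ ∞ Q) (hc : HasCompactSupport Q) {r R : ℝ}
    (hr : 0 < r) (hz : ∀ z, ‖z‖ < r → Q z = 0) (hs : ∀ z, R < ‖z‖ → Q z = 0) :
    ∫ z, ‖dv N Q z‖ ^ 2 ≤
      4 * R ^ 2 * ∫ z, ‖dv N (fun z => D 1 Q z + Complex.I * D Complex.I Q z) z‖ ^ 2 := by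
  have s := smooth_dv (N := N) hQ hr hz
  have c := supp_dv (N := N) hc
  have h1 := poincare s c (R := R) fun z h => by unfold dv; rw [hs z h, mul_zero]
  have h2 := dbar s c
  have h3 : 0 ≤ ∫ z, ‖D Complex.I (dv N Q) z‖ ^ 2 := integral_nonneg fun z => by positivity
  have e : (fun z => ‖dv N (fun z => D 1 Q z + Complex.I * D Complex.I Q z) z‖ ^ 2) =
      fun z => ‖D 1 (dv N Q) z + Complex.I * D Complex.I (dv N Q) z‖ ^ 2 := by
    funext z
    rw [D_dv hQ hr hz, D_dv hQ hr hz]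
    congr 2
    unfold dv
    have : Complex.I * Complex.I = -1 := Complex.I_mul_I
    linear_combination (-(Q z * (-(N : ℂ) * z ^ (N - 1) / (z ^ N) ^ 2))) * this
  rw [e, h2]
  refine h1.trans ?_
  have : 0 ≤ 4 * R ^ 2 := by positivity
  nlinarith

/-- the Laplacian -/
def Lap (P : ℂ → ℝ) (z : ℂ) : ℝ := D 1 (D 1 P) z + D Complex.I (D Complex.I P) z

/-- `2 ∂_z P` -/
def dz (P : ℂ → ℝ) (z : ℂ) : ℂ :=
  ((D 1 P z : ℝ) : ℂ) - Complex.I * ((D Complex.I P z : ℝ) : ℂ)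

theorem smooth_dz {P : ℂ → ℝ} (hP : ContDiff ℝ ∞ P) : ContDiff ℝ ∞ (dz P) :=
  (smooth_ofReal (smooth_D hP 1)).sub (contDiff_const.mul (smooth_ofReal (smooth_D hP Complex.I)))

theorem D_dz {P : ℂ → ℝ} (hP : ContDiff ℝ ∞ P) (v z : ℂ) :
    D v (dz P) z = ((D v (D 1 P) z : ℝ) : ℂ) - Complex.I * ((D v (D Complex.I P) z : ℝ) : ℂ) := by
  have h1 : dz P = fun z => (fun z => ((D 1 P z : ℝ) : ℂ)) z -
      (fun z => Complex.I * ((D Complex.I P z : ℝ) : ℂ)) z := rfl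
  rw [h1, D_sub (smooth_ofReal (smooth_D hP 1))
    (contDiff_const.mul (smooth_ofReal (smooth_D hP Complex.I))),
    D_ofReal (smooth_D hP 1), D_const_mul (smooth_ofReal (smooth_D hP Complex.I)),
    D_ofReal (smooth_D hP Complex.I)]

theorem dz_lap {P : ℂ → ℝ} (hP : ContDiff ℝ ∞ P) (z : ℂ) :
    D 1 (dz P) z + Complex.I * D Complex.I (dz P) z = ((Lap P z : ℝ) : ℂ) := by
  rw [D_dz hP, D_dz hP, D_comm hP Complex.I 1]
  unfold Lap
  push_cast
  linear_combination (-((D Complex.I (D Complex.I P) z : ℝ) : ℂ)) * Complex.I_mul_I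

theorem supp_dz {P : ℂ → ℝ} (hc : HasCompactSupport P) : HasCompactSupport (dz P) := by
  have h1 : HasCompactSupport (fun z => ((D 1 P z : ℝ) : ℂ)) :=
    HasCompactSupport.comp_left (g := fun x : ℝ => (x : ℂ)) (supp_D hc 1) (by simp)
  have h2 : HasCompactSupport (fun z => Complex.I * ((D Complex.I P z : ℝ) : ℂ)) :=
    (HasCompactSupport.comp_left (g := fun x : ℝ => (x : ℂ)) (supp_D hc Complex.I)
      (by simp)).mul_left
  exact h1.sub h2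

theorem D_zero_real {P : ℂ → ℝ} {U : Set ℂ} (hU : IsOpen U) (hz : ∀ z ∈ U, P z = 0) {z : ℂ}
    (h : z ∈ U) (v : ℂ) : D v P z = 0 := by
  unfold D
  have h1 : P =ᶠ[𝓝 z] fun _ => 0 := (hU.mem_nhds h |> fun h => h : U ∈ 𝓝 z) |>
    fun h => Filter.eventually_of_mem h hz
  rw [h1.fderiv_eq]
  simp

/-- **Carleman's inequality.** -/
theorem carleman {N : ℕ} {P : ℂ → ℝ} (hP : ContDiff ℝ ∞ P) (hc : HasCompactSupport P) {r R : ℝ}
    (hr : 0 < r) (hz : ∀ z, ‖z‖ < r → P z = 0) (hs : ∀ z, R < ‖z‖ → P z = 0) :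
    ∫ z, ((‖z‖ ^ N)⁻¹) ^ 2 * P z ^ 2 ≤
      16 * R ^ 4 * ∫ z, ((‖z‖ ^ N)⁻¹) ^ 2 * Lap P z ^ 2 := by
  have o1 : IsOpen {z : ℂ | ‖z‖ < r} := isOpen_lt continuous_norm continuous_const
  have o2 : IsOpen {z : ℂ | R < ‖z‖} := isOpen_lt continuous_const continuous_norm
  have hcC : HasCompactSupport (fun z => ((P z : ℝ) : ℂ)) :=
    HasCompactSupport.comp_left (g := fun x : ℝ => (x : ℂ)) hc (by simp)
  have h1 := step (N := N) (smooth_ofReal hP) hcC hr (fun z h => by rw [hz z h]; simp)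
    (fun z h => by rw [hs z h]; simp)
  have h2 := step (N := N) (smooth_dz hP) (supp_dz hc) hr (R := R)
    (fun z h => by
      unfold dz
      rw [D_zero_real o1 hz h, D_zero_real o1 hz h]; simp)
    (fun z h => by
      unfold dz
      rw [D_zero_real o2 hs h, D_zero_real o2 hs h]; simp)
  have e1 : ∀ (Q : ℂ → ℂ) z, ‖dv N Q z‖ ^ 2 = ((‖z‖ ^ N)⁻¹) ^ 2 * ‖Q z‖ ^ 2 := by
    intro Q z
    unfold dv
    rw [norm_mul, norm_inv, norm_pow]; ring
  have e2 : ∀ z, ‖D 1 (fun z => ((P z : ℝ) : ℂ)) z +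
      Complex.I * D Complex.I (fun z => ((P z : ℝ) : ℂ)) z‖ ^ 2 = ‖dz P z‖ ^ 2 := by
    intro z
    rw [D_ofReal hP, D_ofReal hP]
    unfold dz
    rw [← Complex.normSq_eq_norm_sq, ← Complex.normSq_eq_norm_sq, Complex.normSq_apply,
      Complex.normSq_apply]
    simp
  simp only [e1] at h1 h2
  simp only [e2] at h1
  have e3 : ∀ z, ‖D 1 (dz P) z + Complex.I * D Complex.I (dz P) z‖ ^ 2 = Lap P z ^ 2 := by
    intro z
    rw [dz_lap hP, Complex.norm_real, Real.norm_eq_abs, sq_abs]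
  simp only [e3] at h2
  have e4 : ∀ z, ‖((P z : ℝ) : ℂ)‖ ^ 2 = P z ^ 2 := by
    intro z
    rw [Complex.norm_real, Real.norm_eq_abs, sq_abs]
  simp only [e4] at h1
  refine h1.trans ?_
  have : 0 ≤ 4 * R ^ 2 := by positivity
  calc _ ≤ 4 * R ^ 2 * (4 * R ^ 2 * ∫ z, ((‖z‖ ^ N)⁻¹) ^ 2 * Lap P z ^ 2) :=
        mul_le_mul_of_nonneg_left h2 this
    _ = _ := by ring

/-- The second derivatives are bounded by the Laplacian in `L²`. -/
theorem second {P : ℂ → ℝ} (hP : ContDiff ℝ ∞ P) (hc : HasCompactSupport P) :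
    ∫ z, D Complex.I (D 1 P) z ^ 2 ≤ ∫ z, Lap P z ^ 2 := by
  have h1 := dbar (smooth_dz hP) (supp_dz hc)
  have e3 : ∀ z, ‖D 1 (dz P) z + Complex.I * D Complex.I (dz P) z‖ ^ 2 = Lap P z ^ 2 := by
    intro z
    rw [dz_lap hP, Complex.norm_real, Real.norm_eq_abs, sq_abs]
  simp only [e3] at h1
  rw [h1]
  have h2 : 0 ≤ ∫ z, ‖D 1 (dz P) z‖ ^ 2 := integral_nonneg fun z => by positivity
  have sI := smooth_D (smooth_dz hP) Complex.I
  have cI := supp_D (supp_dz hc) Complex.I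
  have s := smooth_D (smooth_D hP 1) Complex.I
  have c := supp_D (supp_D hc 1) Complex.I
  have h3 : ∫ z, D Complex.I (D 1 P) z ^ 2 ≤ ∫ z, ‖D Complex.I (dz P) z‖ ^ 2 := by
    refine integral_mono ?_ ?_ fun z => ?_
    · exact integ (s.continuous.pow 2)
        (HasCompactSupport.comp_left (g := fun x : ℝ => x ^ 2) c (by simp))
    · exact integ (sI.continuous.norm.pow 2)
        (HasCompactSupport.comp_left (g := fun x : ℝ => x ^ 2) cI.norm (by simp))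
    · show _ ≤ ‖D Complex.I (dz P) z‖ ^ 2
      rw [D_dz hP, ← Complex.normSq_eq_norm_sq, Complex.normSq_apply]
      simp
      nlinarith [sq_nonneg (D Complex.I (D Complex.I P) z)]
  linarith

end Pool.Agent.H15.UC
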