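import Pool.Agent.H15.UC.Cut

/-!
# Weak solutions are continuous
-/

set_option autoImplicit false

open Set Filter Topology MeasureTheory
open scoped ContDiff ComplexConjugate ENNReal

noncomputable section

namespace Pool.Agent.H15.UC

open Pool.Agent.H23.UC (Weak StCont)

theorem WL.congr {P F P' F' : ℂ → ℝ} (h : WL P F) (hP : P =ᵐ[volume] P')
    (hF : F =ᵐ[volume] F') : WL P' F' := by
  intro η s c
  have h1 : ∫ z, P' z * Lap η z = ∫ z, P z * Lap η z := by
    refine integral_congr_ae ?_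
    filter_upwards [hP] with z hz
    rw [hz]
  have h2 : ∫ z, F' z * η z = ∫ z, F z * η z := by
    refine integral_congr_ae ?_
    filter_upwards [hF] with z hz
    rw [hz]
  rw [h1, h2]
  exact h η s c

section bump
variable {O : Set ℂ} {U w : ℂ → ℝ} {g : ℂ → ℂ} {z0 : ℂ} (χ : ContDiffBump z0)

theorem bump_smooth : ContDiff ℝ ∞ (fun z => χ z) := χ.contDiff

theorem bump_supp : HasCompactSupport (fun z => χ z) := χ.hasCompactSupport

theorem bump_tsupp : tsupport (fun z => χ z) = Metric.closedBall z0 χ.rOut := χ.tsupport_eq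

end bump

/-- Local continuous representatives. -/
theorem local_rep {O : Set ℂ} {U w : ℂ → ℝ} {g : ℂ → ℂ} (hO : IsOpen O) (W : Weak O U g w)
    {z0 : ℂ} (hz : z0 ∈ O) :
    ∃ (r : ℝ) (P : ℂ → ℝ), 0 < r ∧ Metric.ball z0 r ⊆ O ∧ Continuous P ∧
      ∀ᵐ z, z ∈ Metric.ball z0 r → U z = P z := by
  obtain ⟨ε, hε, hb⟩ := Metric.isOpen_iff.mp hO z0 hz
  let χ : ContDiffBump z0 := ⟨ε / 4, ε / 2, by positivity, by linarith⟩
  have hsub : tsupport (fun z => χ z) ⊆ O := by
    rw [bump_tsupp]
    refine (Metric.closedBall_subset_ball ?_).trans hb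
    show ε / 2 < ε
    linarith
  have s := bump_smooth χ
  have c := bump_supp χ
  have mP := mem_P W s c hsub
  have mF := mem_F W s c hsub
  have hw := cut W s c hsub
  set F := FF (fun z => χ z) U w g with hF
  set F' := mF.aestronglyMeasurable.mk F with hF'
  have hFF : F =ᵐ[volume] F' := mF.aestronglyMeasurable.ae_eq_mk
  have mF' : MemLp F' 2 := (memLp_congr_ae hFF).mp mF
  have meas : Measurable F' := mF.aestronglyMeasurable.stronglyMeasurable_mk.measurable
  obtain ⟨P', hc, he⟩ := weak_cont mP mF' meas (hw.congr (ae_eq_refl _) hFF)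
    (R := ‖z0‖ + ε) (by positivity) (fun z hz => by
      have : z ∉ tsupport (fun z => χ z) := by
        rw [bump_tsupp, Metric.mem_closedBall, dist_eq_norm]
        intro h
        have h1 : ‖z - z0‖ ≤ ε / 2 := h
        have h2 : ‖z‖ ≤ ‖z0‖ + ‖z - z0‖ := by
          have e : z = z0 + (z - z0) := by ring
          calc ‖z‖ = ‖z0 + (z - z0)‖ := by rw [← e]
            _ ≤ _ := norm_add_le _ _
        linarith
      rw [zero_of_tsupp this, mul_zero])
  refine ⟨ε / 4, P', by positivity, ?_, hc, ?_⟩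
  · refine (Metric.ball_subset_ball ?_).trans hb
    linarith
  · filter_upwards [he] with z hz hmem
    have h1 : χ z = 1 := χ.one_of_mem_closedBall (Metric.ball_subset_closedBall hmem)
    rw [h1, mul_one] at hz
    exact hz

/-- `UC-CONT` -/
theorem stCont : StCont := by
  intro O U g w hO W
  have hl := fun z : O => local_rep hO W z.2
  choose r P hr hsub hc he using hl
  classical
  -- uniqueness on overlaps
  have uniq : ∀ (a b : O) (z : ℂ), z ∈ Metric.ball a.1 (r a) → z ∈ Metric.ball b.1 (r b) →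
      P a z = P b z := by
    intro a b z ha hb
    have ho : IsOpen (Metric.ball a.1 (r a) ∩ Metric.ball b.1 (r b)) :=
      Metric.isOpen_ball.inter Metric.isOpen_ball
    have h1 : P a =ᵐ[volume.restrict (Metric.ball a.1 (r a) ∩ Metric.ball b.1 (r b))] P b := by
      refine (ae_restrict_iff' ho.measurableSet).mpr ?_
      filter_upwards [he a, he b] with z h1 h2 h3
      rw [← h1 h3.1, ← h2 h3.2]
    exact Measure.eqOn_open_of_ae_eq h1 ho (hc a).continuousOn (hc b).continuousOn ⟨ha, hb⟩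
  let U' : ℂ → ℝ := fun z => if h : z ∈ O then P ⟨z, h⟩ z else 0
  have hU' : ∀ (a : O) (z : ℂ), z ∈ Metric.ball a.1 (r a) → U' z = P a z := by
    intro a z hz
    have hzO := hsub a hz
    show (if h : z ∈ O then P ⟨z, h⟩ z else 0) = P a z
    rw [dif_pos hzO]
    exact uniq ⟨z, hzO⟩ a z (Metric.mem_ball_self (hr _)) hz
  refine ⟨U', ?_, ?_⟩
  · intro z hz
    have h1 : U' =ᶠ[𝓝 z] P ⟨z, hz⟩ :=
      Filter.eventually_of_mem (Metric.ball_mem_nhds z (hr ⟨z, hz⟩)) fun y hy => hU' ⟨z, hz⟩ y hy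
    exact ((hc ⟨z, hz⟩).continuousAt.congr h1.symm).continuousWithinAt
  · rw [ae_restrict_iff' hO.measurableSet]
    have h1 : volume {z | z ∈ O ∧ U z ≠ U' z} = 0 := by
      refine measure_null_of_locally_null _ fun z hz => ?_
      refine ⟨{y | y ∈ Metric.ball z (r ⟨z, hz.1⟩) ∧ U y ≠ U' y}, ?_, ?_⟩
      · rw [mem_nhdsWithin]
        refine ⟨Metric.ball z (r ⟨z, hz.1⟩), Metric.isOpen_ball, Metric.mem_ball_self (hr _), ?_⟩
        rintro y ⟨h1, h2⟩
        exact ⟨h1, h2.2⟩
      · have h2 := he ⟨z, hz.1⟩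
        rw [ae_iff] at h2
        refine measure_mono_null ?_ h2
        rintro y ⟨h3, h4⟩ h5
        exact h4 ((h5 h3).trans (hU' ⟨z, hz.1⟩ y h3).symm)
    rw [ae_iff]
    refine measure_mono_null ?_ h1
    intro z hz
    simp only [Classical.not_imp, Set.mem_ofPred_eq] at hz
    exact hz

end Pool.Agent.H15.UC
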