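import Pool.Agent.H15.UC.Lim
import Pool.Agent.H23.UC.Stm

/-!
# Cutting off a weak solution
-/

set_option autoImplicit false

open Set Filter Topology MeasureTheory
open scoped ContDiff ComplexConjugate ENNReal

noncomputable section

namespace Pool.Agent.H15.UC

open Pool.Agent.H23.UC (Weak)

section K
variable {K : Set ℂ} {f θ : ℂ → ℝ}

theorem mem_K (hK : IsCompact K) (hf : MemLp f 2 (volume.restrict K)) (hθ : Continuous θ)
    (h0 : ∀ z, z ∉ K → θ z = 0) : MemLp (fun z => f z * θ z) 2 := by
  have h1 : MemLp (K.indicator f) 2 volume := (memLp_indicator_iff_restrict hK.measurableSet).mpr hf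
  have hc : HasCompactSupport θ := HasCompactSupport.intro hK h0
  obtain ⟨C, hC⟩ := hθ.bounded_above_of_compact_support hc
  have e : (fun z => f z * θ z) = fun z => K.indicator f z * θ z := by
    funext z
    by_cases hz : z ∈ K
    · rw [indicator_of_mem hz]
    · rw [h0 z hz, mul_zero, mul_zero]
  rw [e]
  refine h1.of_le_mul (c := C) (h1.aestronglyMeasurable.mul hθ.aestronglyMeasurable)
    (Filter.Eventually.of_forall fun z => ?_)
  rw [norm_mul, mul_comm]
  exact mul_le_mul_of_nonneg_right (hC z) (norm_nonneg _)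

theorem int_K (hK : IsCompact K) (hf : MemLp f 2 (volume.restrict K)) (hθ : Continuous θ)
    (h0 : ∀ z, z ∉ K → θ z = 0) : Integrable (fun z => f z * θ z) := by
  have : IsFiniteMeasure (volume.restrict K) := ⟨by
    rw [Measure.restrict_apply_univ]; exact hK.measure_lt_top⟩
  have h1 : IntegrableOn f K := hf.integrable (by norm_num)
  have h2 := h1.mul_continuousOn hθ.continuousOn hK
  refine (integrableOn_iff_integrable_of_support_subset ?_).mp h2
  intro z hz
  by_contra hcon
  apply hz
  show f z * θ z = 0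
  rw [h0 z hcon, mul_zero]

end K

section cut
variable {O : Set ℂ} {U w : ℂ → ℝ} {g : ℂ → ℂ} {χ : ℂ → ℝ}

/-- the gradient in coordinates -/
theorem fderiv_eq {η : ℂ → ℝ} (z a : ℂ) :
    fderiv ℝ η z a = a.re * D 1 η z + a.im * D Complex.I η z := by
  have e : a = a.re • (1 : ℂ) + a.im • Complex.I := by apply Complex.ext <;> simp
  nth_rewrite 1 [e]
  rw [map_add, map_smul, map_smul]
  rfl

/-- the weak Laplacian of `χ U` -/
def FF (χ U w : ℂ → ℝ) (g : ℂ → ℂ) (z : ℂ) : ℝ :=
  w z * (-χ z) + (g z).re * (2 * D 1 χ z) + (g z).im * (2 * D Complex.I χ z) + U z * Lap χ z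

theorem zero_of_tsupp {h : ℂ → ℝ} {z : ℂ} (hz : z ∉ tsupport h) : h z = 0 :=
  image_eq_zero_of_notMem_tsupport hz

theorem D_zero_of_tsupp {h : ℂ → ℝ} {z : ℂ} (hz : z ∉ tsupport h) (v : ℂ) : D v h z = 0 :=
  zero_of_tsupp fun h1 => hz (tsupp_D h v h1)

theorem DD_zero_of_tsupp {h : ℂ → ℝ} {z : ℂ} (hz : z ∉ tsupport h) (v : ℂ) :
    D v (D v h) z = 0 :=
  D_zero_of_tsupp (fun h1 => hz (tsupp_D h v h1)) v

theorem Lap_zero_of_tsupp {h : ℂ → ℝ} {z : ℂ} (hz : z ∉ tsupport h) : Lap h z = 0 := by
  unfold Lap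
  rw [DD_zero_of_tsupp hz, DD_zero_of_tsupp hz, add_zero]

theorem smooth_Lap {h : ℂ → ℝ} (hh : ContDiff ℝ ∞ h) : ContDiff ℝ ∞ (Lap h) :=
  (smooth_D (smooth_D hh 1) 1).add (smooth_D (smooth_D hh Complex.I) Complex.I)

variable (W : Weak O U g w) (hχ : ContDiff ℝ ∞ χ) (hc : HasCompactSupport χ)
  (hO : tsupport χ ⊆ O)
include W hχ hc hO

theorem mem_P : MemLp (fun z => U z * χ z) 2 :=
  mem_K hc (W.mU _ hO hc) hχ.continuous fun _ => zero_of_tsupp

theorem mem_F : MemLp (FF χ U w g) 2 := by
  have m1 := mem_K (θ := fun z => -χ z) hc (W.mw _ hO hc) hχ.continuous.neg (fun z h => by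
    rw [zero_of_tsupp h, neg_zero])
  have m2 := mem_K hc (f := fun z => (g z).re) (θ := fun z => 2 * D 1 χ z) (W.mg _ hO hc).re
    (continuous_const.mul (smooth_D hχ 1).continuous)
    (fun z h => by rw [D_zero_of_tsupp h, mul_zero])
  have m3 := mem_K hc (f := fun z => (g z).im) (θ := fun z => 2 * D Complex.I χ z)
    (W.mg _ hO hc).im (continuous_const.mul (smooth_D hχ Complex.I).continuous)
    (fun z h => by rw [D_zero_of_tsupp h, mul_zero])
  have m4 := mem_K hc (W.mU _ hO hc) (smooth_Lap hχ).continuous fun _ => Lap_zero_of_tsupp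
  exact ((m1.add m2).add m3).add m4

theorem cut : WL (fun z => U z * χ z) (FF χ U w g) := by
  intro η hη _
  have mU := W.mU _ hO hc
  have mw := W.mw _ hO hc
  have m1 : MemLp (fun z => (g z).re) 2 (volume.restrict (tsupport χ)) := (W.mg _ hO hc).re
  have mI : MemLp (fun z => (g z).im) 2 (volume.restrict (tsupport χ)) := (W.mg _ hO hc).im
  -- the weak equations
  have G1 : ∀ θ : ℂ → ℝ, ContDiff ℝ ∞ θ → HasCompactSupport θ → tsupport θ ⊆ O →
      ∫ z, U z * D 1 θ z = -∫ z, (g z).re * θ z := by
    intro θ s c o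
    have := W.grad θ s c o 1
    simp only [Complex.inner, one_mul, Complex.conj_re] at this
    exact this
  have GI : ∀ θ : ℂ → ℝ, ContDiff ℝ ∞ θ → HasCompactSupport θ → tsupport θ ⊆ O →
      ∫ z, U z * D Complex.I θ z = -∫ z, (g z).im * θ z := by
    intro θ s c o
    have := W.grad θ s c o Complex.I
    have e : ∀ z, inner ℝ (g z) Complex.I = (g z).im := by
      intro z
      rw [Complex.inner]; simp
    simp only [e] at this
    exact this
  have L : ∀ θ : ℂ → ℝ, ContDiff ℝ ∞ θ → HasCompactSupport θ → tsupport θ ⊆ O →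
      ∫ z, ((g z).re * D 1 θ z + (g z).im * D Complex.I θ z) = ∫ z, w z * θ z := by
    intro θ s c o
    have := W.lap θ s c o
    simp only [fderiv_eq] at this
    exact this
  -- supports
  have ts : ∀ h : ℂ → ℝ, tsupport (fun z => χ z * h z) ⊆ O := fun h =>
    (tsupport_mul_subset_left (f := χ) (g := h)).trans hO
  have ts' : ∀ (h : ℂ → ℝ) (v : ℂ), tsupport (fun z => h z * D v χ z) ⊆ O := fun h v =>
    ((tsupport_mul_subset_right (f := h) (g := D v χ)).trans (tsupp_D χ v)).trans hO
  -- integrability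
  have iK : ∀ {f h : ℂ → ℝ}, MemLp f 2 (volume.restrict (tsupport χ)) → Continuous h →
      (∀ z, z ∉ tsupport χ → h z = 0) → Integrable (fun z => f z * h z) :=
    fun hf hh h0 => int_K hc hf hh h0
  have z0 : ∀ {z}, z ∉ tsupport χ → χ z = 0 := fun h => zero_of_tsupp h
  -- for each direction
  have dir : ∀ (v : ℂ) (gv : ℂ → ℝ), MemLp gv 2 (volume.restrict (tsupport χ)) →
      (∀ θ : ℂ → ℝ, ContDiff ℝ ∞ θ → HasCompactSupport θ → tsupport θ ⊆ O →
        ∫ z, U z * D v θ z = -∫ z, gv z * θ z) →
      ∫ z, U z * (χ z * D v (D v η) z) =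
        (∫ z, U z * (η z * D v (D v χ) z)) + (∫ z, gv z * (η z * D v χ z)) -
          ∫ z, gv z * (χ z * D v η z) := by
    intro v gv mg hG
    have s1 := smooth_D hη v
    have s2 := smooth_D hχ v
    have e1 := hG (fun z => χ z * D v η z) (hχ.mul s1) hc.mul_right (ts _)
    have e2 := hG (fun z => η z * D v χ z) (hη.mul s2) (supp_D hc v).mul_left (ts' _ _)
    rw [D_mul' hχ s1] at e1
    rw [D_mul' hη s2] at e2
    have i1 : Integrable (fun z => U z * (χ z * D v (D v η) z)) :=
      iK mU (hχ.continuous.mul (smooth_D s1 v).continuous) fun z h => by rw [z0 h, zero_mul]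
    have i2 : Integrable (fun z => U z * (D v χ z * D v η z)) :=
      iK mU (s2.continuous.mul s1.continuous) fun z h => by rw [D_zero_of_tsupp h, zero_mul]
    have i3 : Integrable (fun z => U z * (η z * D v (D v χ) z)) :=
      iK mU (hη.continuous.mul (smooth_D s2 v).continuous) fun z h => by
        rw [DD_zero_of_tsupp h, mul_zero]
    have f1 : ∫ z, U z * (χ z * D v (D v η) z + D v χ z * D v η z) =
        (∫ z, U z * (χ z * D v (D v η) z)) + ∫ z, U z * (D v χ z * D v η z) := by
      rw [← integral_add i1 i2]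
      congr 1
      funext z
      ring
    have f2 : ∫ z, U z * (η z * D v (D v χ) z + D v η z * D v χ z) =
        (∫ z, U z * (η z * D v (D v χ) z)) + ∫ z, U z * (D v χ z * D v η z) := by
      rw [← integral_add i3 i2]
      congr 1
      funext z
      ring
    rw [f1] at e1
    rw [f2] at e2
    linarith
  have d1 := dir 1 (fun z => (g z).re) m1 G1
  have dI := dir Complex.I (fun z => (g z).im) mI GI
  have e3 := L (fun z => χ z * η z) (hχ.mul hη) hc.mul_right (ts _)
  rw [D_mul' hχ hη, D_mul' hχ hη] at e3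
  -- pieces
  have s1 := smooth_D hη 1
  have sI := smooth_D hη Complex.I
  have c1 := smooth_D hχ 1
  have cI := smooth_D hχ Complex.I
  have jA1 : Integrable (fun z => U z * (χ z * D 1 (D 1 η) z)) :=
    iK mU (hχ.continuous.mul (smooth_D s1 1).continuous) fun z h => by rw [z0 h, zero_mul]
  have jAI : Integrable (fun z => U z * (χ z * D Complex.I (D Complex.I η) z)) :=
    iK mU (hχ.continuous.mul (smooth_D sI Complex.I).continuous) fun z h => by
      rw [z0 h, zero_mul]
  have jE1 : Integrable (fun z => U z * (η z * D 1 (D 1 χ) z)) :=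
    iK mU (hη.continuous.mul (smooth_D c1 1).continuous) fun z h => by
      rw [DD_zero_of_tsupp h, mul_zero]
  have jEI : Integrable (fun z => U z * (η z * D Complex.I (D Complex.I χ) z)) :=
    iK mU (hη.continuous.mul (smooth_D cI Complex.I).continuous) fun z h => by
      rw [DD_zero_of_tsupp h, mul_zero]
  have jC1 : Integrable (fun z => (g z).re * (χ z * D 1 η z)) :=
    iK m1 (hχ.continuous.mul s1.continuous) fun z h => by rw [z0 h, zero_mul]
  have jCI : Integrable (fun z => (g z).im * (χ z * D Complex.I η z)) :=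
    iK mI (hχ.continuous.mul sI.continuous) fun z h => by rw [z0 h, zero_mul]
  have jG1 : Integrable (fun z => (g z).re * (η z * D 1 χ z)) :=
    iK m1 (hη.continuous.mul c1.continuous) fun z h => by rw [D_zero_of_tsupp h, mul_zero]
  have jGI : Integrable (fun z => (g z).im * (η z * D Complex.I χ z)) :=
    iK mI (hη.continuous.mul cI.continuous) fun z h => by rw [D_zero_of_tsupp h, mul_zero]
  have jW : Integrable (fun z => w z * (χ z * η z)) :=
    iK mw (hχ.continuous.mul hη.continuous) fun z h => by rw [z0 h, zero_mul]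
  have f3 : ∫ z, ((g z).re * (χ z * D 1 η z + D 1 χ z * η z) +
      (g z).im * (χ z * D Complex.I η z + D Complex.I χ z * η z)) =
      ((∫ z, (g z).re * (χ z * D 1 η z)) + (∫ z, (g z).re * (η z * D 1 χ z))) +
      ((∫ z, (g z).im * (χ z * D Complex.I η z)) +
        ∫ z, (g z).im * (η z * D Complex.I χ z)) := by
    have q1 : Integrable (fun z => (g z).re * (χ z * D 1 η z) + (g z).re * (η z * D 1 χ z)) :=
      jC1.add jG1
    have q2 : Integrable (fun z => (g z).im * (χ z * D Complex.I η z) +
      (g z).im * (η z * D Complex.I χ z)) := jCI.add jGI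
    rw [← integral_add jC1 jG1, ← integral_add jCI jGI, ← integral_add q1 q2]
    congr 1
    funext z
    ring
  rw [f3] at e3
  have lhs : ∫ z, U z * χ z * Lap η z =
      (∫ z, U z * (χ z * D 1 (D 1 η) z)) + ∫ z, U z * (χ z * D Complex.I (D Complex.I η) z) := by
    rw [← integral_add jA1 jAI]
    congr 1
    funext z
    unfold Lap
    ring
  have rhs : ∫ z, FF χ U w g z * η z =
      -(∫ z, w z * (χ z * η z)) + 2 * (∫ z, (g z).re * (η z * D 1 χ z)) +
      2 * (∫ z, (g z).im * (η z * D Complex.I χ z)) +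
      ((∫ z, U z * (η z * D 1 (D 1 χ) z)) +
        ∫ z, U z * (η z * D Complex.I (D Complex.I χ) z)) := by
    have k1 : Integrable (fun z => -(w z * (χ z * η z)) + 2 * ((g z).re * (η z * D 1 χ z))) :=
      jW.neg.add (jG1.const_mul 2)
    have k2 : Integrable (fun z => -(w z * (χ z * η z)) + 2 * ((g z).re * (η z * D 1 χ z)) +
        2 * ((g z).im * (η z * D Complex.I χ z))) := k1.add (jGI.const_mul 2)
    have k3 : Integrable (fun z => U z * (η z * D 1 (D 1 χ) z) +
        U z * (η z * D Complex.I (D Complex.I χ) z)) := jE1.add jEI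
    have k0 : Integrable (fun z => -(w z * (χ z * η z))) := jW.neg
    have k0' : Integrable (fun z => 2 * ((g z).re * (η z * D 1 χ z))) := jG1.const_mul 2
    have k0'' : Integrable (fun z => 2 * ((g z).im * (η z * D Complex.I χ z))) := jGI.const_mul 2
    rw [← integral_neg, ← integral_const_mul, ← integral_const_mul,
      ← integral_add k0 k0', ← integral_add jE1 jEI, ← integral_add k1 k0'',
      ← integral_add k2 k3]
    congr 1
    funext z
    unfold FF Lap
    ring
  rw [lhs, rhs]
  linarith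

end cut

end Pool.Agent.H15.UC
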