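import Pool.Agent.H15.UC.Carl

/-!
# A Hölder estimate by the `L²` norm of the Laplacian
-/

set_option autoImplicit false

open Set Filter Topology MeasureTheory
open scoped ContDiff ComplexConjugate

noncomputable section

namespace Pool.Agent.H15.UC

section line
variable {v w : ℂ} {P : ℂ → ℝ}

theorem hasDerivAt_line (hP : ContDiff ℝ ∞ P) (v c : ℂ) (σ : ℝ) :
    HasDerivAt (fun σ : ℝ => P (σ • v + c)) (D v P (σ • v + c)) σ := by
  have h1 : HasDerivAt (fun σ : ℝ => σ • v + c) v σ := by
    have := ((hasDerivAt_id σ).smul_const v).add_const c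
    simpa using this
  have h2 := (diff hP (σ • v + c)).hasFDerivAt.comp_hasDerivAt σ h1
  exact h2

theorem continuous_line (hP : Continuous P) (v c : ℂ) : Continuous fun σ : ℝ => P (σ • v + c) :=
  hP.comp ((continuous_id.smul continuous_const).add continuous_const)

theorem contDiff_line (hP : ContDiff ℝ ∞ P) (v c : ℂ) :
    ContDiff ℝ ∞ fun σ : ℝ => P (σ • v + c) :=
  hP.comp ((contDiff_id.smul contDiff_const).add contDiff_const)

/-- The estimate along a line in the direction `v`. -/
theorem along (e : ℝ × ℝ ≃ᵐ ℂ) (he : MeasurePreserving e volume volume)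
    (hev : ∀ p, e p = p.1 • v + p.2 • w) (hP : ContDiff ℝ ∞ P) (hc : HasCompactSupport P)
    {R : ℝ} (hR : 0 ≤ R) (hs : ∀ s t : ℝ, R < |t| → P (s • v + t • w) = 0) {lam : ℝ}
    (hl : 0 < lam) {s' s : ℝ} (hss : s' ≤ s) (t : ℝ) :
    |P (s • v + t • w) - P (s' • v + t • w)| ≤
      lam * R * (s - s') + 1 / (2 * lam) * ∫ z, D w (D v P) z ^ 2 := by
  have s1 := smooth_D hP v
  have s2 := smooth_D s1 w
  have c2 := supp_D (supp_D hc v) w
  set g : ℝ → ℝ → ℝ := fun σ τ => D w (D v P) (σ • v + τ • w) with hg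
  -- vanishing
  have z1 : ∀ σ τ : ℝ, R < |τ| → D v P (σ • v + τ • w) = 0 := by
    intro σ τ hτ
    have h1 := hasDerivAt_line hP v (τ • w) σ
    have h2 : (fun σ : ℝ => P (σ • v + τ • w)) = fun _ => 0 := funext fun σ => hs σ τ hτ
    rw [h2] at h1
    exact h1.unique (hasDerivAt_const σ 0)
  have hd : ∀ σ τ : ℝ, HasDerivAt (fun τ : ℝ => D v P (σ • v + τ • w)) (g σ τ) τ := by
    intro σ τ
    have h1 := hasDerivAt_line s1 w (σ • v) τ
    have e1 : (fun τ : ℝ => D v P (τ • w + σ • v)) = fun τ : ℝ => D v P (σ • v + τ • w) := by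
      funext τ; rw [add_comm]
    rw [e1, add_comm] at h1
    exact h1
  have z2 : ∀ σ τ : ℝ, R < |τ| → g σ τ = 0 := by
    intro σ τ hτ
    have h1 : (fun τ : ℝ => D v P (σ • v + τ • w)) =ᶠ[𝓝 τ] fun _ => 0 := by
      have : ∀ᶠ τ' in 𝓝 τ, R < |τ'| := (continuous_abs.tendsto τ).eventually_const_lt hτ
      exact this.mono fun τ' h => z1 σ τ' h
    exact ((hd σ τ).congr_of_eventuallyEq h1.symm).unique (hasDerivAt_const τ 0)
  have gc : Continuous fun p : ℝ × ℝ => g p.1 p.2 :=
    s2.continuous.comp ((continuous_fst.smul continuous_const).add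
      (continuous_snd.smul continuous_const))
  have gcτ : ∀ σ, Continuous (g σ) := fun σ => gc.comp (Continuous.prodMk_right σ)
  have gs : ∀ σ, HasCompactSupport (g σ) := fun σ =>
    HasCompactSupport.intro (isCompact_Icc : IsCompact (Icc (-R) R)) fun τ hτ => by
      refine z2 σ τ ?_
      by_contra hcon
      exact hτ (abs_le.mp (not_lt.mp hcon))
  have gs2 : ∀ σ, Integrable (fun τ => g σ τ ^ 2) := fun σ => by
    have h1 : Continuous fun τ => g σ τ ^ 2 := (gcτ σ).pow 2
    have h2 : HasCompactSupport fun τ => g σ τ ^ 2 :=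
      HasCompactSupport.comp_left (g := fun x : ℝ => x ^ 2) (gs σ) (by simp)
    exact h1.integrable_of_hasCompactSupport h2
  -- the square is integrable on the product
  have iC : Integrable (fun z => D w (D v P) z ^ 2) :=
    integ (s2.continuous.pow 2)
      (HasCompactSupport.comp_left (g := fun x : ℝ => x ^ 2) c2 (by simp))
  have ip : Integrable (fun p : ℝ × ℝ => g p.1 p.2 ^ 2) := by
    have := (he.integrable_comp_of_integrable iC)
    refine this.congr (Filter.Eventually.of_forall fun p => ?_)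
    show D w (D v P) (e p) ^ 2 = _
    rw [hev]
  have eq1 : ∫ z, D w (D v P) z ^ 2 = ∫ σ, ∫ τ, g σ τ ^ 2 := by
    have h1 : ∫ z, D w (D v P) z ^ 2 = ∫ p, D w (D v P) (e p) ^ 2 :=
      (he.integral_comp e.measurableEmbedding (fun z => D w (D v P) z ^ 2)).symm
    have h2 : (fun p => D w (D v P) (e p) ^ 2) = fun p : ℝ × ℝ => g p.1 p.2 ^ 2 := by
      funext p; rw [hev]
    rw [h1, h2]
    exact integral_prod _ ip
  have iG : Integrable (fun σ => ∫ τ, g σ τ ^ 2) := by
    rw [Measure.volume_eq_prod] at ip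
    exact ip.integral_prod_left
  -- pointwise bound of the first derivative
  have b1 : ∀ σ, |D v P (σ • v + t • w)| ≤ lam * R + 1 / (2 * lam) * ∫ τ, g σ τ ^ 2 := by
    intro σ
    have hcd : ContDiff ℝ 1 (fun τ : ℝ => D v P (σ • v + τ • w)) := by
      have h1 := contDiff_line s1 w (σ • v)
      have e1 : (fun τ : ℝ => D v P (τ • w + σ • v)) = fun τ : ℝ => D v P (σ • v + τ • w) := by
        funext τ; rw [add_comm]
      rw [e1] at h1
      exact h1.of_le (by exact_mod_cast le_top)
    have hcs : HasCompactSupport (fun τ : ℝ => D v P (σ • v + τ • w)) :=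
      HasCompactSupport.intro (isCompact_Icc : IsCompact (Icc (-R) R)) fun τ hτ => by
        refine z1 σ τ ?_
        by_contra hcon
        exact hτ (abs_le.mp (not_lt.mp hcon))
    have h1 := hcs.integral_Iic_deriv_eq hcd t
    have h2 : ∀ τ, deriv (fun τ : ℝ => D v P (σ • v + τ • w)) τ = g σ τ := fun τ => (hd σ τ).deriv
    simp only [h2] at h1
    rw [← h1, ← Real.norm_eq_abs]
    have iabs : Integrable (fun τ => ‖g σ τ‖) :=
      (gcτ σ).norm.integrable_of_hasCompactSupport (gs σ).norm
    have iind : Integrable (fun τ => (Icc (-R) R).indicator (fun _ => lam / 2) τ) :=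
      (integrable_indicator_iff measurableSet_Icc).mpr (integrableOn_const (by simp))
    calc ‖∫ τ in Iic t, g σ τ‖ ≤ ∫ τ in Iic t, ‖g σ τ‖ := norm_integral_le_integral_norm _
      _ ≤ ∫ τ, ‖g σ τ‖ :=
          setIntegral_le_integral iabs (Filter.Eventually.of_forall fun τ => norm_nonneg _)
      _ ≤ ∫ τ, ((Icc (-R) R).indicator (fun _ => lam / 2) τ + 1 / (2 * lam) * g σ τ ^ 2) := by
          refine integral_mono iabs (iind.add ((gs2 σ).const_mul _)) fun τ => ?_
          show ‖g σ τ‖ ≤ (Icc (-R) R).indicator (fun _ => lam / 2) τ + 1 / (2 * lam) * g σ τ ^ 2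
          by_cases hτ : τ ∈ Icc (-R) R
          · rw [indicator_of_mem hτ, Real.norm_eq_abs, ← sq_abs (g σ τ)]
            have h3 : 0 ≤ (|g σ τ| - lam) ^ 2 := sq_nonneg _
            have h4 : lam / 2 + 1 / (2 * lam) * |g σ τ| ^ 2 - |g σ τ| =
                (|g σ τ| - lam) ^ 2 / (2 * lam) := by
              field_simp
              ring
            have h5 : 0 ≤ (|g σ τ| - lam) ^ 2 / (2 * lam) := by positivity
            linarith
          · rw [indicator_of_notMem hτ, z2 σ τ]
            · simp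
            · by_contra hcon
              exact hτ (abs_le.mp (not_lt.mp hcon))
      _ = lam * R + 1 / (2 * lam) * ∫ τ, g σ τ ^ 2 := by
          rw [integral_add iind ((gs2 σ).const_mul _), integral_const_mul,
            integral_indicator measurableSet_Icc, setIntegral_const]
          congr 1
          rw [Real.volume_real_Icc_of_le (by linarith)]
          simp
          ring
  -- the fundamental theorem
  have ft : P (s • v + t • w) - P (s' • v + t • w) = ∫ σ in s'..s, D v P (σ • v + t • w) := by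
    symm
    refine intervalIntegral.integral_eq_sub_of_hasDerivAt
      (f := fun σ : ℝ => P (σ • v + t • w)) (fun σ _ => hasDerivAt_line hP v (t • w) σ) ?_
    exact (continuous_line s1.continuous v (t • w)).intervalIntegrable _ _
  rw [ft, ← Real.norm_eq_abs, eq1]
  have iH : Integrable (fun σ => 1 / (2 * lam) * ∫ τ, g σ τ ^ 2) := iG.const_mul _
  calc ‖∫ σ in s'..s, D v P (σ • v + t • w)‖
      ≤ ∫ σ in s'..s, (lam * R + 1 / (2 * lam) * ∫ τ, g σ τ ^ 2) := by
        refine intervalIntegral.norm_integral_le_of_norm_le hss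
          (Filter.Eventually.of_forall fun σ _ => by rw [Real.norm_eq_abs]; exact b1 σ) ?_
        exact (intervalIntegrable_const).add iH.intervalIntegrable
    _ = lam * R * (s - s') + ∫ σ in s'..s, 1 / (2 * lam) * ∫ τ, g σ τ ^ 2 := by
        rw [intervalIntegral.integral_add intervalIntegrable_const iH.intervalIntegrable,
          intervalIntegral.integral_const]
        simp
        ring
    _ ≤ _ := by
        refine add_le_add le_rfl ?_
        rw [intervalIntegral.integral_of_le hss, ← integral_const_mul]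
        refine setIntegral_le_integral iH (Filter.Eventually.of_forall fun σ => ?_)
        have : 0 ≤ ∫ τ, g σ τ ^ 2 := integral_nonneg fun τ => sq_nonneg _
        show 0 ≤ 1 / (2 * lam) * ∫ τ, g σ τ ^ 2
        positivity

theorem along' (e : ℝ × ℝ ≃ᵐ ℂ) (he : MeasurePreserving e volume volume)
    (hev : ∀ p, e p = p.1 • v + p.2 • w) (hP : ContDiff ℝ ∞ P) (hc : HasCompactSupport P)
    {R : ℝ} (hR : 0 ≤ R) (hs : ∀ s t : ℝ, R < |t| → P (s • v + t • w) = 0) {M : ℝ}
    (hM : ∫ z, D w (D v P) z ^ 2 ≤ M) (s' s t : ℝ) :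
    |P (s • v + t • w) - P (s' • v + t • w)| ≤ (R + M / 2) * √|s - s'| := by
  have hM0 : 0 ≤ M := le_trans (integral_nonneg fun z => sq_nonneg _) hM
  wlog hss : s' ≤ s with H
  · rw [abs_sub_comm, abs_sub_comm s s']
    exact H e he hev hP hc hR hs hM s s' t hM0 (le_of_not_ge hss)
  rcases hss.eq_or_lt with rfl | h
  · simp
  have h1 : 0 < s - s' := by linarith
  have h2 : 0 < √(s - s') := Real.sqrt_pos.mpr h1
  have h3 := along e he hev hP hc hR hs (lam := (√(s - s'))⁻¹) (by positivity) hss t
  rw [abs_of_pos h1]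
  refine h3.trans ?_
  have h4 : √(s - s') * √(s - s') = s - s' := Real.mul_self_sqrt h1.le
  have h5 : (√(s - s'))⁻¹ * R * (s - s') = R * √(s - s') := by
    nth_rewrite 2 [← h4]
    field_simp
  have h6 : 1 / (2 * (√(s - s'))⁻¹) = √(s - s') / 2 := by
    field_simp
  rw [h5, h6]
  have h7 : √(s - s') / 2 * ∫ z, D w (D v P) z ^ 2 ≤ √(s - s') / 2 * M :=
    mul_le_mul_of_nonneg_left hM (by positivity)
  linarith

end line

/-- **Hölder estimate.** -/
theorem holder {P : ℂ → ℝ} (hP : ContDiff ℝ ∞ P) (hc : HasCompactSupport P) {R M : ℝ}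
    (hR : 0 ≤ R) (hs : ∀ z, R < ‖z‖ → P z = 0) (hM : ∫ z, Lap P z ^ 2 ≤ M) (z z' : ℂ) :
    |P z - P z'| ≤ (2 * R + M) * √‖z - z'‖ := by
  have hM0 : 0 ≤ M := le_trans (integral_nonneg fun z => sq_nonneg _) hM
  have m1 : ∫ z, D Complex.I (D 1 P) z ^ 2 ≤ M := (second hP hc).trans hM
  have m2 : ∫ z, D 1 (D Complex.I P) z ^ 2 ≤ M := by rw [D_comm hP]; exact m1
  have e1 : ∀ p, Complex.measurableEquivRealProd.symm p = p.1 • (1 : ℂ) + p.2 • Complex.I := by
    intro p
    rw [Complex.measurableEquivRealProd_symm_apply]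
    apply Complex.ext <;> simp
  have e2 : ∀ p, (MeasurableEquiv.prodComm.trans Complex.measurableEquivRealProd.symm) p =
      p.1 • Complex.I + p.2 • (1 : ℂ) := by
    intro p
    show Complex.measurableEquivRealProd.symm p.swap = _
    rw [e1, add_comm]; rfl
  have p1 : MeasurePreserving Complex.measurableEquivRealProd.symm volume volume :=
    Complex.volume_preserving_equiv_real_prod.symm
  have p2 : MeasurePreserving (MeasurableEquiv.prodComm.trans
      Complex.measurableEquivRealProd.symm) volume volume := by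
    have h1 : MeasurePreserving (Prod.swap : ℝ × ℝ → ℝ × ℝ) volume volume :=
      Measure.measurePreserving_swap
    exact p1.comp h1
  have k1 := along' (v := 1) (w := Complex.I) _ p1 e1 hP hc hR (fun s t h => by
    refine hs _ (lt_of_lt_of_le h ?_)
    have : t = (s • (1 : ℂ) + t • Complex.I).im := by simp
    nth_rewrite 1 [this]
    exact Complex.abs_im_le_norm _) m1 z'.re z.re z.im
  have k2 := along' (v := Complex.I) (w := 1) _ p2 e2 hP hc hR (fun s t h => by
    refine hs _ (lt_of_lt_of_le h ?_)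
    have : t = (s • Complex.I + t • (1 : ℂ)).re := by simp
    nth_rewrite 1 [this]
    exact Complex.abs_re_le_norm _) m2 z'.im z.im z'.re
  have r1 : z.re • (1 : ℂ) + z.im • Complex.I = z := by apply Complex.ext <;> simp
  have r2 : z.im • Complex.I + z'.re • (1 : ℂ) = z'.re • (1 : ℂ) + z.im • Complex.I := add_comm _ _
  have r3 : z'.im • Complex.I + z'.re • (1 : ℂ) = z' := by apply Complex.ext <;> simp
  rw [r1] at k1
  rw [r2, r3] at k2
  have n1 : √|z.re - z'.re| ≤ √‖z - z'‖ := Real.sqrt_le_sqrt (by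
    rw [← Complex.sub_re]; exact Complex.abs_re_le_norm _)
  have n2 : √|z.im - z'.im| ≤ √‖z - z'‖ := Real.sqrt_le_sqrt (by
    rw [← Complex.sub_im]; exact Complex.abs_im_le_norm _)
  have q : 0 ≤ R + M / 2 := by positivity
  calc |P z - P z'| = |(P z - P (z'.re • (1 : ℂ) + z.im • Complex.I)) +
        (P (z'.re • (1 : ℂ) + z.im • Complex.I) - P z')| := by congr 1; ring
    _ ≤ (R + M / 2) * √‖z - z'‖ + (R + M / 2) * √‖z - z'‖ :=
        (abs_add_le _ _).trans (add_le_add (k1.trans (mul_le_mul_of_nonneg_left n1 q))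
          (k2.trans (mul_le_mul_of_nonneg_left n2 q)))
    _ = _ := by ring

end Pool.Agent.H15.UC
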