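import Pool.Agent.H15.UC.Cut

/-!
# Mollifications converge in `L²`
-/

set_option autoImplicit false

open Set Filter Topology MeasureTheory
open scoped ContDiff ComplexConjugate ENNReal

noncomputable section

namespace Pool.Agent.H15.UC

theorem lint_sq {F : ℂ → ℝ} (hF : MemLp F 2) :
    ∫⁻ x, ENNReal.ofReal (F x ^ 2) = ENNReal.ofReal (∫ x, F x ^ 2) :=
  (ofReal_integral_eq_lintegral_ofReal hF.integrable_sq
    (Filter.Eventually.of_forall fun _ => sq_nonneg _)).symm

theorem mo_sq_le {F : ℂ → ℝ} (hF : MemLp F 2) (mF : Measurable F) (n : ℕ) :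
    ∫⁻ x, ENNReal.ofReal (mo (ρ n) F x ^ 2) ≤ ∫⁻ y, ENNReal.ofReal (F y ^ 2) := by
  have h := weighted (ρ_smooth n).continuous (ρ_supp n) (ρ_nonneg n) (ρ_int n) mF (loc hF)
    (loc2 hF) (W := fun _ => 1) measurable_const (c := 1) (fun _ _ _ _ => by simp)
  simpa using h

theorem mo_mem {F : ℂ → ℝ} (hF : MemLp F 2) (mF : Measurable F) (n : ℕ) :
    MemLp (mo (ρ n) F) 2 := by
  have hc : Continuous (mo (ρ n) F) := (mo_smooth (ρ_smooth n) (ρ_supp n) (loc hF)).continuous
  rw [memLp_two_iff_integrable_sq hc.aestronglyMeasurable]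
  refine ⟨(hc.pow 2).aestronglyMeasurable, ?_⟩
  rw [hasFiniteIntegral_iff_ofReal (Filter.Eventually.of_forall fun _ => sq_nonneg _)]
  refine (mo_sq_le hF mF n).trans_lt ?_
  rw [lint_sq hF]
  exact ENNReal.ofReal_lt_top

theorem mo_L2' {F : ℂ → ℝ} (hF : MemLp F 2) (mF : Measurable F) :
    Tendsto (fun n => ∫ x, (mo (ρ n) F x - F x) ^ 2) atTop (𝓝 0) := by
  have m : ∀ n, MemLp (mo (ρ n) F) 2 := mo_mem hF mF
  set M := ∫ x, F x ^ 2 with hM
  have hM0 : 0 ≤ M := integral_nonneg fun _ => sq_nonneg _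
  have sum : ∀ n, (∫ x, (mo (ρ n) F x - F x) ^ 2) + ∫ x, (mo (ρ n) F x + F x) ^ 2 ≤ 4 * M := by
    intro n
    have i1 : Integrable fun x => (mo (ρ n) F x - F x) ^ 2 := ((m n).sub hF).integrable_sq
    have i2 : Integrable fun x => (mo (ρ n) F x + F x) ^ 2 := ((m n).add hF).integrable_sq
    have e : (∫ x, (mo (ρ n) F x - F x) ^ 2) + ∫ x, (mo (ρ n) F x + F x) ^ 2 =
        2 * (∫ x, mo (ρ n) F x ^ 2) + 2 * M := by
      rw [← integral_add i1 i2, hM, ← integral_const_mul, ← integral_const_mul,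
        ← integral_add ((m n).integrable_sq.const_mul 2) (hF.integrable_sq.const_mul 2)]
      congr 1
      funext x
      ring
    have h1 : ∫ x, mo (ρ n) F x ^ 2 ≤ M := by
      have h2 := mo_sq_le hF mF n
      rw [lint_sq hF, lint_sq (m n)] at h2
      exact (ENNReal.ofReal_le_ofReal_iff hM0).mp h2
    rw [e]
    linarith
  have fatou : ENNReal.ofReal (4 * M) ≤
      liminf (fun n => ENNReal.ofReal (∫ x, (mo (ρ n) F x + F x) ^ 2)) atTop := by
    have h1 : ENNReal.ofReal (4 * M) = ∫⁻ x, ENNReal.ofReal ((2 * F x) ^ 2) := by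
      rw [lint_sq (F := fun x => 2 * F x) (hF.const_mul 2), hM, ← integral_const_mul]
      congr 1
      congr 1
      funext x
      ring
    have h2 : ∀ᵐ x, ENNReal.ofReal ((2 * F x) ^ 2) =
        liminf (fun n => ENNReal.ofReal ((mo (ρ n) F x + F x) ^ 2)) atTop := by
      filter_upwards [mo_tendsto (loc hF)] with x hx
      have h3 : Tendsto (fun n => ENNReal.ofReal ((mo (ρ n) F x + F x) ^ 2)) atTop
          (𝓝 (ENNReal.ofReal ((F x + F x) ^ 2))) :=
        ENNReal.tendsto_ofReal ((hx.add_const (F x)).pow 2)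
      rw [h3.liminf_eq, two_mul]
    rw [h1, lintegral_congr_ae h2]
    refine (lintegral_liminf_le fun n => ?_).trans (le_of_eq ?_)
    · exact (((mo_smooth (ρ_smooth n) (ρ_supp n) (loc hF)).continuous.measurable.add
        mF).pow_const 2).ennreal_ofReal
    · congr 1
      funext n
      exact lint_sq ((m n).add hF)
  rw [Metric.tendsto_atTop']
  intro ε hε
  have hev : ∀ᶠ n in atTop, 4 * M - ε < ∫ x, (mo (ρ n) F x + F x) ^ 2 := by
    by_cases h : 4 * M - ε < 0
    · exact Filter.Eventually.of_forall fun n =>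
        h.trans_le (integral_nonneg fun _ => sq_nonneg _)
    · push Not at h
      have h1 : ENNReal.ofReal (4 * M - ε) < ENNReal.ofReal (4 * M) :=
        (ENNReal.ofReal_lt_ofReal_iff (by linarith)).mpr (by linarith)
      filter_upwards [eventually_lt_of_lt_liminf (h1.trans_le fatou)] with n hn
      exact (ENNReal.ofReal_lt_ofReal_iff'.mp hn).1
  obtain ⟨N, hN⟩ := eventually_atTop.mp hev
  refine ⟨N, fun n hn => ?_⟩
  have h1 := hN n hn.le
  have h2 := sum n
  rw [Real.dist_eq, sub_zero, abs_of_nonneg (integral_nonneg fun _ => sq_nonneg _)]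
  linarith

theorem mo_congr {ρ F F' : ℂ → ℝ} (h : F =ᵐ[volume] F') : mo ρ F = mo ρ F' := by
  funext x
  rw [mo_apply, mo_apply]
  refine integral_congr_ae ?_
  filter_upwards [h] with z hz
  rw [hz]

/-- Mollifications converge in `L²`. -/
theorem mo_L2 {F : ℂ → ℝ} (hF : MemLp F 2) :
    (∀ n, MemLp (mo (ρ n) F) 2) ∧
      Tendsto (fun n => ∫ x, (mo (ρ n) F x - F x) ^ 2) atTop (𝓝 0) := by
  set F' := hF.aestronglyMeasurable.mk F with hF'
  have h1 : F =ᵐ[volume] F' := hF.aestronglyMeasurable.ae_eq_mk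
  have m' : MemLp F' 2 volume := (memLp_congr_ae h1).mp hF
  have meas : Measurable F' := hF.aestronglyMeasurable.stronglyMeasurable_mk.measurable
  refine ⟨fun n => by rw [mo_congr h1]; exact mo_mem m' meas n, ?_⟩
  refine (mo_L2' m' meas).congr fun n => ?_
  rw [mo_congr h1]
  refine integral_congr_ae ?_
  filter_upwards [h1] with z hz
  rw [hz]

theorem toLp_norm {a b : ℂ → ℝ} (ha : MemLp a 2 volume) (hb : MemLp b 2 volume) :
    ‖ha.toLp a - hb.toLp b‖ ^ 2 = ∫ x, (a x - b x) ^ 2 := by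
  rw [← MemLp.toLp_sub, ← real_inner_self_eq_norm_sq, L2.inner_def]
  refine integral_congr_ae ?_
  filter_upwards [(ha.sub hb).coeFn_toLp] with x hx
  rw [hx]
  simp [sq]

/-- the limit of the integrals of the products -/
theorem lim_mul {a h : ℕ → ℂ → ℝ} {A H : ℂ → ℝ} (ma : ∀ n, MemLp (a n) 2) (mA : MemLp A 2)
    (mh : ∀ n, MemLp (h n) 2) (mH : MemLp H 2)
    (ta : Tendsto (fun n => ∫ x, (a n x - A x) ^ 2) atTop (𝓝 0))
    (th : Tendsto (fun n => ∫ x, (h n x - H x) ^ 2) atTop (𝓝 0)) :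
    Tendsto (fun n => ∫ x, a n x * h n x) atTop (𝓝 (∫ x, A x * H x)) := by
  have conv : ∀ {b : ℕ → ℂ → ℝ} {B : ℂ → ℝ} (mb : ∀ n, MemLp (b n) 2) (mB : MemLp B 2),
      Tendsto (fun n => ∫ x, (b n x - B x) ^ 2) atTop (𝓝 0) →
      Tendsto (fun n => (mb n).toLp (b n)) atTop (𝓝 (mB.toLp B)) := by
    intro b B mb mB tb
    rw [tendsto_iff_norm_sub_tendsto_zero]
    have h1 : Tendsto (fun n => Real.sqrt (∫ x, (b n x - B x) ^ 2)) atTop (𝓝 0) := by
      have := (Real.continuous_sqrt.tendsto 0).comp tb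
      rwa [Real.sqrt_zero] at this
    refine h1.congr fun n => ?_
    rw [← toLp_norm (mb n) mB, Real.sqrt_sq (norm_nonneg _)]
  have inn : ∀ {b c : ℂ → ℝ} (mb : MemLp b 2) (mc : MemLp c 2),
      inner ℝ (mb.toLp b) (mc.toLp c) = ∫ x, b x * c x := by
    intro b c mb mc
    rw [L2.inner_def]
    refine integral_congr_ae ?_
    filter_upwards [mb.coeFn_toLp, mc.coeFn_toLp] with x h1 h2
    rw [h1, h2]
    simp [mul_comm]
  have h1 := (conv ma mA ta).inner (𝕜 := ℝ) (conv mh mH th)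
  rw [inn] at h1
  exact h1.congr fun n => inn _ _

end Pool.Agent.H15.UC
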