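import Pool.Agent.H15.UC.Lead4

/-!
# Leading terms of solutions
-/

set_option autoImplicit false

open Set Filter Topology MeasureTheory
open scoped ContDiff ComplexConjugate ENNReal

noncomputable section

namespace Pool.Agent.H15.UC

open Pool.Agent.H23.UC (Weak)
open Pool.Agent.H23.CL.GC (stGrad)

/-- strong unique continuation, local form -/
theorem strong {O : Set ℂ} {U ρ' : ℂ → ℝ} {g : ℂ → ℂ} {z₀ : ℂ} {C R : ℝ} (hO : IsOpen O)
    (hz₀ : z₀ ∈ O) (cU : ContinuousOn U O) (cg : ContinuousOn g O) (cρ : ContinuousOn ρ' O)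
    (W : Weak O U g fun z => ρ' z * U z) (hs : ∀ k, Small (fun z => U (z₀ + z)) k) (hR : 0 < R)
    (hsub : Metric.closedBall z₀ R ⊆ O) (hC : 512 * R ^ 4 * C ^ 2 ≤ 1 / 2)
    (hρ : ∀ z ∈ Metric.closedBall z₀ R, |ρ' z| ≤ C) :
    ∀ᵐ z, ‖z‖ < R / 4 → U (z + z₀) = 0 := by
  set w : ℂ → ℝ := fun z => ρ' z * U z with hw
  have cw : ContinuousOn w O := cρ.mul cU
  have hC0 : 0 ≤ C := (abs_nonneg _).trans (hρ z₀ (Metric.mem_closedBall_self hR.le))
  let χ : ContDiffBump z₀ := ⟨R / 2, R, by positivity, by linarith⟩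
  have hts : tsupport (fun z => χ z) = Metric.closedBall z₀ R := bump_tsupp χ
  have sχ : ContDiff ℝ ∞ (fun z => χ z) := bump_smooth χ
  have kχ := bump_supp χ
  have tχ : tsupport (fun z => χ z) ⊆ O := by rw [hts]; exact hsub
  have near1 : ∀ z ∈ Metric.ball z₀ (R / 2), (fun z => χ z) =ᶠ[𝓝 z] fun _ => 1 := by
    intro z hz
    exact Filter.eventually_of_mem (Metric.isOpen_ball.mem_nhds hz) fun y hy =>
      χ.one_of_mem_closedBall (Metric.ball_subset_closedBall hy)
  have memb : ∀ {z : ℂ} {t : ℝ}, ‖z‖ < t → z + z₀ ∈ Metric.ball z₀ t := by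
    intro z t h
    rw [Metric.mem_ball, dist_eq_norm, add_sub_cancel_right]
    exact h
  have outb : ∀ {z : ℂ}, R < ‖z‖ → z + z₀ ∉ tsupport (fun z => χ z) := by
    intro z h
    rw [hts, Metric.mem_closedBall, dist_eq_norm, add_sub_cancel_right]
    exact not_le.mpr h
  -- the functions
  set P0 : ℂ → ℝ := fun z => U (z + z₀) * χ (z + z₀) with hP0
  set F0 : ℂ → ℝ := fun z => FF (fun z => χ z) U w g (z + z₀) with hF0
  have mP0 : MemLp P0 2 := (mem_P W sχ kχ tχ).comp_measurePreserving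
    (measurePreserving_add_right volume z₀)
  have mF0 : MemLp F0 2 := (mem_F W sχ kχ tχ).comp_measurePreserving
    (measurePreserving_add_right volume z₀)
  have cF0 : Continuous F0 :=
    (FF_cont hO sχ tχ cU cg cw).comp (continuous_id.add continuous_const)
  -- the cutoffs
  set X : ℕ → ℂ → ℝ := fun n y => χ y * κ n (y - z₀) with hX
  have sX : ∀ n, ContDiff ℝ ∞ (X n) := fun n =>
    sχ.mul ((κ_smooth n).comp (contDiff_id.sub contDiff_const))
  have kX : ∀ n, HasCompactSupport (X n) := fun n => kχ.mul_right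
  have tX : ∀ n, tsupport (X n) ⊆ O := fun n =>
    (tsupport_mul_subset_left (f := fun z => χ z) (g := fun y => κ n (y - z₀))).trans tχ
  set P : ℕ → ℂ → ℝ := fun n z => U (z + z₀) * X n (z + z₀) with hP
  set F : ℕ → ℂ → ℝ := fun n z => FF (X n) U w g (z + z₀) with hF
  have mP : ∀ n, MemLp (P n) 2 := fun n => (mem_P W (sX n) (kX n) (tX n)).comp_measurePreserving
    (measurePreserving_add_right volume z₀)
  have mF : ∀ n, MemLp (F n) 2 := fun n => (mem_F W (sX n) (kX n) (tX n)).comp_measurePreserving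
    (measurePreserving_add_right volume z₀)
  have cF : ∀ n, Continuous (F n) := fun n =>
    (FF_cont hO (sX n) (tX n) cU cg cw).comp (continuous_id.add continuous_const)
  have hWL : ∀ n, WL (P n) (F n) := fun n => (cut W (sX n) (kX n) (tX n)).shift z₀
  have shift_ev : ∀ {n : ℕ} {z : ℂ} {c : ℝ}, (κ n =ᶠ[𝓝 z] fun _ => c) →
      (fun y => κ n (y - z₀)) =ᶠ[𝓝 (z + z₀)] fun _ => c := by
    intro n z c h
    have ht : Tendsto (fun y : ℂ => y - z₀) (𝓝 (z + z₀)) (𝓝 z) := by
      have : Continuous fun y : ℂ => y - z₀ := continuous_id.sub continuous_const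
      have h2 := this.tendsto (z + z₀)
      simpa using h2
    exact ht.eventually h
  -- small `z`
  have zeroX : ∀ (n : ℕ) (z : ℂ), ‖z‖ < 1 / ((n : ℝ) + 1) → X n =ᶠ[𝓝 (z + z₀)] fun _ => 0 := by
    intro n z hz
    filter_upwards [shift_ev (κ_zero hz)] with y hy
    show χ y * κ n (y - z₀) = 0
    rw [hy, mul_zero]
  have pz : ∀ (n : ℕ) (z : ℂ), ‖z‖ < 1 / ((n : ℝ) + 1) → P n z = 0 := by
    intro n z hz
    show U (z + z₀) * X n (z + z₀) = 0
    rw [(zeroX n z hz).self_of_nhds, mul_zero]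
  have fz : ∀ (n : ℕ) (z : ℂ), ‖z‖ < 1 / ((n : ℝ) + 1) → F n z = 0 := by
    intro n z hz
    show FF (X n) U w g (z + z₀) = 0
    rw [FF_congr (zeroX n z hz)]
    unfold FF Lap D
    simp
  have ps : ∀ (n : ℕ) (z : ℂ), R < ‖z‖ → P n z = 0 := by
    intro n z hz
    show U (z + z₀) * (χ (z + z₀) * κ n (z + z₀ - z₀)) = 0
    have h2 : χ (z + z₀) = 0 := zero_of_tsupp (outb hz)
    rw [h2]
    ring
  -- large `z`
  have oneX : ∀ (n : ℕ) (z : ℂ), 2 / ((n : ℝ) + 1) < ‖z‖ → X n =ᶠ[𝓝 (z + z₀)] fun z => χ z := by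
    intro n z hz
    filter_upwards [shift_ev (κ_one hz)] with y hy
    show χ y * κ n (y - z₀) = χ y
    rw [hy, mul_one]
  have Pn : ∀ (n : ℕ) (z : ℂ), 2 / ((n : ℝ) + 1) < ‖z‖ → P n z = P0 z := by
    intro n z hz
    show U (z + z₀) * X n (z + z₀) = U (z + z₀) * χ (z + z₀)
    rw [(oneX n z hz).self_of_nhds]
  have Fn : ∀ (n : ℕ) (z : ℂ), 2 / ((n : ℝ) + 1) < ‖z‖ → F n z = F0 z := fun n z hz => FF_congr (oneX n z hz)
  -- intermediate `z`
  have midX : ∀ (n : ℕ) (z : ℂ), ‖z‖ < R / 2 → F n z = FF (fun y => κ n (y - z₀)) U w g (z + z₀) := by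
    intro n z hz
    refine FF_congr ?_
    filter_upwards [near1 _ (memb hz)] with y hy
    show χ y * κ n (y - z₀) = κ n (y - z₀)
    have hy' : χ y = 1 := hy
    rw [hy', one_mul]
  have F0eq : ∀ z, ‖z‖ < R / 2 → F0 z = -w (z + z₀) := by
    intro z hz
    show FF (fun z => χ z) U w g (z + z₀) = _
    rw [FF_congr (near1 _ (memb hz))]
    unfold FF Lap D
    simp
  have P0eq : ∀ z, ‖z‖ < R / 2 → P0 z = U (z + z₀) := by
    intro z hz
    show U (z + z₀) * χ (z + z₀) = _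
    have : χ (z + z₀) = 1 := (near1 _ (memb hz)).self_of_nhds
    rw [this, mul_one]
  -- Carleman's inequality
  have car : ∀ N n, ∫⁻ z, Wt N z * ENNReal.ofReal (P n z ^ 2) ≤
      ENNReal.ofReal (512 * R ^ 4) * ∫⁻ z, Wt N z * ENNReal.ofReal (F n z ^ 2) := fun N n =>
    weak_carleman (mP n) (mF n) (cF n).measurable (hWL n) (by positivity) hR (pz n) (fz n) (ps n) N
  have δt : Tendsto (fun n : ℕ => 2 / ((n : ℝ) + 1)) atTop (𝓝 0) := by
    have := tendsto_δ.const_mul 2
    rw [mul_zero] at this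
    refine this.congr fun n => ?_
    ring
  have Wle : ∀ (N : ℕ) {s : ℝ} {z : ℂ}, 0 < s → s ≤ ‖z‖ →
      Wt N z ≤ ENNReal.ofReal (((s ^ N)⁻¹) ^ 2) := by
    intro N s z hs hz
    unfold Wt
    refine ENNReal.ofReal_le_ofReal (pow_le_pow_left₀ (by positivity) ?_ 2)
    exact inv_anti₀ (by positivity) (pow_le_pow_left₀ hs.le hz N)
  have main : ∀ N, ∫⁻ z, Wt N z * ENNReal.ofReal (P0 z ^ 2) ≤
      ENNReal.ofReal (512 * R ^ 4) * ∫⁻ z, Wt N z * ENNReal.ofReal (F0 z ^ 2) := by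
    intro N
    -- the error
    obtain ⟨C₁, r₁, hr₁, b₁⟩ := small_w (ρ' := ρ') hO hz₀ cρ (hs (N + 3))
    obtain ⟨-, C₂, r₂, hr₂, hC₂, -, b₂⟩ := lead_aux hO hz₀ cU cg cρ W (Nat.succ_le_succ (Nat.zero_le _))
      (hs (N + 4))
    obtain ⟨C₃, r₃, hr₃, hC₃, -, b₃⟩ := (hs (N + 3)).mono
    set r := min r₁ (min r₂ r₃) with hr
    have hr0 : 0 < r := lt_min hr₁ (lt_min hr₂ hr₃)
    have b₁' : ∀ z : ℂ, ‖z‖ < r → |w (z₀ + z)| ≤ max C₁ 0 * ‖z‖ ^ (N + 3) := fun z hz =>
      (b₁ z (lt_of_lt_of_le hz (min_le_left _ _))).trans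
        (mul_le_mul_of_nonneg_right (le_max_left _ _) (by positivity))
    obtain ⟨B, hB0, hB⟩ := annulus (w := w) (g := g) (U := U) (z₀ := z₀) (m := N + 3) (r := r)
      (le_max_right C₁ 0) hC₂ hC₃ b₁'
      (fun z hz => b₂ z (lt_of_lt_of_le hz ((min_le_right _ _).trans (min_le_left _ _))))
      (fun z hz => b₃ z (lt_of_lt_of_le hz ((min_le_right _ _).trans (min_le_right _ _))))
    set V := (volume : Measure ℂ) (Metric.closedBall (0 : ℂ) 2) with hV
    have hVf : V ≠ ⊤ := (isCompact_closedBall _ _).measure_lt_top.ne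
    set E : ℕ → ℝ := fun n => (B * 2 ^ (N + 3)) ^ 2 * (1 / ((n : ℝ) + 1)) ^ 2 with hE
    have bound : ∀ᶠ n : ℕ in atTop, ∫⁻ z, Wt N z * ENNReal.ofReal (F n z ^ 2) ≤
        (∫⁻ z, Wt N z * ENNReal.ofReal (F0 z ^ 2)) + ENNReal.ofReal (E n) * V := by
      have h1 : ∀ᶠ n : ℕ in atTop, 2 / ((n : ℝ) + 1) < min r (R / 2) :=
        δt.eventually (gt_mem_nhds (lt_min hr0 (by positivity)))
      filter_upwards [h1] with n hn
      have hnr : 2 / ((n : ℝ) + 1) < r := lt_of_lt_of_le hn (min_le_left _ _)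
      have hnR : 2 / ((n : ℝ) + 1) < R / 2 := lt_of_lt_of_le hn (min_le_right _ _)
      have hs0 : (0 : ℝ) < (n : ℝ) + 1 := by positivity
      have hs1 : (1 : ℝ) ≤ (n : ℝ) + 1 := by
        have : (0 : ℝ) ≤ n := Nat.cast_nonneg n
        linarith
      rw [hV, ← setLIntegral_const, ← lintegral_indicator Metric.isClosed_closedBall.measurableSet,
        ← lintegral_add_right _ (measurable_const.indicator
          Metric.isClosed_closedBall.measurableSet)]
      refine lintegral_mono fun z => ?_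
      show Wt N z * ENNReal.ofReal (F n z ^ 2) ≤ Wt N z * ENNReal.ofReal (F0 z ^ 2) +
        (Metric.closedBall (0 : ℂ) 2).indicator (fun _ => ENNReal.ofReal (E n)) z
      rcases lt_or_ge (2 / ((n : ℝ) + 1)) ‖z‖ with h2 | h2
      · rw [Fn n z h2]
        exact le_self_add
      · refine le_trans ?_ le_add_self
        have hz2 : z ∈ Metric.closedBall (0 : ℂ) 2 := by
          rw [mem_closedBall_zero_iff]
          refine h2.trans ?_
          rw [div_le_iff₀ hs0]
          linarith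
        rw [indicator_of_mem hz2]
        rcases lt_or_ge ‖z‖ (1 / ((n : ℝ) + 1)) with h3 | h3
        · rw [fz n z h3]
          simp
        · have h4 := hB n z hnr h2
          rw [← midX n z (lt_of_le_of_lt h2 hnR)] at h4
          have h5 : Wt N z ≤ ENNReal.ofReal ((((n : ℝ) + 1) ^ N) ^ 2) := by
            refine (Wle N (by positivity) h3).trans (le_of_eq ?_)
            congr 2
            rw [one_div, inv_pow, inv_inv]
          have h6 : F n z ^ 2 ≤ (B * ((n : ℝ) + 1) ^ 2 * (2 / ((n : ℝ) + 1)) ^ (N + 3)) ^ 2 := by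
            rw [← sq_abs (F n z)]
            exact pow_le_pow_left₀ (abs_nonneg _) h4 2
          calc Wt N z * ENNReal.ofReal (F n z ^ 2)
              ≤ ENNReal.ofReal ((((n : ℝ) + 1) ^ N) ^ 2) * ENNReal.ofReal
                ((B * ((n : ℝ) + 1) ^ 2 * (2 / ((n : ℝ) + 1)) ^ (N + 3)) ^ 2) :=
                mul_le_mul' h5 (ENNReal.ofReal_le_ofReal h6)
            _ = ENNReal.ofReal (E n) := by
                rw [← ENNReal.ofReal_mul (by positivity)]
                congr 1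
                show _ = (B * 2 ^ (N + 3)) ^ 2 * (1 / ((n : ℝ) + 1)) ^ 2
                rw [div_pow 2 ((n : ℝ) + 1) (N + 3), pow_add ((n : ℝ) + 1) N 3]
                field_simp
    have limE : Tendsto (fun n => ENNReal.ofReal (512 * R ^ 4) *
        ((∫⁻ z, Wt N z * ENNReal.ofReal (F0 z ^ 2)) + ENNReal.ofReal (E n) * V)) atTop
        (𝓝 (ENNReal.ofReal (512 * R ^ 4) * ((∫⁻ z, Wt N z * ENNReal.ofReal (F0 z ^ 2)) + 0))) := by
      refine ENNReal.Tendsto.const_mul ?_ (Or.inr ENNReal.ofReal_ne_top)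
      refine Tendsto.add tendsto_const_nhds ?_
      have h1 : Tendsto E atTop (𝓝 0) := by
        have := (tendsto_δ.pow 2).const_mul ((B * 2 ^ (N + 3)) ^ 2)
        rw [zero_pow two_ne_zero, mul_zero] at this
        exact this
      have h2 := ENNReal.tendsto_ofReal h1
      rw [ENNReal.ofReal_zero] at h2
      have h3 := ENNReal.Tendsto.mul_const (b := V) h2 (Or.inr hVf)
      rwa [zero_mul] at h3
    rw [add_zero] at limE
    have ae0 : ∀ᵐ ζ : ℂ, ζ ≠ 0 := by
      have : (volume : Measure ℂ) {0} = 0 := measure_singleton 0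
      rw [ae_iff]
      simp
    have fatou : ∫⁻ z, Wt N z * ENNReal.ofReal (P0 z ^ 2) ≤
        liminf (fun n => ∫⁻ z, Wt N z * ENNReal.ofReal (P n z ^ 2)) atTop := by
      have h1 : ∫⁻ z, Wt N z * ENNReal.ofReal (P0 z ^ 2) =
          ∫⁻ z, liminf (fun n => Wt N z * ENNReal.ofReal (P n z ^ 2)) atTop := by
        refine lintegral_congr_ae ?_
        filter_upwards [ae0] with z hz
        have h2 : ∀ᶠ n : ℕ in atTop, 2 / ((n : ℝ) + 1) < ‖z‖ :=
          δt.eventually (gt_mem_nhds (norm_pos_iff.mpr hz))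
        have h3 : Tendsto (fun n => Wt N z * ENNReal.ofReal (P n z ^ 2)) atTop
            (𝓝 (Wt N z * ENNReal.ofReal (P0 z ^ 2))) := by
          refine tendsto_const_nhds.congr' ?_
          filter_upwards [h2] with n hn
          rw [Pn n z hn]
        rw [h3.liminf_eq]
      rw [h1]
      refine lintegral_liminf_le' fun n => ?_
      exact (Wt_meas N).aemeasurable.mul
        (((mP n).aestronglyMeasurable.aemeasurable.pow_const 2).ennreal_ofReal)
    refine fatou.trans ?_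
    rw [← limE.liminf_eq]
    refine liminf_le_liminf ?_
    filter_upwards [bound] with n hn
    exact (car N n).trans (mul_le_mul_right hn _)
  -- finiteness
  have fin : ∀ N, ∫⁻ z, Wt N z * ENNReal.ofReal (P0 z ^ 2) < ⊤ := by
    intro N
    obtain ⟨C₃, r₃, hr₃, hC₃, -, b₃⟩ := (hs N).mono
    set t := min r₃ (R / 2) with ht
    have ht0 : 0 < t := lt_min hr₃ (by positivity)
    have h1 : ∫⁻ z, Wt N z * ENNReal.ofReal (P0 z ^ 2) ≤
        (∫⁻ z, (Metric.closedBall (0 : ℂ) t).indicator (fun _ => ENNReal.ofReal (C₃ ^ 2)) z) +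
        ∫⁻ z, ENNReal.ofReal (((t ^ N)⁻¹) ^ 2) * ENNReal.ofReal (P0 z ^ 2) := by
      rw [← lintegral_add_left (measurable_const.indicator
          Metric.isClosed_closedBall.measurableSet)]
      refine lintegral_mono fun z => ?_
      show Wt N z * ENNReal.ofReal (P0 z ^ 2) ≤
        (Metric.closedBall (0 : ℂ) t).indicator (fun _ => ENNReal.ofReal (C₃ ^ 2)) z +
        ENNReal.ofReal (((t ^ N)⁻¹) ^ 2) * ENNReal.ofReal (P0 z ^ 2)
      rcases lt_or_ge ‖z‖ t with h2 | h2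
      · refine le_trans ?_ le_self_add
        rw [indicator_of_mem (mem_closedBall_zero_iff.mpr h2.le)]
        have h3 := b₃ z (lt_of_lt_of_le h2 (min_le_left _ _))
        have h4 : |U (z₀ + z)| ≤ C₃ * ‖z‖ ^ N := h3
        rw [P0eq z (lt_of_lt_of_le h2 (min_le_right _ _)), add_comm z z₀]
        unfold Wt
        rw [← ENNReal.ofReal_mul (by positivity)]
        refine ENNReal.ofReal_le_ofReal ?_
        have h5 : U (z₀ + z) ^ 2 ≤ (C₃ * ‖z‖ ^ N) ^ 2 := by
          rw [← sq_abs]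
          exact pow_le_pow_left₀ (abs_nonneg _) h4 2
        rcases eq_or_ne (‖z‖ ^ N) 0 with h6 | h6
        · rw [h6, inv_zero]
          nlinarith [sq_nonneg C₃]
        · calc ((‖z‖ ^ N)⁻¹) ^ 2 * U (z₀ + z) ^ 2 ≤ ((‖z‖ ^ N)⁻¹) ^ 2 * (C₃ * ‖z‖ ^ N) ^ 2 :=
                mul_le_mul_of_nonneg_left h5 (sq_nonneg _)
            _ = C₃ ^ 2 := by field_simp
      · refine le_trans ?_ le_add_self
        exact mul_le_mul_left (Wle N ht0 h2) _
    refine h1.trans_lt (ENNReal.add_lt_top.mpr ⟨?_, ?_⟩)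
    · rw [lintegral_indicator Metric.isClosed_closedBall.measurableSet, setLIntegral_const]
      exact ENNReal.mul_lt_top ENNReal.ofReal_lt_top (isCompact_closedBall _ _).measure_lt_top
    · rw [lintegral_const_mul' _ _ ENNReal.ofReal_ne_top]
      exact ENNReal.mul_lt_top ENNReal.ofReal_lt_top mP0.integrable_sq.lintegral_lt_top
  -- the end
  have P00 : P0 0 = 0 := by
    rw [P0eq 0 (by rw [norm_zero]; positivity), zero_add]
    have := (hs 1).zero one_ne_zero
    simpa using this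
  have hb : ∀ᵐ z, ‖z‖ < R / 2 → F0 z ^ 2 ≤ C ^ 2 * P0 z ^ 2 := by
    refine Filter.Eventually.of_forall fun z hz => ?_
    rw [F0eq z hz, P0eq z hz, neg_sq]
    show (ρ' (z + z₀) * U (z + z₀)) ^ 2 ≤ _
    rw [mul_pow]
    refine mul_le_mul_of_nonneg_right ?_ (sq_nonneg _)
    rw [← sq_abs]
    refine pow_le_pow_left₀ (abs_nonneg _) (hρ _ ?_) 2
    exact Metric.ball_subset_closedBall (Metric.ball_subset_ball (by linarith) (memb hz))
  have van := vanish' hR mP0 mF0 cF0.measurable P00 fin main hb hC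
  filter_upwards [van] with z hz hz'
  rw [← P0eq z (by linarith)]
  exact hz hz'

/-- `LR-LEAD` -/
theorem stLead : StLead := by
  intro O U g ρ' z₀ hO hz₀ cU cρ W
  obtain ⟨G, cG, eG⟩ := stGrad O U g _ hO cU (cρ.mul cU) W
  have W' := weak_congr W hO eG
  refine ⟨fun k h => lead hO hz₀ cU cG cρ W' h, fun hs => ?_⟩
  -- a bound for `ρ'`
  obtain ⟨ε, hε, hb⟩ := Metric.isOpen_iff.mp hO z₀ hz₀
  have hsub1 : Metric.closedBall z₀ (ε / 2) ⊆ O :=
    (Metric.closedBall_subset_ball (by linarith)).trans hb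
  obtain ⟨C, hC⟩ := (isCompact_closedBall z₀ (ε / 2)).exists_bound_of_continuousOn
    (cρ.mono hsub1)
  obtain ⟨R, hR, hR1, hR2⟩ : ∃ R : ℝ, 0 < R ∧ R ≤ ε / 2 ∧ 512 * R ^ 4 * C ^ 2 ≤ 1 / 2 := by
    have h1 : Tendsto (fun R : ℝ => 512 * R ^ 4 * C ^ 2) (𝓝[>] 0) (𝓝 0) := by
      have h2 : Continuous fun R : ℝ => 512 * R ^ 4 * C ^ 2 := by fun_prop
      have h3 := h2.tendsto 0
      simp only [ne_eq, OfNat.ofNat_ne_zero, not_false_eq_true, zero_pow, mul_zero, zero_mul]
        at h3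
      exact h3.mono_left nhdsWithin_le_nhds
    have h2 : ∀ᶠ R : ℝ in 𝓝[>] 0, 512 * R ^ 4 * C ^ 2 < 1 / 2 :=
      h1.eventually_lt_const (by norm_num)
    have h3 : ∀ᶠ R : ℝ in 𝓝[>] 0, R < ε / 2 :=
      nhdsWithin_le_nhds (eventually_lt_nhds (by positivity))
    have h4 : ∀ᶠ R : ℝ in 𝓝[>] (0 : ℝ), 0 < R := eventually_mem_nhdsWithin
    obtain ⟨R, h5, h6, h7⟩ := (h2.and (h3.and h4)).exists
    exact ⟨R, h7, h6.le, h5.le⟩
  have hsub : Metric.closedBall z₀ R ⊆ O := (Metric.closedBall_subset_closedBall hR1).trans hsub1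
  have hae := strong hO hz₀ cU cG cρ W' hs hR hsub hR2 fun z hz =>
    hC z (Metric.closedBall_subset_closedBall hR1 hz)
  refine ⟨R / 4, by positivity, ?_⟩
  -- continuity
  have cont : ContinuousOn (fun z => U (z + z₀)) (Metric.ball (0 : ℂ) (R / 4)) := by
    refine cU.comp (continuous_id.add continuous_const).continuousOn ?_
    intro z hz
    refine hsub ?_
    rw [Metric.mem_closedBall, dist_eq_norm]
    rw [mem_ball_zero_iff] at hz
    show ‖z + z₀ - z₀‖ ≤ R
    rw [add_sub_cancel_right]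
    linarith
  have hae' : (fun z => U (z + z₀)) =ᵐ[volume.restrict (Metric.ball (0 : ℂ) (R / 4))]
      fun _ => 0 := by
    rw [Filter.EventuallyEq, ae_restrict_iff' Metric.isOpen_ball.measurableSet]
    filter_upwards [hae] with z h1 h2
    exact h1 (mem_ball_zero_iff.mp h2)
  intro z hz
  have := Measure.eqOn_open_of_ae_eq hae' Metric.isOpen_ball cont continuousOn_const
    (mem_ball_zero_iff.mpr hz)
  rw [add_comm]
  exact this

end Pool.Agent.H15.UC
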