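import Pool.Agent.H15.UC.Rank4

/-!
# The gradient of a solution by the kernel `1 / (z - ζ)`, and its expansion
-/

set_option autoImplicit false

open Set Filter Topology MeasureTheory
open scoped ContDiff ComplexConjugate ENNReal

noncomputable section

namespace Pool.Agent.H15.UC

open Pool.Agent.H23.UC (Weak)

section rep
variable {O : Set ℂ} {U w χ : ℂ → ℝ} {g : ℂ → ℂ}

theorem tsupp_neg' {χ : ℂ → ℝ} : tsupport (fun z => -χ z) ⊆ tsupport χ := by
  refine closure_mono ?_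
  intro x hx
  simpa using hx

theorem tsupp_two {χ : ℂ → ℝ} : tsupport (fun z => 2 * χ z) ⊆ tsupport χ := by
  refine closure_mono ?_
  intro x hx
  simpa using hx

theorem tsupp_Lap (χ : ℂ → ℝ) : tsupport (Lap χ) ⊆ tsupport χ := by
  refine closure_minimal ?_ (isClosed_tsupport χ)
  intro z hz
  by_contra h
  exact hz (Lap_zero_of_tsupp h)

theorem FF_cont (hO : IsOpen O) (sχ : ContDiff ℝ ∞ χ) (tχ : tsupport χ ⊆ O)
    (cU : ContinuousOn U O) (cg : ContinuousOn g O) (cw : ContinuousOn w O) :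
    Continuous (FF χ U w g) := by
  have r1 : ContinuousOn (fun z => (g z).re) O := Complex.continuous_re.comp_continuousOn cg
  have i1 : ContinuousOn (fun z => (g z).im) O := Complex.continuous_im.comp_continuousOn cg
  have a1 : Continuous fun z => w z * (-χ z) :=
    cont_cut (U₂ := w) (χ := fun z => -χ z) (tsupp_neg'.trans tχ) hO cw sχ.continuous.neg
  have a2 : Continuous fun z => (g z).re * (2 * D 1 χ z) :=
    cont_cut (U₂ := fun z => (g z).re) (χ := fun z => 2 * D 1 χ z)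
      ((tsupp_two.trans (tsupp_D χ 1)).trans tχ) hO r1
      (continuous_const.mul (smooth_D sχ 1).continuous)
  have a3 : Continuous fun z => (g z).im * (2 * D Complex.I χ z) :=
    cont_cut (U₂ := fun z => (g z).im) (χ := fun z => 2 * D Complex.I χ z)
      ((tsupp_two.trans (tsupp_D χ Complex.I)).trans tχ) hO i1
      (continuous_const.mul (smooth_D sχ Complex.I).continuous)
  have a4 : Continuous fun z => U z * Lap χ z :=
    cont_cut (U₂ := U) (χ := Lap χ) ((tsupp_Lap χ).trans tχ) hO cU (smooth_Lap sχ).continuous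
  exact ((a1.add a2).add a3).add a4

theorem FF_supp (kχ : HasCompactSupport χ) : HasCompactSupport (FF χ U w g) := by
  refine HasCompactSupport.intro kχ fun z hz => ?_
  unfold FF
  rw [zero_of_tsupp hz, D_zero_of_tsupp hz, D_zero_of_tsupp hz, Lap_zero_of_tsupp hz]
  ring

theorem GG_cont (hO : IsOpen O) (sχ : ContDiff ℝ ∞ χ) (tχ : tsupport χ ⊆ O)
    (cU : ContinuousOn U O) (cg : ContinuousOn g O) (v : ℂ) : Continuous (GG χ U g v) := by
  have e : ContinuousOn (fun z => inner ℝ (g z) v) O := by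
    have : (fun z => inner ℝ (g z) v) = fun z => v.re * (g z).re + v.im * (g z).im := by
      funext z
      rw [Complex.inner]
      simp
    rw [this]
    exact (continuousOn_const.mul (Complex.continuous_re.comp_continuousOn cg)).add
      (continuousOn_const.mul (Complex.continuous_im.comp_continuousOn cg))
  have a1 : Continuous fun z => inner ℝ (g z) v * χ z :=
    cont_cut (U₂ := fun z => inner ℝ (g z) v) tχ hO e sχ.continuous
  have a2 : Continuous fun z => U z * D v χ z :=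
    cont_cut (U₂ := U) (χ := D v χ) ((tsupp_D χ v).trans tχ) hO cU (smooth_D sχ v).continuous
  exact a1.add a2

theorem GG_supp (kχ : HasCompactSupport χ) (v : ℂ) : HasCompactSupport (GG χ U g v) := by
  refine HasCompactSupport.intro kχ fun z hz => ?_
  unfold GG
  rw [zero_of_tsupp hz, D_zero_of_tsupp hz]
  ring

/-- the gradient of `χ U` by the kernel -/
theorem rep (hO : IsOpen O) (W : Weak O U g w) (sχ : ContDiff ℝ ∞ χ) (kχ : HasCompactSupport χ)
    (tχ : tsupport χ ⊆ O) (cU : ContinuousOn U O) (cg : ContinuousOn g O)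
    (cw : ContinuousOn w O) (z : ℂ) :
    ((GG χ U g 1 z : ℝ) : ℂ) - Complex.I * ((GG χ U g Complex.I z : ℝ) : ℂ) =
      (2 * Real.pi : ℂ)⁻¹ * ∫ ζ, ((FF χ U w g ζ : ℝ) : ℂ) * (z - ζ)⁻¹ := by
  set F₁ : ℂ → ℝ := FF χ U w g with hF₁
  have cF₁ : Continuous F₁ := FF_cont hO sχ tχ cU cg cw
  have sF₁ : HasCompactSupport F₁ := FF_supp kχ
  have mP := mem_P W sχ kχ tχ
  obtain ⟨R, hR⟩ := kχ.isBounded.subset_closedBall (0 : ℂ)
  have out : ∀ z : ℂ, R < ‖z‖ → z ∉ tsupport χ := fun z hz h => by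
    have := hR h
    rw [mem_closedBall_zero_iff] at this
    linarith
  have zP : ∀ z : ℂ, R < ‖z‖ → U z * χ z = 0 := fun z hz => by
    rw [zero_of_tsupp (out z hz), mul_zero]
  have z₁ : ∀ z : ℂ, R < ‖z‖ → F₁ z = 0 := fun z hz => by
    show FF χ U w g z = 0
    unfold FF
    rw [zero_of_tsupp (out z hz), D_zero_of_tsupp (out z hz), D_zero_of_tsupp (out z hz),
      Lap_zero_of_tsupp (out z hz)]
    ring
  have δ1 : ∀ n : ℕ, 1 / ((n : ℝ) + 1) ≤ 1 := fun n => by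
    rw [div_le_one (by positivity)]
    have : (0 : ℝ) ≤ n := Nat.cast_nonneg n
    linarith
  have far : ∀ {G : ℂ → ℝ}, (∀ z : ℂ, R < ‖z‖ → G z = 0) → ∀ (n : ℕ) (x : ℂ), R + 1 < ‖x‖ →
      mo (ρ n) G x = 0 := by
    intro G hG n x hx
    refine mo_zero fun t ht => hG t ?_
    have h1 : ‖x‖ ≤ ‖x - t‖ + ‖t‖ := by
      calc ‖x‖ = ‖(x - t) + t‖ := by rw [sub_add_cancel]
        _ ≤ _ := norm_add_le _ _
    have := δ1 n
    linarith
  have sP : ∀ n, ContDiff ℝ ∞ (mo (ρ n) (fun z => U z * χ z)) := fun n =>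
    mo_smooth (ρ_smooth n) (ρ_supp n) (loc mP)
  have form : ∀ n : ℕ, ((mo (ρ n) (GG χ U g 1) z : ℝ) : ℂ) -
      Complex.I * ((mo (ρ n) (GG χ U g Complex.I) z : ℝ) : ℂ) = (2 * Real.pi : ℂ)⁻¹ *
      ∫ ζ, ((mo (ρ n) F₁ ζ : ℝ) : ℂ) * (z - ζ)⁻¹ := by
    intro n
    have h := pomp (sP n) (mo_supp zP) z
    rw [D_mo_cut W sχ kχ tχ n 1, D_mo_cut W sχ kχ tχ n Complex.I,
      (cut W sχ kχ tχ).mo (ρ_smooth n) (ρ_supp n) (loc mP)] at h
    exact h
  obtain ⟨C₁, hC₁⟩ := bound_P cF₁ sF₁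
  have kint : Integrable fun ζ => (Metric.closedBall (0 : ℂ) (R + 1 + ‖z‖)).indicator
      kk (z - ζ) := by
    have h1 : Integrable ((Metric.closedBall (0 : ℂ) (R + 1 + ‖z‖)).indicator kk) :=
      (integrable_indicator_iff Metric.isClosed_closedBall.measurableSet).mpr
        (kk_li.integrableOn_isCompact (isCompact_closedBall _ _))
    exact h1.comp_sub_left z
  have kbd : ∀ {G : ℂ → ℝ}, (∀ x : ℂ, R + 1 < ‖x‖ → G x = 0) → (∀ x, |G x| ≤ C₁) →
      ∀ ζ, ‖((G ζ : ℝ) : ℂ) * (z - ζ)⁻¹‖ ≤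
      C₁ * ‖(Metric.closedBall (0 : ℂ) (R + 1 + ‖z‖)).indicator kk (z - ζ)‖ := by
    intro G h0 hb ζ
    by_cases h : R + 1 < ‖ζ‖
    · rw [h0 ζ h]
      simp only [Complex.ofReal_zero, zero_mul, norm_zero]
      exact mul_nonneg ((abs_nonneg _).trans (hb 0)) (norm_nonneg _)
    · push Not at h
      have h1 : z - ζ ∈ Metric.closedBall (0 : ℂ) (R + 1 + ‖z‖) := by
        rw [mem_closedBall_zero_iff]
        calc ‖z - ζ‖ ≤ ‖z‖ + ‖ζ‖ := norm_sub_le _ _
          _ ≤ _ := by linarith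
      rw [indicator_of_mem h1, norm_mul, Complex.norm_real, Real.norm_eq_abs]
      exact mul_le_mul_of_nonneg_right (hb ζ) (norm_nonneg _)
  have meas : AEStronglyMeasurable (fun ζ : ℂ => (z - ζ)⁻¹) volume :=
    ((measurable_const.sub measurable_id).inv).aestronglyMeasurable
  have lim1 : Tendsto (fun n => ∫ ζ, ((mo (ρ n) F₁ ζ : ℝ) : ℂ) * (z - ζ)⁻¹) atTop
      (𝓝 (∫ ζ, ((F₁ ζ : ℝ) : ℂ) * (z - ζ)⁻¹)) := by
    refine tendsto_integral_of_dominated_convergence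
      (fun ζ => C₁ * ‖(Metric.closedBall (0 : ℂ) (R + 1 + ‖z‖)).indicator kk (z - ζ)‖)
      (fun n => ?_) (kint.norm.const_mul C₁)
      (fun n => Filter.Eventually.of_forall (kbd (far z₁ n) (mo_bdd cF₁ hC₁ n))) ?_
    · exact (Complex.continuous_ofReal.comp (mo_smooth (ρ_smooth n) (ρ_supp n)
        cF₁.locallyIntegrable).continuous).aestronglyMeasurable.mul meas
    · refine Filter.Eventually.of_forall fun ζ => ?_
      exact ((Complex.continuous_ofReal.tendsto _).comp (mo_pt cF₁ ζ)).mul_const _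
  have l1 : Tendsto (fun n => ((mo (ρ n) (GG χ U g 1) z : ℝ) : ℂ) -
      Complex.I * ((mo (ρ n) (GG χ U g Complex.I) z : ℝ) : ℂ)) atTop
      (𝓝 (((GG χ U g 1 z : ℝ) : ℂ) - Complex.I * ((GG χ U g Complex.I z : ℝ) : ℂ))) :=
    ((Complex.continuous_ofReal.tendsto _).comp (mo_pt (GG_cont hO sχ tχ cU cg 1) z)).sub
      (((Complex.continuous_ofReal.tendsto _).comp
        (mo_pt (GG_cont hO sχ tχ cU cg Complex.I) z)).const_mul _)
  exact tendsto_nhds_unique l1 ((lim1.const_mul _).congr fun n => (form n).symm)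

end rep

/-- the expansion of the kernel -/
theorem geo {z ζ : ℂ} (h0 : ζ ≠ 0) (h : z ≠ ζ) (k : ℕ) :
    (z - ζ)⁻¹ = (∑ j ∈ Finset.range k, -(z ^ j * (ζ ^ (j + 1))⁻¹)) +
      z ^ k * (ζ ^ k)⁻¹ * (z - ζ)⁻¹ := by
  have hs : z - ζ ≠ 0 := sub_ne_zero.mpr h
  induction k with
  | zero => simp
  | succ k ih =>
    rw [Finset.sum_range_succ]
    have e : z ^ k * (ζ ^ k)⁻¹ * (z - ζ)⁻¹ = -(z ^ k * (ζ ^ (k + 1))⁻¹) +
        z ^ (k + 1) * (ζ ^ (k + 1))⁻¹ * (z - ζ)⁻¹ := by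
      field_simp
      ring
    rw [add_assoc, ← e]
    exact ih

/-- the Taylor formula for the potential of a function which vanishes to the order `k` -/
theorem taylor {F : ℂ → ℝ} (cF : Continuous F) (sF : HasCompactSupport F) {k : ℕ} {C r : ℝ}
    (hr : 0 < r) (hF : ∀ ζ : ℂ, ‖ζ‖ < r → |F ζ| ≤ C * ‖ζ‖ ^ k) :
    ∃ (a : ℕ → ℂ) (M : ℝ), 0 ≤ M ∧ ∀ z : ℂ, ‖z‖ < r →
      ‖(∫ ζ, ((F ζ : ℝ) : ℂ) * (z - ζ)⁻¹) - ∑ j ∈ Finset.range k, a j * z ^ j‖ ≤ M * ‖z‖ ^ k := by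
  obtain ⟨R, hR⟩ := sF.isBounded.subset_closedBall (0 : ℂ)
  have out : ∀ z : ℂ, R < ‖z‖ → F z = 0 := fun z hz => by
    refine zero_of_tsupp fun h => ?_
    have := hR h
    rw [mem_closedBall_zero_iff] at this
    linarith
  obtain ⟨C₁, hC₁0, hC₁⟩ := bddC cF sF
  set C' := max C 0 with hC'
  have hC'0 : 0 ≤ C' := le_max_right _ _
  have hF' : ∀ ζ : ℂ, ‖ζ‖ < r → |F ζ| ≤ C' * ‖ζ‖ ^ k := fun ζ h =>
    (hF ζ h).trans (mul_le_mul_of_nonneg_right (le_max_left _ _) (by positivity))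
  -- the quotient is bounded
  set M0 := C' + C₁ / r ^ k with hM0
  have hM00 : 0 ≤ M0 := by positivity
  have bq : ∀ ζ : ℂ, ζ ≠ 0 → |F ζ| * (‖ζ‖ ^ k)⁻¹ ≤ M0 := by
    intro ζ hζ
    have hp : 0 < ‖ζ‖ ^ k := by
      have := norm_pos_iff.mpr hζ
      positivity
    rcases lt_or_ge ‖ζ‖ r with h | h
    · have h1 := hF' ζ h
      have h2 : |F ζ| * (‖ζ‖ ^ k)⁻¹ ≤ C' := by
        rw [← div_eq_mul_inv, div_le_iff₀ hp]
        exact h1
      have : 0 ≤ C₁ / r ^ k := by positivity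
      linarith
    · have h1 : |F ζ| ≤ C₁ := hC₁ ζ
      have h2 : (‖ζ‖ ^ k)⁻¹ ≤ (r ^ k)⁻¹ := inv_anti₀ (by positivity)
        (pow_le_pow_left₀ hr.le h k)
      have h3 : |F ζ| * (‖ζ‖ ^ k)⁻¹ ≤ C₁ * (r ^ k)⁻¹ :=
        mul_le_mul h1 h2 (by positivity) hC₁0
      rw [hM0, div_eq_mul_inv C₁]
      linarith
  have ae0 : ∀ᵐ ζ : ℂ, ζ ≠ 0 := by
    have : (volume : Measure ℂ) {0} = 0 := measure_singleton 0
    rw [ae_iff]
    simpa using this
  have aez : ∀ z : ℂ, ∀ᵐ ζ : ℂ, z ≠ ζ := by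
    intro z
    have : (volume : Measure ℂ) {z} = 0 := measure_singleton z
    rw [ae_iff]
    have e : {a | ¬ z ≠ a} = ({z} : Set ℂ) := by
      ext a
      simp [eq_comm]
    rw [e]
    exact this
  set S := Metric.closedBall (0 : ℂ) R with hS
  have mS : MeasurableSet S := Metric.isClosed_closedBall.measurableSet
  have iS : ∀ c : ℝ, Integrable (S.indicator fun _ => c) := fun c =>
    (integrable_indicator_iff mS).mpr (integrableOn_const (isCompact_closedBall _ _).measure_lt_top.ne)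
  have mF : AEStronglyMeasurable (fun ζ => ((F ζ : ℝ) : ℂ)) volume :=
    (Complex.continuous_ofReal.comp cF).aestronglyMeasurable
  -- the moments
  have im : ∀ j < k, Integrable fun ζ => ((F ζ : ℝ) : ℂ) * (ζ ^ (j + 1))⁻¹ := by
    intro j hj
    refine Integrable.mono' (iS (M0 * (max R r + 1) ^ k * (1 + (r ^ (j + 1))⁻¹) + C' * (r + 1) ^ k +
      C₁ * (r ^ (j + 1))⁻¹)) (mF.mul (((measurable_id.pow_const _).inv).aestronglyMeasurable)) ?_
    filter_upwards [ae0] with ζ hζ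
    have hp : 0 < ‖ζ‖ := norm_pos_iff.mpr hζ
    by_cases h : R < ‖ζ‖
    · rw [out ζ h]
      simp only [Complex.ofReal_zero, zero_mul, norm_zero]
      rw [indicator_of_notMem (by rw [hS, mem_closedBall_zero_iff]; exact not_le.mpr h)]
    · push Not at h
      rw [indicator_of_mem (show ζ ∈ S by rw [hS, mem_closedBall_zero_iff]; exact h),
        norm_mul, Complex.norm_real, norm_inv, norm_pow, Real.norm_eq_abs]
      have t1 : 0 ≤ M0 * (max R r + 1) ^ k * (1 + (r ^ (j + 1))⁻¹) := by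
        have : 0 ≤ max R r := le_max_of_le_right hr.le
        positivity
      rcases lt_or_ge ‖ζ‖ r with h1 | h1
      · have h2 := hF' ζ h1
        have h3 : |F ζ| * (‖ζ‖ ^ (j + 1))⁻¹ ≤ C' * ‖ζ‖ ^ (k - (j + 1)) := by
          rw [← div_eq_mul_inv, div_le_iff₀ (by positivity), mul_assoc, ← pow_add]
          have : k - (j + 1) + (j + 1) = k := by omega
          rw [this]
          exact h2
        have h4 : ‖ζ‖ ^ (k - (j + 1)) ≤ (r + 1) ^ k := by
          calc ‖ζ‖ ^ (k - (j + 1)) ≤ (r + 1) ^ (k - (j + 1)) :=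
                pow_le_pow_left₀ hp.le (by linarith) _
            _ ≤ (r + 1) ^ k := pow_le_pow_right₀ (by linarith) (by omega)
        have h5 : C' * ‖ζ‖ ^ (k - (j + 1)) ≤ C' * (r + 1) ^ k :=
          mul_le_mul_of_nonneg_left h4 hC'0
        have h6 : 0 ≤ C₁ * (r ^ (j + 1))⁻¹ := by positivity
        linarith
      · have h2 : |F ζ| ≤ C₁ := hC₁ ζ
        have h3 : (‖ζ‖ ^ (j + 1))⁻¹ ≤ (r ^ (j + 1))⁻¹ := inv_anti₀ (by positivity)
          (pow_le_pow_left₀ hr.le h1 _)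
        have h4 : |F ζ| * (‖ζ‖ ^ (j + 1))⁻¹ ≤ C₁ * (r ^ (j + 1))⁻¹ :=
          mul_le_mul h2 h3 (by positivity) hC₁0
        have h5 : 0 ≤ C' * (r + 1) ^ k := by positivity
        linarith
  -- the remainder
  have ik : Integrable ((Metric.closedBall (0 : ℂ) (R + r)).indicator kk) :=
    (integrable_indicator_iff Metric.isClosed_closedBall.measurableSet).mpr
      (kk_li.integrableOn_isCompact (isCompact_closedBall _ _))
  set J := ∫ ζ, ‖(Metric.closedBall (0 : ℂ) (R + r)).indicator kk ζ‖ with hJ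
  have hJ0 : 0 ≤ J := integral_nonneg fun _ => norm_nonneg _
  have bk : ∀ z : ℂ, ‖z‖ < r → ∀ᵐ ζ : ℂ, ‖((F ζ : ℝ) : ℂ) * (ζ ^ k)⁻¹ * (z - ζ)⁻¹‖ ≤
      M0 * ‖(Metric.closedBall (0 : ℂ) (R + r)).indicator kk (z - ζ)‖ := by
    intro z hz
    filter_upwards [ae0] with ζ hζ
    by_cases h : R < ‖ζ‖
    · rw [out ζ h]
      simp only [Complex.ofReal_zero, zero_mul, norm_zero]
      positivity
    · push Not at h
      have h1 : z - ζ ∈ Metric.closedBall (0 : ℂ) (R + r) := by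
        rw [mem_closedBall_zero_iff]
        calc ‖z - ζ‖ ≤ ‖z‖ + ‖ζ‖ := norm_sub_le _ _
          _ ≤ _ := by linarith
      rw [indicator_of_mem h1, norm_mul, norm_mul, Complex.norm_real, Real.norm_eq_abs, norm_inv,
        norm_pow]
      exact mul_le_mul_of_nonneg_right (bq ζ hζ) (norm_nonneg _)
  have irem : ∀ z : ℂ, ‖z‖ < r → Integrable fun ζ => ((F ζ : ℝ) : ℂ) * (ζ ^ k)⁻¹ * (z - ζ)⁻¹ := by
    intro z hz
    refine Integrable.mono' ((ik.comp_sub_left z).norm.const_mul M0) ?_ (bk z hz)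
    exact (mF.mul (((measurable_id.pow_const _).inv).aestronglyMeasurable)).mul
      ((measurable_const.sub measurable_id).inv).aestronglyMeasurable
  have brem : ∀ z : ℂ, ‖z‖ < r → ‖∫ ζ, ((F ζ : ℝ) : ℂ) * (ζ ^ k)⁻¹ * (z - ζ)⁻¹‖ ≤ M0 * J := by
    intro z hz
    refine (norm_integral_le_of_norm_le ((ik.comp_sub_left z).norm.const_mul M0) (bk z hz)).trans
      (le_of_eq ?_)
    rw [integral_const_mul, hJ]
    congr 1
    exact integral_sub_left_eq_self (fun ζ =>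
      ‖(Metric.closedBall (0 : ℂ) (R + r)).indicator kk ζ‖) volume z
  refine ⟨fun j => -∫ ζ, ((F ζ : ℝ) : ℂ) * (ζ ^ (j + 1))⁻¹, M0 * J, by positivity, fun z hz => ?_⟩
  have e1 : ∫ ζ, ((F ζ : ℝ) : ℂ) * (z - ζ)⁻¹ =
      (∑ j ∈ Finset.range k, -(∫ ζ, ((F ζ : ℝ) : ℂ) * (ζ ^ (j + 1))⁻¹) * z ^ j) +
        z ^ k * ∫ ζ, ((F ζ : ℝ) : ℂ) * (ζ ^ k)⁻¹ * (z - ζ)⁻¹ := by
    have e2 : ∫ ζ, ((F ζ : ℝ) : ℂ) * (z - ζ)⁻¹ =
        ∫ ζ, ((∑ j ∈ Finset.range k, -z ^ j * (((F ζ : ℝ) : ℂ) * (ζ ^ (j + 1))⁻¹)) +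
          z ^ k * (((F ζ : ℝ) : ℂ) * (ζ ^ k)⁻¹ * (z - ζ)⁻¹)) := by
      refine integral_congr_ae ?_
      filter_upwards [ae0, aez z] with ζ h0 h1
      rw [geo h0 h1 k, mul_add, Finset.mul_sum]
      congr 1
      · refine Finset.sum_congr rfl fun j _ => ?_
        ring
      · rw [← geo h0 h1 k]
        ring
    have i1 : ∀ j ∈ Finset.range k, Integrable fun ζ =>
        -z ^ j * (((F ζ : ℝ) : ℂ) * (ζ ^ (j + 1))⁻¹) := fun j hj =>
      (im j (Finset.mem_range.mp hj)).const_mul _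
    rw [e2, integral_add (integrable_finset_sum _ i1) ((irem z hz).const_mul _),
      integral_finset_sum _ i1, integral_const_mul]
    congr 1
    refine Finset.sum_congr rfl fun j _ => ?_
    rw [integral_const_mul]
    ring
  rw [e1, add_sub_cancel_left, norm_mul, norm_pow, mul_comm]
  exact mul_le_mul_of_nonneg_right (brem z hz) (by positivity)

end Pool.Agent.H15.UC
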