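import Pool.Agent.H15.UC.Lead1

/-!
# The expansion of a solution at a point
-/

set_option autoImplicit false

open Set Filter Topology MeasureTheory
open scoped ContDiff ComplexConjugate ENNReal

noncomputable section

namespace Pool.Agent.H15.UC

open Pool.Agent.H23.UC (Weak)

/-- the linear form with the coefficients `a`, `b` -/
def Lc (a b : ℝ) : ℂ →L[ℝ] ℝ := a • Complex.reCLM + b • Complex.imCLM

theorem Lc_apply (a b : ℝ) (v : ℂ) : Lc a b v = a * v.re + b * v.im := by
  simp [Lc]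

theorem Lc_bound (a b c d : ℝ) : ‖Lc a b - Lc c d‖ ≤ |a - c| + |b - d| := by
  refine ContinuousLinearMap.opNorm_le_bound _ (by positivity) fun v => ?_
  have e : (Lc a b - Lc c d) v = (a - c) * v.re + (b - d) * v.im := by
    rw [ContinuousLinearMap.sub_apply, Lc_apply, Lc_apply]
    ring
  rw [e, Real.norm_eq_abs]
  calc |(a - c) * v.re + (b - d) * v.im| ≤ |(a - c) * v.re| + |(b - d) * v.im| := abs_add_le _ _
    _ ≤ |a - c| * ‖v‖ + |b - d| * ‖v‖ := by
        rw [abs_mul, abs_mul]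
        exact add_le_add (mul_le_mul_of_nonneg_left (Complex.abs_re_le_norm v) (abs_nonneg _))
          (mul_le_mul_of_nonneg_left (Complex.abs_im_le_norm v) (abs_nonneg _))
    _ = (|a - c| + |b - d|) * ‖v‖ := by ring

section der
variable {O : Set ℂ} {U w χ : ℂ → ℝ} {g : ℂ → ℂ}

/-- `χ U` is differentiable -/
theorem cut_deriv (hO : IsOpen O) (W : Weak O U g w) (sχ : ContDiff ℝ ∞ χ)
    (kχ : HasCompactSupport χ) (tχ : tsupport χ ⊆ O) (cU : ContinuousOn U O)
    (cg : ContinuousOn g O) (z : ℂ) :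
    HasFDerivAt (fun z => U z * χ z) (Lc (GG χ U g 1 z) (GG χ U g Complex.I z)) z := by
  have cP : Continuous fun z => U z * χ z := cont_cut (U₂ := U) tχ hO cU sχ.continuous
  have sm : ∀ n, ContDiff ℝ ∞ (mo (ρ n) (fun z => U z * χ z)) := fun n =>
    mo_smooth (ρ_smooth n) (ρ_supp n) cP.locallyIntegrable
  have c1 := GG_cont hO sχ tχ cU cg 1
  have cI := GG_cont hO sχ tχ cU cg Complex.I
  refine hasFDerivAt_of_tendstoUniformly (l := atTop)
    (f := fun n => mo (ρ n) (fun z => U z * χ z))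
    (f' := fun n x => Lc (mo (ρ n) (GG χ U g 1) x) (mo (ρ n) (GG χ U g Complex.I) x))
    (g' := fun x => Lc (GG χ U g 1 x) (GG χ U g Complex.I x)) ?_ ?_ (fun x => mo_pt cP x) z
  · rw [Metric.tendstoUniformly_iff]
    intro ε hε
    have hε3 : 0 < ε / 3 := by positivity
    filter_upwards [mo_unif c1 (GG_supp kχ 1) hε3, mo_unif cI (GG_supp kχ Complex.I) hε3]
      with n h1 h2 x
    rw [dist_comm, dist_eq_norm]
    have := Lc_bound (mo (ρ n) (GG χ U g 1) x) (mo (ρ n) (GG χ U g Complex.I) x)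
      (GG χ U g 1 x) (GG χ U g Complex.I x)
    have := h1 x
    have := h2 x
    linarith
  · intro n x
    have h1 := (diff (sm n) x).hasFDerivAt
    have e : fderiv ℝ (mo (ρ n) (fun z => U z * χ z)) x =
        Lc (mo (ρ n) (GG χ U g 1) x) (mo (ρ n) (GG χ U g Complex.I) x) := by
      ext v
      rw [fderiv_eq, D_mo_cut W sχ kχ tχ n 1, D_mo_cut W sχ kχ tχ n Complex.I, Lc_apply]
      ring
    rw [e] at h1
    exact h1

end der

/-- the coefficients of a small polynomial vanish -/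
theorem coef0 {n m : ℕ} {a : ℕ → ℝ} {C r : ℝ} (hr : 0 < r)
    (h : ∀ t : ℝ, 0 < t → t < r → |∑ i ∈ Finset.range n, a i * t ^ i| ≤ C * t ^ m) :
    ∀ i, i < m → i < n → a i = 0 := by
  intro i
  induction i using Nat.strong_induction_on with
  | _ i ih =>
    intro him hin
    have hn : n = i + (n - i) := by omega
    set q : ℝ → ℝ := fun t => ∑ l ∈ Finset.range (n - i), a (i + l) * t ^ l with hq
    have cq : Continuous q := by
      refine continuous_finset_sum _ fun l _ => ?_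
      exact continuous_const.mul (continuous_pow l)
    have q0 : q 0 = a i := by
      show ∑ l ∈ Finset.range (n - i), a (i + l) * 0 ^ l = a i
      obtain ⟨m', hm'⟩ : ∃ m', n - i = m' + 1 := ⟨n - i - 1, by omega⟩
      rw [hm', Finset.sum_range_succ']
      simp
    have hb : ∀ t : ℝ, 0 < t → t < r → |q t| ≤ C * t ^ (m - i) := by
      intro t ht htr
      have h1 := h t ht htr
      have e : ∑ i ∈ Finset.range n, a i * t ^ i = t ^ i * q t := by
        rw [hn, Finset.sum_range_add, Finset.sum_eq_zero, zero_add]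
        · rw [hq, Finset.mul_sum]
          refine Finset.sum_congr rfl fun l _ => ?_
          rw [pow_add]
          ring
        · intro l hl
          rw [Finset.mem_range] at hl
          rw [ih l hl (by omega) (by omega), zero_mul]
      rw [e, abs_mul, abs_of_pos (pow_pos ht i)] at h1
      have h2 : C * t ^ m = t ^ i * (C * t ^ (m - i)) := by
        have : m = i + (m - i) := by omega
        nth_rewrite 1 [this]
        rw [pow_add]
        ring
      rw [h2] at h1
      exact le_of_mul_le_mul_left h1 (pow_pos ht i)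
    have l1 : Tendsto (fun t => |q t|) (𝓝[>] 0) (𝓝 |a i|) := by
      rw [← q0]
      exact (cq.abs.tendsto 0).mono_left nhdsWithin_le_nhds
    have l2 : Tendsto (fun t : ℝ => C * t ^ (m - i)) (𝓝[>] 0) (𝓝 0) := by
      have c : Continuous fun t : ℝ => C * t ^ (m - i) := by fun_prop
      have := c.tendsto 0
      rw [zero_pow (by omega), mul_zero] at this
      exact this.mono_left nhdsWithin_le_nhds
    have ev : ∀ᶠ t in 𝓝[>] (0 : ℝ), |q t| ≤ C * t ^ (m - i) := by
      have h1 : ∀ᶠ t in 𝓝[>] (0 : ℝ), t < r := nhdsWithin_le_nhds (eventually_lt_nhds hr)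
      filter_upwards [h1, self_mem_nhdsWithin] with t ht ht0
      exact hb t ht0 ht
    have := le_of_tendsto_of_tendsto l1 l2 ev
    exact abs_eq_zero.mp (le_antisymm this (abs_nonneg _))

/-- the same for the real part of a complex polynomial -/
theorem coefC {n m : ℕ} {β : ℕ → ℂ} {C r : ℝ} (hr : 0 < r)
    (h : ∀ z : ℂ, ‖z‖ < r → |(∑ i ∈ Finset.range n, β i * z ^ i).re| ≤ C * ‖z‖ ^ m) :
    ∀ i, 1 ≤ i → i < m → i < n → β i = 0 := by
  intro i hi him hin
  have key : ∀ u₁ : ℂ, ‖u₁‖ = 1 → (β i * u₁ ^ i).re = 0 := by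
    intro u₁ hu₁
    refine coef0 (n := n) (m := m) (a := fun i => (β i * u₁ ^ i).re) (C := C) hr ?_ i him hin
    intro t ht htr
    have hn : ‖(t : ℂ) * u₁‖ = t := by
      rw [norm_mul, hu₁, mul_one, Complex.norm_real, Real.norm_of_nonneg ht.le]
    have h1 := h ((t : ℂ) * u₁) (by rw [hn]; exact htr)
    rw [hn] at h1
    refine le_trans (le_of_eq ?_) h1
    congr 1
    rw [Complex.re_sum]
    refine Finset.sum_congr rfl fun l _ => ?_
    have e : β l * ((t : ℂ) * u₁) ^ l = ((t ^ l : ℝ) : ℂ) * (β l * u₁ ^ l) := by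
      push_cast
      ring
    rw [e, Complex.re_ofReal_mul]
    ring
  have h1 := key 1 (by simp)
  have hi0 : (i : ℝ) ≠ 0 := by
    have : 0 < i := hi
    positivity
  have h2 := key (Complex.exp (((Real.pi / (2 * i) : ℝ) : ℂ) * Complex.I)) (by
    rw [Complex.norm_exp_ofReal_mul_I])
  have e : Complex.exp (((Real.pi / (2 * i) : ℝ) : ℂ) * Complex.I) ^ i = Complex.I := by
    rw [← Complex.exp_nat_mul]
    have : (i : ℂ) * (((Real.pi / (2 * i) : ℝ) : ℂ) * Complex.I) = Real.pi / 2 * Complex.I := by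
      push_cast
      have : (i : ℂ) ≠ 0 := by exact_mod_cast hi0
      field_simp
    rw [this, Complex.exp_pi_div_two_mul_I]
  rw [e] at h2
  rw [one_pow, mul_one] at h1
  apply Complex.ext
  · exact h1
  · simp at h2
    rw [h2]
    rfl

/-- the expansion of a solution and of its gradient -/
theorem expand {O : Set ℂ} {U w : ℂ → ℝ} {g : ℂ → ℂ} (hO : IsOpen O) (W : Weak O U g w)
    (cU : ContinuousOn U O) (cg : ContinuousOn g O) (cw : ContinuousOn w O) {z₀ : ℂ} (hz₀ : z₀ ∈ O)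
    {k : ℕ} {C r₁ : ℝ} (hr₁ : 0 < r₁) (hw : ∀ z : ℂ, ‖z‖ < r₁ → |w (z₀ + z)| ≤ C * ‖z‖ ^ k) :
    ∃ (b : ℕ → ℂ) (M r : ℝ), 0 < r ∧ 0 ≤ M ∧ ∀ z : ℂ, ‖z‖ < r →
      ‖conj (g (z₀ + z)) - ∑ j ∈ Finset.range k, b j * z ^ j‖ ≤ M * ‖z‖ ^ k ∧
      |U (z₀ + z) - U z₀ - (∑ j ∈ Finset.range k, b j / (j + 1) * z ^ (j + 1)).re| ≤
        M * ‖z‖ ^ (k + 1) := by
  obtain ⟨r, χ, hr, sχ, kχ, tχ, hBO, one⟩ := setup hO hz₀
  set B := Metric.ball z₀ r with hB
  have oB : IsOpen B := Metric.isOpen_ball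
  have mB : ∀ {z : ℂ}, ‖z‖ < r → z₀ + z ∈ B := fun {z} hz => by
    rw [hB, Metric.mem_ball, dist_eq_norm, add_sub_cancel_left]
    exact hz
  set r' := min r r₁ with hr'
  have hr'0 : 0 < r' := lt_min hr hr₁
  set F : ℂ → ℝ := fun ζ => FF χ U w g (z₀ + ζ) with hF
  have cF : Continuous F := (FF_cont hO sχ tχ cU cg cw).comp (continuous_const.add continuous_id)
  have sF : HasCompactSupport F := by
    have h := (FF_supp (U := U) (w := w) (g := g) kχ).comp_homeomorph (Homeomorph.addLeft z₀)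
    exact h
  have nz : ∀ z ∈ B, FF χ U w g z = -w z := by
    intro z hz
    have h1 : D 1 χ z = 0 := D_one oB one hz 1
    have h2 : D Complex.I χ z = 0 := D_one oB one hz Complex.I
    have h3 : Lap χ z = 0 := by
      unfold Lap
      have e : ∀ v, D v (D v χ) z = 0 := by
        intro v
        have h4 : D v χ =ᶠ[𝓝 z] fun _ => 0 :=
          Filter.eventually_of_mem (oB.mem_nhds hz) fun y hy => D_one oB one hy v
        show fderiv ℝ (D v χ) z v = 0
        rw [h4.fderiv_eq]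
        simp
      rw [e, e, add_zero]
    unfold FF
    rw [h1, h2, h3, one z hz]
    ring
  have hFb : ∀ ζ : ℂ, ‖ζ‖ < r' → |F ζ| ≤ C * ‖ζ‖ ^ k := by
    intro ζ hζ
    show |FF χ U w g (z₀ + ζ)| ≤ _
    rw [nz _ (mB (lt_of_lt_of_le hζ (min_le_left _ _))), abs_neg]
    exact hw ζ (lt_of_lt_of_le hζ (min_le_right _ _))
  obtain ⟨a, M, hM0, hM⟩ := taylor cF sF hr'0 hFb
  have hpi : ‖(2 * Real.pi : ℂ)⁻¹‖ ≤ 1 := by
    rw [norm_inv, norm_mul, Complex.norm_real, Real.norm_of_nonneg Real.pi_pos.le]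
    have : (1 : ℝ) ≤ ‖(2 : ℂ)‖ * Real.pi := by
      rw [Complex.norm_ofNat]
      have := Real.pi_gt_three
      linarith
    exact inv_le_one_of_one_le₀ this
  set b : ℕ → ℂ := fun j => (2 * Real.pi : ℂ)⁻¹ * a j with hb
  -- the gradient
  have hrep : ∀ z : ℂ, ((GG χ U g 1 (z₀ + z) : ℝ) : ℂ) -
      Complex.I * ((GG χ U g Complex.I (z₀ + z) : ℝ) : ℂ) =
      (2 * Real.pi : ℂ)⁻¹ * ∫ ζ, ((F ζ : ℝ) : ℂ) * (z - ζ)⁻¹ := by
    intro z
    rw [rep hO W sχ kχ tχ cU cg cw (z₀ + z)]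
    congr 1
    rw [← integral_add_left_eq_self (fun ζ => ((FF χ U w g ζ : ℝ) : ℂ) * (z₀ + z - ζ)⁻¹) z₀]
    congr 1
    funext ζ
    rw [add_sub_add_left_eq_sub]
  have hG : ∀ z : ℂ, ‖z‖ < r' → ‖(((GG χ U g 1 (z₀ + z) : ℝ) : ℂ) -
      Complex.I * ((GG χ U g Complex.I (z₀ + z) : ℝ) : ℂ)) -
        ∑ j ∈ Finset.range k, b j * z ^ j‖ ≤ M * ‖z‖ ^ k := by
    intro z hz
    have e : (((GG χ U g 1 (z₀ + z) : ℝ) : ℂ) -
        Complex.I * ((GG χ U g Complex.I (z₀ + z) : ℝ) : ℂ)) -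
        ∑ j ∈ Finset.range k, b j * z ^ j = (2 * Real.pi : ℂ)⁻¹ *
        ((∫ ζ, ((F ζ : ℝ) : ℂ) * (z - ζ)⁻¹) - ∑ j ∈ Finset.range k, a j * z ^ j) := by
      rw [hrep z, mul_sub, Finset.mul_sum]
      congr 1
      refine Finset.sum_congr rfl fun j _ => ?_
      rw [hb]
      ring
    rw [e, norm_mul]
    calc ‖(2 * Real.pi : ℂ)⁻¹‖ * _ ≤ 1 * (M * ‖z‖ ^ k) :=
          mul_le_mul hpi (hM z hz) (norm_nonneg _) zero_le_one
      _ = _ := one_mul _
  refine ⟨b, M, r', hr'0, hM0, fun z hz => ⟨?_, ?_⟩⟩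
  · have hzB := mB (lt_of_lt_of_le hz (min_le_left _ _))
    have e : ((GG χ U g 1 (z₀ + z) : ℝ) : ℂ) -
        Complex.I * ((GG χ U g Complex.I (z₀ + z) : ℝ) : ℂ) = conj (g (z₀ + z)) := by
      unfold GG
      rw [one _ hzB, D_one oB one hzB, D_one oB one hzB, in1, inI]
      apply Complex.ext <;> simp
    rw [← e]
    exact hG z hz
  · -- the function
    set p : ℂ → ℂ := fun z => ∑ j ∈ Finset.range k, b j / (j + 1) * z ^ (j + 1) with hp
    set p' : ℂ → ℂ := fun z => ∑ j ∈ Finset.range k, b j * z ^ j with hp'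
    have dp : ∀ x, HasDerivAt p (p' x) x := by
      intro x
      have h1 : ∀ j ∈ Finset.range k, HasDerivAt (fun z : ℂ => b j / (j + 1) * z ^ (j + 1))
          (b j * x ^ j) x := by
        intro j _
        have h2 := (hasDerivAt_pow (j + 1) x).const_mul (b j / (j + 1))
        refine h2.congr_deriv ?_
        have : ((j : ℂ) + 1) ≠ 0 := by exact_mod_cast Nat.succ_ne_zero j
        push_cast
        field_simp
      have := HasDerivAt.fun_sum h1
      exact this
    set d : ℂ → ℝ := fun x => U (z₀ + x) * χ (z₀ + x) - (p x).re with hd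
    set Ld : ℂ → (ℂ →L[ℝ] ℝ) := fun x =>
      Lc (GG χ U g 1 (z₀ + x)) (GG χ U g Complex.I (z₀ + x)) - Lc (p' x).re (-(p' x).im) with hLd
    have dd' : ∀ x, HasFDerivAt d (Ld x) x := by
      intro x
      have h1 : HasFDerivAt (fun y : ℂ => z₀ + y) (ContinuousLinearMap.id ℝ ℂ) x :=
        (hasFDerivAt_id x).const_add z₀
      have h2 := (cut_deriv hO W sχ kχ tχ cU cg (z₀ + x)).comp x h1
      rw [ContinuousLinearMap.comp_id] at h2
      have h3 : HasFDerivAt p ((ContinuousLinearMap.smulRight (1 : ℂ →L[ℂ] ℂ) (p' x)).restrictScalars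
          ℝ) x := (dp x).hasFDerivAt.restrictScalars ℝ
      have h4 := Complex.reCLM.hasFDerivAt.comp x h3
      have e : (Complex.reCLM.comp ((ContinuousLinearMap.smulRight (1 : ℂ →L[ℂ] ℂ)
          (p' x)).restrictScalars ℝ)) = Lc (p' x).re (-(p' x).im) := by
        ext v
        rw [Lc_apply]
        simp
        ring
      rw [e] at h4
      exact h2.sub h4
    have bound : ∀ x, ‖x‖ ≤ ‖z‖ → ‖Ld x‖ ≤ M * ‖z‖ ^ k := by
      intro x hx
      have hxr : ‖x‖ < r' := lt_of_le_of_lt hx hz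
      have hMz : M * ‖x‖ ^ k ≤ M * ‖z‖ ^ k :=
        mul_le_mul_of_nonneg_left (pow_le_pow_left₀ (norm_nonneg _) hx k) hM0
      refine le_trans ?_ hMz
      refine ContinuousLinearMap.opNorm_le_bound _ (by positivity) fun v => ?_
      have e : Ld x v = (((((GG χ U g 1 (z₀ + x) : ℝ) : ℂ) -
          Complex.I * ((GG χ U g Complex.I (z₀ + x) : ℝ) : ℂ)) - p' x) * v).re := by
        show (Lc _ _ - Lc _ _) v = _
        rw [ContinuousLinearMap.sub_apply, Lc_apply, Lc_apply]
        simp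
        ring
      rw [e, Real.norm_eq_abs]
      refine (Complex.abs_re_le_norm _).trans ?_
      rw [norm_mul]
      exact mul_le_mul_of_nonneg_right (hG x hxr) (norm_nonneg _)
    have key := (convex_closedBall (0 : ℂ) ‖z‖).norm_image_sub_le_of_norm_hasFDerivWithin_le
      (f := d) (f' := Ld) (C := M * ‖z‖ ^ k) (x := 0) (y := z)
      (fun x _ => (dd' x).hasFDerivWithinAt)
      (fun x hx => bound x (mem_closedBall_zero_iff.mp hx))
      (mem_closedBall_zero_iff.mpr (by simp)) (mem_closedBall_zero_iff.mpr le_rfl)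
    rw [sub_zero, Real.norm_eq_abs] at key
    have e0 : d 0 = U z₀ := by
      show U (z₀ + 0) * χ (z₀ + 0) - (p 0).re = U z₀
      have : p 0 = 0 := by
        show ∑ j ∈ Finset.range k, b j / (j + 1) * (0 : ℂ) ^ (j + 1) = 0
        refine Finset.sum_eq_zero fun j _ => ?_
        rw [zero_pow (Nat.succ_ne_zero j), mul_zero]
      rw [this, add_zero, one z₀ (Metric.mem_ball_self hr)]
      simp
    have e1 : d z = U (z₀ + z) - (p z).re := by
      show U (z₀ + z) * χ (z₀ + z) - (p z).re = _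
      rw [one _ (mB (lt_of_lt_of_le hz (min_le_left _ _))), mul_one]
    rw [e0, e1] at key
    calc |U (z₀ + z) - U z₀ - (p z).re| = |U (z₀ + z) - (p z).re - U z₀| := by
          congr 1
          ring
      _ ≤ M * ‖z‖ ^ k * ‖z‖ := key
      _ = M * ‖z‖ ^ (k + 1) := by rw [pow_succ]; ring

end Pool.Agent.H15.UC
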