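import Pool.Agent.H15.UC.Prod
import Pool.Agent.H23.UC.Stm7

/-!
# Three solutions with `U ^ 2 + V ^ 2 = W ^ 2`
-/

set_option autoImplicit false

open Set Filter Topology MeasureTheory
open scoped ContDiff ComplexConjugate ENNReal

noncomputable section

namespace Pool.Agent.H15.UC

open Pool.Agent.H23.UC (Weak StThree)

/-- a continuous function with the weak gradient zero in a disc is constant in a smaller disc -/
theorem const_of_weak {f : ℂ → ℝ} {z₀ : ℂ} {r : ℝ} (hr : 0 < r)
    (hf : ContinuousOn f (Metric.ball z₀ r))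
    (h : ∀ (v : ℂ) (η : ℂ → ℝ), ContDiff ℝ ∞ η → HasCompactSupport η →
      tsupport η ⊆ Metric.ball z₀ r → ∫ z, f z * D v η z = 0) :
    ∀ z ∈ Metric.ball z₀ (r / 4), f z = f z₀ := by
  let χ : ContDiffBump z₀ := ⟨r / 2, 3 * r / 4, by positivity, by linarith⟩
  have ts : tsupport (fun z => χ z) ⊆ Metric.ball z₀ r := by
    rw [χ.tsupport_eq]
    refine Metric.closedBall_subset_ball ?_
    show 3 * r / 4 < r
    linarith
  set Q : ℂ → ℝ := fun z => f z * χ z with hQ
  have cQ : Continuous Q := cont_cut (U₂ := f) (χ := fun z => χ z) ts Metric.isOpen_ball hf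
    χ.continuous
  have one : ∀ z ∈ Metric.ball z₀ (r / 2), χ z = 1 := fun z hz =>
    χ.one_of_mem_closedBall (Metric.ball_subset_closedBall hz)
  have der : ∀ᶠ n : ℕ in atTop, ∀ x ∈ Metric.ball z₀ (r / 4), ∀ v, D v (mo (ρ n) Q) x = 0 := by
    have h1 : ∀ᶠ n : ℕ in atTop, 1 / ((n : ℝ) + 1) < r / 4 :=
      tendsto_δ.eventually (gt_mem_nhds (by positivity))
    filter_upwards [h1] with n hn x hx v
    rw [D_mo (ρ_smooth n) (ρ_supp n) cQ.locallyIntegrable v, mo_apply]
    set ζ : ℂ → ℝ := fun t => ρ n (x - t) with hζ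
    have sζ : ContDiff ℝ ∞ ζ := smooth_refl (ρ_smooth n) x
    have dζ : ∀ t, D v (ρ n) (x - t) = -D v ζ t := by
      intro t
      have := congrFun (D_refl (ρ_smooth n) x v) t
      rw [this, neg_neg]
    have tζ : tsupport ζ ⊆ Metric.closedBall x (1 / ((n : ℝ) + 1)) := by
      refine closure_minimal ?_ Metric.isClosed_closedBall
      intro t ht
      have h2 : ρ n (x - t) ≠ 0 := ht
      have h3 := ρ_zero h2
      rw [Metric.mem_closedBall, dist_eq_norm, norm_sub_rev]
      exact h3.le
    have tB : tsupport ζ ⊆ Metric.ball z₀ (r / 2) := by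
      intro t ht
      have h2 := tζ ht
      rw [Metric.mem_closedBall] at h2
      rw [Metric.mem_ball] at hx ⊢
      calc dist t z₀ ≤ dist t x + dist x z₀ := dist_triangle _ _ _
        _ < r / 2 := by linarith
    have cζ : HasCompactSupport ζ := (ρ_supp n).comp_homeomorph (Homeomorph.subLeft x)
    have h4 := h v ζ sζ cζ (tB.trans (Metric.ball_subset_ball (by linarith)))
    have h5 : ∫ t, Q t * D v (ρ n) (x - t) = -∫ z, f z * D v ζ z := by
      rw [← integral_neg]
      congr 1
      funext t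
      rw [dζ]
      by_cases ht : t ∈ tsupport ζ
      · show f t * χ t * -D v ζ t = _
        rw [one t (tB ht)]
        ring
      · rw [D_zero_of_tsupp ht]
        ring
    rw [h5, h4, neg_zero]
  intro z hz
  have h0 : z₀ ∈ Metric.ball z₀ (r / 4) := Metric.mem_ball_self (by positivity)
  have eq : ∀ᶠ n : ℕ in atTop, mo (ρ n) Q z = mo (ρ n) Q z₀ := by
    filter_upwards [der] with n hn
    have sm := diff (mo_smooth (ρ_smooth n) (ρ_supp n) cQ.locallyIntegrable)
    refine Metric.isOpen_ball.is_const_of_fderiv_eq_zero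
      (convex_ball z₀ (r / 4)).isPreconnected sm.differentiableOn ?_ hz h0
    intro x hx
    ext v
    exact hn x hx v
  have lim := tendsto_nhds_unique ((mo_pt cQ z).congr' eq) (mo_pt cQ z₀)
  have e : ∀ x ∈ Metric.ball z₀ (r / 4), Q x = f x := fun x hx => by
    show f x * χ x = _
    rw [one x (Metric.ball_subset_ball (by linarith) hx), mul_one]
  rw [e z hz, e z₀ h0] at lim
  exact lim

/-- a smooth function which is `1 / t` near `t₀` -/
theorem inv_fun {t₀ : ℝ} (h : t₀ ≠ 0) : ∃ F : ℝ → ℝ, ContDiff ℝ ∞ F ∧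
    ∀ t, |t - t₀| < |t₀| / 2 → F t = t⁻¹ ∧ deriv F t = -(t ^ 2)⁻¹ := by
  have hp : 0 < |t₀| := abs_pos.mpr h
  let ψ : ContDiffBump t₀ := ⟨|t₀| / 2, 3 * |t₀| / 4, by positivity, by linarith⟩
  have z0 : ∀ t, |t - t₀| < |t₀| → t ≠ 0 := by
    rintro t ht rfl
    rw [zero_sub, abs_neg] at ht
    exact lt_irrefl _ ht
  refine ⟨fun t => ψ t * t⁻¹, ?_, ?_⟩
  · rw [contDiff_iff_contDiffAt]
    intro t
    by_cases ht : t = 0
    · have h1 : (0 : ℝ) ∉ tsupport (fun t => ψ t) := by
        rw [ψ.tsupport_eq, Metric.mem_closedBall, Real.dist_eq, zero_sub, abs_neg]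
        show ¬ |t₀| ≤ 3 * |t₀| / 4
        intro h2
        linarith
      have h2 : (fun t => ψ t * t⁻¹) =ᶠ[𝓝 t] fun _ => 0 := by
        rw [ht]
        filter_upwards [(isClosed_tsupport (fun t => ψ t)).isOpen_compl.mem_nhds h1] with y hy
        have : ψ y = 0 := image_eq_zero_of_notMem_tsupport (f := fun t => ψ t) hy
        rw [this, zero_mul]
      exact contDiffAt_const.congr_of_eventuallyEq h2
    · exact ψ.contDiff.contDiffAt.mul (contDiffAt_inv ℝ ht)
  · intro t ht
    have h1 : t ∈ Metric.ball t₀ (|t₀| / 2) := by rwa [Metric.mem_ball, Real.dist_eq]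
    have e : (fun t => ψ t * t⁻¹) =ᶠ[𝓝 t] fun t => t⁻¹ := by
      filter_upwards [Metric.isOpen_ball.mem_nhds h1] with y hy
      rw [ψ.one_of_mem_closedBall (Metric.ball_subset_closedBall hy), one_mul]
    refine ⟨e.self_of_nhds, ?_⟩
    rw [e.deriv_eq, deriv_inv]

section alg
/-- Cauchy-Schwarz is an equality -/
theorem alg1 {U V W a b c a' b' c' : ℝ} (h : U ^ 2 + V ^ 2 = W ^ 2) (h1 : U * a + V * b = W * c)
    (h1' : U * a' + V * b' = W * c')
    (h2 : a ^ 2 + a' ^ 2 + (b ^ 2 + b' ^ 2) = c ^ 2 + c' ^ 2) :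
    W * a = U * c ∧ W * a' = U * c' := by
  have key : (W * a - U * c) ^ 2 + (W * a' - U * c') ^ 2 + (W * b - V * c) ^ 2 +
      (W * b' - V * c') ^ 2 = 0 := by
    have e : (W * a - U * c) ^ 2 + (W * a' - U * c') ^ 2 + (W * b - V * c) ^ 2 +
      (W * b' - V * c') ^ 2 = W ^ 2 * (a ^ 2 + a' ^ 2 + (b ^ 2 + b' ^ 2)) -
        2 * W * ((U * a + V * b) * c + (U * a' + V * b') * c') +
        (U ^ 2 + V ^ 2) * (c ^ 2 + c' ^ 2) := by ring
    rw [e, h, h1, h1', h2]
    ring
  have q1 := sq_nonneg (W * a - U * c)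
  have q2 := sq_nonneg (W * a' - U * c')
  have q3 := sq_nonneg (W * b - V * c)
  have q4 := sq_nonneg (W * b' - V * c')
  have z1 : (W * a - U * c) ^ 2 = 0 := by linarith
  have z2 : (W * a' - U * c') ^ 2 = 0 := by linarith
  exact ⟨sub_eq_zero.mp (pow_eq_zero_iff two_ne_zero |>.mp z1),
    sub_eq_zero.mp (pow_eq_zero_iff two_ne_zero |>.mp z2)⟩
end alg

section sq
variable {O B : Set ℂ} {U w χ η : ℂ → ℝ} {g : ℂ → ℂ}

theorem sqRule (W : Weak O U g w) (hχ : ContDiff ℝ ∞ χ)
    (hc : HasCompactSupport χ) (hO : tsupport χ ⊆ O) (oO : IsOpen O) (hU : ContinuousOn U O)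
    (hB : IsOpen B) (hBO : B ⊆ O) (h1 : ∀ z ∈ B, χ z = 1)
    (hη : ContDiff ℝ ∞ η) (hs : HasCompactSupport η) (ht : tsupport η ⊆ B) (v : ℂ) :
    ∫ z, inner ℝ (g z) v * (U z * η z) = -(1 / 2) * ∫ z, U z * (U z * D v η z) := by
  have h := chain W W hχ hc hO oO hU hB hBO h1 hη hs ht (F := fun x => x) contDiff_id v
  have e : ∀ z, U z * (deriv (fun x : ℝ => x) (U z) * η z) * inner ℝ (g z) v =
      inner ℝ (g z) v * (U z * η z) := by
    intro z
    rw [deriv_id'']
    ring
  simp only [e] at h
  linarith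

theorem li_inner (W : Weak O U g w) (hU : ContinuousOn U O) (hB : IsOpen B) (hBO : B ⊆ O)
    (v : ℂ) : LocallyIntegrableOn (fun z => U z * inner ℝ (g z) v) B := by
  rw [locallyIntegrableOn_iff hB.isLocallyClosed]
  intro K hK cK
  have : IsFiniteMeasure (volume.restrict K) := ⟨by
    rw [Measure.restrict_apply_univ]; exact cK.measure_lt_top⟩
  have h1 : IntegrableOn (fun z => inner ℝ (g z) v) K :=
    (mem_inner (W.mg _ (hK.trans hBO) cK) v).integrable (by norm_num)
  exact h1.continuousOn_mul (hU.mono (hK.trans hBO)) cK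

theorem li_sq (W : Weak O U g w) (hB : IsOpen B) (hBO : B ⊆ O) :
    LocallyIntegrableOn (fun z => (g z).re ^ 2 + (g z).im ^ 2) B := by
  rw [locallyIntegrableOn_iff hB.isLocallyClosed]
  intro K hK cK
  have m1 : MemLp (fun z => (g z).re) 2 (volume.restrict K) := (W.mg _ (hK.trans hBO) cK).re
  have m2 : MemLp (fun z => (g z).im) 2 (volume.restrict K) := (W.mg _ (hK.trans hBO) cK).im
  exact m1.integrable_sq.add m2.integrable_sq

end sq

/-- `LR-THREE` -/
theorem stThree : StThree := by
  intro O U V W gU gV gW μ oO cU cV cW cμ WU WV WW hsq z₀ hz₀ hW0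
  -- the discs
  have hev : ∀ᶠ z in 𝓝 z₀, z ∈ O ∧ |W z - W z₀| < |W z₀| / 2 := by
    have h0 : ∀ᶠ z in 𝓝 z₀, z ∈ O := oO.mem_nhds hz₀
    refine h0.and ?_
    have h1 := cW.continuousAt (oO.mem_nhds hz₀)
    have h2 := Metric.continuousAt_iff'.mp h1 (|W z₀| / 2) (by
      have := abs_pos.mpr hW0
      positivity)
    filter_upwards [h2] with z hz
    rwa [Real.dist_eq] at hz
  obtain ⟨ε, hε, hball⟩ := Metric.eventually_nhds_iff_ball.mp hev
  set r := ε / 4 with hr
  have hr0 : 0 < r := by positivity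
  let χ : ContDiffBump z₀ := ⟨r, 2 * r, hr0, by linarith⟩
  have ts : tsupport (fun z => χ z) ⊆ O := by
    rw [χ.tsupport_eq]
    intro z hz
    refine (hball z ?_).1
    refine Metric.closedBall_subset_ball ?_ hz
    show 2 * r < ε
    linarith
  have sχ : ContDiff ℝ ∞ (fun z => χ z) := χ.contDiff
  have kχ : HasCompactSupport (fun z => χ z) := χ.hasCompactSupport
  set B := Metric.ball z₀ r with hB
  have oB : IsOpen B := Metric.isOpen_ball
  have hBε : B ⊆ Metric.ball z₀ ε := Metric.ball_subset_ball (by linarith)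
  have hBO : B ⊆ O := fun z hz => (hball z (hBε hz)).1
  have one : ∀ z ∈ B, χ z = 1 := fun z hz =>
    χ.one_of_mem_closedBall (Metric.ball_subset_closedBall hz)
  -- integrability of the pieces
  have iI : ∀ {u : ℂ → ℝ} {g : ℂ → ℂ} {w : ℂ → ℝ}, Weak O u g w → ContinuousOn u O →
      ∀ (v : ℂ) (η : ℂ → ℝ), Continuous η → HasCompactSupport η → tsupport η ⊆ B →
      Integrable (fun z => inner ℝ (g z) v * (u z * η z)) := by
    intro u g w hw cu v η cη kη tη
    have h1 : Continuous (fun z => u z * η z) := cont_cut (U₂ := u) (tη.trans hBO) oO cu cη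
    exact int_K kη (mem_inner (hw.mg _ (tη.trans hBO) kη) v) h1 fun z h => by
      rw [zero_of_tsupp h, mul_zero]
  have iS : ∀ {u : ℂ → ℝ} {g : ℂ → ℂ} {w : ℂ → ℝ}, Weak O u g w → ContinuousOn u O →
      ∀ (v : ℂ) (η : ℂ → ℝ), ContDiff ℝ ∞ η → HasCompactSupport η → tsupport η ⊆ B →
      Integrable (fun z => u z * (u z * D v η z)) := by
    intro u g w hw cu v η cη kη tη
    have t' : tsupport (D v η) ⊆ O := ((tsupp_D η v).trans tη).trans hBO
    have h1 : Continuous (fun z => u z * D v η z) :=
      cont_cut (U₂ := u) t' oO cu (smooth_D cη v).continuous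
    exact int_K kη (hw.mU _ (tη.trans hBO) kη) h1 fun z h => by
      rw [D_zero_of_tsupp h, mul_zero]
  -- (2)
  have grad0 : ∀ v : ℂ, ∀ᵐ z, z ∈ B →
      U z * inner ℝ (gU z) v + V z * inner ℝ (gV z) v - W z * inner ℝ (gW z) v = 0 := by
    intro v
    refine oB.ae_eq_zero_of_integral_contDiff_smul_eq_zero
      (((li_inner WU cU oB hBO v).add (li_inner WV cV oB hBO v)).sub
        (li_inner WW cW oB hBO v)) ?_
    intro η sη kη tη
    have e1 := sqRule WU sχ kχ ts oO cU oB hBO one sη kη tη v
    have e2 := sqRule WV sχ kχ ts oO cV oB hBO one sη kη tη v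
    have e3 := sqRule WW sχ kχ ts oO cW oB hBO one sη kη tη v
    have j1 := iI WU cU v η sη.continuous kη tη
    have j2 := iI WV cV v η sη.continuous kη tη
    have j3 := iI WW cW v η sη.continuous kη tη
    have k1 := iS WU cU v η sη kη tη
    have k2 := iS WV cV v η sη kη tη
    have k3 := iS WW cW v η sη kη tη
    have f1 : ∫ z, η z • (U z * inner ℝ (gU z) v + V z * inner ℝ (gV z) v -
        W z * inner ℝ (gW z) v) = (∫ z, inner ℝ (gU z) v * (U z * η z)) +
        (∫ z, inner ℝ (gV z) v * (V z * η z)) - ∫ z, inner ℝ (gW z) v * (W z * η z) := by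
      have j12 : Integrable (fun z => inner ℝ (gU z) v * (U z * η z) +
        inner ℝ (gV z) v * (V z * η z)) := j1.add j2
      rw [← integral_add j1 j2, ← integral_sub j12 j3]
      congr 1
      funext z
      rw [smul_eq_mul]
      ring
    have f2 : (∫ z, U z * (U z * D v η z)) + (∫ z, V z * (V z * D v η z)) -
        ∫ z, W z * (W z * D v η z) = 0 := by
      have k12 : Integrable (fun z => U z * (U z * D v η z) + V z * (V z * D v η z)) :=
        k1.add k2
      rw [← integral_add k1 k2, ← integral_sub k12 k3, ← integral_zero ℂ ℝ]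
      congr 1
      funext z
      by_cases hz : z ∈ tsupport η
      · have := hsq z (hBO (tη hz))
        have e : U z * (U z * D v η z) + V z * (V z * D v η z) - W z * (W z * D v η z) =
          (U z ^ 2 + V z ^ 2 - W z ^ 2) * D v η z := by ring
        rw [e, this]
        ring
      · rw [D_zero_of_tsupp hz]
        ring
    rw [f1, e1, e2, e3]
    linarith
  -- (1)
  have norms : ∀ᵐ z, z ∈ B → (gU z).re ^ 2 + (gU z).im ^ 2 + ((gV z).re ^ 2 + (gV z).im ^ 2) -
      ((gW z).re ^ 2 + (gW z).im ^ 2) = 0 := by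
    refine oB.ae_eq_zero_of_integral_contDiff_smul_eq_zero
      (((li_sq WU oB hBO).add (li_sq WV oB hBO)).sub (li_sq WW oB hBO)) ?_
    intro η sη kη tη
    have e1 := energy WU WU sχ kχ ts oO cU oB hBO one sη kη tη
    have e2 := energy WV WV sχ kχ ts oO cV oB hBO one sη kη tη
    have e3 := energy WW WW sχ kχ ts oO cW oB hBO one sη kη tη
    -- integrability
    have t' : ∀ v, tsupport (D v η) ⊆ B := fun v => (tsupp_D η v).trans tη
    have in1 : ∀ z : ℂ, inner ℝ z (1 : ℂ) = z.re := by intro z; rw [Complex.inner]; simp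
    have inI : ∀ z : ℂ, inner ℝ z Complex.I = z.im := by intro z; rw [Complex.inner]; simp
    have a1 : ∀ {u : ℂ → ℝ} {g : ℂ → ℂ} {w : ℂ → ℝ}, Weak O u g w → ContinuousOn u O →
        Integrable (fun z => (g z).re * (u z * D 1 η z)) := by
      intro u g w hw cu
      have := iI hw cu 1 (D 1 η) (smooth_D sη 1).continuous (supp_D kη 1) (t' 1)
      simpa only [in1] using this
    have aI : ∀ {u : ℂ → ℝ} {g : ℂ → ℂ} {w : ℂ → ℝ}, Weak O u g w → ContinuousOn u O →
        Integrable (fun z => (g z).im * (u z * D Complex.I η z)) := by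
      intro u g w hw cu
      have := iI hw cu Complex.I (D Complex.I η) (smooth_D sη _).continuous (supp_D kη _) (t' _)
      simpa only [inI] using this
    have b1 : ∀ {u : ℂ → ℝ} {g : ℂ → ℂ} {w : ℂ → ℝ}, Weak O u g w →
        Integrable (fun z => (g z).re * η z * (g z).re) := by
      intro u g w hw
      have m : MemLp (fun z => (g z).re) 2 (volume.restrict (tsupport η)) :=
        (hw.mg _ (tη.trans hBO) kη).re
      have m1 : IntegrableOn (fun z => (g z).re ^ 2) (tsupport η) := m.integrable_sq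
      have m2 := m1.mul_continuousOn sη.continuous.continuousOn kη
      have m3 : Integrable (fun z => (g z).re ^ 2 * η z) :=
        (integrableOn_iff_integrable_of_support_subset (fun z hz => by
          by_contra h
          exact hz (by show (g z).re ^ 2 * η z = 0; rw [zero_of_tsupp h, mul_zero]))).mp m2
      refine m3.congr (Filter.Eventually.of_forall fun z => ?_)
      show (g z).re ^ 2 * η z = _
      ring
    have bI : ∀ {u : ℂ → ℝ} {g : ℂ → ℂ} {w : ℂ → ℝ}, Weak O u g w →
        Integrable (fun z => (g z).im * η z * (g z).im) := by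
      intro u g w hw
      have m : MemLp (fun z => (g z).im) 2 (volume.restrict (tsupport η)) :=
        (hw.mg _ (tη.trans hBO) kη).im
      have m1 : IntegrableOn (fun z => (g z).im ^ 2) (tsupport η) := m.integrable_sq
      have m2 := m1.mul_continuousOn sη.continuous.continuousOn kη
      have m3 : Integrable (fun z => (g z).im ^ 2 * η z) :=
        (integrableOn_iff_integrable_of_support_subset (fun z hz => by
          by_contra h
          exact hz (by show (g z).im ^ 2 * η z = 0; rw [zero_of_tsupp h, mul_zero]))).mp m2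
      refine m3.congr (Filter.Eventually.of_forall fun z => ?_)
      show (g z).im ^ 2 * η z = _
      ring
    have c1 : ∀ {u : ℂ → ℝ} {g : ℂ → ℂ}, Weak O u g (fun z => μ z * u z) →
        ContinuousOn u O → Integrable (fun z => μ z * u z * (u z * η z)) := by
      intro u g hw cu
      have h1 : Continuous (fun z => u z * η z) :=
        cont_cut (U₂ := u) (tη.trans hBO) oO cu sη.continuous
      exact int_K kη (hw.mw _ (tη.trans hBO) kη) h1 fun z h => by
        rw [zero_of_tsupp h, mul_zero]
    -- the cross terms vanish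
    have cross : ∀ (v : ℂ), (∫ z, inner ℝ (gU z) v * (U z * D v η z)) +
        (∫ z, inner ℝ (gV z) v * (V z * D v η z)) -
        ∫ z, inner ℝ (gW z) v * (W z * D v η z) = 0 := by
      intro v
      have j1 := iI WU cU v (D v η) (smooth_D sη v).continuous (supp_D kη v) (t' v)
      have j2 := iI WV cV v (D v η) (smooth_D sη v).continuous (supp_D kη v) (t' v)
      have j3 := iI WW cW v (D v η) (smooth_D sη v).continuous (supp_D kη v) (t' v)
      have j12 : Integrable (fun z => inner ℝ (gU z) v * (U z * D v η z) +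
        inner ℝ (gV z) v * (V z * D v η z)) := j1.add j2
      rw [← integral_add j1 j2, ← integral_sub j12 j3, ← integral_zero ℂ ℝ]
      refine integral_congr_ae ?_
      filter_upwards [grad0 v] with z hz
      by_cases h : z ∈ tsupport η
      · have h2 := hz (tη h)
        have e : inner ℝ (gU z) v * (U z * D v η z) + inner ℝ (gV z) v * (V z * D v η z) -
          inner ℝ (gW z) v * (W z * D v η z) = (U z * inner ℝ (gU z) v +
            V z * inner ℝ (gV z) v - W z * inner ℝ (gW z) v) * D v η z := by ring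
        rw [e, h2, zero_mul]
      · rw [D_zero_of_tsupp h]
        ring
    have x1 := cross 1
    have xI := cross Complex.I
    simp only [in1] at x1
    simp only [inI] at xI
    have rhs : (∫ z, μ z * U z * (U z * η z)) + (∫ z, μ z * V z * (V z * η z)) -
        ∫ z, μ z * W z * (W z * η z) = 0 := by
      have j1 := c1 WU cU
      have j2 := c1 WV cV
      have j3 := c1 WW cW
      have j12 : Integrable (fun z => μ z * U z * (U z * η z) + μ z * V z * (V z * η z)) :=
        j1.add j2
      rw [← integral_add j1 j2, ← integral_sub j12 j3, ← integral_zero ℂ ℝ]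
      congr 1
      funext z
      by_cases hz : z ∈ tsupport η
      · have := hsq z (hBO (tη hz))
        have e : μ z * U z * (U z * η z) + μ z * V z * (V z * η z) - μ z * W z * (W z * η z) =
          (U z ^ 2 + V z ^ 2 - W z ^ 2) * (μ z * η z) := by ring
        rw [e, this]
        ring
      · rw [zero_of_tsupp hz]
        ring
    have f1 : ∫ z, η z • ((gU z).re ^ 2 + (gU z).im ^ 2 + ((gV z).re ^ 2 + (gV z).im ^ 2) -
        ((gW z).re ^ 2 + (gW z).im ^ 2)) =
        ((∫ z, (gU z).re * η z * (gU z).re) + ∫ z, (gU z).im * η z * (gU z).im) +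
        ((∫ z, (gV z).re * η z * (gV z).re) + ∫ z, (gV z).im * η z * (gV z).im) -
        ((∫ z, (gW z).re * η z * (gW z).re) + ∫ z, (gW z).im * η z * (gW z).im) := by
      have p1 : Integrable (fun z => (gU z).re * η z * (gU z).re +
        (gU z).im * η z * (gU z).im) := (b1 WU).add (bI WU)
      have p2 : Integrable (fun z => (gV z).re * η z * (gV z).re +
        (gV z).im * η z * (gV z).im) := (b1 WV).add (bI WV)
      have p3 : Integrable (fun z => (gW z).re * η z * (gW z).re +
        (gW z).im * η z * (gW z).im) := (b1 WW).add (bI WW)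
      have p12 : Integrable (fun z => (gU z).re * η z * (gU z).re +
        (gU z).im * η z * (gU z).im + ((gV z).re * η z * (gV z).re +
        (gV z).im * η z * (gV z).im)) := p1.add p2
      rw [← integral_add (b1 WU) (bI WU), ← integral_add (b1 WV) (bI WV),
        ← integral_add (b1 WW) (bI WW), ← integral_add p1 p2, ← integral_sub p12 p3]
      congr 1
      funext z
      rw [smul_eq_mul]
      ring
    rw [f1]
    linarith
  -- (3)
  have prop : ∀ v : ℂ, ∀ᵐ z, z ∈ B → W z * inner ℝ (gU z) v = U z * inner ℝ (gW z) v := by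
    intro v
    filter_upwards [grad0 1, grad0 Complex.I, norms] with z h1 hI hn hz
    have in1 : ∀ z : ℂ, inner ℝ z (1 : ℂ) = z.re := by intro z; rw [Complex.inner]; simp
    have inI : ∀ z : ℂ, inner ℝ z Complex.I = z.im := by intro z; rw [Complex.inner]; simp
    have q1 := h1 hz
    have qI := hI hz
    have qn := hn hz
    simp only [in1] at q1
    simp only [inI] at qI
    obtain ⟨r1, r2⟩ := alg1 (hsq z (hBO hz)) (sub_eq_zero.mp q1) (sub_eq_zero.mp qI)
      (sub_eq_zero.mp qn)
    have e : ∀ a : ℂ, inner ℝ a v = v.re * a.re + v.im * a.im := by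
      intro a
      rw [Complex.inner]
      simp
    rw [e, e]
    linear_combination v.re * r1 + v.im * r2
  -- (4)
  obtain ⟨F, sF, hF⟩ := inv_fun hW0
  have hFB : ∀ z ∈ B, F (W z) = (W z)⁻¹ ∧ deriv F (W z) = -(W z ^ 2)⁻¹ := fun z hz =>
    hF _ (hball z (hBε hz)).2
  have hWne : ∀ z ∈ B, W z ≠ 0 := by
    intro z hz h0
    have h1 := (hball z (hBε hz)).2
    rw [h0, zero_sub, abs_neg] at h1
    have := abs_pos.mpr hW0
    linarith
  have zero : ∀ (v : ℂ) (η : ℂ → ℝ), ContDiff ℝ ∞ η → HasCompactSupport η → tsupport η ⊆ B →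
      ∫ z, U z / W z * D v η z = 0 := by
    intro v η sη kη tη
    have h := chain WU WW sχ kχ ts oO cW oB hBO one sη kη tη sF v
    have e1 : ∫ z, U z * (F (W z) * D v η z) = ∫ z, U z / W z * D v η z := by
      congr 1
      funext z
      by_cases hz : z ∈ tsupport η
      · rw [(hFB z (tη hz)).1]
        ring
      · rw [D_zero_of_tsupp hz]
        ring
    have e2 : ∫ z, U z * (deriv F (W z) * η z) * inner ℝ (gW z) v =
        -∫ z, inner ℝ (gU z) v * (F (W z) * η z) := by
      rw [← integral_neg]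
      refine integral_congr_ae ?_
      filter_upwards [prop v] with z hz
      by_cases h2 : z ∈ tsupport η
      · rw [(hFB z (tη h2)).1, (hFB z (tη h2)).2]
        have h3 := hz (tη h2)
        have h4 := hWne z (tη h2)
        have h5 : U z * (-(W z ^ 2)⁻¹ * η z) * inner ℝ (gW z) v =
            -((W z ^ 2)⁻¹ * η z * (U z * inner ℝ (gW z) v)) := by ring
        rw [h5, ← h3]
        field_simp
      · rw [zero_of_tsupp h2]
        ring
    rw [e1, e2] at h
    linarith
  -- (5)
  have cQ : ContinuousOn (fun z => U z / W z) B :=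
    (cU.mono hBO).div (cW.mono hBO) hWne
  have fin := const_of_weak hr0 cQ zero
  refine ⟨U z₀ / W z₀, Metric.ball z₀ (r / 4), Metric.isOpen_ball,
    Metric.mem_ball_self (by positivity), (Metric.ball_subset_ball (by linarith)).trans hBO, ?_⟩
  intro z hz
  have h1 : U z / W z = U z₀ / W z₀ := fin z hz
  have h2 := hWne z (Metric.ball_subset_ball (by linarith) hz)
  rw [← h1]
  field_simp

end Pool.Agent.H15.UC
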