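import Pool.Agent.H15.UC.Rank4
import Pool.Agent.H15.UC.Three
import Pool.Agent.H23.CL.PropC
import Pool.Agent.H23.CL.GC2
import Pool.Agent.H23.UC.Stm8

/-!
# Three solutions of rank two are linearly dependent
-/

set_option autoImplicit false

open Set Filter Topology MeasureTheory
open scoped ContDiff ComplexConjugate ENNReal

noncomputable section

namespace Pool.Agent.H15.UC

open Pool.Agent.H23.UC (Weak StRank det3)
open Pool.Agent.H23.CL.GC (prop_const weak_sub_mul stGrad)

theorem weak_congr {O : Set ℂ} {U w : ℂ → ℝ} {g g' : ℂ → ℂ} (W : Weak O U g w) (oO : IsOpen O)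
    (h : ∀ᵐ z ∂(volume.restrict O), g z = g' z) : Weak O U g' w where
  mU := W.mU
  mg := fun K hK cK =>
    (memLp_congr_ae (ae_restrict_of_ae_restrict_of_subset hK h)).mp (W.mg K hK cK)
  mw := W.mw
  grad := by
    intro η sη kη tη v
    rw [W.grad η sη kη tη v]
    congr 1
    refine integral_congr_ae ?_
    rw [ae_restrict_iff' oO.measurableSet] at h
    filter_upwards [h] with z hz
    by_cases hz' : z ∈ tsupport η
    · rw [hz (tη hz')]
    · rw [zero_of_tsupp hz']
      ring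
  lap := by
    intro η sη kη tη
    rw [← W.lap η sη kη tη]
    refine integral_congr_ae ?_
    rw [ae_restrict_iff' oO.measurableSet] at h
    filter_upwards [h] with z hz
    by_cases hz' : z ∈ tsupport η
    · rw [hz (tη hz')]
    · rw [fderiv_eq, fderiv_eq, D_zero_of_tsupp hz', D_zero_of_tsupp hz']
      ring

theorem weak_mono {O O' : Set ℂ} {U w : ℂ → ℝ} {g : ℂ → ℂ} (W : Weak O U g w) (h : O' ⊆ O) :
    Weak O' U g w :=
  ⟨fun K hK => W.mU K (hK.trans h), fun K hK => W.mg K (hK.trans h),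
    fun K hK => W.mw K (hK.trans h), fun η s k t v => W.grad η s k (t.trans h) v,
    fun η s k t => W.lap η s k (t.trans h)⟩

theorem cont_cutC {O : Set ℂ} {X : ℂ → ℂ} {χ : ℂ → ℝ} (oO : IsOpen O) (t : tsupport χ ⊆ O)
    (cX : ContinuousOn X O) (cχ : Continuous χ) : Continuous fun z => ((χ z : ℝ) : ℂ) * X z := by
  have h2 : ContinuousOn (fun z => ((χ z : ℝ) : ℂ) * X z) O :=
    (Complex.continuous_ofReal.comp cχ).continuousOn.mul cX
  rw [continuous_iff_continuousAt]
  intro z
  by_cases hz : z ∈ tsupport χ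
  · exact h2.continuousAt (oO.mem_nhds (t hz))
  · have h3 : (fun z => ((χ z : ℝ) : ℂ) * X z) =ᶠ[𝓝 z] fun _ => 0 := by
      filter_upwards [(isClosed_tsupport χ).isOpen_compl.mem_nhds hz] with y hy
      rw [zero_of_tsupp hy]
      simp
    exact continuousAt_const.congr h3.symm

section alg
variable {u v w : ℝ} {p q s : ℂ}

theorem alg_im (h : det3 u v w p q s = 0) :
    ((((w : ℝ) : ℂ) * conj q - ((v : ℝ) : ℂ) * conj s) *
      conj (((w : ℝ) : ℂ) * conj p - ((u : ℝ) : ℂ) * conj s)).im = 0 := by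
  unfold det3 at h
  simp
  linear_combination (-w) * h

theorem alg_h (h : det3 u v w p q s = 0) :
    (((w : ℝ) : ℂ) * conj p - ((u : ℝ) : ℂ) * conj s) * (s * conj q - conj s * q) =
      (((w : ℝ) : ℂ) * conj q - ((v : ℝ) : ℂ) * conj s) * (s * conj p - conj s * p) := by
  unfold det3 at h
  apply Complex.ext
  · simp
    linear_combination (2 * s.im) * h
  · simp
    linear_combination (-2 * s.re) * h

end alg

/-- `LR-RANK` -/
theorem stRank : StRank := by
  intro O U V W gU gV gW ρ oO nO cU cV cW cρ WU WV WW hdet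
  obtain ⟨GU, cGU, eU⟩ := stGrad O U gU _ oO cU (cρ.mul cU) WU
  obtain ⟨GV, cGV, eV⟩ := stGrad O V gV _ oO cV (cρ.mul cV) WV
  obtain ⟨GW, cGW, eW⟩ := stGrad O W gW _ oO cW (cρ.mul cW) WW
  have WU' := weak_congr WU oO eU
  have WV' := weak_congr WV oO eV
  have WW' := weak_congr WW oO eW
  have det0 : ∀ z ∈ O, det3 (U z) (V z) (W z) (GU z) (GV z) (GW z) = 0 := by
    have h : (fun z => det3 (U z) (V z) (W z) (GU z) (GV z) (GW z)) =ᵐ[volume.restrict O]
        fun _ => 0 := by
      filter_upwards [hdet, eU, eV, eW] with z h1 h2 h3 h4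
      rw [← h2, ← h3, ← h4]
      exact h1
    have rU := Complex.continuous_re.comp_continuousOn cGU
    have rV := Complex.continuous_re.comp_continuousOn cGV
    have rW := Complex.continuous_re.comp_continuousOn cGW
    have iU := Complex.continuous_im.comp_continuousOn cGU
    have iV := Complex.continuous_im.comp_continuousOn cGV
    have iW := Complex.continuous_im.comp_continuousOn cGW
    exact Measure.eqOn_open_of_ae_eq h oO
      (((cU.mul ((rV.mul iW).sub (iV.mul rW))).sub (cV.mul ((rU.mul iW).sub (iU.mul rW)))).add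
        (cW.mul ((rU.mul iV).sub (iU.mul rV)))) continuousOn_const
  have cjU : ContinuousOn (fun z => conj (GU z)) O := Complex.continuous_conj.comp_continuousOn cGU
  have cjV : ContinuousOn (fun z => conj (GV z)) O := Complex.continuous_conj.comp_continuousOn cGV
  have cjW : ContinuousOn (fun z => conj (GW z)) O := Complex.continuous_conj.comp_continuousOn cGW
  have crU : ContinuousOn (fun z => ((U z : ℝ) : ℂ)) O :=
    Complex.continuous_ofReal.comp_continuousOn cU
  have crV : ContinuousOn (fun z => ((V z : ℝ) : ℂ)) O :=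
    Complex.continuous_ofReal.comp_continuousOn cV
  have crW : ContinuousOn (fun z => ((W z : ℝ) : ℂ)) O :=
    Complex.continuous_ofReal.comp_continuousOn cW
  by_cases hA : ∃ z ∈ O, W z ≠ 0
  swap
  · push Not at hA
    exact ⟨0, 0, 1, O, Or.inr (Or.inr one_ne_zero), oO, nO, subset_rfl, fun z hz => by
      rw [hA z hz]; ring⟩
  obtain ⟨z₁, hz₁, hW₁⟩ := hA
  set O₁ := O ∩ W ⁻¹' {0}ᶜ with hO₁
  have o₁ : IsOpen O₁ := cW.isOpen_inter_preimage oO isOpen_compl_singleton
  have s₁ : O₁ ⊆ O := inter_subset_left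
  set F : ℂ → ℂ := wr U W GU GW with hF
  set H : ℂ → ℂ := wr V W GV GW with hH
  set f : ℂ → ℂ := wr' GU GW with hf
  set h : ℂ → ℂ := wr' GV GW with hh
  have cF : ContinuousOn F O := (crW.mul cjU).sub (crU.mul cjW)
  have cH : ContinuousOn H O := (crW.mul cjV).sub (crV.mul cjW)
  have cf : ContinuousOn f O := (cGW.mul cjU).sub (cjW.mul cGU)
  by_cases hB : ∃ z ∈ O₁, F z ≠ 0
  swap
  · push Not at hB
    have hp : ∀ᵐ z ∂(volume.restrict O₁), ((W z : ℝ) : ℂ) * GU z = ((U z : ℝ) : ℂ) * GW z := by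
      refine (ae_restrict_mem o₁.measurableSet).mono fun z hz => ?_
      have h1 : ((W z : ℝ) : ℂ) * conj (GU z) - ((U z : ℝ) : ℂ) * conj (GW z) = 0 := hB z hz
      have h2 := congrArg conj h1
      simp only [map_sub, map_mul, Complex.conj_ofReal, Complex.conj_conj, map_zero] at h2
      exact sub_eq_zero.mp h2
    obtain ⟨c, B, oB, nB, hBO, hc⟩ := prop_const o₁ ⟨z₁, hz₁, hW₁⟩ (cU.mono s₁) (cW.mono s₁)
      (weak_mono WU' s₁) (weak_mono WW' s₁) (fun z hz => hz.2) hp
    exact ⟨1, 0, -c, B, Or.inl one_ne_zero, oB, nB, hBO.trans s₁, fun z hz => by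
      rw [hc z hz]; ring⟩
  obtain ⟨z₂, hz₂, hF₂⟩ := hB
  set O₂ := O₁ ∩ F ⁻¹' {0}ᶜ with hO₂
  have o₂ : IsOpen O₂ := (cF.mono s₁).isOpen_inter_preimage o₁ isOpen_compl_singleton
  have s₂ : O₂ ⊆ O := inter_subset_left.trans s₁
  obtain ⟨r, χ, hr, sχ, kχ, tχ, hBO, one⟩ := setup o₂ (show z₂ ∈ O₂ from ⟨hz₂, hF₂⟩)
  set μ : ℂ → ℝ := fun z => (H z * conj (F z)).re / Complex.normSq (F z) with hμ
  have hH' : ∀ z ∈ O₂, H z = ((μ z : ℝ) : ℂ) * F z := by
    intro z hz
    have hFz : F z ≠ 0 := hz.2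
    have him : (H z * conj (F z)).im = 0 := alg_im (det0 z (s₂ hz))
    have e1 : H z * conj (F z) = (((H z * conj (F z)).re : ℝ) : ℂ) := by
      apply Complex.ext
      · simp
      · rw [him]
        simp
    have e2 : H z * (Complex.normSq (F z) : ℂ) = (((H z * conj (F z)).re : ℝ) : ℂ) * F z := by
      rw [← e1, ← Complex.mul_conj]
      ring
    have e3 : (Complex.normSq (F z) : ℂ) ≠ 0 := by
      rw [Complex.ofReal_ne_zero]
      exact (Complex.normSq_pos.mpr hFz).ne'
    show H z = (((H z * conj (F z)).re / Complex.normSq (F z) : ℝ) : ℂ) * F z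
    rw [Complex.ofReal_div, div_mul_eq_mul_div, ← e2, mul_div_assoc, div_self e3, mul_one]
  have hh' : ∀ z ∈ O₂, h z = ((μ z : ℝ) : ℂ) * f z := by
    intro z hz
    have hFz : F z ≠ 0 := hz.2
    have e : F z * h z = H z * f z := alg_h (det0 z (s₂ hz))
    rw [hH' z hz] at e
    refine mul_left_cancel₀ hFz ?_
    rw [e]
    ring
  have cμ : ContinuousOn μ O₂ := by
    refine ContinuousOn.div ?_ ?_ ?_
    · exact Complex.continuous_re.comp_continuousOn
        ((cH.mono s₂).mul (Complex.continuous_conj.comp_continuousOn (cF.mono s₂)))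
    · exact Complex.continuous_normSq.comp_continuousOn (cF.mono s₂)
    · intro z hz
      exact (Complex.normSq_pos.mpr hz.2).ne'
  -- the cutoffs
  have kC : ∀ X : ℂ → ℂ, HasCompactSupport fun z => ((χ z : ℝ) : ℂ) * X z := fun X =>
    HasCompactSupport.intro kχ fun z hz => by rw [zero_of_tsupp hz]; simp
  have tO := tχ.trans s₂
  have bO := hBO.trans s₂
  have hE : ∀ θ : ℂ → ℝ, ContDiff ℝ ∞ θ → HasCompactSupport θ → tsupport θ ⊆ Metric.ball z₂ r →
      ∫ z, (((χ z : ℝ) : ℂ) * F z) * dd θ z =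
        -∫ z, (((χ z : ℝ) : ℂ) * f z) * ((θ z : ℝ) : ℂ) := by
    intro θ sθ kθ tθ
    have e := wr_eq oO WU' WW' cU cW cρ cGU cGW sχ kχ tO Metric.isOpen_ball bO one sθ kθ tθ
    have e1 : ∫ z, (((χ z : ℝ) : ℂ) * F z) * dd θ z = ∫ z, F z * dd θ z := by
      congr 1
      funext z
      by_cases hz : z ∈ tsupport θ
      · rw [one z (tθ hz)]
        simp
      · rw [dd_zero hz]
        simp
    have e2 : ∫ z, (((χ z : ℝ) : ℂ) * f z) * ((θ z : ℝ) : ℂ) = ∫ z, f z * ((θ z : ℝ) : ℂ) := by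
      congr 1
      funext z
      by_cases hz : z ∈ tsupport θ
      · rw [one z (tθ hz)]
        simp
      · rw [zero_of_tsupp hz]
        simp
    rw [e1, e2]
    exact e
  have hHE : ∀ θ : ℂ → ℝ, ContDiff ℝ ∞ θ → HasCompactSupport θ → tsupport θ ⊆ Metric.ball z₂ r →
      ∫ z, ((μ z * χ z : ℝ) : ℂ) * (((χ z : ℝ) : ℂ) * F z) * dd θ z =
        -∫ z, ((μ z * χ z : ℝ) : ℂ) * (((χ z : ℝ) : ℂ) * f z) * ((θ z : ℝ) : ℂ) := by
    intro θ sθ kθ tθ
    have e := wr_eq oO WV' WW' cV cW cρ cGV cGW sχ kχ tO Metric.isOpen_ball bO one sθ kθ tθ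
    have e1 : ∫ z, ((μ z * χ z : ℝ) : ℂ) * (((χ z : ℝ) : ℂ) * F z) * dd θ z =
        ∫ z, H z * dd θ z := by
      congr 1
      funext z
      by_cases hz : z ∈ tsupport θ
      · rw [one z (tθ hz), hH' z (hBO (tθ hz))]
        simp
      · rw [dd_zero hz]
        simp
    have e2 : ∫ z, ((μ z * χ z : ℝ) : ℂ) * (((χ z : ℝ) : ℂ) * f z) * ((θ z : ℝ) : ℂ) =
        ∫ z, h z * ((θ z : ℝ) : ℂ) := by
      congr 1
      funext z
      by_cases hz : z ∈ tsupport θ
      · rw [one z (tθ hz), hh' z (hBO (tθ hz))]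
        simp
      · rw [zero_of_tsupp hz]
        simp
    rw [e1, e2]
    exact e
  have cm : Continuous fun z => μ z * χ z := cont_cut (U₂ := μ) (χ := χ) tχ o₂ cμ sχ.continuous
  have km : HasCompactSupport fun z => μ z * χ z :=
    HasCompactSupport.intro kχ fun z hz => by rw [zero_of_tsupp hz]; simp
  have q : ∀ η : ℂ → ℝ, ContDiff ℝ ∞ η → HasCompactSupport η →
      tsupport η ⊆ Metric.ball z₂ (r / 2) → ∫ z, ((μ z * χ z : ℝ) : ℂ) * dd η z = 0 := by
    intro η sη kη tη
    exact quot hr (F := fun z => ((χ z : ℝ) : ℂ) * F z) (f := fun z => ((χ z : ℝ) : ℂ) * f z)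
      (μ := fun z => μ z * χ z)
      (cont_cutC oO tO cF sχ.continuous) (kC F) (cont_cutC oO tO cf sχ.continuous) (kC f) cm km
      (fun z hz => by
        show ((χ z : ℝ) : ℂ) * F z ≠ 0
        rw [one z hz]
        simpa using (hBO hz).2) hE hHE sη kη tη
  have q' : ∀ (v : ℂ) (η : ℂ → ℝ), ContDiff ℝ ∞ η → HasCompactSupport η →
      tsupport η ⊆ Metric.ball z₂ (r / 2) → ∫ z, (μ z * χ z) * D v η z = 0 := by
    intro v η sη kη tη
    have i1 : Integrable fun z => (μ z * χ z) * D 1 η z :=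
      ci cm (smooth_D sη 1).continuous (supp_D kη 1)
    have i2 : Integrable fun z => (μ z * χ z) * D Complex.I η z :=
      ci cm (smooth_D sη _).continuous (supp_D kη _)
    have e := q η sη kη tη
    rw [cplx_int (c := fun z => ((μ z * χ z : ℝ) : ℂ) * dd η z) i1 i2 fun z => by
      unfold dd
      push_cast
      ring] at e
    have h1 : ∫ z, (μ z * χ z) * D 1 η z = 0 := by simpa using congrArg Complex.re e
    have h2 : ∫ z, (μ z * χ z) * D Complex.I η z = 0 := by simpa using congrArg Complex.im e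
    have e3 : ∫ z, (μ z * χ z) * D v η z = v.re * (∫ z, (μ z * χ z) * D 1 η z) +
        v.im * ∫ z, (μ z * χ z) * D Complex.I η z := by
      rw [← integral_const_mul, ← integral_const_mul,
        ← integral_add (i1.const_mul _) (i2.const_mul _)]
      congr 1
      funext z
      have : D v η z = v.re * D 1 η z + v.im * D Complex.I η z := fderiv_eq z v
      rw [this]
      ring
    rw [e3, h1, h2]
    ring
  have fin := const_of_weak (f := fun z => μ z * χ z) (z₀ := z₂) (r := r / 2) (by positivity)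
    cm.continuousOn q'
  set m := μ z₂ * χ z₂ with hm
  set B := Metric.ball z₂ (r / 2 / 4) with hB
  have sB : B ⊆ Metric.ball z₂ r := Metric.ball_subset_ball (by linarith)
  have hmB : ∀ z ∈ B, μ z = m := by
    intro z hz
    have h1 : μ z * χ z = m := fin z hz
    rwa [one z (sB hz), mul_one] at h1
  have BO₂ : B ⊆ O₂ := sB.trans hBO
  have BO : B ⊆ O := BO₂.trans s₂
  have hp : ∀ᵐ z ∂(volume.restrict B), ((W z : ℝ) : ℂ) * (GV z - ((m : ℝ) : ℂ) * GU z) =
      ((V z - m * U z : ℝ) : ℂ) * GW z := by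
    refine (ae_restrict_mem Metric.isOpen_ball.measurableSet).mono fun z hz => ?_
    have h1 := hH' z (BO₂ hz)
    rw [hmB z hz] at h1
    have h1' : ((W z : ℝ) : ℂ) * conj (GV z) - ((V z : ℝ) : ℂ) * conj (GW z) =
      ((m : ℝ) : ℂ) * (((W z : ℝ) : ℂ) * conj (GU z) - ((U z : ℝ) : ℂ) * conj (GW z)) := h1
    have h2 := congrArg conj h1'
    simp only [map_sub, map_mul, Complex.conj_ofReal, Complex.conj_conj] at h2
    push_cast
    linear_combination h2
  obtain ⟨c, B', oB', nB', hBB', hc⟩ := prop_const (O := B) (X := fun z => V z - m * U z)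
    Metric.isOpen_ball ⟨z₂, Metric.mem_ball_self (by positivity)⟩
    ((cV.sub (continuousOn_const.mul cU)).mono BO) (cW.mono BO)
    (weak_sub_mul (weak_mono WV' BO) (weak_mono WU' BO) m) (weak_mono WW' BO)
    (fun z hz => (BO₂ hz).1.2) hp
  refine ⟨-m, 1, -c, B', Or.inr (Or.inl one_ne_zero), oB', nB', hBB'.trans BO, fun z hz => ?_⟩
  have := hc z hz
  linarith

end Pool.Agent.H15.UC
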