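import Pool.Agent.H23.UC.Stm

/-!
# Leading terms of solutions: statement
-/

set_option autoImplicit false

open Set Filter Topology MeasureTheory

noncomputable section

namespace Pool.Agent.H15.UC

open Pool.Agent.H23.UC (Weak)

/-- `f` vanishes at `0` to the order `k` -/
def Small (f : ℂ → ℝ) (k : ℕ) : Prop :=
  ∃ C r : ℝ, 0 < r ∧ ∀ z : ℂ, ‖z‖ < r → |f z| ≤ C * ‖z‖ ^ k

/-- `LR-LEAD`: (i) a solution which vanishes to the order `k` has a leading term `Re (c z ^ k)`;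
(ii) strong unique continuation. -/
def StLead : Prop :=
  ∀ (O : Set ℂ) (U : ℂ → ℝ) (g : ℂ → ℂ) (ρ : ℂ → ℝ) (z₀ : ℂ), IsOpen O → z₀ ∈ O →
    ContinuousOn U O → ContinuousOn ρ O → Weak O U g (fun z => ρ z * U z) →
    (∀ k : ℕ, Small (fun z => U (z₀ + z)) k →
      ∃ c : ℂ, Small (fun z => U (z₀ + z) - (c * z ^ k).re) (k + 1)) ∧
    ((∀ k : ℕ, Small (fun z => U (z₀ + z)) k) → ∃ r > 0, ∀ z : ℂ, ‖z‖ < r → U (z₀ + z) = 0)

end Pool.Agent.H15.UC
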