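import Pool.Agent.H15.UC.Cont

/-!
# Unique continuation
-/

set_option autoImplicit false

open Set Filter Topology MeasureTheory
open scoped ContDiff ComplexConjugate ENNReal

noncomputable section

namespace Pool.Agent.H15.UC

open Pool.Agent.H23.UC (Weak StUCP)

section translate

theorem D_shift {h : ℂ → ℝ} (hh : ContDiff ℝ ∞ h) (a v : ℂ) :
    D v (fun y => h (y - a)) = fun y => D v h (y - a) := by
  funext y
  have h1 : HasFDerivAt (fun t : ℂ => t - a) (ContinuousLinearMap.id ℝ ℂ) y :=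
    (hasFDerivAt_id y).sub_const a
  have h2 := (diff hh (y - a)).hasFDerivAt.comp y h1
  show fderiv ℝ (fun y => h (y - a)) y v = _
  have h3 : HasFDerivAt (fun y => h (y - a)) _ y := h2
  rw [h3.fderiv]
  simp [D]

theorem Lap_shift {h : ℂ → ℝ} (hh : ContDiff ℝ ∞ h) (a y : ℂ) :
    Lap (fun y => h (y - a)) y = Lap h (y - a) := by
  unfold Lap
  rw [D_shift hh, D_shift hh, D_shift (smooth_D hh 1), D_shift (smooth_D hh Complex.I)]

theorem WL.shift {P F : ℂ → ℝ} (h : WL P F) (a : ℂ) :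
    WL (fun z => P (z + a)) (fun z => F (z + a)) := by
  intro η s c
  have s' : ContDiff ℝ ∞ (fun y => η (y - a)) := s.comp (contDiff_id.sub contDiff_const)
  have c' : HasCompactSupport (fun y => η (y - a)) := c.comp_homeomorph (Homeomorph.subRight a)
  have h1 := h _ s' c'
  have e1 : ∫ z, P (z + a) * Lap η z = ∫ z, P z * Lap (fun y => η (y - a)) z := by
    rw [← integral_add_right_eq_self (fun z => P z * Lap (fun y => η (y - a)) z) a]
    congr 1
    funext z
    rw [Lap_shift s, add_sub_cancel_right]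
  have e2 : ∫ z, F (z + a) * η z = ∫ z, F z * η (z - a) := by
    rw [← integral_add_right_eq_self (fun z => F z * η (z - a)) a]
    congr 1
    funext z
    rw [add_sub_cancel_right]
  rw [e1, e2]
  exact h1

end translate

/-- The conclusion from Carleman's inequality for all exponents. -/
theorem vanish {P F : ℂ → ℝ} {r R C : ℝ} (hr : 0 < r) (hR : 0 < R) (hP : MemLp P 2)
    (hF : MemLp F 2) (mF : Measurable F) (pz : ∀ z, ‖z‖ < r → P z = 0)
    (h : ∀ N, ∫⁻ z, Wt N z * ENNReal.ofReal (P z ^ 2) ≤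
      ENNReal.ofReal (512 * R ^ 4) * ∫⁻ z, Wt N z * ENNReal.ofReal (F z ^ 2))
    (hb : ∀ᵐ z, ‖z‖ < R / 2 → F z ^ 2 ≤ C ^ 2 * P z ^ 2)
    (hC : 512 * R ^ 4 * C ^ 2 ≤ 1 / 2) : ∀ᵐ z, ‖z‖ < R / 4 → P z = 0 := by
  set B : ℝ≥0∞ := ∫⁻ z, ENNReal.ofReal (F z ^ 2) with hB
  have hfin : ∀ {Q : ℂ → ℝ}, MemLp Q 2 → ∫⁻ z, ENNReal.ofReal (Q z ^ 2) < ⊤ := by
    intro Q hQ
    exact (hQ.integrable_sq.lintegral_lt_top)
  have hBf : B < ⊤ := hfin hF
  set I : ℕ → ℝ≥0∞ := fun N => ∫⁻ z, Wt N z * ENNReal.ofReal (P z ^ 2) with hI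
  set J : ℝ≥0∞ := ∫⁻ z in {z : ℂ | ‖z‖ < R / 4}, ENNReal.ofReal (P z ^ 2) with hJ
  have hWle : ∀ (N : ℕ) {s : ℝ} {z : ℂ}, 0 < s → s ≤ ‖z‖ →
      Wt N z ≤ ENNReal.ofReal (((s ^ N)⁻¹) ^ 2) := by
    intro N s z hs hz
    unfold Wt
    refine ENNReal.ofReal_le_ofReal (pow_le_pow_left₀ (by positivity) ?_ 2)
    exact inv_anti₀ (by positivity) (pow_le_pow_left₀ hs.le hz N)
  -- finiteness
  have hIf : ∀ N, I N < ⊤ := by
    intro N
    have h1 : I N ≤ ENNReal.ofReal (((r ^ N)⁻¹) ^ 2) * ∫⁻ z, ENNReal.ofReal (P z ^ 2) := by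
      rw [← lintegral_const_mul' _ _ ENNReal.ofReal_ne_top]
      refine lintegral_mono fun z => ?_
      show Wt N z * ENNReal.ofReal (P z ^ 2) ≤
        ENNReal.ofReal (((r ^ N)⁻¹) ^ 2) * ENNReal.ofReal (P z ^ 2)
      rcases lt_or_ge ‖z‖ r with h2 | h2
      · rw [pz z h2]; simp
      · exact mul_le_mul_left (hWle N hr h2) _
    exact h1.trans_lt (ENNReal.mul_lt_top ENNReal.ofReal_lt_top (hfin hP))
  -- upper bound
  have up : ∀ N, ∫⁻ z, Wt N z * ENNReal.ofReal (F z ^ 2) ≤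
      ENNReal.ofReal (C ^ 2) * I N + ENNReal.ofReal ((((R / 2) ^ N)⁻¹) ^ 2) * B := by
    intro N
    rw [hI, hB, ← lintegral_const_mul' _ _ ENNReal.ofReal_ne_top,
      ← lintegral_const_mul' _ _ ENNReal.ofReal_ne_top, ← lintegral_add_right]
    · refine lintegral_mono_ae ?_
      filter_upwards [hb] with z hz
      rcases lt_or_ge ‖z‖ (R / 2) with h2 | h2
      · refine le_trans ?_ le_self_add
        have h3 := ENNReal.ofReal_le_ofReal (hz h2)
        rw [ENNReal.ofReal_mul (sq_nonneg _)] at h3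
        calc Wt N z * ENNReal.ofReal (F z ^ 2)
            ≤ Wt N z * (ENNReal.ofReal (C ^ 2) * ENNReal.ofReal (P z ^ 2)) :=
              mul_le_mul_right h3 _
          _ = _ := by ring
      · refine le_trans ?_ le_add_self
        exact mul_le_mul_left (hWle N (by positivity) h2) _
    · exact (mF.pow_const 2).ennreal_ofReal.const_mul _
  -- lower bound
  have low : ∀ N, ENNReal.ofReal ((((R / 4) ^ N)⁻¹) ^ 2) * J ≤ I N := by
    intro N
    rw [hJ, hI, ← lintegral_const_mul' _ _ ENNReal.ofReal_ne_top]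
    have hm : MeasurableSet {z : ℂ | ‖z‖ < R / 4} :=
      (isOpen_lt continuous_norm continuous_const).measurableSet
    refine le_trans ?_ (setLIntegral_le_lintegral {z : ℂ | ‖z‖ < R / 4} _)
    refine setLIntegral_mono' hm fun z hz => ?_
    by_cases h0 : P z = 0
    · rw [h0]; simp
    refine mul_le_mul_left ?_ _
    have hz' : ‖z‖ < R / 4 := hz
    have hz0 : 0 < ‖z‖ := hr.trans_le (by
      by_contra hcon
      exact h0 (pz z (not_le.mp hcon)))
    unfold Wt
    refine ENNReal.ofReal_le_ofReal (pow_le_pow_left₀ (by positivity) ?_ 2)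
    exact inv_anti₀ (by positivity) (pow_le_pow_left₀ hz0.le hz'.le N)
  have hJf : J < ⊤ := (setLIntegral_le_lintegral _ _).trans_lt (hfin hP)
  -- real numbers
  have main : ∀ N : ℕ, J.toReal ≤ 1024 * R ^ 4 * B.toReal * (1 / 4) ^ N := by
    intro N
    have h1 := (h N).trans (mul_le_mul_right (up N) _)
    have t1 : ENNReal.ofReal (512 * R ^ 4) * (ENNReal.ofReal (C ^ 2) * I N +
        ENNReal.ofReal ((((R / 2) ^ N)⁻¹) ^ 2) * B) ≠ ⊤ :=
      ENNReal.mul_ne_top ENNReal.ofReal_ne_top (ENNReal.add_ne_top.mpr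
        ⟨ENNReal.mul_ne_top ENNReal.ofReal_ne_top (hIf N).ne,
          ENNReal.mul_ne_top ENNReal.ofReal_ne_top hBf.ne⟩)
    have h2 := ENNReal.toReal_mono t1 h1
    rw [ENNReal.toReal_mul, ENNReal.toReal_add
      (ENNReal.mul_ne_top ENNReal.ofReal_ne_top (hIf N).ne)
      (ENNReal.mul_ne_top ENNReal.ofReal_ne_top hBf.ne), ENNReal.toReal_mul, ENNReal.toReal_mul,
      ENNReal.toReal_ofReal (by positivity), ENNReal.toReal_ofReal (by positivity),
      ENNReal.toReal_ofReal (by positivity)] at h2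
    have h3 := ENNReal.toReal_mono (hIf N).ne (low N)
    rw [ENNReal.toReal_mul, ENNReal.toReal_ofReal (by positivity)] at h3
    change (I N).toReal ≤ _ at h2
    set i := (I N).toReal with hi
    set j := J.toReal with hj
    set b := B.toReal with hb
    have i0 : 0 ≤ i := ENNReal.toReal_nonneg
    have j0 : 0 ≤ j := ENNReal.toReal_nonneg
    have b0 : 0 ≤ b := ENNReal.toReal_nonneg
    have h4 : i ≤ 1024 * R ^ 4 * ((((R / 2) ^ N)⁻¹) ^ 2 * b) := by
      have h5 : 512 * R ^ 4 * (C ^ 2 * i) ≤ 1 / 2 * i := by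
        calc 512 * R ^ 4 * (C ^ 2 * i) = (512 * R ^ 4 * C ^ 2) * i := by ring
          _ ≤ 1 / 2 * i := mul_le_mul_of_nonneg_right hC i0
      nlinarith
    have h6 : j ≤ ((R / 4) ^ N) ^ 2 * i := by
      have h7 : j = ((R / 4) ^ N) ^ 2 * ((((R / 4) ^ N)⁻¹) ^ 2 * j) := by
        have : (R / 4) ^ N ≠ 0 := by positivity
        field_simp
      rw [h7]
      exact mul_le_mul_of_nonneg_left h3 (by positivity)
    have h8 : ((R / 4) ^ N) ^ 2 * (1024 * R ^ 4 * ((((R / 2) ^ N)⁻¹) ^ 2 * b)) =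
        1024 * R ^ 4 * b * (1 / 4) ^ N := by
      have e1 : ((R / 4) ^ N) ^ 2 = ((R / 2) ^ N) ^ 2 * (1 / 4) ^ N := by
        rw [← pow_mul, ← pow_mul, mul_comm N 2, pow_mul, pow_mul, ← mul_pow]
        congr 1
        ring
      have : (R / 2) ^ N ≠ 0 := by positivity
      rw [e1]
      field_simp
    calc j ≤ ((R / 4) ^ N) ^ 2 * i := h6
      _ ≤ ((R / 4) ^ N) ^ 2 * (1024 * R ^ 4 * ((((R / 2) ^ N)⁻¹) ^ 2 * b)) :=
          mul_le_mul_of_nonneg_left h4 (by positivity)
      _ = _ := h8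
  have J0 : J.toReal ≤ 0 := by
    have ht : Tendsto (fun N : ℕ => 1024 * R ^ 4 * B.toReal * (1 / 4 : ℝ) ^ N) atTop (𝓝 0) := by
      have := (tendsto_pow_atTop_nhds_zero_of_lt_one (by norm_num : (0 : ℝ) ≤ 1 / 4)
        (by norm_num)).const_mul (1024 * R ^ 4 * B.toReal)
      simpa using this
    exact ge_of_tendsto' ht main
  have J1 : J = 0 := by
    have : J.toReal = 0 := le_antisymm J0 ENNReal.toReal_nonneg
    rcases (ENNReal.toReal_eq_zero_iff _).mp this with h1 | h1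
    · exact h1
    · exact absurd h1 hJf.ne
  have hm : MeasurableSet {z : ℂ | ‖z‖ < R / 4} :=
    (isOpen_lt continuous_norm continuous_const).measurableSet
  have hmP : AEMeasurable (fun z => ENNReal.ofReal (P z ^ 2))
      (volume.restrict {z : ℂ | ‖z‖ < R / 4}) :=
    ((hP.aestronglyMeasurable.aemeasurable.pow_const 2).ennreal_ofReal).restrict
  rw [hJ, lintegral_eq_zero_iff' hmP, Filter.EventuallyEq, ae_restrict_iff' hm] at J1
  filter_upwards [J1] with z hz hz'
  have h1 := hz hz'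
  simp only [Pi.zero_apply, ENNReal.ofReal_eq_zero] at h1
  exact pow_eq_zero_iff (two_ne_zero) |>.mp (le_antisymm h1 (sq_nonneg _))

/-- Local unique continuation. -/
theorem local_ucp {O : Set ℂ} {U w : ℂ → ℝ} {g : ℂ → ℂ} {C : ℝ} (W : Weak O U g w)
    (hO : IsOpen O) (hw : ∀ᵐ z ∂(volume.restrict O), |w z| ≤ C * |U z|) {z0 : ℂ} {r R : ℝ}
    (hr : 0 < r) (hR : 0 < R) (hsub : Metric.closedBall z0 R ⊆ O)
    (hC : 512 * R ^ 4 * C ^ 2 ≤ 1 / 2) (hz : ∀ᵐ z, z ∈ Metric.ball z0 r → U z = 0) :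
    ∀ᵐ z, z ∈ Metric.ball z0 (R / 4) → U z = 0 := by
  -- shrink `r`
  wlog hrR : r ≤ R / 2 with H
  · refine H W hO hw (r := min r (R / 2)) (lt_min hr (by positivity)) hR hsub hC ?_ (min_le_right _ _)
    filter_upwards [hz] with z h1 h2
    exact h1 (Metric.ball_subset_ball (min_le_left _ _) h2)
  let χ : ContDiffBump z0 := ⟨R / 2, R, by positivity, by linarith⟩
  have hts : tsupport (fun z => χ z) = Metric.closedBall z0 R := bump_tsupp χ
  have hsub' : tsupport (fun z => χ z) ⊆ O := by rw [hts]; exact hsub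
  have s := bump_smooth χ
  have c := bump_supp χ
  have mP := mem_P W s c hsub'
  have mF := mem_F W s c hsub'
  have hwl := cut W s c hsub'
  set P0 : ℂ → ℝ := fun z => U z * χ z with hP0
  set F0 := FF (fun z => χ z) U w g with hF0
  -- translate
  have mP1 : MemLp (fun z => P0 (z + z0)) 2 :=
    mP.comp_measurePreserving (measurePreserving_add_right volume z0)
  have mF1 : MemLp (fun z => F0 (z + z0)) 2 :=
    mF.comp_measurePreserving (measurePreserving_add_right volume z0)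
  have hwl1 := hwl.shift z0
  set S : Set ℂ := {z | r ≤ ‖z‖} with hS
  have mS : MeasurableSet S := (isClosed_le continuous_const continuous_norm).measurableSet
  -- translate the almost everywhere statements
  have tr : ∀ {p : ℂ → Prop}, (∀ᵐ z, p z) → ∀ᵐ z, p (z + z0) := by
    intro p hp
    exact (measurePreserving_add_right volume z0).quasiMeasurePreserving.ae hp
  have hw' : ∀ᵐ z, z ∈ O → |w z| ≤ C * |U z| := (ae_restrict_iff' hO.measurableSet).mp hw
  have near1 : ∀ z ∈ Metric.ball z0 (R / 2), (fun z => χ z) =ᶠ[𝓝 z] fun _ => 1 := by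
    intro z hz
    exact Filter.eventually_of_mem (Metric.isOpen_ball.mem_nhds hz) fun y hy =>
      χ.one_of_mem_closedBall (Metric.ball_subset_closedBall hy)
  have Dz : ∀ z ∈ Metric.ball z0 (R / 2), ∀ v, D v (fun z => χ z) z = 0 := by
    intro z hz v
    unfold D
    rw [(near1 z hz).fderiv_eq]
    simp
  have DDz : ∀ z ∈ Metric.ball z0 (R / 2), Lap (fun z => χ z) z = 0 := by
    intro z hz
    have h1 : ∀ v, D v (D v (fun z => χ z)) z = 0 := fun v =>
      D_zero_real Metric.isOpen_ball (fun y hy => Dz y hy v) hz v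
    unfold Lap
    rw [h1, h1, add_zero]
  have F0eq : ∀ z ∈ Metric.ball z0 (R / 2), F0 z = -w z := by
    intro z hz
    have e : (fun z => χ z) z = 1 := χ.one_of_mem_closedBall (Metric.ball_subset_closedBall hz)
    rw [hF0]
    unfold FF
    rw [Dz z hz, Dz z hz, DDz z hz, e]
    ring
  have P0eq : ∀ z ∈ Metric.ball z0 (R / 2), P0 z = U z := by
    intro z hz
    show U z * χ z = U z
    rw [χ.one_of_mem_closedBall (Metric.ball_subset_closedBall hz), mul_one]
  have memb : ∀ {z : ℂ} {t : ℝ}, ‖z‖ < t → z + z0 ∈ Metric.ball z0 t := by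
    intro z t h
    rw [Metric.mem_ball, dist_eq_norm, add_sub_cancel_right]
    exact h
  have zP : (fun z => P0 (z + z0)) =ᵐ[volume] S.indicator fun z => P0 (z + z0) := by
    filter_upwards [tr hz] with z h1
    by_cases h2 : z ∈ S
    · rw [indicator_of_mem h2]
    · rw [indicator_of_notMem h2]
      have h3 : ‖z‖ < r := not_le.mp h2
      show U (z + z0) * χ (z + z0) = 0
      rw [h1 (memb h3), zero_mul]
  have zF : (fun z => F0 (z + z0)) =ᵐ[volume] S.indicator (mF1.aestronglyMeasurable.mk _) := by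
    filter_upwards [tr hz, tr hw', mF1.aestronglyMeasurable.ae_eq_mk] with z h1 h2 h4
    by_cases h5 : z ∈ S
    · rw [indicator_of_mem h5]; exact h4
    · rw [indicator_of_notMem h5]
      have h3 : ‖z‖ < r := not_le.mp h5
      have h6 : z + z0 ∈ Metric.ball z0 (R / 2) := memb (h3.trans_le hrR)
      have h7 : z + z0 ∈ O := hsub (Metric.ball_subset_closedBall
        (Metric.ball_subset_ball (by linarith) h6))
      have h8 := h2 h7
      rw [h1 (memb h3), abs_zero, mul_zero] at h8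
      show F0 (z + z0) = 0
      rw [F0eq _ h6, abs_nonpos_iff.mp h8, neg_zero]
  set P2 := S.indicator fun z => P0 (z + z0) with hP2
  set F2 := S.indicator (mF1.aestronglyMeasurable.mk _) with hF2
  have mP2 : MemLp P2 2 := (memLp_congr_ae zP).mp mP1
  have mF2 : MemLp F2 2 := (memLp_congr_ae zF).mp mF1
  have meas : Measurable F2 :=
    (mF1.aestronglyMeasurable.stronglyMeasurable_mk.measurable).indicator mS
  have hwl2 : WL P2 F2 := hwl1.congr zP zF
  have pz : ∀ z, ‖z‖ < r → P2 z = 0 := fun z h =>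
    indicator_of_notMem (show z ∉ S from not_le.mpr h) _
  have fz : ∀ z, ‖z‖ < r → F2 z = 0 := fun z h =>
    indicator_of_notMem (show z ∉ S from not_le.mpr h) _
  have ps : ∀ z, R < ‖z‖ → P2 z = 0 := by
    intro z h
    have h1 : P0 (z + z0) = 0 := by
      have : z + z0 ∉ tsupport (fun z => χ z) := by
        rw [hts, Metric.mem_closedBall, dist_eq_norm, add_sub_cancel_right]
        exact not_le.mpr h
      show U (z + z0) * χ (z + z0) = 0
      have h2 : χ (z + z0) = 0 := zero_of_tsupp this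
      rw [h2, mul_zero]
    rw [hP2]
    by_cases h2 : z ∈ S
    · rw [indicator_of_mem h2, h1]
    · rw [indicator_of_notMem h2]
  have car := weak_carleman mP2 mF2 meas hwl2 hr hR pz fz ps
  have hb : ∀ᵐ z, ‖z‖ < R / 2 → F2 z ^ 2 ≤ C ^ 2 * P2 z ^ 2 := by
    filter_upwards [zP, zF, tr hw'] with z h1 h2 h3 h4
    rw [← h1, ← h2]
    have h6 := memb (z := z) h4
    have h7 : z + z0 ∈ O := hsub (Metric.ball_subset_closedBall
      (Metric.ball_subset_ball (by linarith) h6))
    have h8 := h3 h7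
    show F0 (z + z0) ^ 2 ≤ C ^ 2 * P0 (z + z0) ^ 2
    rw [F0eq _ h6, P0eq _ h6, neg_sq, ← sq_abs (w _), ← sq_abs (U _), ← mul_pow]
    exact pow_le_pow_left₀ (abs_nonneg _) h8 2
  have fin := vanish hr hR mP2 mF2 meas pz car hb hC
  -- back
  have fin2 : ∀ᵐ z, ‖z‖ < R / 4 → U (z + z0) = 0 := by
    filter_upwards [fin, zP] with z h1 h2 h3
    have h4 := h1 h3
    rw [← h2] at h4
    have h5 : P0 (z + z0) = 0 := h4
    rwa [P0eq _ (memb (h3.trans (by linarith)))] at h5
  have back : ∀ᵐ z, ‖z - z0‖ < R / 4 → U (z - z0 + z0) = 0 :=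
    (measurePreserving_sub_right volume z0).quasiMeasurePreserving.ae fin2
  filter_upwards [back] with z h1 h2
  rw [Metric.mem_ball, dist_eq_norm] at h2
  have h3 := h1 h2
  rwa [sub_add_cancel] at h3

/-- `UC-UCP` -/
theorem stUCP : StUCP := by
  intro O U g w C hO hconn W hw O' hO' hne hsub' hz
  set Z : Set ℂ := {z | z ∈ O ∧ ∃ ρ > 0, ∀ᵐ y, y ∈ Metric.ball z ρ → U y = 0} with hZ
  have Zopen : IsOpen Z := by
    rw [Metric.isOpen_iff]
    rintro z ⟨hzO, ρ, hρ, h1⟩
    obtain ⟨ε, hε, hb⟩ := Metric.isOpen_iff.mp hO z hzO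
    refine ⟨min ε (ρ / 2), lt_min hε (by positivity), fun y hy => ⟨hb
      (Metric.ball_subset_ball (min_le_left _ _) hy), ρ / 2, by positivity, ?_⟩⟩
    filter_upwards [h1] with x h2 h3
    refine h2 ?_
    rw [Metric.mem_ball] at *
    have h4 : dist y z < ρ / 2 := lt_of_lt_of_le hy (min_le_right _ _)
    calc dist x z ≤ dist x y + dist y z := dist_triangle _ _ _
      _ < ρ := by linarith
  have Zne : (O ∩ Z).Nonempty := by
    obtain ⟨z, hz'⟩ := hne
    obtain ⟨ε, hε, hb⟩ := Metric.isOpen_iff.mp hO' z hz'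
    refine ⟨z, hsub' hz', hsub' hz', ε, hε, ?_⟩
    rw [ae_restrict_iff' hO'.measurableSet] at hz
    filter_upwards [hz] with y h1 h2
    exact h1 (hb h2)
  have Zcl : closure Z ∩ O ⊆ Z := by
    rintro z1 ⟨hcl, hz1⟩
    obtain ⟨ε, hε, hb⟩ := Metric.isOpen_iff.mp hO z1 hz1
    -- a good radius
    obtain ⟨R, hR, hR1, hR2⟩ : ∃ R : ℝ, 0 < R ∧ 2 * R < ε ∧ 512 * R ^ 4 * C ^ 2 ≤ 1 / 2 := by
      have h1 : Tendsto (fun R : ℝ => 512 * R ^ 4 * C ^ 2) (𝓝[>] 0) (𝓝 0) := by
        have h2 : Continuous fun R : ℝ => 512 * R ^ 4 * C ^ 2 := by fun_prop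
        have h3 := h2.tendsto 0
        simp only [ne_eq, OfNat.ofNat_ne_zero, not_false_eq_true, zero_pow, mul_zero, zero_mul]
          at h3
        exact h3.mono_left nhdsWithin_le_nhds
      have h2 : ∀ᶠ R : ℝ in 𝓝[>] 0, 512 * R ^ 4 * C ^ 2 < 1 / 2 :=
        h1.eventually_lt_const (by norm_num)
      have h3 : ∀ᶠ R : ℝ in 𝓝[>] 0, R < ε / 2 :=
        nhdsWithin_le_nhds (eventually_lt_nhds (by positivity))
      have h4 : ∀ᶠ R : ℝ in 𝓝[>] (0 : ℝ), 0 < R := eventually_mem_nhdsWithin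
      obtain ⟨R, h5, h6, h7⟩ := (h2.and (h3.and h4)).exists
      exact ⟨R, h7, by linarith, h5.le⟩
    obtain ⟨z0, ⟨hz0, ρ, hρ, h1⟩, hd⟩ := Metric.mem_closure_iff.mp hcl (R / 4) (by positivity)
    have hball : Metric.closedBall z0 R ⊆ O := by
      intro y hy
      refine hb ?_
      rw [Metric.mem_closedBall] at hy
      rw [Metric.mem_ball]
      calc dist y z1 ≤ dist y z0 + dist z0 z1 := dist_triangle _ _ _
        _ < ε := by rw [dist_comm z0 z1]; linarith
    have h2 := local_ucp W hO hw hρ hR hball hR2 h1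
    refine ⟨hz1, R / 4 - dist z1 z0, by linarith, ?_⟩
    filter_upwards [h2] with y h3 h4
    refine h3 ?_
    rw [Metric.mem_ball] at *
    calc dist y z0 ≤ dist y z1 + dist z1 z0 := dist_triangle _ _ _
      _ < R / 4 := by linarith
  have hOZ : O ⊆ Z := hconn.subset_of_closure_inter_subset Zopen Zne Zcl
  rw [ae_restrict_iff' hO.measurableSet]
  have h1 : volume {z | z ∈ O ∧ U z ≠ 0} = 0 := by
    refine measure_null_of_locally_null _ fun z hz' => ?_
    obtain ⟨_, ρ, hρ, h2⟩ := hOZ hz'.1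
    refine ⟨{y | y ∈ Metric.ball z ρ ∧ U y ≠ 0}, ?_, ?_⟩
    · rw [mem_nhdsWithin]
      refine ⟨Metric.ball z ρ, Metric.isOpen_ball, Metric.mem_ball_self hρ, ?_⟩
      rintro y ⟨h3, h4⟩
      exact ⟨h3, h4.2⟩
    · rw [ae_iff] at h2
      refine measure_mono_null ?_ h2
      rintro y ⟨h3, h4⟩ h5
      exact h4 (h5 h3)
  rw [ae_iff]
  refine measure_mono_null ?_ h1
  intro z hz'
  simp only [Classical.not_imp, Set.mem_ofPred_eq] at hz'
  exact hz'

end Pool.Agent.H15.UC
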