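import Pool.Agent.H15.UC.Lead2
import Pool.Agent.H15.UC.Stm10
import Pool.Agent.H15.UC.Ucp
import Pool.Agent.H23.CL.GC2
import Pool.Agent.H15.UC.Rank

/-!
# Strong unique continuation
-/

set_option autoImplicit false

open Set Filter Topology MeasureTheory
open scoped ContDiff ComplexConjugate ENNReal

noncomputable section

namespace Pool.Agent.H15.UC

open Pool.Agent.H23.UC (Weak)

/-- The conclusion from Carleman's inequality for all exponents, for a function which vanishes to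
infinite order. -/
theorem vanish' {P F : ℂ → ℝ} {R C : ℝ} (hR : 0 < R) (hP : MemLp P 2)
    (hF : MemLp F 2) (mF : Measurable F) (pz : P 0 = 0)
    (hIf : ∀ N, ∫⁻ z, Wt N z * ENNReal.ofReal (P z ^ 2) < ⊤)
    (h : ∀ N, ∫⁻ z, Wt N z * ENNReal.ofReal (P z ^ 2) ≤
      ENNReal.ofReal (512 * R ^ 4) * ∫⁻ z, Wt N z * ENNReal.ofReal (F z ^ 2))
    (hb : ∀ᵐ z, ‖z‖ < R / 2 → F z ^ 2 ≤ C ^ 2 * P z ^ 2)
    (hC : 512 * R ^ 4 * C ^ 2 ≤ 1 / 2) : ∀ᵐ z, ‖z‖ < R / 4 → P z = 0 := by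
  set B : ℝ≥0∞ := ∫⁻ z, ENNReal.ofReal (F z ^ 2) with hB
  have hfin : ∀ {Q : ℂ → ℝ}, MemLp Q 2 → ∫⁻ z, ENNReal.ofReal (Q z ^ 2) < ⊤ := by
    intro Q hQ
    exact (hQ.integrable_sq.lintegral_lt_top)
  have hBf : B < ⊤ := hfin hF
  set I : ℕ → ℝ≥0∞ := fun N => ∫⁻ z, Wt N z * ENNReal.ofReal (P z ^ 2) with hI
  set J : ℝ≥0∞ := ∫⁻ z in {z : ℂ | ‖z‖ < R / 4}, ENNReal.ofReal (P z ^ 2) with hJ
  have hWle : ∀ (N : ℕ) {s : ℝ} {z : ℂ}, 0 < s → s ≤ ‖z‖ →
      Wt N z ≤ ENNReal.ofReal (((s ^ N)⁻¹) ^ 2) := by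
    intro N s z hs hz
    unfold Wt
    refine ENNReal.ofReal_le_ofReal (pow_le_pow_left₀ (by positivity) ?_ 2)
    exact inv_anti₀ (by positivity) (pow_le_pow_left₀ hs.le hz N)
  -- upper bound
  have up : ∀ N, ∫⁻ z, Wt N z * ENNReal.ofReal (F z ^ 2) ≤
      ENNReal.ofReal (C ^ 2) * I N + ENNReal.ofReal ((((R / 2) ^ N)⁻¹) ^ 2) * B := by
    intro N
    rw [hI, hB, ← lintegral_const_mul' _ _ ENNReal.ofReal_ne_top,
      ← lintegral_const_mul' _ _ ENNReal.ofReal_ne_top, ← lintegral_add_right]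
    · refine lintegral_mono_ae ?_
      filter_upwards [hb] with z hz
      rcases lt_or_ge ‖z‖ (R / 2) with h2 | h2
      · refine le_trans ?_ le_self_add
        have h3 := ENNReal.ofReal_le_ofReal (hz h2)
        rw [ENNReal.ofReal_mul (sq_nonneg _)] at h3
        calc Wt N z * ENNReal.ofReal (F z ^ 2)
            ≤ Wt N z * (ENNReal.ofReal (C ^ 2) * ENNReal.ofReal (P z ^ 2)) :=
              mul_le_mul_right h3 _
          _ = _ := by ring
      · refine le_trans ?_ le_add_self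
        exact mul_le_mul_left (hWle N (by positivity) h2) _
    · exact (mF.pow_const 2).ennreal_ofReal.const_mul _
  -- lower bound
  have low : ∀ N, ENNReal.ofReal ((((R / 4) ^ N)⁻¹) ^ 2) * J ≤ I N := by
    intro N
    rw [hJ, hI, ← lintegral_const_mul' _ _ ENNReal.ofReal_ne_top]
    have hm : MeasurableSet {z : ℂ | ‖z‖ < R / 4} :=
      (isOpen_lt continuous_norm continuous_const).measurableSet
    refine le_trans ?_ (setLIntegral_le_lintegral {z : ℂ | ‖z‖ < R / 4} _)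
    refine setLIntegral_mono' hm fun z hz => ?_
    by_cases h0 : P z = 0
    · rw [h0]; simp
    refine mul_le_mul_left ?_ _
    have hz' : ‖z‖ < R / 4 := hz
    have hz0 : 0 < ‖z‖ := by
      rw [norm_pos_iff]
      rintro rfl
      exact h0 pz
    unfold Wt
    refine ENNReal.ofReal_le_ofReal (pow_le_pow_left₀ (by positivity) ?_ 2)
    exact inv_anti₀ (by positivity) (pow_le_pow_left₀ hz0.le hz'.le N)
  have hJf : J < ⊤ := (setLIntegral_le_lintegral _ _).trans_lt (hfin hP)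
  -- real numbers
  have main : ∀ N : ℕ, J.toReal ≤ 1024 * R ^ 4 * B.toReal * (1 / 4) ^ N := by
    intro N
    have h1 := (h N).trans (mul_le_mul_right (up N) _)
    have t1 : ENNReal.ofReal (512 * R ^ 4) * (ENNReal.ofReal (C ^ 2) * I N +
        ENNReal.ofReal ((((R / 2) ^ N)⁻¹) ^ 2) * B) ≠ ⊤ :=
      ENNReal.mul_ne_top ENNReal.ofReal_ne_top (ENNReal.add_ne_top.mpr
        ⟨ENNReal.mul_ne_top ENNReal.ofReal_ne_top (hIf N).ne,
          ENNReal.mul_ne_top ENNReal.ofReal_ne_top hBf.ne⟩)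
    have h2 := ENNReal.toReal_mono t1 h1
    rw [ENNReal.toReal_mul, ENNReal.toReal_add
      (ENNReal.mul_ne_top ENNReal.ofReal_ne_top (hIf N).ne)
      (ENNReal.mul_ne_top ENNReal.ofReal_ne_top hBf.ne), ENNReal.toReal_mul, ENNReal.toReal_mul,
      ENNReal.toReal_ofReal (by positivity), ENNReal.toReal_ofReal (by positivity),
      ENNReal.toReal_ofReal (by positivity)] at h2
    have h3 := ENNReal.toReal_mono (hIf N).ne (low N)
    rw [ENNReal.toReal_mul, ENNReal.toReal_ofReal (by positivity)] at h3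
    change (I N).toReal ≤ _ at h2
    set i := (I N).toReal with hi
    set j := J.toReal with hj
    set b := B.toReal with hb
    have i0 : 0 ≤ i := ENNReal.toReal_nonneg
    have j0 : 0 ≤ j := ENNReal.toReal_nonneg
    have b0 : 0 ≤ b := ENNReal.toReal_nonneg
    have h4 : i ≤ 1024 * R ^ 4 * ((((R / 2) ^ N)⁻¹) ^ 2 * b) := by
      have h5 : 512 * R ^ 4 * (C ^ 2 * i) ≤ 1 / 2 * i := by
        calc 512 * R ^ 4 * (C ^ 2 * i) = (512 * R ^ 4 * C ^ 2) * i := by ring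
          _ ≤ 1 / 2 * i := mul_le_mul_of_nonneg_right hC i0
      nlinarith
    have h6 : j ≤ ((R / 4) ^ N) ^ 2 * i := by
      have h7 : j = ((R / 4) ^ N) ^ 2 * ((((R / 4) ^ N)⁻¹) ^ 2 * j) := by
        have : (R / 4) ^ N ≠ 0 := by positivity
        field_simp
      rw [h7]
      exact mul_le_mul_of_nonneg_left h3 (by positivity)
    have h8 : ((R / 4) ^ N) ^ 2 * (1024 * R ^ 4 * ((((R / 2) ^ N)⁻¹) ^ 2 * b)) =
        1024 * R ^ 4 * b * (1 / 4) ^ N := by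
      have e1 : ((R / 4) ^ N) ^ 2 = ((R / 2) ^ N) ^ 2 * (1 / 4) ^ N := by
        rw [← pow_mul, ← pow_mul, mul_comm N 2, pow_mul, pow_mul, ← mul_pow]
        congr 1
        ring
      have : (R / 2) ^ N ≠ 0 := by positivity
      rw [e1]
      field_simp
    calc j ≤ ((R / 4) ^ N) ^ 2 * i := h6
      _ ≤ ((R / 4) ^ N) ^ 2 * (1024 * R ^ 4 * ((((R / 2) ^ N)⁻¹) ^ 2 * b)) :=
          mul_le_mul_of_nonneg_left h4 (by positivity)
      _ = _ := h8
  have J0 : J.toReal ≤ 0 := by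
    have ht : Tendsto (fun N : ℕ => 1024 * R ^ 4 * B.toReal * (1 / 4 : ℝ) ^ N) atTop (𝓝 0) := by
      have := (tendsto_pow_atTop_nhds_zero_of_lt_one (by norm_num : (0 : ℝ) ≤ 1 / 4)
        (by norm_num)).const_mul (1024 * R ^ 4 * B.toReal)
      simpa using this
    exact ge_of_tendsto' ht main
  have J1 : J = 0 := by
    have : J.toReal = 0 := le_antisymm J0 ENNReal.toReal_nonneg
    rcases (ENNReal.toReal_eq_zero_iff _).mp this with h1 | h1
    · exact h1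
    · exact absurd h1 hJf.ne
  have hm : MeasurableSet {z : ℂ | ‖z‖ < R / 4} :=
    (isOpen_lt continuous_norm continuous_const).measurableSet
  have hmP : AEMeasurable (fun z => ENNReal.ofReal (P z ^ 2))
      (volume.restrict {z : ℂ | ‖z‖ < R / 4}) :=
    ((hP.aestronglyMeasurable.aemeasurable.pow_const 2).ennreal_ofReal).restrict
  rw [hJ, lintegral_eq_zero_iff' hmP, Filter.EventuallyEq, ae_restrict_iff' hm] at J1
  filter_upwards [J1] with z hz hz'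
  have h1 := hz hz'
  simp only [Pi.zero_apply, ENNReal.ofReal_eq_zero] at h1
  exact pow_eq_zero_iff (two_ne_zero) |>.mp (le_antisymm h1 (sq_nonneg _))


theorem Small.mono {f : ℂ → ℝ} {k : ℕ} (h : Small f k) : ∃ C r : ℝ, 0 < r ∧ 0 ≤ C ∧ r ≤ 1 ∧
    ∀ z : ℂ, ‖z‖ < r → |f z| ≤ C * ‖z‖ ^ k := by
  obtain ⟨C, r, hr, h⟩ := h
  refine ⟨max C 0, min r 1, lt_min hr one_pos, le_max_right _ _, min_le_right _ _, fun z hz => ?_⟩
  refine (h z (lt_of_lt_of_le hz (min_le_left _ _))).trans ?_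
  exact mul_le_mul_of_nonneg_right (le_max_left _ _) (by positivity)

theorem Small.zero {f : ℂ → ℝ} {k : ℕ} (h : Small f k) (hk : k ≠ 0) : f 0 = 0 := by
  obtain ⟨C, r, hr, h⟩ := h
  have := h 0 (by simpa using hr)
  rw [norm_zero, zero_pow hk, mul_zero] at this
  exact abs_eq_zero.mp (le_antisymm this (abs_nonneg _))

section lead
variable {O : Set ℂ} {U ρ' : ℂ → ℝ} {g : ℂ → ℂ} {z₀ : ℂ}

/-- `ρ U` is small if `U` is -/
theorem small_w (hO : IsOpen O) (hz₀ : z₀ ∈ O) (cρ : ContinuousOn ρ' O) {k : ℕ}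
    (h : Small (fun z => U (z₀ + z)) k) :
    ∃ C r : ℝ, 0 < r ∧ ∀ z : ℂ, ‖z‖ < r → |ρ' (z₀ + z) * U (z₀ + z)| ≤ C * ‖z‖ ^ k := by
  obtain ⟨C, r, hr, hC0, -, hC⟩ := h.mono
  have h1 := cρ.continuousAt (hO.mem_nhds hz₀)
  obtain ⟨δ, hδ, h2⟩ := Metric.continuousAt_iff.mp h1 1 one_pos
  refine ⟨(|ρ' z₀| + 1) * C, min r δ, lt_min hr hδ, fun z hz => ?_⟩
  have h3 : dist (z₀ + z) z₀ < δ := by
    rw [dist_eq_norm, add_sub_cancel_left]
    exact lt_of_lt_of_le hz (min_le_right _ _)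
  have h4 := h2 h3
  rw [Real.dist_eq] at h4
  have h5 : |ρ' (z₀ + z)| ≤ |ρ' z₀| + 1 := by
    have := abs_sub_abs_le_abs_sub (ρ' (z₀ + z)) (ρ' z₀)
    linarith
  rw [abs_mul, mul_assoc]
  exact mul_le_mul h5 (hC z (lt_of_lt_of_le hz (min_le_left _ _))) (abs_nonneg _) (by positivity)

/-- the leading term and the gradient -/
theorem lead_aux (hO : IsOpen O) (hz₀ : z₀ ∈ O) (cU : ContinuousOn U O) (cg : ContinuousOn g O)
    (cρ : ContinuousOn ρ' O) (W : Weak O U g fun z => ρ' z * U z) {k : ℕ} (hk : 1 ≤ k)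
    (h : Small (fun z => U (z₀ + z)) k) :
    (∃ c : ℂ, Small (fun z => U (z₀ + z) - (c * z ^ k).re) (k + 1)) ∧
      ∃ C r : ℝ, 0 < r ∧ 0 ≤ C ∧ r ≤ 1 ∧ ∀ z : ℂ, ‖z‖ < r → ‖g (z₀ + z)‖ ≤ C * ‖z‖ ^ (k - 1) := by
  obtain ⟨C, r₁, hr₁, hC⟩ := small_w (ρ' := ρ') hO hz₀ cρ h
  obtain ⟨b, M, r, hr, hM0, hM⟩ := expand hO W cU cg (cρ.mul cU) hz₀ hr₁ hC
  obtain ⟨C₂, r₂, hr₂, hC₂0, hr₂1, hC₂⟩ := h.mono
  have hU0 : U z₀ = 0 := by
    have := h.zero (by omega)
    simpa using this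
  set β : ℕ → ℂ := fun i => if i = 0 then 0 else b (i - 1) / i with hβ
  have sum_eq : ∀ z : ℂ, ∑ i ∈ Finset.range (k + 1), β i * z ^ i =
      ∑ j ∈ Finset.range k, b j / (j + 1) * z ^ (j + 1) := by
    intro z
    rw [Finset.sum_range_succ']
    have : β 0 * z ^ 0 = 0 := by
      rw [hβ]
      simp
    rw [this, add_zero]
    refine Finset.sum_congr rfl fun j _ => ?_
    rw [hβ]
    simp
  have small : ∀ z : ℂ, ‖z‖ < min r r₂ →
      |(∑ i ∈ Finset.range (k + 1), β i * z ^ i).re| ≤ (C₂ + M) * ‖z‖ ^ k := by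
    intro z hz
    have hz1 : ‖z‖ < r := lt_of_lt_of_le hz (min_le_left _ _)
    have hz2 : ‖z‖ < r₂ := lt_of_lt_of_le hz (min_le_right _ _)
    have h1 := (hM z hz1).2
    have h2 := hC₂ z hz2
    rw [hU0, sub_zero, ← sum_eq z] at h1
    have h3 : ‖z‖ ^ (k + 1) ≤ ‖z‖ ^ k := by
      rw [pow_succ]
      have : ‖z‖ ≤ 1 := (hz2.le).trans hr₂1
      exact mul_le_of_le_one_right (by positivity) this
    have h4 : M * ‖z‖ ^ (k + 1) ≤ M * ‖z‖ ^ k := mul_le_mul_of_nonneg_left h3 hM0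
    set s := (∑ i ∈ Finset.range (k + 1), β i * z ^ i).re with hs
    have h5 : |s| ≤ |U (z₀ + z)| + |U (z₀ + z) - s| := by
      calc |s| = |U (z₀ + z) - (U (z₀ + z) - s)| := by congr 1; ring
        _ ≤ _ := abs_sub _ _
    have h2' : |U (z₀ + z)| ≤ C₂ * ‖z‖ ^ k := h2
    linarith
  have β0 : ∀ i, i < k → β i = 0 := by
    intro i hi
    rcases Nat.eq_zero_or_pos i with h0 | h0
    · rw [h0, hβ]
      simp
    · exact coefC (lt_min hr hr₂) small i h0 hi (by omega)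
  have bz : ∀ j, j + 1 < k → b j = 0 := by
    intro j hj
    have h1 := β0 (j + 1) hj
    rw [hβ] at h1
    simp only [Nat.succ_ne_zero, if_false, Nat.add_sub_cancel] at h1
    rcases div_eq_zero_iff.mp h1 with h2 | h2
    · exact h2
    · exact absurd h2 (by exact_mod_cast Nat.succ_ne_zero j)
  have s1 : ∀ z : ℂ, ∑ i ∈ Finset.range (k + 1), β i * z ^ i = β k * z ^ k := by
    intro z
    rw [Finset.sum_range_succ, Finset.sum_eq_zero, zero_add]
    intro i hi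
    rw [β0 i (Finset.mem_range.mp hi), zero_mul]
  have s2 : ∀ z : ℂ, ∑ j ∈ Finset.range k, b j * z ^ j = b (k - 1) * z ^ (k - 1) := by
    intro z
    obtain ⟨k', rfl⟩ : ∃ k', k = k' + 1 := ⟨k - 1, by omega⟩
    rw [Finset.sum_range_succ, Finset.sum_eq_zero, zero_add, Nat.add_sub_cancel]
    intro i hi
    rw [bz i (by have := Finset.mem_range.mp hi; omega), zero_mul]
  refine ⟨⟨β k, M, r, hr, fun z hz => ?_⟩, ‖b (k - 1)‖ + M, min r 1, lt_min hr one_pos,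
    by positivity, min_le_right _ _, fun z hz => ?_⟩
  · have h1 := (hM z hz).2
    rw [hU0, sub_zero, ← sum_eq z, s1 z] at h1
    exact h1
  · have hz1 : ‖z‖ < r := lt_of_lt_of_le hz (min_le_left _ _)
    have hz2 : ‖z‖ ≤ 1 := (lt_of_lt_of_le hz (min_le_right _ _)).le
    have h1 := (hM z hz1).1
    rw [s2 z] at h1
    have h2 : ‖z‖ ^ k ≤ ‖z‖ ^ (k - 1) := pow_le_pow_of_le_one (norm_nonneg _) hz2 (Nat.sub_le _ _)
    calc ‖g (z₀ + z)‖ = ‖conj (g (z₀ + z))‖ := (RCLike.norm_conj _).symm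
      _ = ‖b (k - 1) * z ^ (k - 1) + (conj (g (z₀ + z)) - b (k - 1) * z ^ (k - 1))‖ := by
          congr 1
          ring
      _ ≤ ‖b (k - 1) * z ^ (k - 1)‖ + ‖conj (g (z₀ + z)) - b (k - 1) * z ^ (k - 1)‖ :=
          norm_add_le _ _
      _ ≤ ‖b (k - 1)‖ * ‖z‖ ^ (k - 1) + M * ‖z‖ ^ (k - 1) := by
          refine add_le_add ?_ ?_
          · rw [norm_mul, norm_pow]
          · exact h1.trans (mul_le_mul_of_nonneg_left h2 hM0)
      _ = (‖b (k - 1)‖ + M) * ‖z‖ ^ (k - 1) := by ring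

/-- the leading term -/
theorem lead (hO : IsOpen O) (hz₀ : z₀ ∈ O) (cU : ContinuousOn U O) (cg : ContinuousOn g O)
    (cρ : ContinuousOn ρ' O) (W : Weak O U g fun z => ρ' z * U z) {k : ℕ}
    (h : Small (fun z => U (z₀ + z)) k) :
    ∃ c : ℂ, Small (fun z => U (z₀ + z) - (c * z ^ k).re) (k + 1) := by
  rcases Nat.eq_zero_or_pos k with h0 | h0
  · subst h0
    obtain ⟨C, r₁, hr₁, hC⟩ := small_w (ρ' := ρ') hO hz₀ cρ h
    obtain ⟨b, M, r, hr, hM0, hM⟩ := expand hO W cU cg (cρ.mul cU) hz₀ hr₁ hC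
    refine ⟨(U z₀ : ℂ), M, r, hr, fun z hz => ?_⟩
    have h1 := (hM z hz).2
    simpa using h1
  · exact (lead_aux hO hz₀ cU cg cρ W h0 h).1

end lead

end Pool.Agent.H15.UC
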