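import Pool.Agent.H15.UC.Lead3

/-!
# Carleman's inequality for functions which vanish to infinite order
-/

set_option autoImplicit false

open Set Filter Topology MeasureTheory
open scoped ContDiff ComplexConjugate ENNReal

noncomputable section

namespace Pool.Agent.H15.UC

open Pool.Agent.H23.UC (Weak)

theorem FF_congr {χ χ' U w : ℂ → ℝ} {g : ℂ → ℂ} {y : ℂ} (h : χ =ᶠ[𝓝 y] χ') :
    FF χ U w g y = FF χ' U w g y := by
  have hD : ∀ v, D v χ =ᶠ[𝓝 y] D v χ' := by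
    intro v
    filter_upwards [h.eventuallyEq_nhds] with x hx
    show fderiv ℝ χ x v = fderiv ℝ χ' x v
    rw [hx.fderiv_eq]
  have hDD : ∀ v, D v (D v χ) y = D v (D v χ') y := by
    intro v
    show fderiv ℝ (D v χ) y v = fderiv ℝ (D v χ') y v
    rw [(hD v).fderiv_eq]
  unfold FF Lap
  rw [h.self_of_nhds, (hD 1).self_of_nhds, (hD Complex.I).self_of_nhds, hDD, hDD]

/-- the fixed bump function -/
def ψ : ContDiffBump (0 : ℂ) := ⟨1, 2, one_pos, one_lt_two⟩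

theorem D_scale {h : ℂ → ℝ} (hh : ContDiff ℝ ∞ h) (s : ℝ) (v z : ℂ) :
    D v (fun y => h ((s : ℂ) * y)) z = s * D v h ((s : ℂ) * z) := by
  have h1 : HasFDerivAt (fun y : ℂ => (s : ℂ) * y) ((s : ℝ) • ContinuousLinearMap.id ℝ ℂ) z := by
    have h2 := (hasFDerivAt_id (𝕜 := ℝ) z).const_smul s
    refine h2.congr_of_eventuallyEq (Filter.Eventually.of_forall fun y => ?_)
    simp
  have h2 := (diff hh ((s : ℂ) * z)).hasFDerivAt.comp z h1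
  show fderiv ℝ (fun y => h ((s : ℂ) * y)) z v = _
  have h3 : HasFDerivAt (fun y => h ((s : ℂ) * y)) _ z := h2
  rw [h3.fderiv]
  simp [D]

/-- the cutoff near `0` -/
def κ (n : ℕ) (z : ℂ) : ℝ := 1 - ψ (((n : ℝ) + 1 : ℝ) * z)

theorem κ_smooth (n : ℕ) : ContDiff ℝ ∞ (κ n) := by
  unfold κ
  exact contDiff_const.sub (ψ.contDiff.comp (contDiff_const.mul contDiff_id))

theorem D_κ (n : ℕ) (v z : ℂ) :
    D v (κ n) z = -(((n : ℝ) + 1) * D v (fun z => ψ z) ((((n : ℝ) + 1 : ℝ) : ℂ) * z)) := by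
  have h1 : ContDiff ℝ ∞ fun z : ℂ => ψ ((((n : ℝ) + 1 : ℝ) : ℂ) * z) :=
    ψ.contDiff.comp (contDiff_const.mul contDiff_id)
  have h2 : D v (κ n) z = D v (fun _ => (1 : ℝ)) z - D v (fun z : ℂ => ψ ((((n : ℝ) + 1 : ℝ) : ℂ) * z)) z := by
    have := congrFun (D_sub (E := ℝ) (contDiff_const (c := (1 : ℝ))) h1 v) z
    exact this
  rw [h2, D_scale (h := fun z => ψ z) ψ.contDiff]
  have : D v (fun _ : ℂ => (1 : ℝ)) z = 0 := by
    unfold D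
    simp
  rw [this]
  ring

theorem DD_κ (n : ℕ) (v z : ℂ) :
    D v (D v (κ n)) z =
      -(((n : ℝ) + 1) ^ 2 * D v (D v (fun z => ψ z)) ((((n : ℝ) + 1 : ℝ) : ℂ) * z)) := by
  have e : D v (κ n) = fun z =>
      -(((n : ℝ) + 1) * D v (fun z => ψ z) ((((n : ℝ) + 1 : ℝ) : ℂ) * z)) := funext (D_κ n v)
  have s1 : ContDiff ℝ ∞ (D v fun z => ψ z) := smooth_D ψ.contDiff v
  have s2 : ContDiff ℝ ∞ fun z : ℂ => D v (fun z => ψ z) ((((n : ℝ) + 1 : ℝ) : ℂ) * z) :=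
    s1.comp (contDiff_const.mul contDiff_id)
  rw [e, D_neg]
  show -(D v (fun t => ((n : ℝ) + 1) * D v (fun z => ψ z) ((((n : ℝ) + 1 : ℝ) : ℂ) * t)) z) = _
  have h := congrFun (D_mul' (contDiff_const (c := ((n : ℝ) + 1))) s2 v) z
  have h0 : D v (fun _ : ℂ => ((n : ℝ) + 1)) z = 0 := by
    unfold D
    simp
  rw [h0, zero_mul, add_zero] at h
  rw [h, D_scale s1]
  ring

theorem κ_zero {n : ℕ} {z : ℂ} (h : ‖z‖ < 1 / ((n : ℝ) + 1)) : κ n =ᶠ[𝓝 z] fun _ => 0 := by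
  have h1 : ∀ᶠ y in 𝓝 z, ‖y‖ < 1 / ((n : ℝ) + 1) :=
    (continuous_norm.tendsto z).eventually_lt_const h
  filter_upwards [h1] with y hy
  have hn : (0 : ℝ) < (n : ℝ) + 1 := by positivity
  have : ψ ((((n : ℝ) + 1 : ℝ) : ℂ) * y) = 1 := by
    refine ψ.one_of_mem_closedBall ?_
    rw [mem_closedBall_zero_iff, norm_mul, Complex.norm_real, Real.norm_of_nonneg hn.le]
    show ((n : ℝ) + 1) * ‖y‖ ≤ 1
    rw [lt_div_iff₀ hn] at hy
    linarith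
  unfold κ
  rw [this, sub_self]

theorem κ_one {n : ℕ} {z : ℂ} (h : 2 / ((n : ℝ) + 1) < ‖z‖) : κ n =ᶠ[𝓝 z] fun _ => 1 := by
  have h1 : ∀ᶠ y in 𝓝 z, 2 / ((n : ℝ) + 1) < ‖y‖ :=
    (continuous_norm.tendsto z).eventually_const_lt h
  filter_upwards [h1] with y hy
  have hn : (0 : ℝ) < (n : ℝ) + 1 := by positivity
  have : ψ ((((n : ℝ) + 1 : ℝ) : ℂ) * y) = 0 := by
    refine ψ.zero_of_le_dist ?_
    rw [dist_zero_right, norm_mul, Complex.norm_real, Real.norm_of_nonneg hn.le]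
    show 2 ≤ ((n : ℝ) + 1) * ‖y‖
    rw [div_lt_iff₀ hn] at hy
    linarith
  unfold κ
  rw [this, sub_zero]

theorem κ_bdd (n : ℕ) (z : ℂ) : |κ n z| ≤ 1 := by
  unfold κ
  have h1 : (0 : ℝ) ≤ ψ ((((n : ℝ) + 1 : ℝ) : ℂ) * z) := ψ.nonneg
  have h2 : ψ ((((n : ℝ) + 1 : ℝ) : ℂ) * z) ≤ 1 := ψ.le_one
  rw [abs_le]
  constructor <;> linarith

/-- a bound for the derivatives of `ψ` -/
theorem ψ_bound : ∃ A : ℝ, 0 ≤ A ∧ (∀ z, |D 1 (fun z => ψ z) z| ≤ A) ∧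
    (∀ z, |D Complex.I (fun z => ψ z) z| ≤ A) ∧ (∀ z, |D 1 (D 1 fun z => ψ z) z| ≤ A) ∧
    ∀ z, |D Complex.I (D Complex.I fun z => ψ z) z| ≤ A := by
  have s : ContDiff ℝ ∞ (fun z => ψ z) := ψ.contDiff
  have c : HasCompactSupport (fun z => ψ z) := ψ.hasCompactSupport
  obtain ⟨A1, h1, b1⟩ := bddC (smooth_D s 1).continuous (supp_D c 1)
  obtain ⟨A2, h2, b2⟩ := bddC (smooth_D s Complex.I).continuous (supp_D c Complex.I)
  obtain ⟨A3, h3, b3⟩ := bddC (smooth_D (smooth_D s 1) 1).continuous (supp_D (supp_D c 1) 1)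
  obtain ⟨A4, h4, b4⟩ := bddC (smooth_D (smooth_D s Complex.I) Complex.I).continuous
    (supp_D (supp_D c Complex.I) Complex.I)
  refine ⟨A1 + A2 + A3 + A4, by positivity, fun z => ?_, fun z => ?_, fun z => ?_, fun z => ?_⟩
  · have := b1 z; rw [Real.norm_eq_abs] at this; linarith
  · have := b2 z; rw [Real.norm_eq_abs] at this; linarith
  · have := b3 z; rw [Real.norm_eq_abs] at this; linarith
  · have := b4 z; rw [Real.norm_eq_abs] at this; linarith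

/-- the value of `FF` for the cutoff `κ` -/
theorem FF_κ {U w : ℂ → ℝ} {g : ℂ → ℂ} (n : ℕ) (z₀ z : ℂ) :
    FF (fun y => κ n (y - z₀)) U w g (z + z₀) = w (z + z₀) * (-κ n z) +
      (g (z + z₀)).re * (2 * D 1 (κ n) z) + (g (z + z₀)).im * (2 * D Complex.I (κ n) z) +
      U (z + z₀) * (D 1 (D 1 (κ n)) z + D Complex.I (D Complex.I (κ n)) z) := by
  have e0 : (fun y => κ n (y - z₀)) (z + z₀) = κ n z := by
    show κ n (z + z₀ - z₀) = κ n z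
    rw [add_sub_cancel_right]
  unfold FF
  rw [Lap_shift (κ_smooth n), congrFun (D_shift (κ_smooth n) z₀ 1) (z + z₀),
    congrFun (D_shift (κ_smooth n) z₀ Complex.I) (z + z₀), e0, add_sub_cancel_right]
  rfl

/-- the error in the annulus -/
theorem annulus {U w : ℂ → ℝ} {g : ℂ → ℂ} {z₀ : ℂ} {m : ℕ} {C₁ C₂ C₃ r : ℝ} (h1 : 0 ≤ C₁)
    (h2 : 0 ≤ C₂) (h3 : 0 ≤ C₃)
    (hw : ∀ z : ℂ, ‖z‖ < r → |w (z₀ + z)| ≤ C₁ * ‖z‖ ^ m)
    (hg : ∀ z : ℂ, ‖z‖ < r → ‖g (z₀ + z)‖ ≤ C₂ * ‖z‖ ^ m)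
    (hU : ∀ z : ℂ, ‖z‖ < r → |U (z₀ + z)| ≤ C₃ * ‖z‖ ^ m) :
    ∃ B : ℝ, 0 ≤ B ∧ ∀ (n : ℕ) (z : ℂ), 2 / ((n : ℝ) + 1) < r → ‖z‖ ≤ 2 / ((n : ℝ) + 1) →
      |FF (fun y => κ n (y - z₀)) U w g (z + z₀)| ≤ B * ((n : ℝ) + 1) ^ 2 * (2 / ((n : ℝ) + 1)) ^ m := by
  obtain ⟨A, hA0, a1, a2, a3, a4⟩ := ψ_bound
  refine ⟨C₁ + 4 * A * C₂ + 2 * A * C₃, by positivity, fun n z hn hz => ?_⟩
  have hzr : ‖z‖ < r := lt_of_le_of_lt hz hn
  set s : ℝ := (n : ℝ) + 1 with hs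
  have hs1 : 1 ≤ s := by
    have : (0 : ℝ) ≤ n := Nat.cast_nonneg n
    rw [hs]
    linarith
  have hs0 : 0 < s := by linarith
  have hp : ‖z‖ ^ m ≤ (2 / s) ^ m := pow_le_pow_left₀ (norm_nonneg _) hz m
  set q := (2 / s) ^ m with hq
  have hq0 : 0 ≤ q := by positivity
  have w1 : |w (z + z₀)| ≤ C₁ * q := by
    rw [add_comm]
    exact (hw z hzr).trans (mul_le_mul_of_nonneg_left hp h1)
  have g1 : ‖g (z + z₀)‖ ≤ C₂ * q := by
    rw [add_comm]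
    exact (hg z hzr).trans (mul_le_mul_of_nonneg_left hp h2)
  have u1 : |U (z + z₀)| ≤ C₃ * q := by
    rw [add_comm]
    exact (hU z hzr).trans (mul_le_mul_of_nonneg_left hp h3)
  have gre : |(g (z + z₀)).re| ≤ C₂ * q := (Complex.abs_re_le_norm _).trans g1
  have gim : |(g (z + z₀)).im| ≤ C₂ * q := (Complex.abs_im_le_norm _).trans g1
  have d1 : |D 1 (κ n) z| ≤ s * A := by
    rw [D_κ, abs_neg, abs_mul, abs_of_pos hs0]
    exact mul_le_mul_of_nonneg_left (a1 _) hs0.le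
  have d2 : |D Complex.I (κ n) z| ≤ s * A := by
    rw [D_κ, abs_neg, abs_mul, abs_of_pos hs0]
    exact mul_le_mul_of_nonneg_left (a2 _) hs0.le
  have d3 : |D 1 (D 1 (κ n)) z| ≤ s ^ 2 * A := by
    rw [DD_κ, abs_neg, abs_mul, abs_of_pos (pow_pos hs0 2)]
    exact mul_le_mul_of_nonneg_left (a3 _) (pow_pos hs0 2).le
  have d4 : |D Complex.I (D Complex.I (κ n)) z| ≤ s ^ 2 * A := by
    rw [DD_κ, abs_neg, abs_mul, abs_of_pos (pow_pos hs0 2)]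
    exact mul_le_mul_of_nonneg_left (a4 _) (pow_pos hs0 2).le
  have ss : s ≤ s ^ 2 := by nlinarith
  have s1 : 1 ≤ s ^ 2 := by nlinarith
  rw [FF_κ]
  have t1 : |w (z + z₀) * (-κ n z)| ≤ C₁ * q * 1 := by
    rw [abs_mul, abs_neg]
    exact mul_le_mul w1 (κ_bdd n z) (abs_nonneg _) (by positivity)
  have t2 : |(g (z + z₀)).re * (2 * D 1 (κ n) z)| ≤ C₂ * q * (2 * (s ^ 2 * A)) := by
    rw [abs_mul, abs_mul, abs_two]
    refine mul_le_mul gre ?_ (by positivity) (by positivity)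
    have : s * A ≤ s ^ 2 * A := mul_le_mul_of_nonneg_right ss hA0
    linarith
  have t3 : |(g (z + z₀)).im * (2 * D Complex.I (κ n) z)| ≤ C₂ * q * (2 * (s ^ 2 * A)) := by
    rw [abs_mul, abs_mul, abs_two]
    refine mul_le_mul gim ?_ (by positivity) (by positivity)
    have : s * A ≤ s ^ 2 * A := mul_le_mul_of_nonneg_right ss hA0
    linarith
  have t4 : |U (z + z₀) * (D 1 (D 1 (κ n)) z + D Complex.I (D Complex.I (κ n)) z)| ≤
      C₃ * q * (s ^ 2 * A + s ^ 2 * A) := by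
    rw [abs_mul]
    exact mul_le_mul u1 ((abs_add_le _ _).trans (add_le_add d3 d4)) (abs_nonneg _) (by positivity)
  have t5 : C₁ * q * 1 ≤ C₁ * q * s ^ 2 := mul_le_mul_of_nonneg_left s1 (by positivity)
  calc _ ≤ |w (z + z₀) * (-κ n z)| + |(g (z + z₀)).re * (2 * D 1 (κ n) z)| +
        |(g (z + z₀)).im * (2 * D Complex.I (κ n) z)| +
        |U (z + z₀) * (D 1 (D 1 (κ n)) z + D Complex.I (D Complex.I (κ n)) z)| := by
        refine (abs_add_le _ _).trans (add_le_add ?_ le_rfl)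
        refine (abs_add_le _ _).trans (add_le_add ?_ le_rfl)
        exact abs_add_le _ _
    _ ≤ C₁ * q * s ^ 2 + C₂ * q * (2 * (s ^ 2 * A)) + C₂ * q * (2 * (s ^ 2 * A)) +
        C₃ * q * (s ^ 2 * A + s ^ 2 * A) := by linarith
    _ = (C₁ + 4 * A * C₂ + 2 * A * C₃) * s ^ 2 * q := by ring

end Pool.Agent.H15.UC
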