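import Pool.Agent.H15.UC.Moll

/-!
# Carleman's inequality and the Hölder estimate for weak solutions
-/

set_option autoImplicit false

open Set Filter Topology MeasureTheory
open scoped ContDiff ComplexConjugate ENNReal

noncomputable section

namespace Pool.Agent.H15.UC

/-- the weight `|z|^(-2N)` -/
def Wt (N : ℕ) (z : ℂ) : ℝ≥0∞ := ENNReal.ofReal (((‖z‖ ^ N)⁻¹) ^ 2)

theorem Wt_meas (N : ℕ) : Measurable (Wt N) :=
  (((measurable_norm.pow_const N).inv).pow_const 2).ennreal_ofReal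

section
variable {P F : ℂ → ℝ} {r R : ℝ}

theorem int_w {N : ℕ} {Q : ℂ → ℝ} (hQ : ContDiff ℝ ∞ Q) (hc : HasCompactSupport Q) (hr : 0 < r)
    (hz : ∀ z, ‖z‖ < r → Q z = 0) : Integrable fun z => ((‖z‖ ^ N)⁻¹) ^ 2 * Q z ^ 2 := by
  have hcC : HasCompactSupport (fun z => ((Q z : ℝ) : ℂ)) :=
    HasCompactSupport.comp_left (g := fun x : ℝ => (x : ℂ)) hc (by simp)
  have s := smooth_dv (N := N) (smooth_ofReal hQ) hr (fun z h => by rw [hz z h]; simp)
  have c := supp_dv (N := N) hcC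
  have h1 : Integrable fun z => ‖dv N (fun z => ((Q z : ℝ) : ℂ)) z‖ ^ 2 :=
    integ (s.continuous.norm.pow 2)
      (HasCompactSupport.comp_left (g := fun x : ℝ => x ^ 2) c.norm (by simp))
  refine h1.congr (Filter.Eventually.of_forall fun z => ?_)
  show ‖dv N (fun z => ((Q z : ℝ) : ℂ)) z‖ ^ 2 = ((‖z‖ ^ N)⁻¹) ^ 2 * Q z ^ 2
  unfold dv
  rw [norm_mul, norm_inv, norm_pow, Complex.norm_real, Real.norm_eq_abs, mul_pow, sq_abs]

theorem lint_w {N : ℕ} {Q : ℂ → ℝ} (hQ : ContDiff ℝ ∞ Q) (hc : HasCompactSupport Q) (hr : 0 < r)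
    (hz : ∀ z, ‖z‖ < r → Q z = 0) :
    ENNReal.ofReal (∫ z, ((‖z‖ ^ N)⁻¹) ^ 2 * Q z ^ 2) = ∫⁻ z, Wt N z * ENNReal.ofReal (Q z ^ 2) := by
  rw [ofReal_integral_eq_lintegral_ofReal (int_w hQ hc hr hz)
    (Filter.Eventually.of_forall fun z => by positivity)]
  refine lintegral_congr fun z => ?_
  unfold Wt
  rw [ENNReal.ofReal_mul (sq_nonneg _)]

theorem factor (N : ℕ) (hr : 0 < r) : ∀ᶠ n : ℕ in atTop, ∀ x y : ℂ, ‖x - y‖ < 1 / ((n : ℝ) + 1) →
    r ≤ ‖y‖ → Wt N x ≤ 2 * Wt N y := by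
  have h1 : Tendsto (fun n : ℕ => (((1 - (1 / ((n : ℝ) + 1)) / r) ^ N)⁻¹) ^ 2) atTop (𝓝 1) := by
    have h2 : Tendsto (fun n : ℕ => 1 - (1 / ((n : ℝ) + 1)) / r) atTop (𝓝 1) := by
      have := (tendsto_δ.div_const r).const_sub 1
      simpa using this
    have h3 := (((h2.pow N).inv₀ (by simp))).pow 2
    simpa using h3
  have h4 : ∀ᶠ n : ℕ in atTop, (((1 - (1 / ((n : ℝ) + 1)) / r) ^ N)⁻¹) ^ 2 < 2 :=
    h1.eventually_lt_const (by norm_num)
  have h5 : ∀ᶠ n : ℕ in atTop, 1 / ((n : ℝ) + 1) < r := tendsto_δ.eventually_lt_const hr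
  filter_upwards [h4, h5] with n h6 h7 x y hxy hy
  set δ := 1 / ((n : ℝ) + 1) with hδ
  have hδ0 : 0 < δ := by positivity
  have y0 : 0 < ‖y‖ := hr.trans_le hy
  have q0 : 0 < 1 - δ / r := by
    rw [sub_pos, div_lt_one hr]; exact h7
  have k1 : ‖y‖ * (1 - δ / r) ≤ ‖x‖ := by
    have h8 : ‖y‖ ≤ ‖x‖ + ‖x - y‖ := by
      have : y = x - (x - y) := by ring
      calc ‖y‖ = ‖x - (x - y)‖ := by rw [← this]
        _ ≤ _ := norm_sub_le _ _
    have h9 : δ ≤ ‖y‖ * (δ / r) := by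
      rw [mul_div_assoc', le_div_iff₀ hr]
      nlinarith
    nlinarith
  have k2 : 0 < ‖y‖ * (1 - δ / r) := by positivity
  unfold Wt
  rw [show (2 : ℝ≥0∞) = ENNReal.ofReal 2 by simp, ← ENNReal.ofReal_mul (by norm_num)]
  refine ENNReal.ofReal_le_ofReal ?_
  have k3 : (‖x‖ ^ N)⁻¹ ≤ ((‖y‖ * (1 - δ / r)) ^ N)⁻¹ :=
    inv_anti₀ (by positivity) (pow_le_pow_left₀ k2.le k1 N)
  calc ((‖x‖ ^ N)⁻¹) ^ 2 ≤ (((‖y‖ * (1 - δ / r)) ^ N)⁻¹) ^ 2 :=
        pow_le_pow_left₀ (by positivity) k3 2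
    _ = (((1 - δ / r) ^ N)⁻¹) ^ 2 * ((‖y‖ ^ N)⁻¹) ^ 2 := by
        rw [mul_pow, mul_inv, mul_pow]; ring
    _ ≤ 2 * ((‖y‖ ^ N)⁻¹) ^ 2 := mul_le_mul_of_nonneg_right h6.le (by positivity)

/-- vanishing of the mollification -/
theorem mo_zero {n : ℕ} {x : ℂ} (h : ∀ t, ‖x - t‖ < 1 / ((n : ℝ) + 1) → P t = 0) :
    mo (ρ n) P x = 0 := by
  rw [mo_apply]
  have : ∀ t, P t * ρ n (x - t) = 0 := by
    intro t
    by_cases h1 : ρ n (x - t) = 0
    · rw [h1, mul_zero]
    · rw [h t (ρ_zero h1), zero_mul]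
  simp [this]

theorem mo_supp {n : ℕ} (hs : ∀ z, R < ‖z‖ → P z = 0) : HasCompactSupport (mo (ρ n) P) := by
  refine HasCompactSupport.convolution (ContinuousLinearMap.mul ℝ ℝ) ?_ (ρ_supp n)
  refine HasCompactSupport.intro (isCompact_closedBall (0 : ℂ) R) fun z hz => hs z ?_
  rw [mem_closedBall_zero_iff] at hz
  exact not_le.mp hz

theorem loc {P : ℂ → ℝ} (h : MemLp P 2) : LocallyIntegrable P :=
  h.locallyIntegrable (by norm_num)

theorem loc2 {P : ℂ → ℝ} (h : MemLp P 2) : LocallyIntegrable fun z => P z ^ 2 :=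
  h.integrable_sq.locallyIntegrable

/-- **Carleman's inequality** for weak solutions. -/
theorem weak_carleman (hP : MemLp P 2) (hF : MemLp F 2) (mF : Measurable F) (hw : WL P F)
    (hr : 0 < r) (hR : 0 < R) (pz : ∀ z, ‖z‖ < r → P z = 0) (fz : ∀ z, ‖z‖ < r → F z = 0)
    (ps : ∀ z, R < ‖z‖ → P z = 0) (N : ℕ) :
    ∫⁻ z, Wt N z * ENNReal.ofReal (P z ^ 2) ≤
      ENNReal.ofReal (512 * R ^ 4) * ∫⁻ z, Wt N z * ENNReal.ofReal (F z ^ 2) := by
  set K := ENNReal.ofReal (512 * R ^ 4) * ∫⁻ z, Wt N z * ENNReal.ofReal (F z ^ 2) with hK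
  -- the bound for the mollifications
  have bd : ∀ᶠ n : ℕ in atTop, ∫⁻ z, Wt N z * ENNReal.ofReal (mo (ρ n) P z ^ 2) ≤ K := by
    have e1 : ∀ᶠ n : ℕ in atTop, 1 / ((n : ℝ) + 1) < r / 2 :=
      tendsto_δ.eventually_lt_const (by positivity)
    have e2 : ∀ᶠ n : ℕ in atTop, 1 / ((n : ℝ) + 1) < R := tendsto_δ.eventually_lt_const hR
    filter_upwards [e1, e2, factor N hr] with n h1 h2 h3
    have s := mo_smooth (ρ_smooth n) (ρ_supp n) (loc hP)
    have c := mo_supp (n := n) ps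
    have z1 : ∀ z, ‖z‖ < r / 2 → mo (ρ n) P z = 0 := by
      intro z hz
      refine mo_zero fun t ht => pz t ?_
      have : ‖t‖ ≤ ‖z‖ + ‖z - t‖ := by
        have e : t = z - (z - t) := by ring
        calc ‖t‖ = ‖z - (z - t)‖ := by rw [← e]
          _ ≤ _ := norm_sub_le _ _
      linarith
    have z2 : ∀ z, 2 * R < ‖z‖ → mo (ρ n) P z = 0 := by
      intro z hz
      refine mo_zero fun t ht => ps t ?_
      have : ‖z‖ ≤ ‖t‖ + ‖z - t‖ := by
        have e : z = t + (z - t) := by ring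
        calc ‖z‖ = ‖t + (z - t)‖ := by rw [← e]
          _ ≤ _ := norm_add_le _ _
      linarith
    have h4 := carleman (N := N) s c (r := r / 2) (R := 2 * R) (by positivity) z1 z2
    have lap := hw.mo (ρ_smooth n) (ρ_supp n) (loc hP)
    have sL : ContDiff ℝ ∞ (mo (ρ n) F) := mo_smooth (ρ_smooth n) (ρ_supp n) (loc hF)
    have o1 : IsOpen {z : ℂ | ‖z‖ < r / 2} := isOpen_lt continuous_norm continuous_const
    have zL : ∀ z, ‖z‖ < r / 2 → mo (ρ n) F z = 0 := by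
      intro z hz
      refine mo_zero fun t ht => fz t ?_
      have : ‖t‖ ≤ ‖z‖ + ‖z - t‖ := by
        have e : t = z - (z - t) := by ring
        calc ‖t‖ = ‖z - (z - t)‖ := by rw [← e]
          _ ≤ _ := norm_sub_le _ _
      linarith
    have cL : HasCompactSupport (mo (ρ n) F) := by
      rw [← lap]
      have h5 := supp_D (supp_D c 1) 1
      have h6 := supp_D (supp_D c Complex.I) Complex.I
      exact h5.add h6
    rw [lap] at h4
    have h7 := ENNReal.ofReal_le_ofReal h4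
    rw [lint_w s c (by positivity) z1, ENNReal.ofReal_mul (by positivity),
      lint_w sL cL (by positivity) zL] at h7
    have h8 := weighted (ρ_smooth n).continuous (ρ_supp n) (ρ_nonneg n) (ρ_int n) mF (loc hF)
      (loc2 hF) (Wt_meas N) (c := 2) (fun x y hxy hy => h3 x y (ρ_zero hxy) (by
        by_contra hcon
        exact hy (fz y (not_le.mp hcon))))
    refine h7.trans ((mul_le_mul_right h8 _).trans (le_of_eq ?_))
    rw [hK, ← mul_assoc, show (2 : ℝ≥0∞) = ENNReal.ofReal 2 by simp,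
      ← ENNReal.ofReal_mul (by positivity)]
    congr 2
    ring
  -- Fatou
  have fat : ∫⁻ z, liminf (fun n => Wt N z * ENNReal.ofReal (mo (ρ n) P z ^ 2)) atTop ≤
      liminf (fun n => ∫⁻ z, Wt N z * ENNReal.ofReal (mo (ρ n) P z ^ 2)) atTop :=
    lintegral_liminf_le fun n => (Wt_meas N).mul
      (((mo_smooth (ρ_smooth n) (ρ_supp n) (loc hP)).continuous.measurable.pow_const 2).ennreal_ofReal)
  have e3 : ∫⁻ z, Wt N z * ENNReal.ofReal (P z ^ 2) =
      ∫⁻ z, liminf (fun n => Wt N z * ENNReal.ofReal (mo (ρ n) P z ^ 2)) atTop := by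
    refine lintegral_congr_ae ?_
    filter_upwards [mo_tendsto (loc hP)] with z hz
    have h1 : Tendsto (fun n => Wt N z * ENNReal.ofReal (mo (ρ n) P z ^ 2)) atTop
        (𝓝 (Wt N z * ENNReal.ofReal (P z ^ 2))) :=
      ENNReal.Tendsto.const_mul (ENNReal.tendsto_ofReal (hz.pow 2)) (Or.inr ENNReal.ofReal_ne_top)
    exact h1.liminf_eq.symm
  rw [e3]
  exact fat.trans (liminf_le_of_frequently_le' bd.frequently)

/-- Weak solutions with compact support are continuous. -/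
theorem weak_cont (hP : MemLp P 2) (hF : MemLp F 2) (mF : Measurable F) (hw : WL P F)
    (hR : 0 < R) (ps : ∀ z, R < ‖z‖ → P z = 0) :
    ∃ P' : ℂ → ℝ, Continuous P' ∧ ∀ᵐ z, P z = P' z := by
  set M := ∫ z, F z ^ 2 with hM
  have hM0 : 0 ≤ M := integral_nonneg fun z => sq_nonneg _
  have s : ∀ n, ContDiff ℝ ∞ (mo (ρ n) P) := fun n => mo_smooth (ρ_smooth n) (ρ_supp n) (loc hP)
  have c : ∀ n, HasCompactSupport (mo (ρ n) P) := fun n => mo_supp ps
  have z2 : ∀ n z, R + 1 < ‖z‖ → mo (ρ n) P z = 0 := by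
    intro n z hz
    refine mo_zero fun t ht => ps t ?_
    have h1 : 1 / ((n : ℝ) + 1) ≤ 1 := by
      rw [div_le_one (by positivity)]
      linarith [Nat.cast_nonneg (α := ℝ) n]
    have : ‖z‖ ≤ ‖t‖ + ‖z - t‖ := by
      have e : z = t + (z - t) := by ring
      calc ‖z‖ = ‖t + (z - t)‖ := by rw [← e]
        _ ≤ _ := norm_add_le _ _
    linarith
  have lap : ∀ n, Lap (mo (ρ n) P) = mo (ρ n) F := fun n => hw.mo (ρ_smooth n) (ρ_supp n) (loc hP)
  have bM : ∀ n, ∫ z, Lap (mo (ρ n) P) z ^ 2 ≤ M := by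
    intro n
    have cL : HasCompactSupport (mo (ρ n) F) := by
      rw [← lap]
      have h5 := supp_D (supp_D (c n) 1) 1
      have h6 := supp_D (supp_D (c n) Complex.I) Complex.I
      exact h5.add h6
    have sL : ContDiff ℝ ∞ (mo (ρ n) F) := mo_smooth (ρ_smooth n) (ρ_supp n) (loc hF)
    have iL : Integrable fun z => mo (ρ n) F z ^ 2 :=
      integ (sL.continuous.pow 2)
        (HasCompactSupport.comp_left (g := fun x : ℝ => x ^ 2) cL (by simp))
    have h8 := weighted (ρ_smooth n).continuous (ρ_supp n) (ρ_nonneg n) (ρ_int n) mF (loc hF)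
      (loc2 hF) (W := fun _ => 1) measurable_const (c := 1) (fun x y _ _ => by simp)
    simp only [one_mul] at h8
    rw [lap, hM, ← ENNReal.ofReal_le_ofReal_iff hM0,
      ofReal_integral_eq_lintegral_ofReal iL (Filter.Eventually.of_forall fun z => sq_nonneg _),
      ofReal_integral_eq_lintegral_ofReal hF.integrable_sq
        (Filter.Eventually.of_forall fun z => sq_nonneg _)]
    exact h8
  set K := 2 * (R + 1) + M with hK
  have K0 : 0 ≤ K := by positivity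
  have hol : ∀ n z z', |mo (ρ n) P z - mo (ρ n) P z'| ≤ K * √‖z - z'‖ := fun n z z' =>
    holder (s n) (c n) (by positivity) (z2 n) (bM n) z z'
  -- bounds
  have bdd : ∀ n z, |mo (ρ n) P z| ≤ K * √‖z - ((R + 2 : ℝ) : ℂ)‖ := by
    intro n z
    have h1 := hol n z ((R + 2 : ℝ) : ℂ)
    rwa [z2 n ((R + 2 : ℝ) : ℂ) (by
      rw [Complex.norm_real, Real.norm_eq_abs, abs_of_pos (by positivity)]; linarith),
      sub_zero] at h1
  have b1 : ∀ z, IsBoundedUnder (· ≤ ·) atTop (fun n => mo (ρ n) P z) := fun z =>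
    isBoundedUnder_of ⟨_, fun n => (abs_le.mp (bdd n z)).2⟩
  have b2 : ∀ z, IsBoundedUnder (· ≥ ·) atTop (fun n => mo (ρ n) P z) := fun z =>
    isBoundedUnder_of ⟨_, fun n => (abs_le.mp (bdd n z)).1⟩
  have b3 : ∀ z, IsCoboundedUnder (· ≤ ·) atTop (fun n => mo (ρ n) P z) := fun z =>
    (b2 z).isCoboundedUnder_flip
  set P' : ℂ → ℝ := fun z => limsup (fun n => mo (ρ n) P z) atTop with hP'
  have one : ∀ z z', P' z ≤ P' z' + K * √‖z - z'‖ := by
    intro z z'
    have h1 : P' z ≤ limsup (fun n => mo (ρ n) P z' + K * √‖z - z'‖) atTop := by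
      refine limsup_le_limsup (Filter.Eventually.of_forall fun n => ?_) (b3 z) ?_
      · have := (abs_le.mp (hol n z z')).2
        show mo (ρ n) P z ≤ mo (ρ n) P z' + K * √‖z - z'‖
        linarith
      · obtain ⟨b, hb⟩ := (b1 z')
        refine ⟨b + K * √‖z - z'‖, ?_⟩
        rw [eventually_map] at hb ⊢
        filter_upwards [hb] with n hn
        linarith
    rw [limsup_add_const atTop _ _ (b1 z') (b3 z')] at h1
    exact h1
  refine ⟨P', ?_, ?_⟩
  · rw [continuous_iff_continuousAt]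
    intro z0
    have h1 : Tendsto (fun z => K * √‖z - z0‖) (𝓝 z0) (𝓝 0) := by
      have h2 : Continuous fun z : ℂ => K * √‖z - z0‖ := by fun_prop
      have h3 := h2.tendsto z0
      simpa using h3
    rw [ContinuousAt, tendsto_iff_dist_tendsto_zero]
    refine squeeze_zero (fun z => dist_nonneg) (fun z => ?_) h1
    rw [Real.dist_eq, abs_le]
    have h4 := one z z0
    have h5 := one z0 z
    rw [norm_sub_rev] at h5
    constructor <;> linarith
  · filter_upwards [mo_tendsto (loc hP)] with z hz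
    exact hz.limsup_eq.symm

end

end Pool.Agent.H15.UC
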