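import Pool.Agent.H15.UC.Hol

/-!
# Mollification of weak solutions
-/

set_option autoImplicit false

open Set Filter Topology MeasureTheory
open scoped ContDiff ComplexConjugate ENNReal

noncomputable section

namespace Pool.Agent.H15.UC

/-- `(F * ρ) (x) = ∫ F t ρ (x - t) dt` -/
def mo (ρ F : ℂ → ℝ) : ℂ → ℝ := convolution F ρ (ContinuousLinearMap.mul ℝ ℝ) volume

theorem mo_apply (ρ F : ℂ → ℝ) (x : ℂ) : mo ρ F x = ∫ t, F t * ρ (x - t) := by
  unfold mo
  rw [convolution_def]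
  rfl

section basic
variable {ρ F P : ℂ → ℝ}

theorem mo_smooth (hρ : ContDiff ℝ ∞ ρ) (hc : HasCompactSupport ρ) (hF : LocallyIntegrable F) :
    ContDiff ℝ ∞ (mo ρ F) :=
  hc.contDiff_convolution_right (ContinuousLinearMap.mul ℝ ℝ) hF hρ

theorem D_mo (hρ : ContDiff ℝ ∞ ρ) (hc : HasCompactSupport ρ) (hF : LocallyIntegrable F) (v : ℂ) :
    D v (mo ρ F) = mo (D v ρ) F := by
  funext x
  have h1 : ContDiff ℝ 1 ρ := hρ.of_le (by exact_mod_cast le_top)
  have h2 := hc.hasFDerivAt_convolution_right (ContinuousLinearMap.mul ℝ ℝ) hF h1 x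
  show fderiv ℝ (mo ρ F) x v = _
  unfold mo
  rw [h2.fderiv]
  have h3 : Continuous (fderiv ℝ ρ) := (hρ.fderiv_right (m := ∞) le_rfl).continuous
  exact convolution_precompR_apply (ContinuousLinearMap.mul ℝ ℝ) hF (hc.fderiv (𝕜 := ℝ)) h3 x v

theorem int_mo (hρ : Continuous ρ) (hc : HasCompactSupport ρ) (hF : LocallyIntegrable F) (x : ℂ) :
    Integrable fun t => F t * ρ (x - t) := by
  have h1 : Continuous fun t => ρ (x - t) := hρ.comp (continuous_const.sub continuous_id)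
  have h2 : HasCompactSupport fun t => ρ (x - t) :=
    hc.comp_homeomorph (Homeomorph.subLeft x)
  have h3 := hF.integrable_smul_right_of_hasCompactSupport h1 h2
  refine h3.congr (Filter.Eventually.of_forall fun t => ?_)
  simp

theorem Lap_mo (hρ : ContDiff ℝ ∞ ρ) (hc : HasCompactSupport ρ) (hF : LocallyIntegrable F) :
    Lap (mo ρ F) = mo (Lap ρ) F := by
  funext x
  unfold Lap
  rw [D_mo hρ hc hF, D_mo hρ hc hF, D_mo (smooth_D hρ _) (supp_D hc _) hF,
    D_mo (smooth_D hρ _) (supp_D hc _) hF, mo_apply, mo_apply, mo_apply,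
    ← integral_add
      (int_mo (smooth_D (smooth_D hρ _) _).continuous (supp_D (supp_D hc _) _) hF x)
      (int_mo (smooth_D (smooth_D hρ _) _).continuous (supp_D (supp_D hc _) _) hF x)]
  congr 1
  funext t
  ring

theorem smooth_refl (hρ : ContDiff ℝ ∞ ρ) (x : ℂ) : ContDiff ℝ ∞ fun t => ρ (x - t) :=
  hρ.comp (contDiff_const.sub contDiff_id)

theorem D_refl (hρ : ContDiff ℝ ∞ ρ) (x v : ℂ) :
    D v (fun t => ρ (x - t)) = fun t => -D v ρ (x - t) := by
  funext t
  have h1 : HasFDerivAt (fun t : ℂ => x - t) (-(ContinuousLinearMap.id ℝ ℂ)) t :=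
    (hasFDerivAt_id t).const_sub x
  have h2 := (diff hρ (x - t)).hasFDerivAt.comp t h1
  show fderiv ℝ (fun t => ρ (x - t)) t v = _
  have h3 : HasFDerivAt (fun t => ρ (x - t)) _ t := h2
  rw [h3.fderiv]
  simp [D]

theorem D_neg (v : ℂ) (h : ℂ → ℝ) : D v (fun t => -h t) = fun t => -D v h t := by
  funext t
  unfold D
  rw [show (fun t => -h t) = -h from rfl, fderiv_neg]
  simp

theorem Lap_refl (hρ : ContDiff ℝ ∞ ρ) (x t : ℂ) :
    Lap (fun t => ρ (x - t)) t = Lap ρ (x - t) := by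
  unfold Lap
  rw [D_refl hρ, D_refl hρ, D_neg, D_neg, D_refl (smooth_D hρ 1), D_refl (smooth_D hρ Complex.I)]
  simp

/-- `F` is the weak Laplacian of `P` in the whole plane. -/
def WL (P F : ℂ → ℝ) : Prop :=
  ∀ η : ℂ → ℝ, ContDiff ℝ ∞ η → HasCompactSupport η → ∫ z, P z * Lap η z = ∫ z, F z * η z

theorem WL.mo (h : WL P F) (hρ : ContDiff ℝ ∞ ρ) (hc : HasCompactSupport ρ)
    (hP : LocallyIntegrable P) : Lap (mo ρ P) = UC.mo ρ F := by
  rw [Lap_mo hρ hc hP]
  funext x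
  rw [mo_apply, mo_apply]
  have h1 := h (fun t => ρ (x - t)) (smooth_refl hρ x) (hc.comp_homeomorph (Homeomorph.subLeft x))
  rw [← h1]
  congr 1
  funext t
  rw [Lap_refl hρ]

end basic

section jensen
variable {ρ F : ℂ → ℝ}

/-- Jensen's inequality. -/
theorem jensen (hρ : Continuous ρ) (hc : HasCompactSupport ρ) (h0 : ∀ z, 0 ≤ ρ z)
    (h1 : ∫ z, ρ z = 1) (hF : LocallyIntegrable F) (hF2 : LocallyIntegrable fun z => F z ^ 2)
    (x : ℂ) : mo ρ F x ^ 2 ≤ ∫ t, F t ^ 2 * ρ (x - t) := by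
  rw [mo_apply]
  set m := ∫ t, F t * ρ (x - t) with hm
  have i1 := int_mo hρ hc hF x
  have i2 := int_mo hρ hc hF2 x
  have i0 : Integrable fun t => ρ (x - t) :=
    (hρ.comp (continuous_const.sub continuous_id)).integrable_of_hasCompactSupport
      (hc.comp_homeomorph (Homeomorph.subLeft x))
  have e0 : ∫ t, ρ (x - t) = 1 := by
    rw [integral_sub_left_eq_self (fun t => ρ t) volume x, h1]
  have h2 : 0 ≤ ∫ t, (F t - m) ^ 2 * ρ (x - t) :=
    integral_nonneg fun t => mul_nonneg (sq_nonneg _) (h0 _)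
  have h3 : ∫ t, (F t - m) ^ 2 * ρ (x - t) =
      (∫ t, F t ^ 2 * ρ (x - t)) - 2 * m * (∫ t, F t * ρ (x - t)) + m ^ 2 * ∫ t, ρ (x - t) := by
    have i3 : Integrable fun t => F t ^ 2 * ρ (x - t) - 2 * m * (F t * ρ (x - t)) :=
      i2.sub (i1.const_mul _)
    calc ∫ t, (F t - m) ^ 2 * ρ (x - t)
        = ∫ t, ((F t ^ 2 * ρ (x - t) - 2 * m * (F t * ρ (x - t))) + m ^ 2 * ρ (x - t)) := by
          congr 1
          funext t
          ring
      _ = _ := by
          rw [integral_add i3 (i0.const_mul _), integral_sub i2 (i1.const_mul _),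
            integral_const_mul, integral_const_mul]
  rw [h3, ← hm, e0] at h2
  nlinarith

/-- Weighted `L²` estimate. -/
theorem weighted (hρ : Continuous ρ) (hc : HasCompactSupport ρ) (h0 : ∀ z, 0 ≤ ρ z)
    (h1 : ∫ z, ρ z = 1) (hF : Measurable F) (hF1 : LocallyIntegrable F)
    (hF2 : LocallyIntegrable fun z => F z ^ 2) {W : ℂ → ℝ≥0∞} (hW : Measurable W) {c : ℝ≥0∞}
    (hWc : ∀ x y, ρ (x - y) ≠ 0 → F y ≠ 0 → W x ≤ c * W y) :
    ∫⁻ x, W x * ENNReal.ofReal (mo ρ F x ^ 2) ≤ c * ∫⁻ y, W y * ENNReal.ofReal (F y ^ 2) := by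
  have a1 : ∀ x, W x * ENNReal.ofReal (mo ρ F x ^ 2) ≤
      ∫⁻ t, W x * ENNReal.ofReal (F t ^ 2 * ρ (x - t)) := by
    intro x
    have h2 := jensen hρ hc h0 h1 hF1 hF2 x
    have h3 := ofReal_integral_eq_lintegral_ofReal (int_mo hρ hc hF2 x)
      (Filter.Eventually.of_forall fun t => mul_nonneg (sq_nonneg _) (h0 _))
    rw [lintegral_const_mul]
    · rw [← h3]
      exact mul_le_mul_right (ENNReal.ofReal_le_ofReal h2) _
    · exact ((hF.pow_const 2).mul (hρ.measurable.comp (measurable_const.sub measurable_id))).ennreal_ofReal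
  have m1 : Measurable (Function.uncurry fun x t : ℂ => W x * ENNReal.ofReal (F t ^ 2 * ρ (x - t))) := by
    refine (hW.comp measurable_fst).mul ?_
    exact (((hF.comp measurable_snd).pow_const 2).mul
      (hρ.measurable.comp (measurable_fst.sub measurable_snd))).ennreal_ofReal
  have i0 : ∀ t, ∫⁻ x, ENNReal.ofReal (ρ (x - t)) = 1 := by
    intro t
    rw [lintegral_sub_right_eq_self (fun x => ENNReal.ofReal (ρ x)) t,
      ← ofReal_integral_eq_lintegral_ofReal (hρ.integrable_of_hasCompactSupport hc)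
        (Filter.Eventually.of_forall h0), h1, ENNReal.ofReal_one]
  calc ∫⁻ x, W x * ENNReal.ofReal (mo ρ F x ^ 2)
      ≤ ∫⁻ x, ∫⁻ t, W x * ENNReal.ofReal (F t ^ 2 * ρ (x - t)) := lintegral_mono a1
    _ = ∫⁻ t, ∫⁻ x, W x * ENNReal.ofReal (F t ^ 2 * ρ (x - t)) :=
        lintegral_lintegral_swap m1.aemeasurable
    _ ≤ ∫⁻ t, ∫⁻ x, (c * (W t * ENNReal.ofReal (F t ^ 2))) * ENNReal.ofReal (ρ (x - t)) := by
        refine lintegral_mono fun t => lintegral_mono fun x => ?_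
        show W x * ENNReal.ofReal (F t ^ 2 * ρ (x - t)) ≤
          (c * (W t * ENNReal.ofReal (F t ^ 2))) * ENNReal.ofReal (ρ (x - t))
        rw [ENNReal.ofReal_mul (sq_nonneg _)]
        by_cases h2 : ρ (x - t) = 0
        · rw [h2]; simp
        by_cases h3 : F t = 0
        · rw [h3]; simp
        have h4 := hWc x t h2 h3
        calc W x * (ENNReal.ofReal (F t ^ 2) * ENNReal.ofReal (ρ (x - t)))
            ≤ (c * W t) * (ENNReal.ofReal (F t ^ 2) * ENNReal.ofReal (ρ (x - t))) :=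
              mul_le_mul_left h4 _
          _ = _ := by ring
    _ = ∫⁻ t, c * (W t * ENNReal.ofReal (F t ^ 2)) := by
        refine lintegral_congr fun t => ?_
        rw [lintegral_const_mul, i0, mul_one]
        exact (hρ.measurable.comp (measurable_id.sub measurable_const)).ennreal_ofReal
    _ = _ := by
        rw [lintegral_const_mul]
        exact hW.mul (hF.pow_const 2).ennreal_ofReal

end jensen

/-- the mollifiers -/
def φ (n : ℕ) : ContDiffBump (0 : ℂ) where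
  rIn := 1 / (2 * ((n : ℝ) + 1))
  rOut := 1 / ((n : ℝ) + 1)
  rIn_pos := by positivity
  rIn_lt_rOut := by
    have : (0 : ℝ) < (n : ℝ) + 1 := by positivity
    rw [div_lt_div_iff₀ (by positivity) this]
    linarith

def ρ (n : ℕ) : ℂ → ℝ := (φ n).normed volume

theorem ρ_smooth (n : ℕ) : ContDiff ℝ ∞ (ρ n) := (φ n).contDiff_normed
theorem ρ_supp (n : ℕ) : HasCompactSupport (ρ n) := (φ n).hasCompactSupport_normed
theorem ρ_nonneg (n : ℕ) (z : ℂ) : 0 ≤ ρ n z := (φ n).nonneg_normed z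
theorem ρ_int (n : ℕ) : ∫ z, ρ n z = 1 := (φ n).integral_normed
theorem ρ_zero {n : ℕ} {z : ℂ} (h : ρ n z ≠ 0) : ‖z‖ < 1 / ((n : ℝ) + 1) := by
  have h1 : z ∈ Function.support ((φ n).normed volume) := h
  rw [ContDiffBump.support_normed_eq] at h1
  simpa [φ] using h1

theorem tendsto_δ : Tendsto (fun n : ℕ => 1 / ((n : ℝ) + 1)) atTop (𝓝 0) :=
  tendsto_one_div_add_atTop_nhds_zero_nat

/-- Mollifications converge almost everywhere. -/
theorem mo_tendsto {F : ℂ → ℝ} (hF : LocallyIntegrable F) :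
    ∀ᵐ x, Tendsto (fun n => mo (ρ n) F x) atTop (𝓝 (F x)) := by
  have h1 := ContDiffBump.ae_convolution_tendsto_right_of_locallyIntegrable (φ := φ) (l := atTop)
    (K := 2) (μ := (volume : Measure ℂ)) (g := F) tendsto_δ
    (Filter.Eventually.of_forall fun n => by
      show 1 / ((n : ℝ) + 1) ≤ 2 * (1 / (2 * ((n : ℝ) + 1)))
      rw [one_div, one_div, mul_inv]
      linarith [mul_inv_cancel₀ (two_ne_zero (α := ℝ)), show (2 : ℝ) * (2⁻¹ * ((n : ℝ) + 1)⁻¹) =
        ((n : ℝ) + 1)⁻¹ by ring]) hF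
  filter_upwards [h1] with x hx
  refine hx.congr fun n => ?_
  rw [mo_apply, convolution_eq_swap]
  congr 1
  funext t
  show (ρ n) (x - t) • F t = _
  rw [smul_eq_mul, mul_comm]

end Pool.Agent.H15.UC
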