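import Pool.Agent.H23.UC.Stm2

/-!
# Points of the plane at which a function with bounded subgradients has a cone

If at each point `s` of a set `A` the function `F` lies above the cone of opening `c` around an
affine function with gradient `p s`, up to `ε`, then a minimizer of `F - ⟨q, ·⟩` lies within
`2 ε / c` of each `s` in `A` with `‖q - p s‖ < c / 2`. So the discs of radius `c / 2` around the
gradients `p s` of points at distances larger than `4 ε / c` are disjoint, and their number is
bounded.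
-/

set_option autoImplicit false

open Set Filter Topology MeasureTheory
open scoped ContDiff

noncomputable section

namespace Pool.Agent.H15.UC

/-- disjoint discs of radius `c / 2` with centres in a disc of radius `L` -/
theorem card_discs {L c : ℝ} (hL : 0 < L) (hc : 0 < c) (S : Finset ℂ) (p : ℂ → ℂ)
    (hp : ∀ s ∈ S, ‖p s‖ ≤ L)
    (hd : ∀ s ∈ S, ∀ t ∈ S, s ≠ t → Disjoint (Metric.ball (p s) (c / 2)) (Metric.ball (p t) (c / 2))) :
    (S.card : ℝ) ≤ (1 + 2 * L / c) ^ 2 := by
  have h1 : volume (⋃ s ∈ S, Metric.ball (p s) (c / 2)) = ∑ s ∈ S, volume (Metric.ball (p s) (c / 2)) :=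
    measure_biUnion_finset (fun s hs t ht hst => hd s hs t ht hst) fun s _ => measurableSet_ball
  have h2 : volume (⋃ s ∈ S, Metric.ball (p s) (c / 2)) ≤ volume (Metric.ball (0 : ℂ) (L + c / 2)) := by
    refine measure_mono ?_
    intro z hz
    simp only [mem_iUnion, Metric.mem_ball, dist_eq_norm, sub_zero] at hz ⊢
    obtain ⟨s, hs, hz⟩ := hz
    calc ‖z‖ = ‖p s + (z - p s)‖ := by congr 1; ring
      _ ≤ ‖p s‖ + ‖z - p s‖ := norm_add_le _ _
      _ < L + c / 2 := by linarith [hp s hs]
  rw [h1] at h2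
  simp only [Complex.volume_ball, Finset.sum_const, nsmul_eq_mul] at h2
  have h3 : (S.card : ENNReal) * ENNReal.ofReal (c / 2) ^ 2 ≤ ENNReal.ofReal (L + c / 2) ^ 2 := by
    rw [← mul_assoc] at h2
    refine (ENNReal.mul_le_mul_iff_left ?_ ?_).mp h2
    · simpa using NNReal.pi_pos.ne'
    · exact ENNReal.coe_ne_top
  rw [← ENNReal.ofReal_pow (by positivity), ← ENNReal.ofReal_pow (by positivity),
    ← ENNReal.ofReal_natCast, ← ENNReal.ofReal_mul (by positivity),
    ENNReal.ofReal_le_ofReal_iff (by positivity)] at h3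
  have h4 : (1 + 2 * L / c) ^ 2 = (L + c / 2) ^ 2 / (c / 2) ^ 2 := by
    field_simp
    ring
  rw [h4, le_div_iff₀ (by positivity)]
  exact h3

/-- `LR-PLANE` -/
theorem stPlane : Pool.Agent.H23.UC.StPlane := by
  intro L c hL hc
  set N : ℝ := (1 + 2 * L / c) ^ 2 with hN
  have hN0 : 0 < N := by positivity
  refine ⟨N * ((4 / c) ^ 2 * Real.pi), by positivity, ?_⟩
  intro r F A ε hr hε hA hF _ hcone
  choose! p hpL hp using hcone
  -- separated sets
  set P : Finset ℂ → Prop := fun S => (∀ s ∈ S, s ∈ A) ∧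
    ∀ s ∈ S, ∀ t ∈ S, s ≠ t → 4 * ε / c < dist s t with hP
  have hcard : ∀ S : Finset ℂ, P S → (S.card : ℝ) ≤ N := by
    intro S hS
    refine card_discs hL hc S p (fun s hs => hpL s (hS.1 s hs)) ?_
    intro s hs t ht hst
    rw [Set.disjoint_left]
    intro q hqs hqt
    -- a minimizer
    have hcomp : IsCompact (Metric.closedBall (0 : ℂ) r) := isCompact_closedBall _ _
    have hne : (Metric.closedBall (0 : ℂ) r).Nonempty := ⟨0, by simp [hr.le]⟩
    have hcont : ContinuousOn (fun y => F y - inner ℝ q y) (Metric.closedBall (0 : ℂ) r) :=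
      hF.sub (by fun_prop)
    obtain ⟨y, hy, hmin⟩ := hcomp.exists_isMinOn hne hcont
    have key : ∀ u ∈ A, q ∈ Metric.ball (p u) (c / 2) → ‖y - u‖ ≤ 2 * ε / c := by
      intro u hu hq
      have h1 := hmin (hA hu)
      simp only [mem_ofPred_eq] at h1
      have h2 := hp u hu y hy
      have h3 : inner ℝ (p u) (y - u) - inner ℝ q (y - u) = inner ℝ (p u - q) (y - u) := by
        rw [inner_sub_left]
      have h4 : inner ℝ q (y - u) = inner ℝ q y - inner ℝ q u := by rw [inner_sub_right]
      have h5 : |inner ℝ (p u - q) (y - u)| ≤ ‖p u - q‖ * ‖y - u‖ := abs_real_inner_le_norm _ _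
      have h6 : ‖p u - q‖ ≤ c / 2 := by
        have := (Metric.mem_ball.mp hq).le
        rwa [dist_comm, dist_eq_norm] at this
      have h7 : ‖p u - q‖ * ‖y - u‖ ≤ c / 2 * ‖y - u‖ :=
        mul_le_mul_of_nonneg_right h6 (norm_nonneg _)
      have h8 := neg_abs_le (inner ℝ (p u - q) (y - u))
      rw [le_div_iff₀ hc]
      nlinarith
    have k1 := key s (hS.1 s hs) hqs
    have k2 := key t (hS.1 t ht) hqt
    have k3 := hS.2 s hs t ht hst
    have k4 : dist s t ≤ ‖y - s‖ + ‖y - t‖ := by
      rw [dist_eq_norm]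
      calc ‖s - t‖ = ‖(y - t) - (y - s)‖ := by congr 1; ring
        _ ≤ ‖y - t‖ + ‖y - s‖ := norm_sub_le _ _
        _ = _ := add_comm _ _
    have k5 : 4 * ε / c = 2 * ε / c + 2 * ε / c := by ring
    linarith
  -- a maximal one
  have hbdd : ∀ S : Finset ℂ, P S → S.card ≤ ⌊N⌋₊ := fun S hS => Nat.le_floor (hcard S hS)
  obtain ⟨S, hS, hmax⟩ : ∃ S : Finset ℂ, P S ∧ ∀ T : Finset ℂ, P T → T.card ≤ S.card := by
    have hex : ∃ n, ∃ S : Finset ℂ, P S ∧ S.card = n := ⟨0, ∅, ⟨by simp, by simp⟩, rfl⟩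
    classical
    have hfin : ∃ m, (∃ S : Finset ℂ, P S ∧ S.card = m) ∧
        ∀ n, (∃ S : Finset ℂ, P S ∧ S.card = n) → n ≤ m := by
      refine ⟨Nat.findGreatest (fun n => ∃ S : Finset ℂ, P S ∧ S.card = n) ⌊N⌋₊, ?_, ?_⟩
      · exact Nat.findGreatest_spec (P := fun n => ∃ S : Finset ℂ, P S ∧ S.card = n)
          (Nat.zero_le _) ⟨∅, ⟨by simp, by simp⟩, rfl⟩
      · rintro n ⟨S, hS, rfl⟩
        exact Nat.le_findGreatest (hbdd S hS) ⟨S, hS, rfl⟩
    obtain ⟨m, ⟨S, hS, rfl⟩, hm⟩ := hfin
    exact ⟨S, hS, fun T hT => hm _ ⟨T, hT, rfl⟩⟩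
  have hcov : A ⊆ ⋃ s ∈ S, Metric.closedBall s (4 * ε / c) := by
    classical
    intro a ha
    by_contra hcon
    simp only [mem_iUnion, Metric.mem_closedBall, not_exists, not_le] at hcon
    have hnot : a ∉ S := by
      intro h
      have := hcon a h
      rw [dist_self] at this
      have : 0 < 4 * ε / c := by positivity
      linarith
    have hT : P (insert a S) := by
      constructor
      · intro s hs
        rcases Finset.mem_insert.mp hs with rfl | hs
        · exact ha
        · exact hS.1 s hs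
      · intro s hs t ht hst
        rcases Finset.mem_insert.mp hs with h1 | h1
        · rcases Finset.mem_insert.mp ht with h2 | h2
          · exact absurd (h1.trans h2.symm) hst
          · rw [h1]; exact hcon t h2
        · rcases Finset.mem_insert.mp ht with h2 | h2
          · rw [h2, dist_comm]; exact hcon s h1
          · exact hS.2 s h1 t h2 hst
    have := hmax _ hT
    rw [Finset.card_insert_of_notMem hnot] at this
    omega
  calc volume A ≤ volume (⋃ s ∈ S, Metric.closedBall s (4 * ε / c)) := measure_mono hcov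
    _ ≤ ∑ s ∈ S, volume (Metric.closedBall s (4 * ε / c)) := measure_biUnion_finset_le _ _
    _ = ENNReal.ofReal ((S.card : ℝ) * ((4 * ε / c) ^ 2 * Real.pi)) := by
      simp only [Complex.volume_closedBall, Finset.sum_const, nsmul_eq_mul]
      rw [ENNReal.ofReal_mul (by positivity), ENNReal.ofReal_mul (by positivity),
        ENNReal.ofReal_natCast, ENNReal.ofReal_pow (by positivity)]
      congr 2
      rw [← NNReal.coe_real_pi, ENNReal.ofReal_coe_nnreal]
    _ ≤ ENNReal.ofReal (N * ((4 / c) ^ 2 * Real.pi) * ε ^ 2) := by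
      refine ENNReal.ofReal_le_ofReal ?_
      have h1 : (S.card : ℝ) * ((4 * ε / c) ^ 2 * Real.pi) ≤ N * ((4 * ε / c) ^ 2 * Real.pi) :=
        mul_le_mul_of_nonneg_right (hcard S hS) (by positivity)
      have h2 : N * ((4 * ε / c) ^ 2 * Real.pi) = N * ((4 / c) ^ 2 * Real.pi) * ε ^ 2 := by ring
      linarith

end Pool.Agent.H15.UC
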