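import Pool.Agent.H23.UC.Stm6

/-!
# Points of a Euclidean space at which a function with bounded subgradients has a cone

The version of `Plane.lean` in dimension `d`.
-/

set_option autoImplicit false

open Set Filter Topology MeasureTheory
open scoped ContDiff

noncomputable section

namespace Pool.Agent.H15.UC

variable {d : ℕ}

/-- disjoint balls of radius `c / 2` with centres in a ball of radius `L` -/
theorem card_balls {L c : ℝ} (hL : 0 < L) (hc : 0 < c) (S : Finset (EuclideanSpace ℝ (Fin d)))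
    (p : EuclideanSpace ℝ (Fin d) → EuclideanSpace ℝ (Fin d)) (hp : ∀ s ∈ S, ‖p s‖ ≤ L)
    (hd : ∀ s ∈ S, ∀ t ∈ S, s ≠ t → Disjoint (Metric.ball (p s) (c / 2)) (Metric.ball (p t) (c / 2))) :
    (S.card : ℝ) ≤ (1 + 2 * L / c) ^ d := by
  have h1 : volume (⋃ s ∈ S, Metric.ball (p s) (c / 2)) =
      ∑ s ∈ S, volume (Metric.ball (p s) (c / 2)) :=
    measure_biUnion_finset (fun s hs t ht hst => hd s hs t ht hst) fun s _ => measurableSet_ball
  have h2 : volume (⋃ s ∈ S, Metric.ball (p s) (c / 2)) ≤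
      volume (Metric.ball (0 : EuclideanSpace ℝ (Fin d)) (L + c / 2)) := by
    refine measure_mono ?_
    intro z hz
    simp only [mem_iUnion, Metric.mem_ball, dist_eq_norm, sub_zero] at hz ⊢
    obtain ⟨s, hs, hz⟩ := hz
    calc ‖z‖ = ‖p s + (z - p s)‖ := by congr 1; abel
      _ ≤ ‖p s‖ + ‖z - p s‖ := norm_add_le _ _
      _ < L + c / 2 := by linarith [hp s hs]
  rw [h1] at h2
  have hb : ∀ (x : EuclideanSpace ℝ (Fin d)) {r : ℝ}, 0 < r → volume (Metric.ball x r) =
      ENNReal.ofReal (r ^ d) * volume (Metric.ball (0 : EuclideanSpace ℝ (Fin d)) 1) := by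
    intro x r hr
    rw [Measure.addHaar_ball_of_pos _ _ hr, finrank_euclideanSpace, Fintype.card_fin]
  simp only [hb _ (by positivity : (0 : ℝ) < c / 2), hb _ (by positivity : (0 : ℝ) < L + c / 2),
    Finset.sum_const, nsmul_eq_mul] at h2
  have h3 : (S.card : ENNReal) * ENNReal.ofReal ((c / 2) ^ d) ≤ ENNReal.ofReal ((L + c / 2) ^ d) := by
    rw [← mul_assoc] at h2
    refine (ENNReal.mul_le_mul_iff_left ?_ ?_).mp h2
    · exact (Metric.measure_ball_pos volume (0 : EuclideanSpace ℝ (Fin d)) one_pos).ne'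
    · exact measure_ball_lt_top.ne
  rw [← ENNReal.ofReal_natCast, ← ENNReal.ofReal_mul (by positivity),
    ENNReal.ofReal_le_ofReal_iff (by positivity)] at h3
  have h4 : (1 + 2 * L / c) ^ d = (L + c / 2) ^ d / (c / 2) ^ d := by
    rw [← div_pow]
    congr 1
    field_simp
    ring
  rw [h4, le_div_iff₀ (by positivity)]
  exact h3

/-- `LR-PLANE-D` -/
theorem stPlaneD : Pool.Agent.H23.UC.StPlaneD := by
  intro d L c _ hL hc
  set N : ℝ := (1 + 2 * L / c) ^ d with hN
  have hN0 : 0 < N := by positivity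
  set B : ℝ := (volume (Metric.ball (0 : EuclideanSpace ℝ (Fin d)) 1)).toReal with hB
  have hB0 : 0 < B := ENNReal.toReal_pos
    (Metric.measure_ball_pos volume (0 : EuclideanSpace ℝ (Fin d)) one_pos).ne'
    measure_ball_lt_top.ne
  refine ⟨N * ((4 / c) ^ d * B), by positivity, ?_⟩
  intro r F A ε hr hε hA hF _ hcone
  choose! p hpL hp using hcone
  -- separated sets
  set P : Finset (EuclideanSpace ℝ (Fin d)) → Prop := fun S => (∀ s ∈ S, s ∈ A) ∧
    ∀ s ∈ S, ∀ t ∈ S, s ≠ t → 4 * ε / c < dist s t with hP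
  have hcard : ∀ S : Finset (EuclideanSpace ℝ (Fin d)), P S → (S.card : ℝ) ≤ N := by
    intro S hS
    refine card_balls hL hc S p (fun s hs => hpL s (hS.1 s hs)) ?_
    intro s hs t ht hst
    rw [Set.disjoint_left]
    intro q hqs hqt
    -- a minimizer
    have hcomp : IsCompact (Metric.closedBall (0 : EuclideanSpace ℝ (Fin d)) r) :=
      isCompact_closedBall _ _
    have hne : (Metric.closedBall (0 : EuclideanSpace ℝ (Fin d)) r).Nonempty := ⟨0, by simp [hr.le]⟩
    have hcont : ContinuousOn (fun y => F y - inner ℝ q y)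
        (Metric.closedBall (0 : EuclideanSpace ℝ (Fin d)) r) := hF.sub (by fun_prop)
    obtain ⟨y, hy, hmin⟩ := hcomp.exists_isMinOn hne hcont
    have key : ∀ u ∈ A, q ∈ Metric.ball (p u) (c / 2) → ‖y - u‖ ≤ 2 * ε / c := by
      intro u hu hq
      have h1 := hmin (hA hu)
      simp only [mem_ofPred_eq] at h1
      have h2 := hp u hu y hy
      have h3 : inner ℝ (p u) (y - u) - inner ℝ q (y - u) = inner ℝ (p u - q) (y - u) := by
        rw [inner_sub_left]
      have h4 : inner ℝ q (y - u) = inner ℝ q y - inner ℝ q u := by rw [inner_sub_right]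
      have h5 : |inner ℝ (p u - q) (y - u)| ≤ ‖p u - q‖ * ‖y - u‖ := abs_real_inner_le_norm _ _
      have h6 : ‖p u - q‖ ≤ c / 2 := by
        have := (Metric.mem_ball.mp hq).le
        rwa [dist_comm, dist_eq_norm] at this
      have h7 : ‖p u - q‖ * ‖y - u‖ ≤ c / 2 * ‖y - u‖ :=
        mul_le_mul_of_nonneg_right h6 (norm_nonneg _)
      have h8 := neg_abs_le (inner ℝ (p u - q) (y - u))
      rw [le_div_iff₀ hc]
      nlinarith
    have k1 := key s (hS.1 s hs) hqs
    have k2 := key t (hS.1 t ht) hqt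
    have k3 := hS.2 s hs t ht hst
    have k4 : dist s t ≤ ‖y - s‖ + ‖y - t‖ := by
      rw [dist_eq_norm]
      calc ‖s - t‖ = ‖(y - t) - (y - s)‖ := by congr 1; abel
        _ ≤ ‖y - t‖ + ‖y - s‖ := norm_sub_le _ _
        _ = _ := add_comm _ _
    have k5 : 4 * ε / c = 2 * ε / c + 2 * ε / c := by ring
    linarith
  -- a maximal one
  have hbdd : ∀ S : Finset (EuclideanSpace ℝ (Fin d)), P S → S.card ≤ ⌊N⌋₊ :=
    fun S hS => Nat.le_floor (hcard S hS)
  obtain ⟨S, hS, hmax⟩ : ∃ S : Finset (EuclideanSpace ℝ (Fin d)), P S ∧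
      ∀ T : Finset (EuclideanSpace ℝ (Fin d)), P T → T.card ≤ S.card := by
    classical
    have hfin : ∃ m, (∃ S : Finset (EuclideanSpace ℝ (Fin d)), P S ∧ S.card = m) ∧
        ∀ n, (∃ S : Finset (EuclideanSpace ℝ (Fin d)), P S ∧ S.card = n) → n ≤ m := by
      refine ⟨Nat.findGreatest (fun n => ∃ S : Finset (EuclideanSpace ℝ (Fin d)), P S ∧
        S.card = n) ⌊N⌋₊, ?_, ?_⟩
      · exact Nat.findGreatest_spec
          (P := fun n => ∃ S : Finset (EuclideanSpace ℝ (Fin d)), P S ∧ S.card = n)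
          (Nat.zero_le _) ⟨∅, ⟨by simp, by simp⟩, rfl⟩
      · rintro n ⟨S, hS, rfl⟩
        exact Nat.le_findGreatest (hbdd S hS) ⟨S, hS, rfl⟩
    obtain ⟨m, ⟨S, hS, rfl⟩, hm⟩ := hfin
    exact ⟨S, hS, fun T hT => hm _ ⟨T, hT, rfl⟩⟩
  have hcov : A ⊆ ⋃ s ∈ S, Metric.closedBall s (4 * ε / c) := by
    classical
    intro a ha
    by_contra hcon
    simp only [mem_iUnion, Metric.mem_closedBall, not_exists, not_le] at hcon
    have hnot : a ∉ S := by
      intro h
      have := hcon a h
      rw [dist_self] at this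
      have : 0 < 4 * ε / c := by positivity
      linarith
    have hT : P (insert a S) := by
      constructor
      · intro s hs
        rcases Finset.mem_insert.mp hs with rfl | hs
        · exact ha
        · exact hS.1 s hs
      · intro s hs t ht hst
        rcases Finset.mem_insert.mp hs with h1 | h1
        · rcases Finset.mem_insert.mp ht with h2 | h2
          · exact absurd (h1.trans h2.symm) hst
          · rw [h1]; exact hcon t h2
        · rcases Finset.mem_insert.mp ht with h2 | h2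
          · rw [h2, dist_comm]; exact hcon s h1
          · exact hS.2 s h1 t h2 hst
    have := hmax _ hT
    rw [Finset.card_insert_of_notMem hnot] at this
    omega
  have hvol : ∀ s : EuclideanSpace ℝ (Fin d), volume (Metric.closedBall s (4 * ε / c)) =
      ENNReal.ofReal ((4 * ε / c) ^ d * B) := by
    intro s
    rw [Measure.addHaar_closedBall _ _ (by positivity), finrank_euclideanSpace, Fintype.card_fin,
      ENNReal.ofReal_mul (by positivity), hB, ENNReal.ofReal_toReal measure_ball_lt_top.ne]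
  calc volume A ≤ volume (⋃ s ∈ S, Metric.closedBall s (4 * ε / c)) := measure_mono hcov
    _ ≤ ∑ s ∈ S, volume (Metric.closedBall s (4 * ε / c)) := measure_biUnion_finset_le _ _
    _ = ENNReal.ofReal ((S.card : ℝ) * ((4 * ε / c) ^ d * B)) := by
      simp only [hvol, Finset.sum_const, nsmul_eq_mul]
      rw [ENNReal.ofReal_mul (by positivity : (0 : ℝ) ≤ (S.card : ℝ)), ENNReal.ofReal_natCast]
    _ ≤ ENNReal.ofReal (N * ((4 / c) ^ d * B) * ε ^ d) := by
      refine ENNReal.ofReal_le_ofReal ?_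
      have h1 : (S.card : ℝ) * ((4 * ε / c) ^ d * B) ≤ N * ((4 * ε / c) ^ d * B) :=
        mul_le_mul_of_nonneg_right (hcard S hS) (by positivity)
      have h2 : N * ((4 * ε / c) ^ d * B) = N * ((4 / c) ^ d * B) * ε ^ d := by
        have h3 : 4 * ε / c = (4 / c) * ε := by ring
        rw [h3, mul_pow]
        ring
      linarith

end Pool.Agent.H15.UC
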