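import Pool.Agent.H15.UC.L2

/-!
# Products of weak solutions
-/

set_option autoImplicit false

open Set Filter Topology MeasureTheory
open scoped ContDiff ComplexConjugate ENNReal

noncomputable section

namespace Pool.Agent.H15.UC

open Pool.Agent.H23.UC (Weak)

/-- the weak derivative of `U χ` in the direction `v` -/
def GG (χ U : ℂ → ℝ) (g : ℂ → ℂ) (v z : ℂ) : ℝ := inner ℝ (g z) v * χ z + U z * D v χ z

theorem mem_inner {K : Set ℂ} {g : ℂ → ℂ} (h : MemLp g 2 (volume.restrict K)) (v : ℂ) :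
    MemLp (fun z => inner ℝ (g z) v) 2 (volume.restrict K) := by
  have e : (fun z => inner ℝ (g z) v) = fun z => v.re * (g z).re + v.im * (g z).im := by
    funext z
    rw [Complex.inner]
    simp
  rw [e]
  exact (MemLp.const_mul h.re v.re).add (MemLp.const_mul h.im v.im)

section one
variable {O : Set ℂ} {U w χ : ℂ → ℝ} {g : ℂ → ℂ}
variable (W : Weak O U g w) (hχ : ContDiff ℝ ∞ χ) (hc : HasCompactSupport χ)
  (hO : tsupport χ ⊆ O)
include W hχ hc hO

theorem mem_G (v : ℂ) : MemLp (GG χ U g v) 2 := by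
  have m1 := mem_K hc (mem_inner (W.mg _ hO hc) v) hχ.continuous fun _ => zero_of_tsupp
  have m2 := mem_K hc (W.mU _ hO hc) (smooth_D hχ v).continuous
    (fun z h => D_zero_of_tsupp h v)
  exact m1.add m2

theorem D_mo_cut (n : ℕ) (v : ℂ) :
    D v (mo (ρ n) (fun z => U z * χ z)) = mo (ρ n) (GG χ U g v) := by
  rw [D_mo (ρ_smooth n) (ρ_supp n) (loc (mem_P W hχ hc hO)) v]
  funext x
  rw [mo_apply, mo_apply]
  set ζ : ℂ → ℝ := fun t => ρ n (x - t) with hζ
  have sζ : ContDiff ℝ ∞ ζ := smooth_refl (ρ_smooth n) x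
  have dζ : ∀ t, D v (ρ n) (x - t) = -D v ζ t := by
    intro t
    have := congrFun (D_refl (ρ_smooth n) x v) t
    rw [this, neg_neg]
  have h1 := W.grad (fun z => χ z * ζ z) (hχ.mul sζ) hc.mul_right
    ((tsupport_mul_subset_left (f := χ) (g := ζ)).trans hO) v
  have h2 : ∀ z, fderiv ℝ (fun z => χ z * ζ z) z v = χ z * D v ζ z + D v χ z * ζ z := fun z =>
    congrFun (D_mul' hχ sζ v) z
  simp only [h2] at h1
  have i1 : Integrable (fun z => U z * (χ z * D v ζ z)) :=
    int_K hc (W.mU _ hO hc) (hχ.continuous.mul (smooth_D sζ v).continuous) fun z h => by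
      rw [zero_of_tsupp h, zero_mul]
  have i2 : Integrable (fun z => U z * (D v χ z * ζ z)) :=
    int_K hc (W.mU _ hO hc) ((smooth_D hχ v).continuous.mul sζ.continuous) fun z h => by
      rw [D_zero_of_tsupp h, zero_mul]
  have i3 : Integrable (fun z => inner ℝ (g z) v * (χ z * ζ z)) :=
    int_K hc (mem_inner (W.mg _ hO hc) v) (hχ.continuous.mul sζ.continuous) fun z h => by
      rw [zero_of_tsupp h, zero_mul]
  have e1 : ∫ z, U z * (χ z * D v ζ z + D v χ z * ζ z) =
      (∫ z, U z * (χ z * D v ζ z)) + ∫ z, U z * (D v χ z * ζ z) := by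
    rw [← integral_add i1 i2]
    congr 1
    funext z
    ring
  rw [e1] at h1
  have e2 : ∫ t, U t * χ t * D v (ρ n) (x - t) = -∫ z, U z * (χ z * D v ζ z) := by
    rw [← integral_neg]
    congr 1
    funext t
    rw [dζ]
    ring
  have e3 : ∫ t, GG χ U g v t * ρ n (x - t) =
      (∫ z, inner ℝ (g z) v * (χ z * ζ z)) + ∫ z, U z * (D v χ z * ζ z) := by
    rw [← integral_add i3 i2]
    congr 1
    funext t
    unfold GG
    rw [hζ]
    ring
  rw [e2, e3]
  linarith

end one

/-- the mollifications of a continuous function with compact support -/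
theorem mo_pt {P : ℂ → ℝ} (cP : Continuous P) (x : ℂ) :
    Tendsto (fun n => mo (ρ n) P x) atTop (𝓝 (P x)) := by
  have h1 := ContDiffBump.convolution_tendsto_right_of_continuous (φ := φ) (l := atTop)
    (μ := (volume : Measure ℂ)) (g := P) tendsto_δ cP x
  refine h1.congr fun n => ?_
  rw [mo_apply, convolution_eq_swap]
  congr 1
  funext t
  show (ρ n) (x - t) • P t = _
  rw [smul_eq_mul, mul_comm]

theorem mo_bdd {P : ℂ → ℝ} {R : ℝ} (cP : Continuous P) (hR : ∀ z, |P z| ≤ R) (n : ℕ) (x : ℂ) :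
    |mo (ρ n) P x| ≤ R := by
  have hR0 : 0 ≤ R := (abs_nonneg _).trans (hR 0)
  have h1 := jensen (ρ_smooth n).continuous (ρ_supp n) (ρ_nonneg n) (ρ_int n)
    cP.locallyIntegrable (cP.pow 2).locallyIntegrable x
  have i0 : Integrable fun t => ρ n (x - t) :=
    ((ρ_smooth n).continuous.comp (continuous_const.sub continuous_id)).integrable_of_hasCompactSupport
      ((ρ_supp n).comp_homeomorph (Homeomorph.subLeft x))
  have e0 : ∫ t, ρ n (x - t) = 1 := by
    rw [integral_sub_left_eq_self (fun t => ρ n t) volume x, ρ_int]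
  have h2 : ∫ t, P t ^ 2 * ρ n (x - t) ≤ ∫ t, R ^ 2 * ρ n (x - t) := by
    refine integral_mono (int_mo (ρ_smooth n).continuous (ρ_supp n)
      (cP.pow 2).locallyIntegrable x) (i0.const_mul _) fun t => ?_
    refine mul_le_mul_of_nonneg_right ?_ (ρ_nonneg n _)
    rw [← sq_abs]
    exact pow_le_pow_left₀ (abs_nonneg _) (hR t) 2
  rw [integral_const_mul, e0, mul_one] at h2
  exact abs_le_of_sq_le_sq (h1.trans h2) hR0

section dom
variable {K : Set ℂ} {f θ P : ℂ → ℝ} {G : ℝ → ℝ}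

theorem bound_P (cP : Continuous P) (sP : HasCompactSupport P) : ∃ R, ∀ z, |P z| ≤ R := by
  obtain ⟨C, hC⟩ := cP.bounded_above_of_compact_support sP
  exact ⟨C, fun z => by simpa using hC z⟩

theorem bound_G (cP : Continuous P) (sP : HasCompactSupport P) (cG : Continuous G) :
    ∃ C, 0 ≤ C ∧ (∀ n z, |G (mo (ρ n) P z)| ≤ C) ∧ ∀ z, |G (P z)| ≤ C := by
  obtain ⟨R, hR⟩ := bound_P cP sP
  obtain ⟨C, hC⟩ := (isCompact_Icc (a := -R) (b := R)).exists_bound_of_continuousOn
    cG.continuousOn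
  have hC0 : 0 ≤ C := (norm_nonneg _).trans (hC _ (abs_le.mp (hR 0)))
  refine ⟨C, hC0, fun n z => ?_, fun z => ?_⟩
  · exact hC _ (abs_le.mp (mo_bdd cP hR n z))
  · exact hC _ (abs_le.mp (hR z))

variable (hK : IsCompact K) (hf : MemLp f 2 (volume.restrict K)) (hθ : Continuous θ)
  (h0 : ∀ z, z ∉ K → θ z = 0) (cP : Continuous P) (sP : HasCompactSupport P)
  (cG : Continuous G)
include hK hf hθ h0 cP sP cG

theorem dom : Tendsto (fun n => ∫ z, f z * (G (mo (ρ n) P z) * θ z)) atTop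
    (𝓝 (∫ z, f z * (G (P z) * θ z))) := by
  obtain ⟨C, hC0, hC, hC'⟩ := bound_G cP sP cG
  have i := int_K hK hf hθ h0
  have sm : ∀ n, Continuous (mo (ρ n) P) := fun n =>
    (mo_smooth (ρ_smooth n) (ρ_supp n) cP.locallyIntegrable).continuous
  refine tendsto_integral_of_dominated_convergence (fun z => C * |f z * θ z|) (fun n => ?_)
    (i.abs.const_mul C) (fun n => ?_) ?_
  · exact (int_K hK hf ((cG.comp (sm n)).mul hθ) fun z h => by
      show G (mo (ρ n) P z) * θ z = 0
      rw [h0 z h, mul_zero]).aestronglyMeasurable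
  · refine Filter.Eventually.of_forall fun z => ?_
    rw [Real.norm_eq_abs, show f z * (G (mo (ρ n) P z) * θ z) = G (mo (ρ n) P z) * (f z * θ z) by
      ring, abs_mul]
    exact mul_le_mul_of_nonneg_right (hC n z) (abs_nonneg _)
  · refine Filter.Eventually.of_forall fun z => ?_
    exact (((cG.tendsto _).comp (mo_pt cP z)).mul_const (θ z)).const_mul (f z)

theorem dom2 : Tendsto (fun n => ∫ z, (f z * (G (mo (ρ n) P z) * θ z) -
    f z * (G (P z) * θ z)) ^ 2) atTop (𝓝 0) := by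
  obtain ⟨C, hC0, hC, hC'⟩ := bound_G cP sP cG
  have m := mem_K hK hf hθ h0
  have sm : ∀ n, Continuous (mo (ρ n) P) := fun n =>
    (mo_smooth (ρ_smooth n) (ρ_supp n) cP.locallyIntegrable).continuous
  have m1 : ∀ n, MemLp (fun z => f z * (G (mo (ρ n) P z) * θ z)) 2 := fun n =>
    mem_K hK hf ((cG.comp (sm n)).mul hθ) fun z h => by rw [h0 z h, mul_zero]
  have m2 : MemLp (fun z => f z * (G (P z) * θ z)) 2 :=
    mem_K hK hf ((cG.comp cP).mul hθ) fun z h => by rw [h0 z h, mul_zero]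
  have e : ∫ _ : ℂ, (0 : ℝ) = 0 := by simp
  rw [← e]
  refine tendsto_integral_of_dominated_convergence (fun z => (2 * C) ^ 2 * (f z * θ z) ^ 2)
    (fun n => ((m1 n).sub m2).integrable_sq.aestronglyMeasurable)
    (m.integrable_sq.const_mul _) (fun n => ?_) ?_
  · refine Filter.Eventually.of_forall fun z => ?_
    rw [Real.norm_eq_abs, abs_of_nonneg (sq_nonneg _),
      show f z * (G (mo (ρ n) P z) * θ z) - f z * (G (P z) * θ z) =
        (G (mo (ρ n) P z) - G (P z)) * (f z * θ z) by ring, mul_pow]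
    refine mul_le_mul_of_nonneg_right ?_ (sq_nonneg _)
    rw [← sq_abs (G (mo (ρ n) P z) - G (P z))]
    refine pow_le_pow_left₀ (abs_nonneg _) ?_ 2
    calc |G (mo (ρ n) P z) - G (P z)| ≤ |G (mo (ρ n) P z)| + |G (P z)| := abs_sub _ _
      _ ≤ 2 * C := by linarith [hC n z, hC' z]
  · refine Filter.Eventually.of_forall fun z => ?_
    have h1 : Tendsto (fun n => (f z * (G (mo (ρ n) P z) * θ z) - f z * (G (P z) * θ z)) ^ 2)
        atTop (𝓝 ((f z * (G (P z) * θ z) - f z * (G (P z) * θ z)) ^ 2)) :=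
      (((((cG.tendsto _).comp (mo_pt cP z)).mul_const (θ z)).const_mul (f z)).sub_const _).pow 2
    rwa [sub_self, zero_pow two_ne_zero] at h1

end dom

section two
variable {O B : Set ℂ} {U₁ w₁ U₂ w₂ χ η : ℂ → ℝ} {g₁ g₂ : ℂ → ℂ} {F : ℝ → ℝ}
variable (W₁ : Weak O U₁ g₁ w₁) (W₂ : Weak O U₂ g₂ w₂) (hχ : ContDiff ℝ ∞ χ)
  (hc : HasCompactSupport χ) (hO : tsupport χ ⊆ O) (oO : IsOpen O) (hU : ContinuousOn U₂ O)
  (hB : IsOpen B) (hBO : B ⊆ O) (h1 : ∀ z ∈ B, χ z = 1)
  (hη : ContDiff ℝ ∞ η) (hs : HasCompactSupport η) (ht : tsupport η ⊆ B)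

include hO oO hU in
theorem cont_cut (hχ : Continuous χ) : Continuous (fun z => U₂ z * χ z) := by
  have h2 : ContinuousOn (fun z => U₂ z * χ z) O := hU.mul hχ.continuousOn
  rw [continuous_iff_continuousAt]
  intro z
  by_cases hz : z ∈ tsupport χ
  · exact h2.continuousAt (oO.mem_nhds (hO hz))
  · have h3 : (fun z => U₂ z * χ z) =ᶠ[𝓝 z] fun _ => 0 := by
      filter_upwards [(isClosed_tsupport χ).isOpen_compl.mem_nhds hz] with y hy
      rw [zero_of_tsupp hy, mul_zero]
    exact continuousAt_const.congr h3.symm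

theorem D_one {B : Set ℂ} {χ : ℂ → ℝ} (hB : IsOpen B) (h1 : ∀ z ∈ B, χ z = 1) {z : ℂ}
    (hz : z ∈ B) (v : ℂ) : D v χ z = 0 := by
  have h2 : χ =ᶠ[𝓝 z] fun _ => 1 := Filter.eventually_of_mem (hB.mem_nhds hz) h1
  unfold D
  rw [h2.fderiv_eq]
  simp

include W₁ W₂ hχ hc hO oO hU hB hBO h1 hη hs ht

/-- the weak product and chain rule -/
theorem chain (hF : ContDiff ℝ ∞ F) (v : ℂ) :
    (∫ z, U₁ z * (F (U₂ z) * D v η z)) +
      (∫ z, U₁ z * (deriv F (U₂ z) * η z) * inner ℝ (g₂ z) v) =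
      -∫ z, inner ℝ (g₁ z) v * (F (U₂ z) * η z) := by
  set P : ℂ → ℝ := fun z => U₂ z * χ z with hP
  have cP : Continuous P := cont_cut hO oO hU hχ.continuous
  have sP : HasCompactSupport P := hc.mul_left
  set H := GG χ U₂ g₂ v with hH
  have mH : MemLp H 2 := mem_G W₂ hχ hc hO v
  have K : IsCompact (tsupport η) := hs
  have hKO : tsupport η ⊆ O := ht.trans hBO
  have mU := W₁.mU _ hKO K
  have mg := mem_inner (W₁.mg _ hKO K) v
  have cF : Continuous F := hF.continuous
  have cF' : Continuous (deriv F) := hF.continuous_deriv (by norm_num)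
  have sm : ∀ n, ContDiff ℝ ∞ (mo (ρ n) P) := fun n =>
    mo_smooth (ρ_smooth n) (ρ_supp n) cP.locallyIntegrable
  -- the test functions
  have key : ∀ n, (∫ z, U₁ z * (F (mo (ρ n) P z) * D v η z)) +
      (∫ z, U₁ z * (deriv F (mo (ρ n) P z) * η z) * mo (ρ n) H z) =
      -∫ z, inner ℝ (g₁ z) v * (F (mo (ρ n) P z) * η z) := by
    intro n
    have s1 : ContDiff ℝ ∞ (fun z => F (mo (ρ n) P z)) := hF.comp (sm n)
    have h2 := W₁.grad (fun z => F (mo (ρ n) P z) * η z) (s1.mul hη) hs.mul_left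
      ((tsupport_mul_subset_right (f := fun z => F (mo (ρ n) P z)) (g := η)).trans hKO) v
    have h3 : ∀ z, fderiv ℝ (fun z => F (mo (ρ n) P z) * η z) z v =
        F (mo (ρ n) P z) * D v η z + (deriv F (mo (ρ n) P z) * η z) * mo (ρ n) H z := by
      intro z
      have h4 := congrFun (D_mul' s1 hη v) z
      have h5 : D v (fun z => F (mo (ρ n) P z)) z = deriv F (mo (ρ n) P z) * mo (ρ n) H z := by
        have h6 : HasDerivAt F (deriv F (mo (ρ n) P z)) (mo (ρ n) P z) :=
          ((hF.differentiable (by norm_num)) _).hasDerivAt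
        have h7 := h6.comp_hasFDerivAt z ((diff (sm n) z).hasFDerivAt)
        have h8 : HasFDerivAt (fun z => F (mo (ρ n) P z)) _ z := h7
        unfold D
        rw [h8.fderiv, hH, ← D_mo_cut W₂ hχ hc hO n v]
        simp [D, hP]
      calc fderiv ℝ (fun z => F (mo (ρ n) P z) * η z) z v
          = F (mo (ρ n) P z) * D v η z + D v (fun z => F (mo (ρ n) P z)) z * η z := h4
        _ = _ := by rw [h5]; ring
    simp only [h3] at h2
    have i1 : Integrable (fun z => U₁ z * (F (mo (ρ n) P z) * D v η z)) :=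
      int_K K mU ((cF.comp (sm n).continuous).mul (smooth_D hη v).continuous) fun z h => by
        rw [D_zero_of_tsupp h, mul_zero]
    have i2 : Integrable (fun z => U₁ z * (deriv F (mo (ρ n) P z) * η z) * mo (ρ n) H z) := by
      have := int_K K mU (θ := fun z => (deriv F (mo (ρ n) P z) * η z) * mo (ρ n) H z)
        (((cF'.comp (sm n).continuous).mul hη.continuous).mul
          (mo_smooth (ρ_smooth n) (ρ_supp n) (loc mH)).continuous) fun z h => by
        rw [zero_of_tsupp h, mul_zero, zero_mul]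
      refine this.congr (Filter.Eventually.of_forall fun z => ?_)
      show _ = U₁ z * (deriv F (mo (ρ n) P z) * η z) * mo (ρ n) H z
      ring
    rw [← integral_add i1 i2, ← h2]
    congr 1
    funext z
    ring
  -- limits
  have l1 := dom K mU (smooth_D hη v).continuous (fun z h => D_zero_of_tsupp h v) cP sP cF
  have l3 := dom K mg hη.continuous (fun z h => zero_of_tsupp h) cP sP cF
  have l2 : Tendsto (fun n => ∫ z, U₁ z * (deriv F (mo (ρ n) P z) * η z) * mo (ρ n) H z) atTop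
      (𝓝 (∫ z, U₁ z * (deriv F (P z) * η z) * H z)) := by
    refine lim_mul (fun n => ?_) ?_ (mo_L2 mH).1 mH
      (dom2 K mU hη.continuous (fun z h => zero_of_tsupp h) cP sP cF') (mo_L2 mH).2
    · exact mem_K K mU ((cF'.comp (sm n).continuous).mul hη.continuous) fun z h => by
        rw [zero_of_tsupp h, mul_zero]
    · exact mem_K K mU ((cF'.comp cP).mul hη.continuous) fun z h => by
        rw [zero_of_tsupp h, mul_zero]
  have lim := tendsto_nhds_unique (l1.add l2) (l3.neg.congr fun n => (key n).symm)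
  -- on the support of `η`
  have hPB : ∀ z ∈ B, P z = U₂ z := fun z hz => by
    show U₂ z * χ z = _
    rw [h1 z hz, mul_one]
  have hHB : ∀ z ∈ B, H z = inner ℝ (g₂ z) v := fun z hz => by
    show inner ℝ (g₂ z) v * χ z + U₂ z * D v χ z = _
    rw [h1 z hz, D_one hB h1 hz]
    ring
  have a1 : ∫ z, U₁ z * (F (U₂ z) * D v η z) = ∫ z, U₁ z * (F (P z) * D v η z) := by
    congr 1
    funext z
    by_cases hz : z ∈ tsupport η
    · rw [hPB z (ht hz)]
    · rw [D_zero_of_tsupp hz]; ring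
  have a2 : ∫ z, U₁ z * (deriv F (U₂ z) * η z) * inner ℝ (g₂ z) v =
      ∫ z, U₁ z * (deriv F (P z) * η z) * H z := by
    congr 1
    funext z
    by_cases hz : z ∈ tsupport η
    · rw [hPB z (ht hz), hHB z (ht hz)]
    · rw [zero_of_tsupp hz]; ring
  have a3 : ∫ z, inner ℝ (g₁ z) v * (F (U₂ z) * η z) =
      ∫ z, inner ℝ (g₁ z) v * (F (P z) * η z) := by
    congr 1
    funext z
    by_cases hz : z ∈ tsupport η
    · rw [hPB z (ht hz)]
    · rw [zero_of_tsupp hz]; ring
  rw [a1, a2, a3]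
  exact lim

/-- the energy identity -/
theorem energy :
    ((∫ z, (g₁ z).re * (U₂ z * D 1 η z)) + ∫ z, (g₁ z).re * η z * (g₂ z).re) +
      ((∫ z, (g₁ z).im * (U₂ z * D Complex.I η z)) + ∫ z, (g₁ z).im * η z * (g₂ z).im) =
      ∫ z, w₁ z * (U₂ z * η z) := by
  set P : ℂ → ℝ := fun z => U₂ z * χ z with hP
  have cP : Continuous P := cont_cut hO oO hU hχ.continuous
  have sP : HasCompactSupport P := hc.mul_left
  have K : IsCompact (tsupport η) := hs
  have hKO : tsupport η ⊆ O := ht.trans hBO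
  have mw := W₁.mw _ hKO K
  have mr : MemLp (fun z => (g₁ z).re) 2 (volume.restrict (tsupport η)) := (W₁.mg _ hKO K).re
  have mi : MemLp (fun z => (g₁ z).im) 2 (volume.restrict (tsupport η)) := (W₁.mg _ hKO K).im
  have mH : ∀ v, MemLp (GG χ U₂ g₂ v) 2 := mem_G W₂ hχ hc hO
  have sm : ∀ n, ContDiff ℝ ∞ (mo (ρ n) P) := fun n =>
    mo_smooth (ρ_smooth n) (ρ_supp n) cP.locallyIntegrable
  have key : ∀ n, ((∫ z, (g₁ z).re * (mo (ρ n) P z * D 1 η z)) +
      ∫ z, (g₁ z).re * η z * mo (ρ n) (GG χ U₂ g₂ 1) z) +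
      ((∫ z, (g₁ z).im * (mo (ρ n) P z * D Complex.I η z)) +
      ∫ z, (g₁ z).im * η z * mo (ρ n) (GG χ U₂ g₂ Complex.I) z) =
      ∫ z, w₁ z * (mo (ρ n) P z * η z) := by
    intro n
    have h2 := W₁.lap (fun z => mo (ρ n) P z * η z) ((sm n).mul hη) hs.mul_left
      ((tsupport_mul_subset_right (f := mo (ρ n) P) (g := η)).trans hKO)
    simp only [fderiv_eq] at h2
    have h3 : ∀ v z, D v (fun z => mo (ρ n) P z * η z) z =
        mo (ρ n) P z * D v η z + mo (ρ n) (GG χ U₂ g₂ v) z * η z := by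
      intro v z
      rw [congrFun (D_mul' (sm n) hη v) z, ← D_mo_cut W₂ hχ hc hO n v]
    simp only [h3] at h2
    have cH : ∀ v, Continuous (mo (ρ n) (GG χ U₂ g₂ v)) := fun v =>
      (mo_smooth (ρ_smooth n) (ρ_supp n) (loc (mH v))).continuous
    have i1 : ∀ {f : ℂ → ℝ} (v : ℂ), MemLp f 2 (volume.restrict (tsupport η)) →
        Integrable (fun z => f z * (mo (ρ n) P z * D v η z)) := fun v hf =>
      int_K K hf ((sm n).continuous.mul (smooth_D hη v).continuous) fun z h => by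
        rw [D_zero_of_tsupp h, mul_zero]
    have i2 : ∀ {f : ℂ → ℝ} (v : ℂ), MemLp f 2 (volume.restrict (tsupport η)) →
        Integrable (fun z => f z * η z * mo (ρ n) (GG χ U₂ g₂ v) z) := by
      intro f v hf
      have := int_K K hf (θ := fun z => η z * mo (ρ n) (GG χ U₂ g₂ v) z)
        (hη.continuous.mul (cH v)) fun z h => by rw [zero_of_tsupp h, zero_mul]
      refine this.congr (Filter.Eventually.of_forall fun z => ?_)
      show _ = f z * η z * mo (ρ n) (GG χ U₂ g₂ v) z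
      ring
    have j1 : Integrable (fun z => (g₁ z).re * (mo (ρ n) P z * D 1 η z) +
        (g₁ z).re * η z * mo (ρ n) (GG χ U₂ g₂ 1) z) := (i1 1 mr).add (i2 1 mr)
    have j2 : Integrable (fun z => (g₁ z).im * (mo (ρ n) P z * D Complex.I η z) +
        (g₁ z).im * η z * mo (ρ n) (GG χ U₂ g₂ Complex.I) z) :=
      (i1 Complex.I mi).add (i2 Complex.I mi)
    rw [← integral_add (i1 1 mr) (i2 1 mr), ← integral_add (i1 Complex.I mi) (i2 Complex.I mi),
      ← integral_add j1 j2, ← h2]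
    congr 1
    funext z
    ring
  have l1 : ∀ {f : ℂ → ℝ} (v : ℂ), MemLp f 2 (volume.restrict (tsupport η)) →
      Tendsto (fun n => ∫ z, f z * (mo (ρ n) P z * D v η z)) atTop
        (𝓝 (∫ z, f z * (P z * D v η z))) := fun v hf =>
    dom K hf (smooth_D hη v).continuous (fun z h => D_zero_of_tsupp h v) cP sP continuous_id
  have l2 : ∀ {f : ℂ → ℝ} (v : ℂ), MemLp f 2 (volume.restrict (tsupport η)) →
      Tendsto (fun n => ∫ z, f z * η z * mo (ρ n) (GG χ U₂ g₂ v) z) atTop
        (𝓝 (∫ z, f z * η z * GG χ U₂ g₂ v z)) := by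
    intro f v hf
    have m := mem_K K hf hη.continuous (fun z h => zero_of_tsupp h)
    refine lim_mul (fun _ => m) m (mo_L2 (mH v)).1 (mH v) ?_ (mo_L2 (mH v)).2
    simp
  have l3 : Tendsto (fun n => ∫ z, w₁ z * (mo (ρ n) P z * η z)) atTop
      (𝓝 (∫ z, w₁ z * (P z * η z))) :=
    dom K mw hη.continuous (fun z h => zero_of_tsupp h) cP sP continuous_id
  have lim := tendsto_nhds_unique (((l1 1 mr).add (l2 1 mr)).add
    ((l1 Complex.I mi).add (l2 Complex.I mi))) (l3.congr fun n => (key n).symm)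
  have hPB : ∀ z ∈ B, P z = U₂ z := fun z hz => by
    show U₂ z * χ z = _
    rw [h1 z hz, mul_one]
  have hHB : ∀ z ∈ B, ∀ v, GG χ U₂ g₂ v z = inner ℝ (g₂ z) v := fun z hz v => by
    unfold GG
    rw [h1 z hz, D_one hB h1 hz]
    ring
  have a1 : ∀ (f : ℂ → ℝ) (v : ℂ),
      ∫ z, f z * (U₂ z * D v η z) = ∫ z, f z * (P z * D v η z) := by
    intro f v
    congr 1
    funext z
    by_cases hz : z ∈ tsupport η
    · rw [hPB z (ht hz)]
    · rw [D_zero_of_tsupp hz]; ring
  have a2 : ∫ z, (g₁ z).re * η z * (g₂ z).re =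
      ∫ z, (g₁ z).re * η z * GG χ U₂ g₂ 1 z := by
    congr 1
    funext z
    by_cases hz : z ∈ tsupport η
    · rw [hHB z (ht hz), Complex.inner]; simp
    · rw [zero_of_tsupp hz]; ring
  have a2' : ∫ z, (g₁ z).im * η z * (g₂ z).im =
      ∫ z, (g₁ z).im * η z * GG χ U₂ g₂ Complex.I z := by
    congr 1
    funext z
    by_cases hz : z ∈ tsupport η
    · rw [hHB z (ht hz), Complex.inner]; simp
    · rw [zero_of_tsupp hz]; ring
  have a3 : ∫ z, w₁ z * (U₂ z * η z) = ∫ z, w₁ z * (P z * η z) := by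
    congr 1
    funext z
    by_cases hz : z ∈ tsupport η
    · rw [hPB z (ht hz)]
    · rw [zero_of_tsupp hz]; ring
  rw [a1, a1, a2, a2', a3]
  exact lim

end two

end Pool.Agent.H15.UC
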