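import Pool.Agent.H15.UC.Rel
import Pool.Graph.R_seed8.Helper523.LL.Pompeiu
import Pool.Graph.R_seed8.Helper897.ZS.Dbar1

/-!
# The weak gradient of a solution is continuous
-/

set_option autoImplicit false

open Set Filter Topology MeasureTheory
open scoped ContDiff ComplexConjugate ENNReal Convolution

noncomputable section

namespace Pool.Agent.H15.UC

open Pool.Agent.H23.UC (Weak)

/-- the kernel -/
def kk (w : ℂ) : ℂ := w⁻¹

theorem kk_li : LocallyIntegrable kk := by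
  have h := MP8a09.locallyIntegrable_S
  have h2 := h.smul (2 * Real.pi * Complex.I)
  refine h2.congr (Filter.Eventually.of_forall fun w => ?_)
  show (2 * Real.pi * Complex.I) • MP8a09.S w = kk w
  unfold MP8a09.S kk
  rw [smul_eq_mul, mul_inv (2 * (Real.pi : ℂ) * Complex.I) w, ← mul_assoc, mul_inv_cancel₀, one_mul]
  have : (Real.pi : ℂ) ≠ 0 := by exact_mod_cast Real.pi_ne_zero
  simp [this]

/-- the truncated kernel -/
def k2 (δ : ℝ) (w : ℂ) : ℂ := conj w / ((max (‖w‖ ^ 2) (δ ^ 2) : ℝ) : ℂ)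

theorem k2_cont {δ : ℝ} (hδ : 0 < δ) : Continuous (k2 δ) := by
  unfold k2
  refine Complex.continuous_conj.div ?_ ?_
  · exact Complex.continuous_ofReal.comp ((continuous_norm.pow 2).max continuous_const)
  · intro w
    have : 0 < max (‖w‖ ^ 2) (δ ^ 2) := lt_max_of_lt_right (by positivity)
    exact_mod_cast this.ne'

theorem k2_eq {δ : ℝ} {w : ℂ} (hδ : 0 < δ) (h : δ ≤ ‖w‖) : k2 δ w = w⁻¹ := by
  unfold k2
  have h1 : δ ^ 2 ≤ ‖w‖ ^ 2 := pow_le_pow_left₀ hδ.le h 2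
  have hw : w ≠ 0 := by
    rintro rfl
    rw [norm_zero] at h
    linarith
  rw [max_eq_left h1, Complex.inv_def, Complex.normSq_eq_norm_sq]
  push_cast
  rw [div_eq_mul_inv]

theorem k2_bdd {δ : ℝ} (hδ : 0 < δ) (w : ℂ) : ‖k2 δ w‖ ≤ 1 / δ := by
  unfold k2
  have h0 : 0 < max (‖w‖ ^ 2) (δ ^ 2) := lt_max_of_lt_right (by positivity)
  rw [norm_div, RCLike.norm_conj, Complex.norm_real, Real.norm_of_nonneg h0.le,
    div_le_div_iff₀ h0 hδ, one_mul]
  rcases le_total ‖w‖ δ with h | h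
  · calc ‖w‖ * δ ≤ δ * δ := mul_le_mul_of_nonneg_right h hδ.le
      _ = δ ^ 2 := (sq δ).symm
      _ ≤ _ := le_max_right _ _
  · calc ‖w‖ * δ ≤ ‖w‖ * ‖w‖ := mul_le_mul_of_nonneg_left h (norm_nonneg _)
      _ = ‖w‖ ^ 2 := (sq _).symm
      _ ≤ _ := le_max_left _ _

/-- Cauchy and Pompeiu for the Laplacian -/
theorem pomp {P : ℂ → ℝ} (hP : ContDiff ℝ ∞ P) (hc : HasCompactSupport P) (z : ℂ) :
    ((D 1 P z : ℝ) : ℂ) - Complex.I * ((D Complex.I P z : ℝ) : ℂ) =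
      (2 * Real.pi : ℂ)⁻¹ * ∫ ζ, ((Lap P ζ : ℝ) : ℂ) * (z - ζ)⁻¹ := by
  set ψ : ℂ → ℂ := fun z => ((D 1 P z : ℝ) : ℂ) - Complex.I * ((D Complex.I P z : ℝ) : ℂ)
    with hψ
  have s1 := smooth_D hP 1
  have sI := smooth_D hP Complex.I
  have sψ : ContDiff ℝ ∞ ψ := (smooth_ofReal s1).sub (contDiff_const.mul (smooth_ofReal sI))
  have cψ : HasCompactSupport ψ := by
    refine HasCompactSupport.intro hc fun x hx => ?_
    show ((D 1 P x : ℝ) : ℂ) - Complex.I * ((D Complex.I P x : ℝ) : ℂ) = 0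
    rw [D_zero_of_tsupp hx, D_zero_of_tsupp hx]
    simp
  have h := Pool.Agent.Helper523.LL.pompeiu (sψ.of_le (by exact_mod_cast le_top)) cψ z
  have hd : ∀ ζ, Pool.Agent.Helper523.LL.dbar ψ ζ = (1 / 2) * ((Lap P ζ : ℝ) : ℂ) := by
    intro ζ
    unfold Pool.Agent.Helper523.LL.dbar
    have e : ∀ v, fderiv ℝ ψ ζ v = ((D v (D 1 P) ζ : ℝ) : ℂ) -
        Complex.I * ((D v (D Complex.I P) ζ : ℝ) : ℂ) := by
      intro v
      have e1 := congrFun (D_sub (E := ℂ) (smooth_ofReal s1)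
        (contDiff_const.mul (smooth_ofReal sI) : ContDiff ℝ ∞ fun z => Complex.I *
          ((D Complex.I P z : ℝ) : ℂ)) v) ζ
      have e2 := congrFun (D_const_mul (smooth_ofReal sI) Complex.I v) ζ
      have e3 := congrFun (D_ofReal s1 v) ζ
      have e4 := congrFun (D_ofReal sI v) ζ
      calc fderiv ℝ ψ ζ v = D v ψ ζ := rfl
        _ = _ := by rw [hψ, e1, e2, e3, e4]
    rw [e, e]
    have cm : D 1 (D Complex.I P) ζ = D Complex.I (D 1 P) ζ := congrFun (D_comm hP 1 Complex.I) ζ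
    rw [cm]
    unfold Lap
    push_cast
    linear_combination (-(1 / 2 : ℂ) * ((D Complex.I (D Complex.I P) ζ : ℝ) : ℂ)) * Complex.I_sq
  have h2 : ∫ ζ, Pool.Agent.Helper523.LL.dbar ψ ζ * (ζ - z)⁻¹ =
      -(1 / 2) * ∫ ζ, ((Lap P ζ : ℝ) : ℂ) * (z - ζ)⁻¹ := by
    rw [← integral_const_mul]
    congr 1
    funext ζ
    rw [hd, ← neg_sub z ζ, inv_neg]
    ring
  rw [h2] at h
  have hpi : (Real.pi : ℂ) ≠ 0 := by exact_mod_cast Real.pi_ne_zero
  have h2pi : (2 * Real.pi : ℂ) ≠ 0 := mul_ne_zero two_ne_zero hpi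
  show ψ z = _
  rw [eq_comm, inv_mul_eq_iff_eq_mul₀ h2pi]
  linear_combination (-2 : ℂ) * h

end Pool.Agent.H15.UC
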