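import Pool.Agent.H15.UC.Rank1

/-!
# The weak gradient of a solution is continuous (continued)
-/

set_option autoImplicit false

open Set Filter Topology MeasureTheory
open scoped ContDiff ComplexConjugate ENNReal Convolution

noncomputable section

namespace Pool.Agent.H15.UC

open Pool.Agent.H23.UC (Weak)

theorem mo_add {ρ F G : ℂ → ℝ} (hρ : Continuous ρ) (hc : HasCompactSupport ρ)
    (hF : LocallyIntegrable F) (hG : LocallyIntegrable G) (x : ℂ) :
    mo ρ (fun z => F z + G z) x = mo ρ F x + mo ρ G x := by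
  rw [mo_apply, mo_apply, mo_apply, ← integral_add (int_mo hρ hc hF x) (int_mo hρ hc hG x)]
  congr 1
  funext t
  ring

theorem split_int {F : ℂ → ℝ} {k : ℂ → ℂ} (i : Integrable fun ζ => ((F ζ : ℝ) : ℂ) * k ζ) :
    ∫ ζ, ((F ζ : ℝ) : ℂ) * k ζ = ((∫ ζ, F ζ * (k ζ).re : ℝ) : ℂ) +
      ((∫ ζ, F ζ * (k ζ).im : ℝ) : ℂ) * Complex.I := by
  have h := integral_re_add_im i
  have e1 : ∀ ζ, RCLike.re (((F ζ : ℝ) : ℂ) * k ζ) = F ζ * (k ζ).re := by
    intro ζ
    show (((F ζ : ℝ) : ℂ) * k ζ).re = _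
    simp
  have e2 : ∀ ζ, RCLike.im (((F ζ : ℝ) : ℂ) * k ζ) = F ζ * (k ζ).im := by
    intro ζ
    show (((F ζ : ℝ) : ℂ) * k ζ).im = _
    simp
  simp only [e1, e2] at h
  exact h.symm

/-- the convolution of the kernel with a continuous function -/
theorem conv_cont {F : ℂ → ℝ} (cF : Continuous F) (sF : HasCompactSupport F) :
    Continuous fun z => ∫ ζ, ((F ζ : ℝ) : ℂ) * (z - ζ)⁻¹ := by
  have h := sF.continuous_convolution_right ((ContinuousLinearMap.lsmul ℝ ℝ).flip :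
    ℂ →L[ℝ] ℝ →L[ℝ] ℂ) kk_li cF
  refine h.congr fun z => ?_
  rw [convolution_def]
  have e := integral_sub_left_eq_self (fun t => ((F (z - t) : ℝ) : ℂ) * kk t) volume z
  rw [show (∫ t, ((ContinuousLinearMap.lsmul ℝ ℝ).flip : ℂ →L[ℝ] ℝ →L[ℝ] ℂ) (kk t) (F (z - t))) =
    ∫ t, ((F (z - t) : ℝ) : ℂ) * kk t by
      congr 1, ← e]
  congr 1
  funext t
  rw [sub_sub_cancel]
  rfl

/-- the convolution of the truncated kernel with an integrable function -/
theorem conv2_cont {F : ℂ → ℝ} (iF : Integrable F) {δ : ℝ} (hδ : 0 < δ) :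
    Continuous fun z => ∫ ζ, ((F ζ : ℝ) : ℂ) * k2 δ (z - ζ) := by
  have hb : BddAbove (range fun x => ‖k2 δ x‖) := ⟨1 / δ, by
    rintro _ ⟨x, rfl⟩
    exact k2_bdd hδ x⟩
  have h := hb.continuous_convolution_right_of_integrable (ContinuousLinearMap.lsmul ℝ ℝ :
    ℝ →L[ℝ] ℂ →L[ℝ] ℂ) iF (k2_cont hδ)
  refine h.congr fun z => ?_
  rw [convolution_def]
  congr 1

theorem grad_cont {O : Set ℂ} {U w : ℂ → ℝ} {g : ℂ → ℂ} (hO : IsOpen O) (W : Weak O U g w)
    (cw : ContinuousOn w O) {z₀ : ℂ} (hz₀ : z₀ ∈ O) :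
    ∃ (r : ℝ) (g' : ℂ → ℂ), 0 < r ∧ Metric.ball z₀ r ⊆ O ∧ Continuous g' ∧
      ∀ᵐ z, z ∈ Metric.ball z₀ r → g z = g' z := by
  obtain ⟨r, χ, hr, sχ, kχ, tχ, hBO, one⟩ := setup hO hz₀
  set B := Metric.ball z₀ r with hB
  have oB : IsOpen B := Metric.isOpen_ball
  set P : ℂ → ℝ := fun z => U z * χ z with hP
  have mP : MemLp P 2 := mem_P W sχ kχ tχ
  set F₁ : ℂ → ℝ := fun z => w z * (-χ z) with hF₁
  set F₂ : ℂ → ℝ := fun z => (g z).re * (2 * D 1 χ z) + (g z).im * (2 * D Complex.I χ z) +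
    U z * Lap χ z with hF₂
  have tn : tsupport (fun z => -χ z) ⊆ O := by
    refine (closure_mono ?_ : _).trans tχ
    intro x hx
    simpa using hx
  have cF₁ : Continuous F₁ := cont_cut (U₂ := w) (χ := fun z => -χ z) tn hO cw sχ.continuous.neg
  have sF₁ : HasCompactSupport F₁ := by
    refine HasCompactSupport.intro kχ fun z hz => ?_
    show w z * (-χ z) = 0
    rw [zero_of_tsupp hz]
    ring
  have m₂ : MemLp F₂ 2 := by
    have m2 := mem_K kχ (f := fun z => (g z).re) (θ := fun z => 2 * D 1 χ z) (W.mg _ tχ kχ).re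
      (continuous_const.mul (smooth_D sχ 1).continuous)
      (fun z h => by rw [D_zero_of_tsupp h, mul_zero])
    have m3 := mem_K kχ (f := fun z => (g z).im) (θ := fun z => 2 * D Complex.I χ z)
      (W.mg _ tχ kχ).im (continuous_const.mul (smooth_D sχ Complex.I).continuous)
      (fun z h => by rw [D_zero_of_tsupp h, mul_zero])
    have m4 := mem_K kχ (W.mU _ tχ kχ) (smooth_Lap sχ).continuous fun _ => Lap_zero_of_tsupp
    exact (m2.add m3).add m4
  have m₁ : MemLp F₁ 2 := cF₁.memLp_of_hasCompactSupport sF₁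
  have hFF : FF χ U w g = fun z => F₁ z + F₂ z := by
    funext z
    unfold FF
    rw [hF₁, hF₂]
    ring
  have hWL : WL P (fun z => F₁ z + F₂ z) := by
    rw [← hFF]
    exact cut W sχ kχ tχ
  -- supports
  obtain ⟨R, hR⟩ := kχ.isBounded.subset_closedBall (0 : ℂ)
  have out : ∀ z : ℂ, R < ‖z‖ → z ∉ tsupport χ := fun z hz h => by
    have := hR h
    rw [mem_closedBall_zero_iff] at this
    linarith
  have zP : ∀ z : ℂ, R < ‖z‖ → P z = 0 := fun z hz => by
    show U z * χ z = 0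
    rw [zero_of_tsupp (out z hz), mul_zero]
  have z₁ : ∀ z : ℂ, R < ‖z‖ → F₁ z = 0 := fun z hz => by
    show w z * (-χ z) = 0
    rw [zero_of_tsupp (out z hz)]
    ring
  have z₂ : ∀ z : ℂ, R < ‖z‖ → F₂ z = 0 := fun z hz => by
    show (g z).re * (2 * D 1 χ z) + (g z).im * (2 * D Complex.I χ z) + U z * Lap χ z = 0
    rw [D_zero_of_tsupp (out z hz), D_zero_of_tsupp (out z hz), Lap_zero_of_tsupp (out z hz)]
    ring
  have zB : ∀ z ∈ B, F₂ z = 0 := fun z hz => by
    have h1 : D 1 χ z = 0 := D_one oB one hz 1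
    have h2 : D Complex.I χ z = 0 := D_one oB one hz Complex.I
    have h3 : Lap χ z = 0 := by
      unfold Lap
      have e : ∀ v, D v (D v χ) z = 0 := by
        intro v
        have h4 : D v χ =ᶠ[𝓝 z] fun _ => 0 :=
          Filter.eventually_of_mem (oB.mem_nhds hz) fun y hy => D_one oB one hy v
        show fderiv ℝ (D v χ) z v = 0
        rw [h4.fderiv_eq]
        simp
      rw [e, e, add_zero]
    show (g z).re * (2 * D 1 χ z) + (g z).im * (2 * D Complex.I χ z) + U z * Lap χ z = 0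
    rw [h1, h2, h3]
    ring
  have δ1 : ∀ n : ℕ, 1 / ((n : ℝ) + 1) ≤ 1 := fun n => by
    rw [div_le_one (by positivity)]
    have : (0 : ℝ) ≤ n := Nat.cast_nonneg n
    linarith
  have far : ∀ {G : ℂ → ℝ}, (∀ z : ℂ, R < ‖z‖ → G z = 0) → ∀ (n : ℕ) (x : ℂ), R + 1 < ‖x‖ →
      mo (ρ n) G x = 0 := by
    intro G hG n x hx
    refine mo_zero fun t ht => hG t ?_
    have h1 : ‖x‖ ≤ ‖x - t‖ + ‖t‖ := by
      calc ‖x‖ = ‖(x - t) + t‖ := by rw [sub_add_cancel]
        _ ≤ _ := norm_add_le _ _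
    have := δ1 n
    linarith
  have near : ∀ᶠ n : ℕ in atTop, ∀ x ∈ Metric.ball z₀ (3 * r / 4), mo (ρ n) F₂ x = 0 := by
    have h1 : ∀ᶠ n : ℕ in atTop, 1 / ((n : ℝ) + 1) < r / 4 :=
      tendsto_δ.eventually (gt_mem_nhds (by positivity))
    filter_upwards [h1] with n hn x hx
    refine mo_zero fun t ht => zB t ?_
    rw [Metric.mem_ball] at hx ⊢
    have h2 : dist t x = ‖x - t‖ := by rw [dist_comm, dist_eq_norm]
    calc dist t z₀ ≤ dist t x + dist x z₀ := dist_triangle _ _ _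
      _ < r := by linarith
  -- the formula for the mollifications
  have sP : ∀ n, ContDiff ℝ ∞ (mo (ρ n) P) := fun n =>
    mo_smooth (ρ_smooth n) (ρ_supp n) (loc mP)
  have form : ∀ (n : ℕ) (z : ℂ), ((mo (ρ n) (GG χ U g 1) z : ℝ) : ℂ) -
      Complex.I * ((mo (ρ n) (GG χ U g Complex.I) z : ℝ) : ℂ) = (2 * Real.pi : ℂ)⁻¹ *
      ∫ ζ, (((mo (ρ n) F₁ ζ : ℝ) : ℂ) + ((mo (ρ n) F₂ ζ : ℝ) : ℂ)) * (z - ζ)⁻¹ := by
    intro n z
    have h := pomp (sP n) (mo_supp zP) z
    rw [D_mo_cut W sχ kχ tχ n 1, D_mo_cut W sχ kχ tχ n Complex.I,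
      hWL.mo (ρ_smooth n) (ρ_supp n) (loc mP)] at h
    rw [h]
    congr 2
    funext ζ
    rw [mo_add (ρ_smooth n).continuous (ρ_supp n) (loc m₁) (loc m₂)]
    push_cast
    rfl
  -- the first integral
  obtain ⟨C₁, hC₁⟩ := bound_P cF₁ sF₁
  have kint : ∀ z : ℂ, Integrable fun ζ => (Metric.closedBall (0 : ℂ) (R + 1 + ‖z‖)).indicator
      kk (z - ζ) := by
    intro z
    have h1 : Integrable ((Metric.closedBall (0 : ℂ) (R + 1 + ‖z‖)).indicator kk) :=
      (integrable_indicator_iff Metric.isClosed_closedBall.measurableSet).mpr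
        (kk_li.integrableOn_isCompact (isCompact_closedBall _ _))
    exact h1.comp_sub_left z
  have kbd : ∀ {G : ℂ → ℝ} (z : ℂ), (∀ x : ℂ, R + 1 < ‖x‖ → G x = 0) → (∀ x, |G x| ≤ C₁) →
      ∀ ζ, ‖((G ζ : ℝ) : ℂ) * (z - ζ)⁻¹‖ ≤
      C₁ * ‖(Metric.closedBall (0 : ℂ) (R + 1 + ‖z‖)).indicator kk (z - ζ)‖ := by
    intro G z h0 hb ζ
    by_cases h : R + 1 < ‖ζ‖
    · rw [h0 ζ h]
      simp only [Complex.ofReal_zero, zero_mul, norm_zero]
      exact mul_nonneg ((abs_nonneg _).trans (hb 0)) (norm_nonneg _)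
    · push Not at h
      have h1 : z - ζ ∈ Metric.closedBall (0 : ℂ) (R + 1 + ‖z‖) := by
        rw [mem_closedBall_zero_iff]
        calc ‖z - ζ‖ ≤ ‖z‖ + ‖ζ‖ := norm_sub_le _ _
          _ ≤ _ := by linarith
      rw [indicator_of_mem h1, norm_mul, Complex.norm_real, Real.norm_eq_abs]
      exact mul_le_mul_of_nonneg_right (hb ζ) (norm_nonneg _)
  have meas : ∀ z : ℂ, AEStronglyMeasurable (fun ζ : ℂ => (z - ζ)⁻¹) volume := fun z =>
    ((measurable_const.sub measurable_id).inv).aestronglyMeasurable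
  have int1 : ∀ (n : ℕ) (z : ℂ), Integrable fun ζ => ((mo (ρ n) F₁ ζ : ℝ) : ℂ) * (z - ζ)⁻¹ := by
    intro n z
    refine Integrable.mono' ((kint z).norm.const_mul C₁) ?_
      (Filter.Eventually.of_forall (kbd z (far z₁ n) (mo_bdd cF₁ hC₁ n)))
    exact (Complex.continuous_ofReal.comp (mo_smooth (ρ_smooth n) (ρ_supp n)
      cF₁.locallyIntegrable).continuous).aestronglyMeasurable.mul (meas z)
  have lim1 : ∀ z : ℂ, Tendsto (fun n => ∫ ζ, ((mo (ρ n) F₁ ζ : ℝ) : ℂ) * (z - ζ)⁻¹) atTop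
      (𝓝 (∫ ζ, ((F₁ ζ : ℝ) : ℂ) * (z - ζ)⁻¹)) := by
    intro z
    refine tendsto_integral_of_dominated_convergence
      (fun ζ => C₁ * ‖(Metric.closedBall (0 : ℂ) (R + 1 + ‖z‖)).indicator kk (z - ζ)‖)
      (fun n => (int1 n z).aestronglyMeasurable) ((kint z).norm.const_mul C₁)
      (fun n => Filter.Eventually.of_forall (kbd z (far z₁ n) (mo_bdd cF₁ hC₁ n))) ?_
    refine Filter.Eventually.of_forall fun ζ => ?_
    exact ((Complex.continuous_ofReal.tendsto _).comp (mo_pt cF₁ ζ)).mul_const _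
  -- the second integral
  have hδ : 0 < r / 4 := by positivity
  have i₂ : Integrable F₂ := by
    have h1 : MemLp F₂ 2 (volume.restrict (tsupport χ)) := m₂.restrict _
    have : IsFiniteMeasure (volume.restrict (tsupport χ)) := ⟨by
      rw [Measure.restrict_apply_univ]; exact kχ.measure_lt_top⟩
    have h2 : IntegrableOn F₂ (tsupport χ) := h1.integrable (by norm_num)
    refine (integrableOn_iff_integrable_of_support_subset ?_).mp h2
    intro z hz
    by_contra h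
    refine hz ?_
    show (g z).re * (2 * D 1 χ z) + (g z).im * (2 * D Complex.I χ z) + U z * Lap χ z = 0
    rw [D_zero_of_tsupp h, D_zero_of_tsupp h, Lap_zero_of_tsupp h]
    ring
  have kc : ∀ z : ℂ, Continuous fun ζ => k2 (r / 4) (z - ζ) := fun z =>
    (k2_cont hδ).comp (continuous_const.sub continuous_id)
  have sm₂ : ∀ n, Continuous (mo (ρ n) F₂) := fun n =>
    (mo_smooth (ρ_smooth n) (ρ_supp n) (loc m₂)).continuous
  have int2' : ∀ (n : ℕ) (z : ℂ), Integrable fun ζ =>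
      ((mo (ρ n) F₂ ζ : ℝ) : ℂ) * k2 (r / 4) (z - ζ) := by
    intro n z
    refine Continuous.integrable_of_hasCompactSupport
      ((Complex.continuous_ofReal.comp (sm₂ n)).mul (kc z)) ?_
    refine HasCompactSupport.intro (isCompact_closedBall (0 : ℂ) (R + 1)) fun x hx => ?_
    rw [mem_closedBall_zero_iff, not_le] at hx
    rw [far z₂ n x hx]
    simp
  have i₂k : ∀ z : ℂ, Integrable fun ζ => ((F₂ ζ : ℝ) : ℂ) * k2 (r / 4) (z - ζ) := by
    intro z
    refine Integrable.mono' (i₂.norm.mul_const (1 / (r / 4))) ?_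
      (Filter.Eventually.of_forall fun ζ => ?_)
    · exact (Complex.continuous_ofReal.comp_aestronglyMeasurable i₂.aestronglyMeasurable).mul
        (kc z).aestronglyMeasurable
    · rw [norm_mul, Complex.norm_real]
      exact mul_le_mul_of_nonneg_left (k2_bdd hδ _) (norm_nonneg _)
  have limr : ∀ (h : ℂ → ℝ), Continuous h → Tendsto (fun n => ∫ ζ, mo (ρ n) F₂ ζ * h ζ) atTop
      (𝓝 (∫ ζ, F₂ ζ * h ζ)) := by
    intro h ch
    set h' : ℂ → ℝ := (Metric.closedBall (0 : ℂ) (R + 1)).indicator h with hh'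
    have mh : MemLp h' 2 := by
      refine (memLp_indicator_iff_restrict Metric.isClosed_closedBall.measurableSet).mpr ?_
      obtain ⟨C, hC⟩ := (isCompact_closedBall (0 : ℂ) (R + 1)).exists_bound_of_continuousOn
        ch.continuousOn
      have : IsFiniteMeasure (volume.restrict (Metric.closedBall (0 : ℂ) (R + 1))) := ⟨by
        rw [Measure.restrict_apply_univ]; exact (isCompact_closedBall _ _).measure_lt_top⟩
      refine MemLp.of_bound ch.aestronglyMeasurable C ?_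
      rw [ae_restrict_iff' Metric.isClosed_closedBall.measurableSet]
      exact Filter.Eventually.of_forall hC
    have t := lim_mul (mo_L2 m₂).1 m₂ (fun _ => mh) mh (mo_L2 m₂).2 (by simp)
    have e : ∀ {G : ℂ → ℝ}, (∀ x : ℂ, R + 1 < ‖x‖ → G x = 0) →
        ∫ ζ, G ζ * h' ζ = ∫ ζ, G ζ * h ζ := by
      intro G hG
      congr 1
      funext ζ
      by_cases hζ : ζ ∈ Metric.closedBall (0 : ℂ) (R + 1)
      · rw [hh', indicator_of_mem hζ]
      · rw [mem_closedBall_zero_iff, not_le] at hζ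
        rw [hG ζ hζ, zero_mul, zero_mul]
    rw [e fun x hx => z₂ x (by linarith)] at t
    exact t.congr fun n => e (far z₂ n)
  have lim2 : ∀ z ∈ Metric.ball z₀ (r / 2), Tendsto (fun n =>
      ∫ ζ, ((mo (ρ n) F₂ ζ : ℝ) : ℂ) * (z - ζ)⁻¹) atTop
      (𝓝 (∫ ζ, ((F₂ ζ : ℝ) : ℂ) * k2 (r / 4) (z - ζ))) := by
    intro z hz
    have h1 : Tendsto (fun n => ∫ ζ, ((mo (ρ n) F₂ ζ : ℝ) : ℂ) * k2 (r / 4) (z - ζ)) atTop
        (𝓝 (∫ ζ, ((F₂ ζ : ℝ) : ℂ) * k2 (r / 4) (z - ζ))) := by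
      rw [split_int (i₂k z)]
      have a := limr (fun ζ => (k2 (r / 4) (z - ζ)).re) (Complex.continuous_re.comp (kc z))
      have b := limr (fun ζ => (k2 (r / 4) (z - ζ)).im) (Complex.continuous_im.comp (kc z))
      refine (((Complex.continuous_ofReal.tendsto _).comp a).add
        (((Complex.continuous_ofReal.tendsto _).comp b).mul_const Complex.I)).congr fun n => ?_
      exact (split_int (int2' n z)).symm
    refine h1.congr' ?_
    filter_upwards [near] with n hn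
    congr 1
    funext ζ
    by_cases hζ : ζ ∈ Metric.ball z₀ (3 * r / 4)
    · rw [hn ζ hζ]
      simp
    · rw [k2_eq hδ]
      rw [Metric.mem_ball, not_lt] at hζ
      rw [Metric.mem_ball] at hz
      have h2 : dist ζ z₀ ≤ dist ζ z + dist z z₀ := dist_triangle _ _ _
      have h3 : dist ζ z = ‖z - ζ‖ := by rw [dist_comm, dist_eq_norm]
      linarith
  have int2 : ∀ z ∈ Metric.ball z₀ (r / 2), ∀ᶠ n : ℕ in atTop,
      Integrable fun ζ => ((mo (ρ n) F₂ ζ : ℝ) : ℂ) * (z - ζ)⁻¹ := by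
    intro z hz
    filter_upwards [near] with n hn
    refine (int2' n z).congr (Filter.Eventually.of_forall fun ζ => ?_)
    show ((mo (ρ n) F₂ ζ : ℝ) : ℂ) * k2 (r / 4) (z - ζ) =
      ((mo (ρ n) F₂ ζ : ℝ) : ℂ) * (z - ζ)⁻¹
    by_cases hζ : ζ ∈ Metric.ball z₀ (3 * r / 4)
    · rw [hn ζ hζ, Complex.ofReal_zero, zero_mul, zero_mul]
    · rw [k2_eq hδ]
      rw [Metric.mem_ball, not_lt] at hζ
      rw [Metric.mem_ball] at hz
      have h2 : dist ζ z₀ ≤ dist ζ z + dist z z₀ := dist_triangle _ _ _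
      have h3 : dist ζ z = ‖z - ζ‖ := by rw [dist_comm, dist_eq_norm]
      linarith
  -- the limit
  set c : ℂ → ℂ := fun z => (2 * Real.pi : ℂ)⁻¹ * ((∫ ζ, ((F₁ ζ : ℝ) : ℂ) * (z - ζ)⁻¹) +
    ∫ ζ, ((F₂ ζ : ℝ) : ℂ) * k2 (r / 4) (z - ζ)) with hc
  have cc : Continuous c := continuous_const.mul ((conv_cont cF₁ sF₁).add (conv2_cont i₂ hδ))
  refine ⟨r / 2, fun z => conj (c z), by positivity,
    (Metric.ball_subset_ball (by linarith)).trans hBO, Complex.continuous_conj.comp cc, ?_⟩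
  filter_upwards [mo_tendsto (loc (mem_G W sχ kχ tχ 1)),
    mo_tendsto (loc (mem_G W sχ kχ tχ Complex.I))] with z h1 hI hz
  have hzB : z ∈ B := Metric.ball_subset_ball (by linarith) hz
  have l1 : Tendsto (fun n => ((mo (ρ n) (GG χ U g 1) z : ℝ) : ℂ) -
      Complex.I * ((mo (ρ n) (GG χ U g Complex.I) z : ℝ) : ℂ)) atTop
      (𝓝 (((GG χ U g 1 z : ℝ) : ℂ) - Complex.I * ((GG χ U g Complex.I z : ℝ) : ℂ))) :=
    ((Complex.continuous_ofReal.tendsto _).comp h1).sub
      (((Complex.continuous_ofReal.tendsto _).comp hI).const_mul Complex.I)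
  have l2 : Tendsto (fun n => ((mo (ρ n) (GG χ U g 1) z : ℝ) : ℂ) -
      Complex.I * ((mo (ρ n) (GG χ U g Complex.I) z : ℝ) : ℂ)) atTop (𝓝 (c z)) := by
    refine (((lim1 z).add (lim2 z hz)).const_mul (2 * Real.pi : ℂ)⁻¹).congr' ?_
    filter_upwards [int2 z hz] with n hn
    rw [form n z, ← integral_add (int1 n z) hn]
    congr 2
    funext ζ
    ring
  have l3 := tendsto_nhds_unique l1 l2
  have e1 : GG χ U g 1 z = (g z).re := by
    unfold GG
    rw [one z hzB, D_one oB one hzB, Complex.inner]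
    simp
  have e2 : GG χ U g Complex.I z = (g z).im := by
    unfold GG
    rw [one z hzB, D_one oB one hzB, Complex.inner]
    simp
  show g z = conj (c z)
  rw [← l3, e1, e2]
  apply Complex.ext <;> simp

end Pool.Agent.H15.UC
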