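import Pool.Agent.H15.UC.Rank2

/-!
# The `∂`-equation for the Wronskian of two solutions
-/

set_option autoImplicit false

open Set Filter Topology MeasureTheory
open scoped ContDiff ComplexConjugate ENNReal

noncomputable section

namespace Pool.Agent.H15.UC

open Pool.Agent.H23.UC (Weak)

section two
variable {O B : Set ℂ} {U₂ w₂ χ η α β γ : ℂ → ℝ} {g₂ : ℂ → ℂ}

/-- the energy identity for a system of the first order -/
theorem energy_gen (mr : MemLp α 2 (volume.restrict (tsupport η)))
    (mi : MemLp β 2 (volume.restrict (tsupport η)))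
    (mw : MemLp γ 2 (volume.restrict (tsupport η)))
    (hT : ∀ θ : ℂ → ℝ, ContDiff ℝ ∞ θ → HasCompactSupport θ → tsupport θ ⊆ O →
      ∫ z, (α z * D 1 θ z + β z * D Complex.I θ z) = ∫ z, γ z * θ z)
    (W₂ : Weak O U₂ g₂ w₂) (hχ : ContDiff ℝ ∞ χ)
    (hc : HasCompactSupport χ) (hO : tsupport χ ⊆ O) (oO : IsOpen O) (hU : ContinuousOn U₂ O)
    (hB : IsOpen B) (hBO : B ⊆ O) (h1 : ∀ z ∈ B, χ z = 1)
    (hη : ContDiff ℝ ∞ η) (hs : HasCompactSupport η) (ht : tsupport η ⊆ B) :
    ((∫ z, α z * (U₂ z * D 1 η z)) + ∫ z, α z * η z * (g₂ z).re) +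
      ((∫ z, β z * (U₂ z * D Complex.I η z)) + ∫ z, β z * η z * (g₂ z).im) =
      ∫ z, γ z * (U₂ z * η z) := by
  set P : ℂ → ℝ := fun z => U₂ z * χ z with hP
  have cP : Continuous P := cont_cut hO oO hU hχ.continuous
  have sP : HasCompactSupport P := hc.mul_left
  have K : IsCompact (tsupport η) := hs
  have hKO : tsupport η ⊆ O := ht.trans hBO
  have mH : ∀ v, MemLp (GG χ U₂ g₂ v) 2 := mem_G W₂ hχ hc hO
  have sm : ∀ n, ContDiff ℝ ∞ (mo (ρ n) P) := fun n =>
    mo_smooth (ρ_smooth n) (ρ_supp n) cP.locallyIntegrable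
  have key : ∀ n, ((∫ z, α z * (mo (ρ n) P z * D 1 η z)) +
      ∫ z, α z * η z * mo (ρ n) (GG χ U₂ g₂ 1) z) +
      ((∫ z, β z * (mo (ρ n) P z * D Complex.I η z)) +
      ∫ z, β z * η z * mo (ρ n) (GG χ U₂ g₂ Complex.I) z) =
      ∫ z, γ z * (mo (ρ n) P z * η z) := by
    intro n
    have h2 := hT (fun z => mo (ρ n) P z * η z) ((sm n).mul hη) hs.mul_left
      ((tsupport_mul_subset_right (f := mo (ρ n) P) (g := η)).trans hKO)
    have h3 : ∀ v z, D v (fun z => mo (ρ n) P z * η z) z =
        mo (ρ n) P z * D v η z + mo (ρ n) (GG χ U₂ g₂ v) z * η z := by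
      intro v z
      rw [congrFun (D_mul' (sm n) hη v) z, ← D_mo_cut W₂ hχ hc hO n v]
    simp only [h3] at h2
    have cH : ∀ v, Continuous (mo (ρ n) (GG χ U₂ g₂ v)) := fun v =>
      (mo_smooth (ρ_smooth n) (ρ_supp n) (loc (mH v))).continuous
    have i1 : ∀ {f : ℂ → ℝ} (v : ℂ), MemLp f 2 (volume.restrict (tsupport η)) →
        Integrable (fun z => f z * (mo (ρ n) P z * D v η z)) := fun v hf =>
      int_K K hf ((sm n).continuous.mul (smooth_D hη v).continuous) fun z h => by
        rw [D_zero_of_tsupp h, mul_zero]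
    have i2 : ∀ {f : ℂ → ℝ} (v : ℂ), MemLp f 2 (volume.restrict (tsupport η)) →
        Integrable (fun z => f z * η z * mo (ρ n) (GG χ U₂ g₂ v) z) := by
      intro f v hf
      have := int_K K hf (θ := fun z => η z * mo (ρ n) (GG χ U₂ g₂ v) z)
        (hη.continuous.mul (cH v)) fun z h => by rw [zero_of_tsupp h, zero_mul]
      refine this.congr (Filter.Eventually.of_forall fun z => ?_)
      show _ = f z * η z * mo (ρ n) (GG χ U₂ g₂ v) z
      ring
    have j1 : Integrable (fun z => α z * (mo (ρ n) P z * D 1 η z) +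
        α z * η z * mo (ρ n) (GG χ U₂ g₂ 1) z) := (i1 1 mr).add (i2 1 mr)
    have j2 : Integrable (fun z => β z * (mo (ρ n) P z * D Complex.I η z) +
        β z * η z * mo (ρ n) (GG χ U₂ g₂ Complex.I) z) :=
      (i1 Complex.I mi).add (i2 Complex.I mi)
    rw [← integral_add (i1 1 mr) (i2 1 mr), ← integral_add (i1 Complex.I mi) (i2 Complex.I mi),
      ← integral_add j1 j2, ← h2]
    congr 1
    funext z
    ring
  have l1 : ∀ {f : ℂ → ℝ} (v : ℂ), MemLp f 2 (volume.restrict (tsupport η)) →
      Tendsto (fun n => ∫ z, f z * (mo (ρ n) P z * D v η z)) atTop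
        (𝓝 (∫ z, f z * (P z * D v η z))) := fun v hf =>
    dom K hf (smooth_D hη v).continuous (fun z h => D_zero_of_tsupp h v) cP sP continuous_id
  have l2 : ∀ {f : ℂ → ℝ} (v : ℂ), MemLp f 2 (volume.restrict (tsupport η)) →
      Tendsto (fun n => ∫ z, f z * η z * mo (ρ n) (GG χ U₂ g₂ v) z) atTop
        (𝓝 (∫ z, f z * η z * GG χ U₂ g₂ v z)) := by
    intro f v hf
    have m := mem_K K hf hη.continuous (fun z h => zero_of_tsupp h)
    refine lim_mul (fun _ => m) m (mo_L2 (mH v)).1 (mH v) ?_ (mo_L2 (mH v)).2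
    simp
  have l3 : Tendsto (fun n => ∫ z, γ z * (mo (ρ n) P z * η z)) atTop
      (𝓝 (∫ z, γ z * (P z * η z))) :=
    dom K mw hη.continuous (fun z h => zero_of_tsupp h) cP sP continuous_id
  have lim := tendsto_nhds_unique (((l1 1 mr).add (l2 1 mr)).add
    ((l1 Complex.I mi).add (l2 Complex.I mi))) (l3.congr fun n => (key n).symm)
  have hPB : ∀ z ∈ B, P z = U₂ z := fun z hz => by
    show U₂ z * χ z = _
    rw [h1 z hz, mul_one]
  have hHB : ∀ z ∈ B, ∀ v, GG χ U₂ g₂ v z = inner ℝ (g₂ z) v := fun z hz v => by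
    unfold GG
    rw [h1 z hz, D_one hB h1 hz]
    ring
  have a1 : ∀ (f : ℂ → ℝ) (v : ℂ),
      ∫ z, f z * (U₂ z * D v η z) = ∫ z, f z * (P z * D v η z) := by
    intro f v
    congr 1
    funext z
    by_cases hz : z ∈ tsupport η
    · rw [hPB z (ht hz)]
    · rw [D_zero_of_tsupp hz]; ring
  have a2 : ∫ z, α z * η z * (g₂ z).re =
      ∫ z, α z * η z * GG χ U₂ g₂ 1 z := by
    congr 1
    funext z
    by_cases hz : z ∈ tsupport η
    · rw [hHB z (ht hz), Complex.inner]; simp
    · rw [zero_of_tsupp hz]; ring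
  have a2' : ∫ z, β z * η z * (g₂ z).im =
      ∫ z, β z * η z * GG χ U₂ g₂ Complex.I z := by
    congr 1
    funext z
    by_cases hz : z ∈ tsupport η
    · rw [hHB z (ht hz), Complex.inner]; simp
    · rw [zero_of_tsupp hz]; ring
  have a3 : ∫ z, γ z * (U₂ z * η z) = ∫ z, γ z * (P z * η z) := by
    congr 1
    funext z
    by_cases hz : z ∈ tsupport η
    · rw [hPB z (ht hz)]
    · rw [zero_of_tsupp hz]; ring
  rw [a1, a1, a2, a2', a3]
  exact lim

end two

theorem icut {O : Set ℂ} {f η : ℂ → ℝ} (hO : IsOpen O) (cf : ContinuousOn f O)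
    (cη : Continuous η) (kη : HasCompactSupport η) (tη : tsupport η ⊆ O) :
    Integrable (fun z => f z * η z) :=
  (cont_cut (U₂ := f) tη hO cf cη).integrable_of_hasCompactSupport kη.mul_left

theorem in1 (z : ℂ) : inner ℝ z (1 : ℂ) = z.re := by rw [Complex.inner]; simp
theorem inI (z : ℂ) : inner ℝ z Complex.I = z.im := by rw [Complex.inner]; simp

/-- the weak gradient has the curl zero -/
theorem curl {O : Set ℂ} {U w : ℂ → ℝ} {g : ℂ → ℂ} (W : Weak O U g w) (hO : IsOpen O)
    (cg : ContinuousOn g O) : ∀ θ : ℂ → ℝ, ContDiff ℝ ∞ θ → HasCompactSupport θ →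
      tsupport θ ⊆ O → ∫ z, (-(g z).im * D 1 θ z + (g z).re * D Complex.I θ z) =
        ∫ z, (0 : ℝ) * θ z := by
  intro θ s k t
  have s1 := smooth_D s 1
  have sI := smooth_D s Complex.I
  have h1 := W.grad (D Complex.I θ) sI (supp_D k _) ((tsupp_D θ _).trans t) 1
  have h2 := W.grad (D 1 θ) s1 (supp_D k _) ((tsupp_D θ _).trans t) Complex.I
  simp only [in1] at h1
  simp only [inI] at h2
  have e : ∫ z, U z * fderiv ℝ (D Complex.I θ) z 1 = ∫ z, U z * fderiv ℝ (D 1 θ) z Complex.I := by
    congr 1
    funext z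
    have : D 1 (D Complex.I θ) z = D Complex.I (D 1 θ) z := congrFun (D_comm s 1 Complex.I) z
    show U z * D 1 (D Complex.I θ) z = U z * D Complex.I (D 1 θ) z
    rw [this]
  have cr : ContinuousOn (fun z => (g z).re) O := Complex.continuous_re.comp_continuousOn cg
  have ci : ContinuousOn (fun z => (g z).im) O := Complex.continuous_im.comp_continuousOn cg
  have i1 := icut hO ci s1.continuous (supp_D k 1) ((tsupp_D θ _).trans t)
  have i2 := icut hO cr sI.continuous (supp_D k Complex.I) ((tsupp_D θ _).trans t)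
  have e2 : ∫ z, (-(g z).im * D 1 θ z + (g z).re * D Complex.I θ z) =
      -(∫ z, (g z).im * D 1 θ z) + ∫ z, (g z).re * D Complex.I θ z := by
    have i1' : Integrable fun z => -((g z).im * D 1 θ z) := i1.neg
    rw [← integral_neg, ← integral_add i1' i2]
    congr 1
    funext z
    ring
  rw [e2]
  simp only [zero_mul, integral_zero]
  linarith

/-- `∂ η` -/
def dd (η : ℂ → ℝ) (z : ℂ) : ℂ := ((D 1 η z : ℝ) : ℂ) + Complex.I * ((D Complex.I η z : ℝ) : ℂ)

theorem cplx_int {c : ℂ → ℂ} {a b : ℂ → ℝ} (ia : Integrable a) (ib : Integrable b)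
    (h : ∀ z, c z = ((a z : ℝ) : ℂ) + ((b z : ℝ) : ℂ) * Complex.I) :
    ∫ z, c z = ((∫ z, a z : ℝ) : ℂ) + ((∫ z, b z : ℝ) : ℂ) * Complex.I := by
  simp only [h]
  have ia' : Integrable fun z => ((a z : ℝ) : ℂ) := ia.ofReal
  have ib' : Integrable fun z => ((b z : ℝ) : ℂ) * Complex.I := ib.ofReal.mul_const _
  rw [integral_add ia' ib', integral_mul_const, integral_complex_ofReal, integral_complex_ofReal]

/-- the Wronskian -/
def wr (U W : ℂ → ℝ) (gU gW : ℂ → ℂ) (z : ℂ) : ℂ :=
  ((W z : ℝ) : ℂ) * conj (gU z) - ((U z : ℝ) : ℂ) * conj (gW z)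

/-- its derivative -/
def wr' (gU gW : ℂ → ℂ) (z : ℂ) : ℂ := gW z * conj (gU z) - conj (gW z) * gU z

theorem wr_eq {O : Set ℂ} {U W μ : ℂ → ℝ} {gU gW : ℂ → ℂ} (hO : IsOpen O)
    (WU : Weak O U gU (fun z => μ z * U z)) (WW : Weak O W gW (fun z => μ z * W z))
    (cU : ContinuousOn U O) (cW : ContinuousOn W O) (cμ : ContinuousOn μ O)
    (cgU : ContinuousOn gU O) (cgW : ContinuousOn gW O) {B : Set ℂ} {χ η : ℂ → ℝ}
    (hχ : ContDiff ℝ ∞ χ) (hc : HasCompactSupport χ) (tχ : tsupport χ ⊆ O)
    (hB : IsOpen B) (hBO : B ⊆ O) (h1 : ∀ z ∈ B, χ z = 1)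
    (hη : ContDiff ℝ ∞ η) (hs : HasCompactSupport η) (ht : tsupport η ⊆ B) :
    ∫ z, wr U W gU gW z * dd η z = -∫ z, wr' gU gW z * ((η z : ℝ) : ℂ) := by
  have tO := ht.trans hBO
  have s1 := (smooth_D hη 1).continuous
  have sI := (smooth_D hη Complex.I).continuous
  have k1 := supp_D hs 1
  have kI := supp_D hs Complex.I
  have t1 := (tsupp_D η 1).trans tO
  have tI := (tsupp_D η Complex.I).trans tO
  have cη := hη.continuous
  have rU : ContinuousOn (fun z => (gU z).re) O := Complex.continuous_re.comp_continuousOn cgU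
  have iU : ContinuousOn (fun z => (gU z).im) O := Complex.continuous_im.comp_continuousOn cgU
  have rW : ContinuousOn (fun z => (gW z).re) O := Complex.continuous_re.comp_continuousOn cgW
  have iW : ContinuousOn (fun z => (gW z).im) O := Complex.continuous_im.comp_continuousOn cgW
  have mm : ∀ {f : ℂ → ℝ}, ContinuousOn f O → MemLp f 2 (volume.restrict (tsupport η)) := by
    intro f cf
    obtain ⟨C, hC⟩ := (show IsCompact (tsupport η) from hs).exists_bound_of_continuousOn
      (cf.mono tO)
    have : IsFiniteMeasure (volume.restrict (tsupport η)) := ⟨by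
      rw [Measure.restrict_apply_univ]
      exact (show IsCompact (tsupport η) from hs).measure_lt_top⟩
    refine MemLp.of_bound ((cf.mono tO).aestronglyMeasurable
      (isClosed_tsupport η).measurableSet) C ?_
    rw [ae_restrict_iff' (isClosed_tsupport η).measurableSet]
    exact Filter.Eventually.of_forall hC
  have e1 := energy WU WW hχ hc tχ hO cW hB hBO h1 hη hs ht
  have e2 := energy WW WU hχ hc tχ hO cU hB hBO h1 hη hs ht
  have e3 := energy_gen (mm (f := fun z => -(gU z).im) iU.neg) (mm rU) (mm (continuousOn_const (c := (0 : ℝ))))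
    (curl WU hO cgU) WW hχ hc tχ hO cW hB hBO h1 hη hs ht
  have e4 := energy_gen (mm (f := fun z => -(gW z).im) iW.neg) (mm rW) (mm (continuousOn_const (c := (0 : ℝ))))
    (curl WW hO cgW) WU hχ hc tχ hO cU hB hBO h1 hη hs ht
  -- integrability
  have a1 := icut hO (rU.mul cW) s1 k1 t1
  have a2 := icut hO (iU.mul cW) sI kI tI
  have a3 := icut hO (rW.mul cU) s1 k1 t1
  have a4 := icut hO (iW.mul cU) sI kI tI
  have b1 := icut hO (iU.mul cW) s1 k1 t1
  have b2 := icut hO (rU.mul cW) sI kI tI
  have b3 := icut hO (iW.mul cU) s1 k1 t1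
  have b4 := icut hO (rW.mul cU) sI kI tI
  have d1 := icut hO (rU.mul iW) cη hs tO
  have d2 := icut hO (iU.mul rW) cη hs tO
  -- real part
  have R : ∫ z, ((W z * (gU z).re - U z * (gW z).re) * D 1 η z +
      (W z * (gU z).im - U z * (gW z).im) * D Complex.I η z) = 0 := by
    have f1 : ∫ z, ((W z * (gU z).re - U z * (gW z).re) * D 1 η z +
        (W z * (gU z).im - U z * (gW z).im) * D Complex.I η z) =
        ((∫ z, (gU z).re * (W z * D 1 η z)) + ∫ z, (gU z).im * (W z * D Complex.I η z)) -
        ((∫ z, (gW z).re * (U z * D 1 η z)) + ∫ z, (gW z).im * (U z * D Complex.I η z)) := by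
      have A1 : Integrable fun z => (gU z).re * (W z * D 1 η z) :=
        a1.congr (Filter.Eventually.of_forall fun z => by
          show (gU z).re * W z * D 1 η z = _
          ring)
      have A2 : Integrable fun z => (gU z).im * (W z * D Complex.I η z) :=
        a2.congr (Filter.Eventually.of_forall fun z => by
          show (gU z).im * W z * D Complex.I η z = _
          ring)
      have A3 : Integrable fun z => (gW z).re * (U z * D 1 η z) :=
        a3.congr (Filter.Eventually.of_forall fun z => by
          show (gW z).re * U z * D 1 η z = _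
          ring)
      have A4 : Integrable fun z => (gW z).im * (U z * D Complex.I η z) :=
        a4.congr (Filter.Eventually.of_forall fun z => by
          show (gW z).im * U z * D Complex.I η z = _
          ring)
      have A12 : Integrable fun z => (gU z).re * (W z * D 1 η z) +
        (gU z).im * (W z * D Complex.I η z) := A1.add A2
      have A34 : Integrable fun z => (gW z).re * (U z * D 1 η z) +
        (gW z).im * (U z * D Complex.I η z) := A3.add A4
      rw [← integral_add A1 A2, ← integral_add A3 A4, ← integral_sub A12 A34]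
      congr 1
      funext z
      ring
    have f2 : ∫ z, (gU z).re * η z * (gW z).re = ∫ z, (gW z).re * η z * (gU z).re := by
      congr 1
      funext z
      ring
    have f3 : ∫ z, (gU z).im * η z * (gW z).im = ∫ z, (gW z).im * η z * (gU z).im := by
      congr 1
      funext z
      ring
    have f4 : ∫ z, μ z * U z * (W z * η z) = ∫ z, μ z * W z * (U z * η z) := by
      congr 1
      funext z
      ring
    rw [f1]
    linarith
  -- imaginary part
  have I : ∫ z, ((W z * (gU z).re - U z * (gW z).re) * D Complex.I η z -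
      (W z * (gU z).im - U z * (gW z).im) * D 1 η z) =
      -∫ z, 2 * ((gU z).re * (gW z).im - (gU z).im * (gW z).re) * η z := by
    have f1 : ∫ z, ((W z * (gU z).re - U z * (gW z).re) * D Complex.I η z -
        (W z * (gU z).im - U z * (gW z).im) * D 1 η z) =
        ((∫ z, -(gU z).im * (W z * D 1 η z)) + ∫ z, (gU z).re * (W z * D Complex.I η z)) -
        ((∫ z, -(gW z).im * (U z * D 1 η z)) + ∫ z, (gW z).re * (U z * D Complex.I η z)) := by
      have A1 : Integrable fun z => -(gU z).im * (W z * D 1 η z) :=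
        b1.neg.congr (Filter.Eventually.of_forall fun z => by
          show -((gU z).im * W z * D 1 η z) = _
          ring)
      have A2 : Integrable fun z => (gU z).re * (W z * D Complex.I η z) :=
        b2.congr (Filter.Eventually.of_forall fun z => by
          show (gU z).re * W z * D Complex.I η z = _
          ring)
      have A3 : Integrable fun z => -(gW z).im * (U z * D 1 η z) :=
        b3.neg.congr (Filter.Eventually.of_forall fun z => by
          show -((gW z).im * U z * D 1 η z) = _
          ring)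
      have A4 : Integrable fun z => (gW z).re * (U z * D Complex.I η z) :=
        b4.congr (Filter.Eventually.of_forall fun z => by
          show (gW z).re * U z * D Complex.I η z = _
          ring)
      have A12 : Integrable fun z => -(gU z).im * (W z * D 1 η z) +
        (gU z).re * (W z * D Complex.I η z) := A1.add A2
      have A34 : Integrable fun z => -(gW z).im * (U z * D 1 η z) +
        (gW z).re * (U z * D Complex.I η z) := A3.add A4
      rw [← integral_add A1 A2, ← integral_add A3 A4, ← integral_sub A12 A34]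
      congr 1
      funext z
      ring
    have f2 : ∫ z, 2 * ((gU z).re * (gW z).im - (gU z).im * (gW z).re) * η z =
        ((∫ z, -(gU z).im * η z * (gW z).re) + ∫ z, (gU z).re * η z * (gW z).im) -
        ((∫ z, -(gW z).im * η z * (gU z).re) + ∫ z, (gW z).re * η z * (gU z).im) := by
      have A1 : Integrable fun z => -(gU z).im * η z * (gW z).re :=
        d2.neg.congr (Filter.Eventually.of_forall fun z => by
          show -((gU z).im * (gW z).re * η z) = _
          ring)
      have A2 : Integrable fun z => (gU z).re * η z * (gW z).im :=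
        d1.congr (Filter.Eventually.of_forall fun z => by
          show (gU z).re * (gW z).im * η z = _
          ring)
      have A3 : Integrable fun z => -(gW z).im * η z * (gU z).re :=
        d1.neg.congr (Filter.Eventually.of_forall fun z => by
          show -((gU z).re * (gW z).im * η z) = _
          ring)
      have A4 : Integrable fun z => (gW z).re * η z * (gU z).im :=
        d2.congr (Filter.Eventually.of_forall fun z => by
          show (gU z).im * (gW z).re * η z = _
          ring)
      have A12 : Integrable fun z => -(gU z).im * η z * (gW z).re +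
        (gU z).re * η z * (gW z).im := A1.add A2
      have A34 : Integrable fun z => -(gW z).im * η z * (gU z).re +
        (gW z).re * η z * (gU z).im := A3.add A4
      rw [← integral_add A1 A2, ← integral_add A3 A4, ← integral_sub A12 A34]
      congr 1
      funext z
      ring
    simp only [zero_mul, integral_zero] at e3 e4
    rw [f1, f2]
    linarith
  -- together
  have iR : Integrable fun z => (W z * (gU z).re - U z * (gW z).re) * D 1 η z +
      (W z * (gU z).im - U z * (gW z).im) * D Complex.I η z :=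
    (icut hO ((cW.mul rU).sub (cU.mul rW)) s1 k1 t1).add
      (icut hO ((cW.mul iU).sub (cU.mul iW)) sI kI tI)
  have iI : Integrable fun z => (W z * (gU z).re - U z * (gW z).re) * D Complex.I η z -
      (W z * (gU z).im - U z * (gW z).im) * D 1 η z :=
    (icut hO ((cW.mul rU).sub (cU.mul rW)) sI kI tI).sub
      (icut hO ((cW.mul iU).sub (cU.mul iW)) s1 k1 t1)
  have iF : Integrable fun z => 2 * ((gU z).re * (gW z).im - (gU z).im * (gW z).re) * η z :=
    icut hO (continuousOn_const.mul ((rU.mul iW).sub (iU.mul rW))) cη hs tO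
  rw [cplx_int iR iI (c := fun z => wr U W gU gW z * dd η z) fun z => ?_, R, I,
    cplx_int (integrable_zero ℂ ℝ volume) iF (c := fun z => wr' gU gW z * ((η z : ℝ) : ℂ))
      fun z => ?_]
  · simp
  · unfold wr'
    apply Complex.ext
    · simp
    · simp
      left
      ring
  · unfold wr dd
    apply Complex.ext
    · simp
      ring
    · simp
      ring

end Pool.Agent.H15.UC
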