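import Pool.Agent.H15.UC.Rank3

/-!
# The quotient of two solutions of the `∂`-equation
-/

set_option autoImplicit false

open Set Filter Topology MeasureTheory
open scoped ContDiff ComplexConjugate ENNReal

noncomputable section

namespace Pool.Agent.H15.UC

/-- Mollifications converge uniformly. -/
theorem mo_unif {P : ℂ → ℝ} (cP : Continuous P) (sP : HasCompactSupport P) {ε : ℝ} (hε : 0 < ε) :
    ∀ᶠ n : ℕ in atTop, ∀ x, |mo (ρ n) P x - P x| ≤ ε := by
  have hu : UniformContinuous P := sP.uniformContinuous_of_continuous cP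
  obtain ⟨δ, hδ, h⟩ := Metric.uniformContinuous_iff.mp hu ε hε
  filter_upwards [tendsto_δ.eventually (gt_mem_nhds hδ)] with n hn x
  have h1 := (φ n).dist_normed_convolution_le (μ := volume) (g := P) (x₀ := x) (ε := ε)
    cP.aestronglyMeasurable (fun y hy => by
      refine (h ?_).le
      rw [Metric.mem_ball] at hy
      exact hy.trans hn)
  rw [Real.dist_eq] at h1
  have e : mo (ρ n) P x = convolution ((φ n).normed volume) P (ContinuousLinearMap.lsmul ℝ ℝ)
      volume x := by
    rw [mo_apply, convolution_eq_swap]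
    congr 1
    funext t
    show _ = (ρ n) (x - t) • P t
    rw [smul_eq_mul, mul_comm]
  rw [e]
  exact h1

theorem cplx_split (F : ℂ) (a b : ℝ) : F * ((a : ℂ) + Complex.I * (b : ℂ)) =
    ((F.re * a - F.im * b : ℝ) : ℂ) + ((F.re * b + F.im * a : ℝ) : ℂ) * Complex.I := by
  apply Complex.ext
  · simp
  · simp

theorem ci {f : ℂ → ℝ} {η : ℂ → ℝ} (cf : Continuous f) (cη : Continuous η)
    (kη : HasCompactSupport η) : Integrable fun z => f z * η z :=
  (cf.mul cη).integrable_of_hasCompactSupport kη.mul_left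

/-- the real and imaginary parts of the `∂`-equation -/
theorem parts {F f : ℂ → ℂ} (cF : Continuous F) (cf : Continuous f) {θ : ℂ → ℝ}
    (sθ : ContDiff ℝ ∞ θ) (kθ : HasCompactSupport θ)
    (h : ∫ z, F z * dd θ z = -∫ z, f z * ((θ z : ℝ) : ℂ)) :
    (∫ z, (F z).re * D 1 θ z) - (∫ z, (F z).im * D Complex.I θ z) = -∫ z, (f z).re * θ z ∧
    (∫ z, (F z).re * D Complex.I θ z) + (∫ z, (F z).im * D 1 θ z) = -∫ z, (f z).im * θ z := by
  have rF := Complex.continuous_re.comp cF
  have iF := Complex.continuous_im.comp cF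
  have rf := Complex.continuous_re.comp cf
  have if' := Complex.continuous_im.comp cf
  have c1 := (smooth_D sθ 1).continuous
  have cI := (smooth_D sθ Complex.I).continuous
  have i1 : Integrable fun z => (F z).re * D 1 θ z := ci rF c1 (supp_D kθ 1)
  have i2 : Integrable fun z => (F z).im * D Complex.I θ z := ci iF cI (supp_D kθ _)
  have i3 : Integrable fun z => (F z).re * D Complex.I θ z := ci rF cI (supp_D kθ _)
  have i4 : Integrable fun z => (F z).im * D 1 θ z := ci iF c1 (supp_D kθ 1)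
  have i5 : Integrable fun z => (f z).re * θ z := ci rf sθ.continuous kθ
  have i6 : Integrable fun z => (f z).im * θ z := ci if' sθ.continuous kθ
  have i12 : Integrable fun z => (F z).re * D 1 θ z - (F z).im * D Complex.I θ z := i1.sub i2
  have i34 : Integrable fun z => (F z).re * D Complex.I θ z + (F z).im * D 1 θ z := i3.add i4
  rw [cplx_int (c := fun z => F z * dd θ z) i12 i34 fun z => cplx_split _ _ _,
    cplx_int (c := fun z => f z * ((θ z : ℝ) : ℂ)) i5 i6 fun z => by
      apply Complex.ext <;> simp, integral_sub i1 i2, integral_add i3 i4] at h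
  have h1 := congrArg Complex.re h
  have h2 := congrArg Complex.im h
  simp at h1 h2
  exact ⟨h1, h2⟩

/-- the derivative `∂` of a complex function -/
def dc (Φ : ℂ → ℂ) (z : ℂ) : ℂ := D 1 Φ z + Complex.I * D Complex.I Φ z

theorem D_mk {a b : ℂ → ℝ} (ha : ContDiff ℝ ∞ a) (hb : ContDiff ℝ ∞ b) (v : ℂ) :
    D v (fun z => ((a z : ℝ) : ℂ) + Complex.I * ((b z : ℝ) : ℂ)) =
      fun z => ((D v a z : ℝ) : ℂ) + Complex.I * ((D v b z : ℝ) : ℂ) := by
  rw [D_add (smooth_ofReal ha) (contDiff_const.mul (smooth_ofReal hb)),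
    D_const_mul (smooth_ofReal hb), D_ofReal ha, D_ofReal hb]

/-- smooth approximations -/
theorem approx {z₀ : ℂ} {r : ℝ} (hr : 0 < r) {F f : ℂ → ℂ} (cF : Continuous F)
    (sF : HasCompactSupport F) (cf : Continuous f) (sf : HasCompactSupport f)
    (hE : ∀ θ : ℂ → ℝ, ContDiff ℝ ∞ θ → HasCompactSupport θ → tsupport θ ⊆ Metric.ball z₀ r →
      ∫ z, F z * dd θ z = -∫ z, f z * ((θ z : ℝ) : ℂ)) {ε : ℝ} (hε : 0 < ε) :
    ∃ Φ : ℂ → ℂ, ContDiff ℝ ∞ Φ ∧ ∀ z ∈ Metric.ball z₀ (r / 2),
      ‖Φ z - F z‖ ≤ ε ∧ ‖dc Φ z - f z‖ ≤ ε := by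
  have rF : Continuous fun z => (F z).re := Complex.continuous_re.comp cF
  have iF : Continuous fun z => (F z).im := Complex.continuous_im.comp cF
  have rf : Continuous fun z => (f z).re := Complex.continuous_re.comp cf
  have if' : Continuous fun z => (f z).im := Complex.continuous_im.comp cf
  have krF : HasCompactSupport (fun z => (F z).re) := sF.comp_left (g := Complex.re) rfl
  have kiF : HasCompactSupport (fun z => (F z).im) := sF.comp_left (g := Complex.im) rfl
  have krf : HasCompactSupport (fun z => (f z).re) := sf.comp_left (g := Complex.re) rfl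
  have kif : HasCompactSupport (fun z => (f z).im) := sf.comp_left (g := Complex.im) rfl
  have hε2 : 0 < ε / 2 := by positivity
  have h0 : ∀ᶠ n : ℕ in atTop, 1 / ((n : ℝ) + 1) < r / 2 :=
    tendsto_δ.eventually (gt_mem_nhds (by positivity))
  obtain ⟨n, h1, h2, h3, h4, hn⟩ := ((mo_unif rF krF hε2).and ((mo_unif iF kiF hε2).and
    ((mo_unif rf krf hε2).and ((mo_unif if' kif hε2).and h0)))).exists
  set a := mo (ρ n) (fun z => (F z).re) with ha
  set b := mo (ρ n) (fun z => (F z).im) with hb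
  have sa : ContDiff ℝ ∞ a := mo_smooth (ρ_smooth n) (ρ_supp n) rF.locallyIntegrable
  have sb : ContDiff ℝ ∞ b := mo_smooth (ρ_smooth n) (ρ_supp n) iF.locallyIntegrable
  refine ⟨fun z => ((a z : ℝ) : ℂ) + Complex.I * ((b z : ℝ) : ℂ),
    (smooth_ofReal sa).add (contDiff_const.mul (smooth_ofReal sb)), ?_⟩
  have bd : ∀ (p q : ℝ) (w : ℂ), |p - w.re| ≤ ε / 2 → |q - w.im| ≤ ε / 2 →
      ‖((p : ℝ) : ℂ) + Complex.I * ((q : ℝ) : ℂ) - w‖ ≤ ε := by
    intro p q w hp hq
    refine (Complex.norm_le_abs_re_add_abs_im _).trans ?_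
    have e1 : (((p : ℝ) : ℂ) + Complex.I * ((q : ℝ) : ℂ) - w).re = p - w.re := by simp
    have e2 : (((p : ℝ) : ℂ) + Complex.I * ((q : ℝ) : ℂ) - w).im = q - w.im := by simp
    rw [e1, e2]
    linarith
  intro x hx
  refine ⟨bd _ _ _ (h1 x) (h2 x), ?_⟩
  set ζ : ℂ → ℝ := fun t => ρ n (x - t) with hζ
  have sζ : ContDiff ℝ ∞ ζ := smooth_refl (ρ_smooth n) x
  have dζ : ∀ v t, D v (ρ n) (x - t) = -D v ζ t := by
    intro v t
    have := congrFun (D_refl (ρ_smooth n) x v) t
    rw [this, neg_neg]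
  have tζ : tsupport ζ ⊆ Metric.closedBall x (1 / ((n : ℝ) + 1)) := by
    refine closure_minimal ?_ Metric.isClosed_closedBall
    intro t ht
    have h2 : ρ n (x - t) ≠ 0 := ht
    have h3 := ρ_zero h2
    rw [Metric.mem_closedBall, dist_eq_norm, norm_sub_rev]
    exact h3.le
  have tB : tsupport ζ ⊆ Metric.ball z₀ r := by
    intro t ht
    have h2 := tζ ht
    rw [Metric.mem_closedBall] at h2
    rw [Metric.mem_ball] at hx ⊢
    calc dist t z₀ ≤ dist t x + dist x z₀ := dist_triangle _ _ _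
      _ < r := by linarith
  have cζ : HasCompactSupport ζ := (ρ_supp n).comp_homeomorph (Homeomorph.subLeft x)
  obtain ⟨p1, p2⟩ := parts cF cf sζ cζ (hE ζ sζ cζ tB)
  have Dm : ∀ (v : ℂ) {P : ℂ → ℝ}, Continuous P → D v (mo (ρ n) P) x = -∫ t, P t * D v ζ t := by
    intro v P cP
    rw [D_mo (ρ_smooth n) (ρ_supp n) cP.locallyIntegrable v, mo_apply, ← integral_neg]
    congr 1
    funext t
    rw [dζ]
    ring
  have ed : dc (fun z => ((a z : ℝ) : ℂ) + Complex.I * ((b z : ℝ) : ℂ)) x =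
      ((mo (ρ n) (fun z => (f z).re) x : ℝ) : ℂ) +
        Complex.I * ((mo (ρ n) (fun z => (f z).im) x : ℝ) : ℂ) := by
    unfold dc
    rw [D_mk sa sb, D_mk sa sb]
    have q1 : mo (ρ n) (fun z => (f z).re) x = D 1 a x - D Complex.I b x := by
      rw [Dm 1 rF, Dm Complex.I iF, mo_apply]
      linarith
    have q2 : mo (ρ n) (fun z => (f z).im) x = D Complex.I a x + D 1 b x := by
      rw [Dm 1 iF, Dm Complex.I rF, mo_apply]
      linarith
    rw [q1, q2]
    apply Complex.ext
    · simp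
      ring
    · simp
      ring
  rw [ed]
  exact bd _ _ _ (h3 x) (h4 x)

theorem bddC {E : Type*} [NormedAddCommGroup E] {f : ℂ → E} (cf : Continuous f)
    (sf : HasCompactSupport f) : ∃ C, 0 ≤ C ∧ ∀ z, ‖f z‖ ≤ C := by
  obtain ⟨C, hC⟩ := cf.bounded_above_of_compact_support sf
  exact ⟨C, (norm_nonneg _).trans (hC 0), hC⟩

theorem dd_cont {η : ℂ → ℝ} (sη : ContDiff ℝ ∞ η) : Continuous (dd η) := by
  unfold dd
  exact (Complex.continuous_ofReal.comp (smooth_D sη 1).continuous).add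
    (continuous_const.mul (Complex.continuous_ofReal.comp (smooth_D sη Complex.I).continuous))

theorem dd_zero {η : ℂ → ℝ} {z : ℂ} (hz : z ∉ tsupport η) : dd η z = 0 := by
  unfold dd
  rw [D_zero_of_tsupp hz, D_zero_of_tsupp hz]
  simp

theorem dd_supp {η : ℂ → ℝ} (kη : HasCompactSupport η) : HasCompactSupport (dd η) :=
  HasCompactSupport.intro kη fun _ hz => dd_zero hz

theorem iC {A X : ℂ → ℂ} (cA : Continuous A) (cX : Continuous X) (kX : HasCompactSupport X) :
    Integrable fun z => A z * X z :=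
  (cA.mul cX).integrable_of_hasCompactSupport kX.mul_left

theorem norm3 {x y w : ℂ} {p q s : ℝ} (hx : ‖x‖ ≤ p) (hy : ‖y‖ ≤ q) (hw : ‖w‖ ≤ s) (hp : 0 ≤ p)
    (hq : 0 ≤ q) : ‖x * y * w‖ ≤ p * q * s := by
  rw [norm_mul, norm_mul]
  exact mul_le_mul (mul_le_mul hx hy (norm_nonneg _) hp) hw (norm_nonneg _) (mul_nonneg hp hq)

/-- **the quotient of two solutions of the `∂`-equation** -/
theorem quot {z₀ : ℂ} {r : ℝ} (hr : 0 < r) {F f : ℂ → ℂ} {μ : ℂ → ℝ} (cF : Continuous F)
    (sF : HasCompactSupport F) (cf : Continuous f) (sf : HasCompactSupport f)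
    (cμ : Continuous μ) (sμ : HasCompactSupport μ)
    (ne : ∀ z ∈ Metric.ball z₀ r, F z ≠ 0)
    (hE : ∀ θ : ℂ → ℝ, ContDiff ℝ ∞ θ → HasCompactSupport θ → tsupport θ ⊆ Metric.ball z₀ r →
      ∫ z, F z * dd θ z = -∫ z, f z * ((θ z : ℝ) : ℂ))
    (hH : ∀ θ : ℂ → ℝ, ContDiff ℝ ∞ θ → HasCompactSupport θ → tsupport θ ⊆ Metric.ball z₀ r →
      ∫ z, ((μ z : ℝ) : ℂ) * F z * dd θ z = -∫ z, ((μ z : ℝ) : ℂ) * f z * ((θ z : ℝ) : ℂ))
    {η : ℂ → ℝ} (sη : ContDiff ℝ ∞ η) (kη : HasCompactSupport η)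
    (tη : tsupport η ⊆ Metric.ball z₀ (r / 2)) :
    ∫ z, ((μ z : ℝ) : ℂ) * dd η z = 0 := by
  set K := tsupport η with hK
  have cK : IsCompact K := kη
  have hKr : K ⊆ Metric.ball z₀ r := tη.trans (Metric.ball_subset_ball (by linarith))
  obtain ⟨δ, hδ, hδF⟩ := cK.exists_forall_le' (f := fun z => ‖F z‖) cF.norm.continuousOn
    (a := 0) fun z hz => norm_pos_iff.mpr (ne z (hKr hz))
  obtain ⟨M, hM0, hM⟩ := bddC cμ sμ
  obtain ⟨A, hA0, hA⟩ := bddC cf sf
  obtain ⟨N, hN0, hN⟩ := bddC sη.continuous kη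
  obtain ⟨N', hN'0, hN'⟩ := bddC (dd_cont sη) (dd_supp kη)
  set T0 := N * (2 / δ) with hT0
  have hT00 : 0 ≤ T0 := by positivity
  set C2 := (N' + T0 * (A + 1)) * (2 / δ) with hC2
  have hC20 : 0 ≤ C2 := by positivity
  set V := (volume : Measure ℂ).real K with hV
  have hV0 : 0 ≤ V := measureReal_nonneg
  set C := (M * T0 + M * C2) * V with hC
  set e0 := min 1 (δ / 2) with he0
  have he0p : 0 < e0 := lt_min one_pos (by positivity)
  have cM : Continuous fun z => ((μ z : ℝ) : ℂ) := Complex.continuous_ofReal.comp cμ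
  have main : ∀ ε, 0 < ε → ε ≤ e0 → ‖∫ z, ((μ z : ℝ) : ℂ) * dd η z‖ ≤ ε * C := by
    intro ε hε hεe
    have hε1 : ε ≤ 1 := hεe.trans (min_le_left _ _)
    have hε2 : ε ≤ δ / 2 := hεe.trans (min_le_right _ _)
    obtain ⟨Φ, sΦ, hΦ⟩ := approx hr cF sF cf sf hE hε
    have low : ∀ z ∈ K, δ / 2 ≤ ‖Φ z‖ := by
      intro z hz
      have h1 := hδF z hz
      have h2 := (hΦ z (tη hz)).1
      have h3 : ‖F z‖ ≤ ‖Φ z‖ + ‖Φ z - F z‖ := by
        calc ‖F z‖ = ‖Φ z - (Φ z - F z)‖ := by congr 1; ring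
          _ ≤ _ := norm_sub_le _ _
      have h1' : δ ≤ ‖F z‖ := h1
      linarith
    have hne : ∀ z ∈ K, Φ z ≠ 0 := fun z hz => by
      rw [← norm_pos_iff]
      exact lt_of_lt_of_le (by positivity) (low z hz)
    set T : ℂ → ℂ := fun z => ((η z : ℝ) : ℂ) * (Φ z)⁻¹ with hT
    have T_zero : ∀ z, z ∉ K → T z = 0 := fun z hz => by
      show ((η z : ℝ) : ℂ) * (Φ z)⁻¹ = 0
      rw [zero_of_tsupp hz]
      simp
    have sT : ContDiff ℝ ∞ T := by
      rw [contDiff_iff_contDiffAt]
      intro z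
      by_cases hz : z ∈ K
      · exact (smooth_ofReal sη).contDiffAt.mul (sΦ.contDiffAt.inv (hne z hz))
      · have h2 : T =ᶠ[𝓝 z] fun _ => 0 := by
          filter_upwards [(isClosed_tsupport η).isOpen_compl.mem_nhds hz] with y hy
          exact T_zero y hy
        exact contDiffAt_const.congr_of_eventuallyEq h2
    have hTΦ : (fun z => T z * Φ z) = fun z => ((η z : ℝ) : ℂ) := by
      funext z
      by_cases hz : z ∈ K
      · show ((η z : ℝ) : ℂ) * (Φ z)⁻¹ * Φ z = _
        rw [mul_assoc, inv_mul_cancel₀ (hne z hz), mul_one]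
      · show T z * Φ z = _
        rw [T_zero z hz, zero_of_tsupp hz]
        simp
    have hdd : ∀ z, dd η z = T z * dc Φ z + dc T z * Φ z := by
      intro z
      have h1 : ∀ v, ((D v η z : ℝ) : ℂ) = T z * D v Φ z + D v T z * Φ z := by
        intro v
        have h2 := congrFun (D_mul sT sΦ v) z
        rw [hTΦ, congrFun (D_ofReal sη v) z] at h2
        exact h2
      unfold dd dc
      rw [h1, h1]
      ring
    -- the real and imaginary parts of `T`
    set a : ℂ → ℝ := fun z => (T z).re with ha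
    set b : ℂ → ℝ := fun z => (T z).im with hb
    have sa : ContDiff ℝ ∞ a := Complex.reCLM.contDiff.comp sT
    have sb : ContDiff ℝ ∞ b := Complex.imCLM.contDiff.comp sT
    have Tab : T = fun z => ((a z : ℝ) : ℂ) + Complex.I * ((b z : ℝ) : ℂ) := by
      funext z
      apply Complex.ext <;> simp [ha, hb]
    have ta : tsupport a ⊆ K := by
      refine closure_minimal ?_ (isClosed_tsupport η)
      intro z hz
      by_contra h
      exact hz (by show (T z).re = 0; rw [T_zero z h]; rfl)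
    have tb : tsupport b ⊆ K := by
      refine closure_minimal ?_ (isClosed_tsupport η)
      intro z hz
      by_contra h
      exact hz (by show (T z).im = 0; rw [T_zero z h]; rfl)
    have ka : HasCompactSupport a := cK.of_isClosed_subset (isClosed_tsupport a) ta
    have kb : HasCompactSupport b := cK.of_isClosed_subset (isClosed_tsupport b) tb
    have dcT : ∀ z, dc T z = dd a z + Complex.I * dd b z := by
      intro z
      unfold dc dd
      rw [Tab, congrFun (D_mk sa sb 1) z, congrFun (D_mk sa sb Complex.I) z]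
      ring
    have cdT : Continuous (dc T) := by
      have : dc T = fun z => dd a z + Complex.I * dd b z := funext dcT
      rw [this]
      exact (dd_cont sa).add (continuous_const.mul (dd_cont sb))
    have cdΦ : Continuous (dc Φ) :=
      (smooth_D sΦ 1).continuous.add (continuous_const.mul (smooth_D sΦ Complex.I).continuous)
    have kT : HasCompactSupport T := HasCompactSupport.intro cK T_zero
    have dcT_zero : ∀ z, z ∉ K → dc T z = 0 := fun z hz => by
      rw [dcT, dd_zero (fun h => hz (ta h)), dd_zero (fun h => hz (tb h))]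
      simp
    have kdT : HasCompactSupport (dc T) := HasCompactSupport.intro cK dcT_zero
    -- the equation for `T`
    have eqT : (∫ z, ((μ z : ℝ) : ℂ) * F z * dc T z) + ∫ z, ((μ z : ℝ) : ℂ) * f z * T z = 0 := by
      have e1 := hH a sa ka (ta.trans hKr)
      have e2 := hH b sb kb (tb.trans hKr)
      have j1 : Integrable fun z => ((μ z : ℝ) : ℂ) * F z * dd a z :=
        iC (cM.mul cF) (dd_cont sa) (dd_supp ka)
      have j2 : Integrable fun z => ((μ z : ℝ) : ℂ) * F z * dd b z :=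
        iC (cM.mul cF) (dd_cont sb) (dd_supp kb)
      have ka' : HasCompactSupport fun z => ((a z : ℝ) : ℂ) :=
        ka.comp_left (g := fun x : ℝ => (x : ℂ)) (by simp)
      have kb' : HasCompactSupport fun z => ((b z : ℝ) : ℂ) :=
        kb.comp_left (g := fun x : ℝ => (x : ℂ)) (by simp)
      have j3 : Integrable fun z => ((μ z : ℝ) : ℂ) * f z * ((a z : ℝ) : ℂ) :=
        iC (cM.mul cf) (smooth_ofReal sa).continuous ka'
      have j4 : Integrable fun z => ((μ z : ℝ) : ℂ) * f z * ((b z : ℝ) : ℂ) :=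
        iC (cM.mul cf) (smooth_ofReal sb).continuous kb'
      have f1 : ∫ z, ((μ z : ℝ) : ℂ) * F z * dc T z =
          (∫ z, ((μ z : ℝ) : ℂ) * F z * dd a z) +
            Complex.I * ∫ z, ((μ z : ℝ) : ℂ) * F z * dd b z := by
        rw [← integral_const_mul, ← integral_add j1 (j2.const_mul _)]
        congr 1
        funext z
        rw [dcT]
        ring
      have f2 : ∫ z, ((μ z : ℝ) : ℂ) * f z * T z =
          (∫ z, ((μ z : ℝ) : ℂ) * f z * ((a z : ℝ) : ℂ)) +
            Complex.I * ∫ z, ((μ z : ℝ) : ℂ) * f z * ((b z : ℝ) : ℂ) := by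
        rw [← integral_const_mul, ← integral_add j3 (j4.const_mul _)]
        congr 1
        funext z
        rw [Tab]
        ring
      rw [f1, f2, e1, e2]
      ring
    have j5 : Integrable fun z => ((μ z : ℝ) : ℂ) * F z * dc T z := iC (cM.mul cF) cdT kdT
    have j6 : Integrable fun z => ((μ z : ℝ) : ℂ) * f z * T z := iC (cM.mul cf) sT.continuous kT
    set R : ℂ → ℂ := fun z => ((μ z : ℝ) : ℂ) * (dc Φ z - f z) * T z +
      ((μ z : ℝ) : ℂ) * (Φ z - F z) * dc T z with hR
    have j7 : Integrable R :=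
      (iC (cM.mul (cdΦ.sub cf)) sT.continuous kT).add (iC (cM.mul (sΦ.continuous.sub cF)) cdT kdT)
    have eJ : ∫ z, ((μ z : ℝ) : ℂ) * dd η z = ∫ z, R z := by
      have e1 : ∫ z, ((μ z : ℝ) : ℂ) * dd η z = ∫ z, (R z + (((μ z : ℝ) : ℂ) * F z * dc T z +
          ((μ z : ℝ) : ℂ) * f z * T z)) := by
        congr 1
        funext z
        rw [hdd z]
        show _ = ((μ z : ℝ) : ℂ) * (dc Φ z - f z) * T z +
          ((μ z : ℝ) : ℂ) * (Φ z - F z) * dc T z + _
        ring
      have j56 : Integrable fun z => ((μ z : ℝ) : ℂ) * F z * dc T z +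
          ((μ z : ℝ) : ℂ) * f z * T z := j5.add j6
      rw [e1, integral_add j7 j56, integral_add j5 j6, eqT, add_zero]
    have R_zero : ∀ z, z ∉ K → R z = 0 := fun z hz => by
      show ((μ z : ℝ) : ℂ) * (dc Φ z - f z) * T z +
          ((μ z : ℝ) : ℂ) * (Φ z - F z) * dc T z = 0
      rw [T_zero z hz, dcT_zero z hz]
      ring
    rw [eJ, ← setIntegral_eq_integral_of_forall_compl_eq_zero (s := K) R_zero]
    have bd : ∀ z ∈ K, ‖R z‖ ≤ ε * (M * T0 + M * C2) := by
      intro z hz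
      have l0 := low z hz
      have lp : 0 < ‖Φ z‖ := lt_of_lt_of_le (by positivity) l0
      have hinv : ‖(Φ z)⁻¹‖ ≤ 2 / δ := by
        rw [norm_inv, inv_eq_one_div, div_le_div_iff₀ lp hδ]
        linarith
      have bT : ‖T z‖ ≤ T0 := by
        show ‖((η z : ℝ) : ℂ) * (Φ z)⁻¹‖ ≤ N * (2 / δ)
        rw [norm_mul, Complex.norm_real]
        exact mul_le_mul (hN z) hinv (norm_nonneg _) hN0
      obtain ⟨u1, u2⟩ := hΦ z (tη hz)
      have bdΦ : ‖dc Φ z‖ ≤ A + 1 := by
        calc ‖dc Φ z‖ = ‖(dc Φ z - f z) + f z‖ := by congr 1; ring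
          _ ≤ ‖dc Φ z - f z‖ + ‖f z‖ := norm_add_le _ _
          _ ≤ A + 1 := by linarith [hA z]
      have bdT : ‖dc T z‖ ≤ C2 := by
        have h1 : dc T z = (dd η z - T z * dc Φ z) * (Φ z)⁻¹ := by
          rw [hdd z]
          have := hne z hz
          field_simp
          ring
        rw [h1, norm_mul]
        refine mul_le_mul ?_ hinv (norm_nonneg _) (by positivity)
        refine (norm_sub_le _ _).trans ?_
        rw [norm_mul]
        exact add_le_add (hN' z) (mul_le_mul bT bdΦ (norm_nonneg _) hT00)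
      have bμ : ‖((μ z : ℝ) : ℂ)‖ ≤ M := by
        rw [Complex.norm_real]
        exact hM z
      calc ‖R z‖ ≤ ‖((μ z : ℝ) : ℂ) * (dc Φ z - f z) * T z‖ +
            ‖((μ z : ℝ) : ℂ) * (Φ z - F z) * dc T z‖ := norm_add_le _ _
        _ ≤ M * ε * T0 + M * ε * C2 := by
            exact add_le_add (norm3 bμ u2 bT hM0 hε.le) (norm3 bμ u1 bdT hM0 hε.le)
        _ = ε * (M * T0 + M * C2) := by ring
    have := norm_setIntegral_le_of_norm_le_const (μ := (volume : Measure ℂ)) cK.measure_lt_top bd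
    refine this.trans (le_of_eq ?_)
    rw [hC, hV]
    ring
  -- the limit
  have lim : Tendsto (fun n : ℕ => e0 * (1 / ((n : ℝ) + 1)) * C) atTop (𝓝 0) := by
    have := (tendsto_δ.const_mul e0).mul_const C
    simpa using this
  have h0 : ‖∫ z, ((μ z : ℝ) : ℂ) * dd η z‖ ≤ 0 := by
    refine ge_of_tendsto' lim fun n => main _ (by positivity) ?_
    have h1 : 1 / ((n : ℝ) + 1) ≤ 1 := by
      rw [div_le_one (by positivity)]
      have : (0 : ℝ) ≤ n := Nat.cast_nonneg n
      linarith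
    calc e0 * (1 / ((n : ℝ) + 1)) ≤ e0 * 1 := mul_le_mul_of_nonneg_left h1 he0p.le
      _ = e0 := mul_one _
  exact norm_le_zero_iff.mp h0

end Pool.Agent.H15.UC
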