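import Pool.Agent.H15.UC.Three
import Pool.Agent.H23.UC.Stm8

/-!
# The gradient of a quadratic relation
-/

set_option autoImplicit false

open Set Filter Topology MeasureTheory
open scoped ContDiff ComplexConjugate ENNReal

noncomputable section

namespace Pool.Agent.H15.UC

open Pool.Agent.H23.UC (Weak StRel)

theorem ae_of_local {O : Set ℂ} (hO : IsOpen O) {p : ℂ → Prop}
    (h : ∀ z ∈ O, ∃ r : ℝ, 0 < r ∧ ∀ᵐ y, y ∈ Metric.ball z r → p y) :
    ∀ᵐ y ∂(volume.restrict O), p y := by
  choose! r hr hp using h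
  rw [ae_restrict_iff' hO.measurableSet]
  have h1 : volume {z | z ∈ O ∧ ¬ p z} = 0 := by
    refine measure_null_of_locally_null _ fun z hz => ?_
    refine ⟨{y | y ∈ Metric.ball z (r z) ∧ ¬ p y}, ?_, ?_⟩
    · rw [mem_nhdsWithin]
      refine ⟨Metric.ball z (r z), Metric.isOpen_ball, Metric.mem_ball_self (hr z hz.1), ?_⟩
      rintro y ⟨h1, h2⟩
      exact ⟨h1, h2.2⟩
    · have h2 := hp z hz.1
      rw [ae_iff] at h2
      refine measure_mono_null ?_ h2
      rintro y ⟨h3, h4⟩ h5
      exact h4 (h5 h3)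
  rw [ae_iff]
  refine measure_mono_null ?_ h1
  intro z hz
  simp only [Classical.not_imp, Set.mem_ofPred_eq] at hz
  exact hz

/-- a ball and a cutoff function -/
theorem setup {O : Set ℂ} (hO : IsOpen O) {z₀ : ℂ} (hz : z₀ ∈ O) :
    ∃ (r : ℝ) (χ : ℂ → ℝ), 0 < r ∧ ContDiff ℝ ∞ χ ∧ HasCompactSupport χ ∧ tsupport χ ⊆ O ∧
      Metric.ball z₀ r ⊆ O ∧ ∀ z ∈ Metric.ball z₀ r, χ z = 1 := by
  obtain ⟨ε, hε, hb⟩ := Metric.isOpen_iff.mp hO z₀ hz
  let χ : ContDiffBump z₀ := ⟨ε / 4, ε / 2, by positivity, by linarith⟩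
  refine ⟨ε / 4, fun z => χ z, by positivity, χ.contDiff, χ.hasCompactSupport, ?_, ?_, ?_⟩
  · rw [χ.tsupport_eq]
    refine (Metric.closedBall_subset_ball ?_).trans hb
    show ε / 2 < ε
    linarith
  · exact (Metric.ball_subset_ball (by linarith)).trans hb
  · exact fun z hz => χ.one_of_mem_closedBall (Metric.ball_subset_closedBall hz)

theorem li_mul {O B : Set ℂ} {U w f : ℂ → ℝ} {g : ℂ → ℂ} (W : Weak O U g w)
    (hf : ContinuousOn f O) (hB : IsOpen B) (hBO : B ⊆ O)
    (v : ℂ) : LocallyIntegrableOn (fun z => f z * inner ℝ (g z) v) B := by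
  rw [locallyIntegrableOn_iff hB.isLocallyClosed]
  intro K hK cK
  have : IsFiniteMeasure (volume.restrict K) := ⟨by
    rw [Measure.restrict_apply_univ]; exact cK.measure_lt_top⟩
  have h1 : IntegrableOn (fun z => inner ℝ (g z) v) K :=
    (mem_inner (W.mg _ (hK.trans hBO) cK) v).integrable (by norm_num)
  exact h1.continuousOn_mul (hf.mono (hK.trans hBO)) cK

/-- the weak gradient of a product, tested -/
theorem prod_rule {O B : Set ℂ} {U₁ w₁ U₂ w₂ χ η : ℂ → ℝ} {g₁ g₂ : ℂ → ℂ}
    (W₁ : Weak O U₁ g₁ w₁) (W₂ : Weak O U₂ g₂ w₂) (c₁ : ContinuousOn U₁ O)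
    (c₂ : ContinuousOn U₂ O) (hχ : ContDiff ℝ ∞ χ)
    (hc : HasCompactSupport χ) (hO : tsupport χ ⊆ O) (oO : IsOpen O)
    (hB : IsOpen B) (hBO : B ⊆ O) (h1 : ∀ z ∈ B, χ z = 1)
    (hη : ContDiff ℝ ∞ η) (hs : HasCompactSupport η) (ht : tsupport η ⊆ B) (v : ℂ) :
    Integrable (fun z => η z * (U₁ z * inner ℝ (g₂ z) v + U₂ z * inner ℝ (g₁ z) v)) ∧
    Integrable (fun z => U₁ z * U₂ z * D v η z) ∧
    ∫ z, η z * (U₁ z * inner ℝ (g₂ z) v + U₂ z * inner ℝ (g₁ z) v) =
      -∫ z, U₁ z * U₂ z * D v η z := by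
  have hKO : tsupport η ⊆ O := ht.trans hBO
  have cη := hη.continuous
  have i1 : Integrable (fun z => inner ℝ (g₂ z) v * (U₁ z * η z)) :=
    int_K hs (mem_inner (W₂.mg _ hKO hs) v) (cont_cut (U₂ := U₁) hKO oO c₁ cη) fun z h => by
      rw [zero_of_tsupp h, mul_zero]
  have i2 : Integrable (fun z => inner ℝ (g₁ z) v * (U₂ z * η z)) :=
    int_K hs (mem_inner (W₁.mg _ hKO hs) v) (cont_cut (U₂ := U₂) hKO oO c₂ cη) fun z h => by
      rw [zero_of_tsupp h, mul_zero]
  have t' : tsupport (D v η) ⊆ O := (tsupp_D η v).trans hKO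
  have i3 : Integrable (fun z => U₁ z * (U₂ z * D v η z)) :=
    int_K hs (W₁.mU _ hKO hs) (cont_cut (U₂ := U₂) t' oO c₂ (smooth_D hη v).continuous)
      fun z h => by rw [D_zero_of_tsupp h, mul_zero]
  refine ⟨(i1.add i2).congr (Filter.Eventually.of_forall fun z => ?_),
    i3.congr (Filter.Eventually.of_forall fun z => ?_), ?_⟩
  · show inner ℝ (g₂ z) v * (U₁ z * η z) + inner ℝ (g₁ z) v * (U₂ z * η z) = _
    ring
  · show U₁ z * (U₂ z * D v η z) = _
    ring
  · have h := chain W₁ W₂ hχ hc hO oO c₂ hB hBO h1 hη hs ht (F := fun x => x) contDiff_id v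
    have e : ∀ z, U₁ z * (deriv (fun x : ℝ => x) (U₂ z) * η z) * inner ℝ (g₂ z) v =
        inner ℝ (g₂ z) v * (U₁ z * η z) := by
      intro z
      rw [deriv_id'']
      ring
    simp only [e] at h
    have e2 : ∫ z, η z * (U₁ z * inner ℝ (g₂ z) v + U₂ z * inner ℝ (g₁ z) v) =
        (∫ z, inner ℝ (g₂ z) v * (U₁ z * η z)) + ∫ z, inner ℝ (g₁ z) v * (U₂ z * η z) := by
      rw [← integral_add i1 i2]
      congr 1
      funext z
      ring
    have e3 : ∫ z, U₁ z * U₂ z * D v η z = ∫ z, U₁ z * (U₂ z * D v η z) := by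
      congr 1
      funext z
      ring
    rw [e2, e3]
    linarith

/-- `LR-REL` -/
theorem stRel : StRel := by
  intro m O u g w q hO cu hW hq
  refine ae_of_local hO fun z₀ hz₀ => ?_
  obtain ⟨r, χ, hr, sχ, kχ, tχ, hBO, one⟩ := setup hO hz₀
  refine ⟨r, hr, ?_⟩
  set B := Metric.ball z₀ r
  have oB : IsOpen B := Metric.isOpen_ball
  have dir : ∀ v : ℂ, ∀ᵐ z, z ∈ B → ∑ i, ∑ j, q i j * (u i z * inner ℝ (g j z) v +
      u j z * inner ℝ (g i z) v) = 0 := by
    intro v
    refine oB.ae_eq_zero_of_integral_contDiff_smul_eq_zero ?_ ?_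
    · rw [locallyIntegrableOn_iff oB.isLocallyClosed]
      intro K hK cK
      refine integrable_finsetSum _ fun i _ => integrable_finsetSum _ fun j _ => ?_
      have h1 := (locallyIntegrableOn_iff oB.isLocallyClosed).mp
        (li_mul (hW j) (cu i) oB hBO v) K hK cK
      have h2 := (locallyIntegrableOn_iff oB.isLocallyClosed).mp
        (li_mul (hW i) (cu j) oB hBO v) K hK cK
      exact (h1.add h2).const_mul _
    · intro η sη kη tη
      have pr := fun i j => prod_rule (hW i) (hW j) (cu i) (cu j) sχ kχ tχ hO oB hBO one sη kη tη v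
      have e1 : ∀ z, η z • ∑ i, ∑ j, q i j * (u i z * inner ℝ (g j z) v +
          u j z * inner ℝ (g i z) v) = ∑ i, ∑ j, q i j * (η z * (u i z * inner ℝ (g j z) v +
          u j z * inner ℝ (g i z) v)) := by
        intro z
        rw [smul_eq_mul, Finset.mul_sum]
        refine Finset.sum_congr rfl fun i _ => ?_
        rw [Finset.mul_sum]
        refine Finset.sum_congr rfl fun j _ => ?_
        ring
      simp only [e1]
      rw [integral_finsetSum _ fun i _ => integrable_finsetSum _ fun j _ =>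
        (pr i j).1.const_mul _]
      have e2 : ∀ i, ∫ z, ∑ j, q i j * (η z * (u i z * inner ℝ (g j z) v +
          u j z * inner ℝ (g i z) v)) = ∑ j, q i j * -∫ z, u i z * u j z * D v η z := by
        intro i
        rw [integral_finsetSum _ fun j _ => (pr i j).1.const_mul _]
        refine Finset.sum_congr rfl fun j _ => ?_
        rw [integral_const_mul, (pr i j).2.2]
      simp only [e2]
      have e3 : ∑ i, ∑ j, q i j * -∫ z, u i z * u j z * D v η z =
          -∫ z, ∑ i, ∑ j, q i j * (u i z * u j z * D v η z) := by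
        rw [integral_finsetSum _ fun i _ => integrable_finsetSum _ fun j _ =>
          (pr i j).2.1.const_mul _, ← Finset.sum_neg_distrib]
        refine Finset.sum_congr rfl fun i _ => ?_
        rw [integral_finsetSum _ fun j _ => (pr i j).2.1.const_mul _, ← Finset.sum_neg_distrib]
        refine Finset.sum_congr rfl fun j _ => ?_
        rw [integral_const_mul]
        ring
      rw [e3, neg_eq_zero, ← integral_zero ℂ ℝ]
      congr 1
      funext z
      by_cases hz : z ∈ tsupport η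
      · have h1 := hq z (hBO (tη hz))
        have e4 : ∑ i, ∑ j, q i j * (u i z * u j z * D v η z) =
            (∑ i, ∑ j, q i j * (u i z * u j z)) * D v η z := by
          rw [Finset.sum_mul]
          refine Finset.sum_congr rfl fun i _ => ?_
          rw [Finset.sum_mul]
          refine Finset.sum_congr rfl fun j _ => ?_
          ring
        rw [e4, h1, zero_mul]
      · refine Finset.sum_eq_zero fun i _ => Finset.sum_eq_zero fun j _ => ?_
        rw [D_zero_of_tsupp hz]
        ring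
  have in1 : ∀ z : ℂ, inner ℝ z (1 : ℂ) = z.re := by intro z; rw [Complex.inner]; simp
  have inI : ∀ z : ℂ, inner ℝ z Complex.I = z.im := by intro z; rw [Complex.inner]; simp
  filter_upwards [dir 1, dir Complex.I] with z h1 hI hz
  have q1 := h1 hz
  have qI := hI hz
  simp only [in1] at q1
  simp only [inI] at qI
  apply Complex.ext
  · simpa using q1
  · simpa using qI

end Pool.Agent.H15.UC
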